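import Pool.Agent.Work.MP_8826fd_mp.CD.Stmts

/-!
# Block [8826fd CD], item A2: the second coefficient vanishes at a maximum of the conformal radius (helper49)
-/

set_option autoImplicit false

namespace Pool.Agent.MFK.CD

open MeasureTheory Set Filter Topology Pool.Agent.MFK.NF

namespace IA2

/-- the power series with coefficients `a` -/
noncomputable def ps (a : ℕ → ℂ) : FormalMultilinearSeries ℂ ℂ ℂ :=
  fun n => ContinuousMultilinearMap.mkPiRing ℂ (Fin n) (a n)

theorem ps_app (a : ℕ → ℂ) (n : ℕ) (y : ℂ) : (ps a n fun _ => y) = a n * y ^ n := by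
  simp [ps, mul_comm]

theorem hasPS {F : ℂ → ℂ} {a : ℕ → ℂ} (h : Hol F a) : HasFPowerSeriesOnBall F (ps a) 0 1 := by
  refine ⟨?_, one_pos, ?_⟩
  · refine ENNReal.le_of_forall_nnreal_lt (fun r hr => ?_)
    refine (ps a).le_radius_of_summable ?_
    have hr1 : (r : ℝ) < 1 := by
      have : r < 1 := by exact_mod_cast hr
      exact_mod_cast this
    have hb : ((r : ℝ) : ℂ) ∈ Metric.ball (0 : ℂ) 1 := by
      rw [mem_ball_zero_iff, Complex.norm_real, Real.norm_of_nonneg r.coe_nonneg]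
      exact hr1
    have h1 := (h.ser _ hb).summable.norm
    refine h1.congr (fun n => ?_)
    rw [norm_mul, norm_pow, Complex.norm_real, Real.norm_of_nonneg r.coe_nonneg]
    congr 1
    simp [ps]
  · intro y hy
    have hy' : y ∈ Metric.ball (0 : ℂ) 1 := by
      rw [mem_ball_zero_iff]
      rw [Metric.mem_eball, edist_zero_right, ← ofReal_norm, ENNReal.ofReal_lt_one] at hy
      exact hy
    have h1 := h.ser y hy'
    rw [zero_add]
    refine h1.congr_fun (fun n => ?_)
    rw [ps_app]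

theorem itd {F : ℂ → ℂ} {a : ℕ → ℂ} (h : Hol F a) (n : ℕ) :
    iteratedDeriv n F 0 = (n.factorial : ℂ) * a n := by
  have h1 := (hasPS h).factorial_smul (1 : ℂ) n
  rw [ps_app, one_pow, mul_one] at h1
  rw [iteratedDeriv_eq_iteratedFDeriv, ← h1, nsmul_eq_mul]

end IA2

open IA2 in
theorem pr_A2 : StA2 := by
  intro F a s hH hs hd hle
  have h0 : (0 : ℂ) ∈ Metric.ball (0 : ℂ) 1 := Metric.mem_ball_self one_pos
  have ha1 : a 1 = (s : ℂ) := by
    have h1 := itd hH 1
    rw [iteratedDeriv_one, hd, Nat.factorial_one, Nat.cast_one, one_mul] at h1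
    exact h1.symm
  refine ⟨ha1, ?_⟩
  have h2 : deriv (deriv F) 0 = 2 * a 2 := by
    have h1 := itd hH 2
    rw [iteratedDeriv_succ, iteratedDeriv_one] at h1
    rw [h1]
    norm_num [Nat.factorial]
  have hdd : HasDerivAt (deriv F) (2 * a 2) 0 := by
    rw [← h2]
    exact ((hH.Fd.deriv Metric.isOpen_ball).differentiableAt
      (Metric.isOpen_ball.mem_nhds h0)).hasDerivAt
  have key : ∀ η : ℂ, ‖η‖ = 1 → (2 * a 2 * η).re = 0 := by
    intro η hη
    have h3 : HasDerivAt (fun z : ℂ => deriv F (z * η)) (2 * a 2 * η) ((0 : ℝ) : ℂ) := by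
      have h4 : HasDerivAt (fun z : ℂ => z * η) η ((0 : ℝ) : ℂ) := by
        simpa using (hasDerivAt_id ((0 : ℝ) : ℂ)).mul_const η
      have h5 : HasDerivAt (deriv F) (2 * a 2) (((0 : ℝ) : ℂ) * η) := by
        simpa using hdd
      exact HasDerivAt.comp ((0 : ℝ) : ℂ) h5 h4
    have h4 := h3.real_of_complex
    have h5 : HasDerivAt (fun t : ℝ => (deriv F ((t : ℂ) * η)).re * (1 - t ^ 2)) ((2 * a 2 * η).re) 0 := by
      have h6 : HasDerivAt (fun t : ℝ => 1 - t ^ 2) (-(2 * (0 : ℝ) ^ 1)) 0 := by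
        have := (hasDerivAt_pow 2 (0 : ℝ)).const_sub 1
        simpa using this
      have h7 := h4.mul h6
      have h8 : (2 * a 2 * η).re * (1 - (0 : ℝ) ^ 2) + (deriv F (((0 : ℝ) : ℂ) * η)).re * -(2 * (0 : ℝ) ^ 1)
          = (2 * a 2 * η).re := by ring
      rw [h8] at h7
      exact h7
    have h6 : IsLocalMax (fun t : ℝ => (deriv F ((t : ℂ) * η)).re * (1 - t ^ 2)) 0 := by
      have h7 : Ioo (-1 : ℝ) 1 ∈ 𝓝 (0 : ℝ) := Ioo_mem_nhds (by norm_num) (by norm_num)
      filter_upwards [h7] with t ht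
      have h8 : |t| < 1 := abs_lt.2 ht
      have h9 : ‖(t : ℂ) * η‖ = |t| := by
        rw [norm_mul, hη, mul_one, Complex.norm_real, Real.norm_eq_abs]
      have h10 : (t : ℂ) * η ∈ Metric.ball (0 : ℂ) 1 := by
        rw [mem_ball_zero_iff, h9]
        exact h8
      have h11 := hle _ h10
      rw [h9, sq_abs] at h11
      have h12 : 0 ≤ 1 - t ^ 2 := by
        nlinarith [sq_abs t, abs_nonneg t]
      have h13 : (deriv F ((t : ℂ) * η)).re * (1 - t ^ 2) ≤ ‖deriv F ((t : ℂ) * η)‖ * (1 - t ^ 2) :=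
        mul_le_mul_of_nonneg_right (Complex.re_le_norm _) h12
      have h14 : (deriv F (((0 : ℝ) : ℂ) * η)).re * (1 - (0 : ℝ) ^ 2) = s := by
        rw [Complex.ofReal_zero, zero_mul, hd, Complex.ofReal_re]
        ring
      rw [h14]
      exact h13.trans h11
    exact h6.hasDerivAt_eq_zero h5
  have k1 := key 1 norm_one
  have k2 := key Complex.I Complex.norm_I
  rw [mul_one] at k1
  have k3 : (2 * a 2).im = 0 := by
    simpa using k2
  have k4 : (2 : ℂ) * a 2 = 0 := Complex.ext k1 k3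
  exact (mul_eq_zero.1 k4).resolve_left two_ne_zero

end Pool.Agent.MFK.CD
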