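import Pool.Agent.Work.MP_8826fd_mp.CD.Stmts

/-!
# MP_8826fd_mp, block CD, item Ang (helper48)

Finite sums of exponentials.
-/

set_option autoImplicit false

namespace Pool.Agent.MFK.CD

open MeasureTheory Set Filter Topology Pool.Agent.MFK.NF

namespace IAng

theorem ex_cont (l : ℤ) : Continuous (ex l) := by
  unfold ex
  fun_prop

theorem ex_norm (l : ℤ) (θ : ℝ) : ‖ex l θ‖ = 1 := by
  unfold ex
  have : Complex.I * (l : ℂ) * (θ : ℂ) = ((l * θ : ℝ) : ℂ) * Complex.I := by push_cast; ring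
  rw [this, Complex.norm_exp_ofReal_mul_I]

theorem ex_conj (l : ℤ) (θ : ℝ) : (starRingEnd ℂ) (ex l θ) = ex (-l) θ := by
  unfold ex
  rw [← Complex.exp_conj]
  congr 1
  simp

theorem ex_mul (k l : ℤ) (θ : ℝ) : ex k θ * ex l θ = ex (k + l) θ := by
  unfold ex
  rw [← Complex.exp_add]
  congr 1
  push_cast
  ring

theorem ex_int (l : ℤ) : (∫ θ in (0 : ℝ)..(2 * Real.pi), ex l θ) = if l = 0 then (2 * Real.pi : ℂ) else 0 := by
  split_ifs with h
  · subst h
    simp [ex]
  · have hc : (Complex.I * (l : ℂ)) ≠ 0 := by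
      simp [h]
    unfold ex
    rw [integral_exp_mul_complex hc]
    have h1 : Complex.exp (Complex.I * (l : ℂ) * ((2 * Real.pi : ℝ) : ℂ)) = 1 := by
      rw [Complex.exp_eq_one_iff]
      exact ⟨l, by push_cast; ring⟩
    rw [h1]
    simp

theorem parseval {ι : Type*} [DecidableEq ι] (s : Finset ι) (c : ι → ℂ) (f : ι → ℤ) (hf : Set.InjOn f (s : Set ι)) :
    (∫ θ in (0 : ℝ)..(2 * Real.pi), ‖∑ i ∈ s, c i * ex (f i) θ‖ ^ 2) = 2 * Real.pi * ∑ i ∈ s, ‖c i‖ ^ 2 := by
  have hpt : ∀ θ : ℝ, ((‖∑ i ∈ s, c i * ex (f i) θ‖ ^ 2 : ℝ) : ℂ)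
      = ∑ i ∈ s, ∑ j ∈ s, ((starRingEnd ℂ) (c i) * c j) * ex (f j - f i) θ := by
    intro θ
    rw [Complex.ofReal_pow, ← Complex.conj_mul', map_sum, Finset.sum_mul_sum]
    refine Finset.sum_congr rfl fun i _ => Finset.sum_congr rfl fun j _ => ?_
    rw [map_mul, ex_conj]
    have : ex (f j - f i) θ = ex (-f i) θ * ex (f j) θ := by
      rw [ex_mul]; congr 1; ring
    rw [this]
    ring
  have hC : (((∫ θ in (0 : ℝ)..(2 * Real.pi), ‖∑ i ∈ s, c i * ex (f i) θ‖ ^ 2) : ℝ) : ℂ)
      = ((2 * Real.pi * ∑ i ∈ s, ‖c i‖ ^ 2 : ℝ) : ℂ) := by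
    rw [← intervalIntegral.integral_ofReal]
    simp_rw [hpt]
    rw [intervalIntegral.integral_finsetSum]
    · have h2 : ∀ i ∈ s, (∫ θ in (0 : ℝ)..(2 * Real.pi), ∑ j ∈ s, ((starRingEnd ℂ) (c i) * c j) * ex (f j - f i) θ)
          = ((‖c i‖ ^ 2 : ℝ) : ℂ) * (2 * Real.pi) := by
        intro i hi
        rw [intervalIntegral.integral_finsetSum]
        · rw [Finset.sum_eq_single i]
          · rw [intervalIntegral.integral_const_mul, ex_int, if_pos (by ring), Complex.conj_mul',
              Complex.ofReal_pow]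
          · intro j hj hji
            rw [intervalIntegral.integral_const_mul, ex_int, if_neg, mul_zero]
            intro h0
            exact hji (hf hj hi (by linarith))
          · intro h; exact absurd hi h
        · intro j _
          exact ((ex_cont _).const_smul ((starRingEnd ℂ) (c i) * c j)).intervalIntegrable _ _
      rw [Finset.sum_congr rfl h2, ← Finset.sum_mul]
      push_cast
      ring
    · intro i _
      refine Continuous.intervalIntegrable ?_ _ _
      exact continuous_finsetSum _ fun j _ => continuous_const.mul (ex_cont _)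
  exact_mod_cast hC

end IAng

open IAng in
theorem pr_Ang : StAng := by
  intro m N a g p x y u v
  have hexm : ∀ θ : ℝ, ex (m : ℤ) θ = ex m θ := fun θ => rfl
  refine ⟨?_, ex_cont _, ?_, ?_⟩
  · unfold lin
    refine continuous_finsetSum _ fun n _ => ?_
    exact (continuous_const.mul (ex_cont _)).add (continuous_const.mul (ex_cont _))
  · let s : Finset (Option (ℕ ⊕ ℕ)) := Finset.insertNone ((Finset.Icc 2 N).disjSum (Finset.Icc 2 N))
    let c : Option (ℕ ⊕ ℕ) → ℂ := fun o => match o with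
      | none => (g : ℂ)
      | some (Sum.inl n) => a (n + 1) * (x n : ℂ)
      | some (Sum.inr n) => (starRingEnd ℂ) (a (n + 1)) * (y n : ℂ)
    let f : Option (ℕ ⊕ ℕ) → ℤ := fun o => match o with
      | none => (m : ℤ)
      | some (Sum.inl n) => (m : ℤ) + n
      | some (Sum.inr n) => (m : ℤ) - n
    have hf : Set.InjOn f (s : Set (Option (ℕ ⊕ ℕ))) := by
      intro i hi j hj hij
      rcases i with _ | i | i <;> rcases j with _ | j | j <;>
        simp [s, f] at hi hj hij ⊢ <;> omega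
    have h := parseval s c f hf
    have e1 : ∀ θ : ℝ, (g : ℂ) * ex m θ + lin m N a x y θ = ∑ i ∈ s, c i * ex (f i) θ := by
      intro θ
      simp only [s, Finset.sum_insertNone, Finset.sum_disjSum, c, f, lin, Finset.sum_add_distrib]
    have e2 : ∑ i ∈ s, ‖c i‖ ^ 2 = g ^ 2 + ∑ n ∈ Finset.Icc 2 N, ‖a (n + 1)‖ ^ 2 * (x n ^ 2 + y n ^ 2) := by
      simp only [s, Finset.sum_insertNone, Finset.sum_disjSum, c, norm_mul, Complex.norm_real, Real.norm_eq_abs,
        mul_pow, sq_abs, RCLike.norm_conj, ← Finset.sum_add_distrib, mul_add]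
    simp_rw [e1]
    rw [h, e2]
  · intro θ
    have hA : ∀ n : ℕ, ex ((m : ℤ) + n) θ = ex m θ * ex n θ := fun n => (ex_mul _ _ _).symm
    have hB : ∀ n : ℕ, ex ((m : ℤ) - n) θ = ex m θ * (starRingEnd ℂ) (ex n θ) := by
      intro n
      rw [ex_conj, ex_mul]; rfl
    have h1 : (starRingEnd ℂ) (ex m θ) * ex m θ = 1 := by
      rw [Complex.conj_mul', ex_norm]; simp
    have hlin : ∀ x y : ℕ → ℝ, lin m N a x y θ = ex m θ * ∑ n ∈ Finset.Icc 2 N,
        ((x n : ℂ) * (a (n + 1) * ex n θ) + (y n : ℂ) * (starRingEnd ℂ) (a (n + 1) * ex n θ)) := by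
      intro x y
      unfold lin
      rw [Finset.mul_sum]
      refine Finset.sum_congr rfl fun n _ => ?_
      rw [hA, hB, map_mul]
      ring
    have hre : ∀ x y : ℕ → ℝ, (∑ n ∈ Finset.Icc 2 N,
        ((x n : ℂ) * (a (n + 1) * ex n θ) + (y n : ℂ) * (starRingEnd ℂ) (a (n + 1) * ex n θ))).re
        = ∑ n ∈ Finset.Icc 2 N, (x n + y n) * Rn a n θ := by
      intro x y
      rw [Complex.re_sum]
      refine Finset.sum_congr rfl fun n _ => ?_
      rw [Complex.add_re, Complex.re_ofReal_mul, Complex.re_ofReal_mul, Complex.conj_re]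
      unfold Rn
      ring
    refine ⟨?_, ?_, ?_, ex_norm _ _⟩
    · rw [hlin x y, hlin u v]
      set X := ∑ n ∈ Finset.Icc 2 N,
        ((x n : ℂ) * (a (n + 1) * ex n θ) + (y n : ℂ) * (starRingEnd ℂ) (a (n + 1) * ex n θ)) with hX
      set U := ∑ n ∈ Finset.Icc 2 N,
        ((u n : ℂ) * (a (n + 1) * ex n θ) + (v n : ℂ) * (starRingEnd ℂ) (a (n + 1) * ex n θ)) with hU
      have e : (starRingEnd ℂ) (Complex.I * ((p * g : ℝ) : ℂ) * ex m θ) * (ex m θ * X)
          + (starRingEnd ℂ) (Complex.I * (ex m θ * U)) * ((g : ℂ) * ex m θ)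
          = -(Complex.I * (((p * g : ℝ) : ℂ) * X + (g : ℂ) * (starRingEnd ℂ) U)) := by
        simp only [map_mul, Complex.conj_I, Complex.conj_ofReal]
        linear_combination (-(Complex.I * (((p * g : ℝ) : ℂ) * X + (g : ℂ) * (starRingEnd ℂ) U))) * h1
      rw [e, Complex.neg_im, Complex.I_mul_im, Complex.add_re, Complex.re_ofReal_mul, Complex.re_ofReal_mul,
        Complex.conj_re, hX, hU, hre x y, hre u v, Finset.mul_sum, Finset.mul_sum, ← Finset.sum_add_distrib]
      congr 1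
      refine Finset.sum_congr rfl fun n _ => ?_
      ring
    · rw [hlin x y]
      set X := ∑ n ∈ Finset.Icc 2 N,
        ((x n : ℂ) * (a (n + 1) * ex n θ) + (y n : ℂ) * (starRingEnd ℂ) (a (n + 1) * ex n θ)) with hX
      have e : (starRingEnd ℂ) ((g : ℂ) * ex m θ) * (ex m θ * X) = (g : ℂ) * X := by
        simp only [map_mul, Complex.conj_ofReal]
        linear_combination ((g : ℂ) * X) * h1
      rw [e, Complex.re_ofReal_mul, hX, hre x y, Finset.mul_sum]
      refine Finset.sum_congr rfl fun n _ => ?_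
      ring
    · unfold lin
      refine (norm_sum_le _ _).trans (Finset.sum_le_sum fun n _ => ?_)
      refine (norm_add_le _ _).trans (le_of_eq ?_)
      simp only [norm_mul, Complex.norm_real, Real.norm_eq_abs, RCLike.norm_conj, ex_norm]
      ring

end Pool.Agent.MFK.CD
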