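import Pool.Agent.Work.MP_8826fd_mp.CD.Stmts
import Pool.Agent.Work.MP_8826fd_mp.NF.I_Area
import Pool.Agent.Work.MP_8826fd_mp.NF.I_F1

/-!
# MP_8826fd_mp, block CD, item Area2: the area of the image in terms of the Taylor coefficients
-/

set_option autoImplicit false

namespace Pool.Agent.MFK.CD

open MeasureTheory Set Filter Topology Pool.Agent.MFK.NF

theorem pr_Area2 (h : StPC2) : StArea2 := by
  intro Ω f F a hM
  have hH : Hol F a := hM.toHol
  have h2 : StF1 := pr_F1
  have e0 := h Ω f F a (fun _ => 1) hM aemeasurable_const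
  rw [setLIntegral_one] at e0
  rw [e0]
  have e1 : (∫⁻ r in Ioo (0 : ℝ) 1, ∫⁻ θ in Ioo (0 : ℝ) (2 * Real.pi),
      ENNReal.ofReal (r * ‖deriv F (pc r θ)‖ ^ 2) * 1) =
      ∫⁻ r in Ioo (0 : ℝ) 1, ∑' j : ℕ,
        ENNReal.ofReal Real.pi * ENNReal.ofReal (cc a j * (2 * j * r ^ (2 * j - 1))) := by
    refine setLIntegral_congr_fun measurableSet_Ioo fun r hr => ?_
    simp only [mul_one]
    rw [IArea.lint h2 hH hr, ENNReal.ofReal_mul Real.pi_pos.le, ENNReal.tsum_mul_left]
    congr 1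
    unfold Aad
    refine ENNReal.ofReal_tsum_of_nonneg (fun j => ?_) (IArea.Aad_summable h2 hH hr)
    have h3 := IArea.cc_nonneg a j
    have h4 := hr.1
    positivity
  rw [e1, lintegral_tsum (fun j => by fun_prop), ← ENNReal.tsum_mul_left]
  refine tsum_congr fun j => ?_
  rw [lintegral_const_mul' _ _ ENNReal.ofReal_ne_top, IArea.lint_pow j (cc a j) (IArea.cc_nonneg a j)]
  intro hj
  subst hj
  simp [cc]

end Pool.Agent.MFK.CD
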