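import Pool.Agent.Work.MP_8826fd_mp.CD.Stmts
import Pool.Agent.Work.MP_8826fd_mp.NF.I_F2
import Pool.Agent.Work.MP_8826fd_mp.NF.I_Var
import Pool.Agent.Work.MP_8826fd_mp.NF.I_Gau
import Pool.Agent.Work.MP_8826fd_mp.NF.I_Area
import Pool.Agent.Work.MP_8826fd_mp.NF.I_En

/-!
# MP_8826fd_mp, block CD, item BI: integrals over `r`
-/

set_option autoImplicit false

namespace Pool.Agent.MFK.CD

open MeasureTheory Set Filter Topology Pool.Agent.MFK.NF

namespace IBI

lemma cc_nonneg (a : ℕ → ℂ) (j : ℕ) : 0 ≤ cc a j := by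
  unfold cc
  positivity

/-- termwise integration of a series of powers with nonnegative coefficients -/
lemma ser_int (c : ℕ → ℝ) (hc : ∀ j, 0 ≤ c j) (p : ℕ → ℕ) (S : ℝ)
    (hS : HasSum (fun j => c j / (p j + 1)) S) :
    IntegrableOn (fun r : ℝ => ∑' j, c j * r ^ (p j)) (Ioo 0 1) ∧
      (∫ r in Ioo (0 : ℝ) 1, ∑' j, c j * r ^ (p j)) = S := by
  have hm : ∀ j, Measurable (fun r : ℝ => ENNReal.ofReal (c j * r ^ (p j))) := fun j => by fun_prop
  have hM : Measurable (fun r : ℝ => ∑' j, ENNReal.ofReal (c j * r ^ (p j))) := Measurable.tsum hm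
  have hL : (∫⁻ r in Ioo (0 : ℝ) 1, ∑' j, ENNReal.ofReal (c j * r ^ (p j))) = ENNReal.ofReal S := by
    rw [lintegral_tsum fun j => (hm j).aemeasurable]
    have : ∀ j, (∫⁻ r in Ioo (0 : ℝ) 1, ENNReal.ofReal (c j * r ^ (p j)))
        = ENNReal.ofReal (c j / (p j + 1)) := fun j => IVar.lint_pow _ (hc j) _
    rw [tsum_congr this, ← ENNReal.ofReal_tsum_of_nonneg
      (fun j => div_nonneg (hc j) (by positivity)) hS.summable, hS.tsum_eq]
  have hne : (∫⁻ r in Ioo (0 : ℝ) 1, ∑' j, ENNReal.ofReal (c j * r ^ (p j))) ≠ ⊤ := by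
    rw [hL]
    exact ENNReal.ofReal_ne_top
  have heq : ∀ r ∈ Ioo (0 : ℝ) 1, (∑' j, ENNReal.ofReal (c j * r ^ (p j))).toReal
      = ∑' j, c j * r ^ (p j) := by
    intro r hr
    rw [ENNReal.tsum_toReal_eq (fun _ => ENNReal.ofReal_ne_top)]
    refine tsum_congr fun j => ?_
    rw [ENNReal.toReal_ofReal]
    exact mul_nonneg (hc j) (pow_nonneg hr.1.le _)
  have hI : IntegrableOn (fun r : ℝ => (∑' j, ENNReal.ofReal (c j * r ^ (p j))).toReal) (Ioo 0 1) :=
    integrable_toReal_of_lintegral_ne_top hM.aemeasurable hne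
  refine ⟨hI.congr_fun heq measurableSet_Ioo, ?_⟩
  rw [← setIntegral_congr_fun measurableSet_Ioo heq,
    integral_toReal hM.aemeasurable (ae_lt_top hM hne), hL, ENNReal.toReal_ofReal]
  exact hS.nonneg fun j => div_nonneg (hc j) (by positivity)

/-- coefficients without the first three -/
noncomputable def ap (a : ℕ → ℂ) (j : ℕ) : ℂ := if j < 3 then 0 else a j

lemma ap3 (a : ℕ → ℂ) (j : ℕ) : ap a (j + 3) = a (j + 3) := by
  unfold ap
  rw [if_neg (by omega)]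

/-- `F - a_0 - s w` -/
noncomputable def GG (F : ℂ → ℂ) (a : ℕ → ℂ) (s : ℝ) (w : ℂ) : ℂ := F w - a 0 - s * w

lemma holG {F : ℂ → ℂ} {a : ℕ → ℂ} {s : ℝ} (h : Nrm F a s) : Hol (GG F a s) (ap a) := by
  refine ⟨?_, ?_⟩
  · unfold GG
    exact (h.Fd.sub_const _).sub (by fun_prop)
  · intro w hw
    have h1 := h.ser w hw
    have h2 : HasSum (fun j => if j < 3 then a j * w ^ j else 0) (∑ j ∈ Finset.range 3, a j * w ^ j) := by
      have h3 : HasSum (fun j => if j < 3 then a j * w ^ j else 0)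
          (∑ j ∈ Finset.range 3, if j < 3 then a j * w ^ j else 0) :=
        hasSum_sum_of_ne_finset_zero fun j hj => by
          rw [Finset.mem_range] at hj
          exact if_neg hj
      have h4 : (∑ j ∈ Finset.range 3, if j < 3 then a j * w ^ j else 0)
          = ∑ j ∈ Finset.range 3, a j * w ^ j := by
        refine Finset.sum_congr rfl fun j hj => ?_
        rw [Finset.mem_range] at hj
        exact if_pos hj
      rw [h4] at h3
      exact h3
    have h5 := h1.sub h2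
    have e1 : F w - ∑ j ∈ Finset.range 3, a j * w ^ j = GG F a s w := by
      unfold GG
      simp only [Finset.sum_range_succ, Finset.sum_range_zero, h.a1, h.a2]
      ring
    rw [e1] at h5
    refine h5.congr_fun fun j => ?_
    unfold ap
    by_cases hj : j < 3
    · rw [if_pos hj, if_pos hj]; ring
    · rw [if_neg hj, if_neg hj]; ring

lemma derivG {F : ℂ → ℂ} {a : ℕ → ℂ} {s : ℝ} (h : Nrm F a s) {w : ℂ} (hw : w ∈ Metric.ball (0 : ℂ) 1) :
    deriv (GG F a s) w = gd F s w := by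
  have h1 := (h.Fd.differentiableAt (Metric.isOpen_ball.mem_nhds hw)).hasDerivAt
  have h2 : HasDerivAt (fun w : ℂ => (s : ℂ) * w) ((s : ℂ) * 1) w := (hasDerivAt_id' w).const_mul _
  have h3 := (h1.sub_const (a 0)).sub h2
  have h4 : HasDerivAt (GG F a s) (deriv F w - (s : ℂ) * 1) w := h3
  rw [h4.deriv, gd]
  ring

lemma bG_eq {F : ℂ → ℂ} {a : ℕ → ℂ} {s : ℝ} (h : Nrm F a s) {r : ℝ} (hr : r ∈ Ioo (0 : ℝ) 1) (θ : ℝ) :
    bG F s r θ = bb (GG F a s) r θ := by
  unfold bG bb gg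
  congr 1
  refine intervalIntegral.integral_congr fun σ hσ => ?_
  rw [uIcc_of_le zero_le_one] at hσ
  have hw := IGau.seg_ball (IArea.pc_mem hr θ) hσ.1 hσ.2
  simp only [derivG h hw]

lemma ccap {a : ℕ → ℂ} {s : ℝ} (h : HasSum (fun j : ℕ => cc a (j + 3)) (1 - s ^ 2)) :
    HasSum (cc (ap a)) (1 - s ^ 2) := by
  have h1 : HasSum (fun j : ℕ => cc (ap a) (j + 3)) (1 - s ^ 2) := by
    refine h.congr_fun fun j => ?_
    unfold cc
    rw [ap3]
  have h2 := (hasSum_nat_add_iff 3).1 h1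
  have h3 : (∑ i ∈ Finset.range 3, cc (ap a) i) = 0 := by
    refine Finset.sum_eq_zero fun i hi => ?_
    rw [Finset.mem_range] at hi
    unfold cc ap
    rw [if_pos hi]
    simp
  rw [h3, add_zero] at h2
  exact h2

lemma Aa_le {a : ℕ → ℂ} {s : ℝ} (h : HasSum (fun j : ℕ => cc a (j + 3)) (1 - s ^ 2)) {r : ℝ}
    (hr : r ∈ Ioo (0 : ℝ) 1) : 0 ≤ Aa (cc (ap a)) r ∧ Aa (cc (ap a)) r ≤ (1 - s ^ 2) * r := by
  have h1 := ccap h
  have hnn : ∀ j, 0 ≤ cc (ap a) j * r ^ (2 * j) := fun j =>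
    mul_nonneg (cc_nonneg _ _) (pow_nonneg hr.1.le _)
  have hle : ∀ j, cc (ap a) j * r ^ (2 * j) ≤ cc (ap a) j * r := by
    intro j
    rcases Nat.eq_zero_or_pos j with hj | hj
    · rw [hj]
      unfold cc
      simp
    · refine mul_le_mul_of_nonneg_left ?_ (cc_nonneg _ _)
      calc r ^ (2 * j) ≤ r ^ 1 := pow_le_pow_of_le_one hr.1.le hr.2.le (by omega)
        _ = r := pow_one r
  have hs : Summable (fun j => cc (ap a) j * r ^ (2 * j)) :=
    Summable.of_nonneg_of_le hnn hle (h1.mul_right r).summable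
  refine ⟨tsum_nonneg hnn, ?_⟩
  unfold Aa
  rw [← (h1.mul_right r).tsum_eq]
  exact hs.tsum_le_tsum hle (h1.mul_right r).summable

/-- Pythagoras on the circle -/
lemma pyth {b : ℝ → ℝ} {A : ℝ} (hb : Continuous b) (hm : (∫ θ in (0 : ℝ)..(2 * Real.pi), b θ) = Real.pi * A)
    {r : ℝ} (hr : 0 < r) :
    (∫ θ in (0 : ℝ)..(2 * Real.pi), b θ ^ 2) / r
      = (∫ θ in (0 : ℝ)..(2 * Real.pi), (b θ - A / 2) ^ 2 / r) + Real.pi * A ^ 2 / 2 / r := by
  have i1 : IntervalIntegrable (fun θ : ℝ => b θ) volume 0 (2 * Real.pi) := hb.intervalIntegrable _ _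
  have i2 : IntervalIntegrable (fun θ : ℝ => (b θ - A / 2) ^ 2) volume 0 (2 * Real.pi) :=
    (Continuous.intervalIntegrable (by fun_prop) _ _)
  have e1 : (fun θ : ℝ => b θ ^ 2) = fun θ : ℝ => ((b θ - A / 2) ^ 2 + A * b θ) - A ^ 2 / 4 := by
    funext θ
    ring
  rw [e1, intervalIntegral.integral_sub (i2.add (i1.const_mul A)) intervalIntegrable_const,
    intervalIntegral.integral_add i2 (i1.const_mul A), intervalIntegral.integral_const_mul, hm,
    intervalIntegral.integral_const, intervalIntegral.integral_div]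
  generalize (∫ θ in (0 : ℝ)..(2 * Real.pi), (b θ - A / 2) ^ 2) = J
  simp only [smul_eq_mul, sub_zero]
  field_simp
  ring

/-- the variance without symmetry -/
lemma varG (h3 : StQ1) {G : ℂ → ℂ} {a : ℕ → ℂ} (hG : Hol G a) {e : ℝ} (he : HasSum (cc a) e) :
    (∫⁻ r in Ioo (0 : ℝ) 1, ∫⁻ θ in Ioo (0 : ℝ) (2 * Real.pi),
      ENNReal.ofReal ((bb G r θ - Aa (cc a) r / 2) ^ 2 / r)) ≤ ENNReal.ofReal (2 * Real.pi * e ^ 2) := by
  have hx : ∀ j, 0 ≤ (fun j => ‖a j‖) j := fun j => norm_nonneg _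
  have hq := h3 (fun j => ‖a j‖) hx
  have he0 : 0 ≤ e := he.nonneg (cc_nonneg a)
  have hstep : (∫⁻ r in Ioo (0 : ℝ) 1, ∫⁻ θ in Ioo (0 : ℝ) (2 * Real.pi),
      ENNReal.ofReal ((bb G r θ - Aa (cc a) r / 2) ^ 2 / r))
      ≤ ∫⁻ r in Ioo (0 : ℝ) 1, ∑' n : ℕ, ∑' k : ℕ, ∑' l : ℕ, ENNReal.ofReal
        (4 * Real.pi * (kap (fun j => ‖a j‖) (n + 1) k * kap (fun j => ‖a j‖) (n + 1) l)
          * r ^ (2 * (k + l + n) + 1)) :=
    setLIntegral_mono' measurableSet_Ioo fun r hr => IVar.circle (pr_F2 pr_F1) G a hG r hr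
  refine hstep.trans ?_
  have hm : ∀ n k l : ℕ, Measurable (fun r : ℝ => ENNReal.ofReal
        (4 * Real.pi * (kap (fun j => ‖a j‖) (n + 1) k * kap (fun j => ‖a j‖) (n + 1) l)
          * r ^ (2 * (k + l + n) + 1))) := fun n k l => by fun_prop
  have hm2 : ∀ n k : ℕ, Measurable (fun r : ℝ => ∑' l : ℕ, ENNReal.ofReal
        (4 * Real.pi * (kap (fun j => ‖a j‖) (n + 1) k * kap (fun j => ‖a j‖) (n + 1) l)
          * r ^ (2 * (k + l + n) + 1))) := fun n k => Measurable.tsum (hm n k)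
  have hm3 : ∀ n : ℕ, Measurable (fun r : ℝ => ∑' k : ℕ, ∑' l : ℕ, ENNReal.ofReal
        (4 * Real.pi * (kap (fun j => ‖a j‖) (n + 1) k * kap (fun j => ‖a j‖) (n + 1) l)
          * r ^ (2 * (k + l + n) + 1))) := fun n => Measurable.tsum (hm2 n)
  rw [lintegral_tsum fun n => (hm3 n).aemeasurable]
  have hin : ∀ n : ℕ, (∫⁻ r in Ioo (0 : ℝ) 1, ∑' k : ℕ, ∑' l : ℕ, ENNReal.ofReal
        (4 * Real.pi * (kap (fun j => ‖a j‖) (n + 1) k * kap (fun j => ‖a j‖) (n + 1) l)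
          * r ^ (2 * (k + l + n) + 1)))
      = ENNReal.ofReal (2 * Real.pi) * ∑' k : ℕ, ∑' l : ℕ, ENNReal.ofReal
        (kap (fun j => ‖a j‖) (n + 1) k * kap (fun j => ‖a j‖) (n + 1) l / (k + l + (n + 1))) := by
    intro n
    rw [lintegral_tsum fun k => (hm2 n k).aemeasurable, ← ENNReal.tsum_mul_left]
    refine tsum_congr fun k => ?_
    rw [lintegral_tsum fun l => (hm n k l).aemeasurable, ← ENNReal.tsum_mul_left]
    refine tsum_congr fun l => ?_
    have hk : 0 ≤ kap (fun j => ‖a j‖) (n + 1) k * kap (fun j => ‖a j‖) (n + 1) l :=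
      mul_nonneg (IVar.kap_nonneg hx _ _) (IVar.kap_nonneg hx _ _)
    rw [IVar.lint_pow _ (by positivity), ← ENNReal.ofReal_mul (by positivity)]
    congr 1
    have h5 : ((2 * (k + l + n) + 1 : ℕ) : ℝ) + 1 = 2 * ((k : ℝ) + l + (n + 1)) := by
      push_cast
      ring
    rw [h5]
    have h6 : ((k : ℝ) + l + (n + 1)) ≠ 0 := by positivity
    field_simp
    ring
  rw [tsum_congr hin, ENNReal.tsum_mul_left]
  have hsum : (∑' j : ℕ, ENNReal.ofReal (j * (fun j => ‖a j‖) j ^ 2)) = ENNReal.ofReal e := by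
    rw [← he.tsum_eq, ENNReal.ofReal_tsum_of_nonneg (cc_nonneg a) he.summable]
    rfl
  rw [hsum] at hq
  calc ENNReal.ofReal (2 * Real.pi) * (∑' n : ℕ, ∑' k : ℕ, ∑' l : ℕ, ENNReal.ofReal
        (kap (fun j => ‖a j‖) (n + 1) k * kap (fun j => ‖a j‖) (n + 1) l / (k + l + (n + 1))))
      ≤ ENNReal.ofReal (2 * Real.pi) * ENNReal.ofReal e ^ 2 := by gcongr
    _ = ENNReal.ofReal (2 * Real.pi * e ^ 2) := by
        rw [← ENNReal.ofReal_pow he0, ← ENNReal.ofReal_mul (by positivity)]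

/-- measurability in `r` -/
lemma meas {G : ℂ → ℂ} (hG : DifferentiableOn ℂ G (Metric.ball 0 1)) :
    AEStronglyMeasurable (fun r => (∫ θ in (0 : ℝ)..(2 * Real.pi), bb G r θ ^ 2) / r)
      (volume.restrict (Ioo (0 : ℝ) 1)) := by
  have hg : ContinuousOn (gg G) (Metric.ball 0 1) := fun w hw =>
    (IGau.hgg hG hw).continuousAt.continuousWithinAt
  have hpc : Continuous (fun x : ℝ × ℝ => pc x.1 x.2) := by
    unfold pc
    fun_prop
  have hmaps : MapsTo (fun x : ℝ × ℝ => pc x.1 x.2) (Ioo (0 : ℝ) 1 ×ˢ Ioc (0 : ℝ) (2 * Real.pi))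
      (Metric.ball 0 1) := fun x hx => IArea.pc_mem hx.1 x.2
  have hc : ContinuousOn (fun x : ℝ × ℝ => bb G x.1 x.2 ^ 2)
      (Ioo (0 : ℝ) 1 ×ˢ Ioc (0 : ℝ) (2 * Real.pi)) := by
    unfold bb
    exact ((continuous_fst.pow 2).continuousOn.mul (hg.comp hpc.continuousOn hmaps)).pow 2
  have hsm : AEStronglyMeasurable (fun x : ℝ × ℝ => bb G x.1 x.2 ^ 2)
      ((volume.restrict (Ioo (0 : ℝ) 1)).prod (volume.restrict (Ioc (0 : ℝ) (2 * Real.pi)))) := by
    rw [Measure.prod_restrict]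
    exact hc.aestronglyMeasurable (measurableSet_Ioo.prod measurableSet_Ioc)
  have h1 := hsm.integral_prod_right'
  have h2 : AEStronglyMeasurable (fun r => ∫ θ in (0 : ℝ)..(2 * Real.pi), bb G r θ ^ 2)
      (volume.restrict (Ioo (0 : ℝ) 1)) := by
    refine h1.congr (Eventually.of_forall fun r => ?_)
    simp only
    rw [intervalIntegral.integral_of_le (by positivity)]
  have h3 : AEStronglyMeasurable (fun r : ℝ => r⁻¹) (volume.restrict (Ioo (0 : ℝ) 1)) :=
    (measurable_inv).aestronglyMeasurable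
  refine (h2.mul h3).congr (Eventually.of_forall fun r => ?_)
  simp only [Pi.mul_apply]
  rw [div_eq_mul_inv]

end IBI

open IBI in
theorem pr_BI (h1 : StSer) (_h2 : StFK) (h3 : StQ1) : StBI := by
  intro F a s h
  obtain ⟨-, hs, -, -, -, hser⟩ := h1 F a s h
  set e : ℝ := 1 - s ^ 2 with hedef
  have he0 : 0 ≤ e := hs.nonneg fun j => cc_nonneg a _
  -- the first series
  have hcj : ∀ j : ℕ, cc a (j + 3) / (((2 * (j + 3) : ℕ) : ℝ) + 1) ≤ cc a (j + 3) := fun j =>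
    div_le_self (cc_nonneg a _) (by
      have : (0 : ℝ) ≤ ((2 * (j + 3) : ℕ) : ℝ) := Nat.cast_nonneg _
      linarith)
  have hrh := ser_int (fun j => cc a (j + 3)) (fun j => cc_nonneg a _) (fun j => 2 * (j + 3)) _
    (Summable.of_nonneg_of_le (fun j => div_nonneg (cc_nonneg a _) (by positivity)) hcj hs.summable).hasSum
  have hrhd := ser_int (fun j => cc a (j + 3) * (2 * (j + 3 : ℕ))) (fun j => mul_nonneg (cc_nonneg a _) (by positivity))
    (fun j => 2 * (j + 3) - 1) e (by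
      refine hs.congr_fun fun j => ?_
      have e1 : (((2 * (j + 3) - 1 : ℕ) : ℝ) + 1) = 2 * ((j + 3 : ℕ) : ℝ) := by
        have e2 : 2 * (j + 3) - 1 = 2 * j + 5 := by omega
        rw [e2]
        push_cast
        ring
      rw [e1]
      have e3 : (2 * ((j + 3 : ℕ) : ℝ)) ≠ 0 := by positivity
      field_simp)
  have hkk : ∀ j : ℕ, ((((j + 3 : ℕ) : ℝ) / (j + 4 : ℕ)) ^ 2 * ‖a (j + 3)‖ ^ 2) / (((2 * j + 7 : ℕ) : ℝ) + 1)
      ≤ cc a (j + 3) := by
    intro j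
    have e1 : (((j + 3 : ℕ) : ℝ) / (j + 4 : ℕ)) ^ 2 ≤ 1 := by
      refine pow_le_one₀ (by positivity) ?_
      rw [div_le_one (by positivity)]
      push_cast
      linarith
    have e2 : ((((j + 3 : ℕ) : ℝ) / (j + 4 : ℕ)) ^ 2 * ‖a (j + 3)‖ ^ 2) ≤ ‖a (j + 3)‖ ^ 2 :=
      mul_le_of_le_one_left (by positivity) e1
    have e3 : ‖a (j + 3)‖ ^ 2 ≤ cc a (j + 3) := by
      unfold cc
      refine le_mul_of_one_le_left (by positivity) ?_
      push_cast
      have : (0 : ℝ) ≤ j := Nat.cast_nonneg j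
      linarith
    refine (div_le_self (by positivity) ?_).trans (e2.trans e3)
    have : (0 : ℝ) ≤ ((2 * j + 7 : ℕ) : ℝ) := Nat.cast_nonneg _
    linarith
  have hks : Summable (fun j : ℕ => ((((j + 3 : ℕ) : ℝ) / (j + 4 : ℕ)) ^ 2 * ‖a (j + 3)‖ ^ 2)
      / (((2 * j + 7 : ℕ) : ℝ) + 1)) :=
    Summable.of_nonneg_of_le (fun j => by positivity) hkk hs.summable
  have hk2 := ser_int (fun j : ℕ => (((j + 3 : ℕ) : ℝ) / (j + 4 : ℕ)) ^ 2 * ‖a (j + 3)‖ ^ 2)
    (fun j => by positivity) (fun j => 2 * j + 7) _ hks.hasSum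
  have hk2e : ∀ r ∈ Ioo (0 : ℝ) 1, (∑' j : ℕ, (((j + 3 : ℕ) : ℝ) / (j + 4 : ℕ)) ^ 2 * ‖a (j + 3)‖ ^ 2
      * r ^ (2 * j + 7)) = k2 a r / r := by
    intro r hr
    unfold k2
    rw [← tsum_div_const]
    refine tsum_congr fun j => ?_
    have hr0 : r ≠ 0 := hr.1.ne'
    rw [show 2 * j + 8 = (2 * j + 7) + 1 from rfl, pow_succ]
    field_simp
    ring
  -- the function `bG`
  have hap := ccap hs
  have hG := holG h
  have hvar := varG h3 hG hap
  have hmeas := meas hG.Fd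
  have hI : ∀ r ∈ Ioo (0 : ℝ) 1, (∫ θ in (0 : ℝ)..(2 * Real.pi), bG F s r θ ^ 2) / r
      = (∫ θ in (0 : ℝ)..(2 * Real.pi), bb (GG F a s) r θ ^ 2) / r := by
    intro r hr
    congr 1
    refine intervalIntegral.integral_congr fun θ _ => ?_
    simp only [bG_eq h hr θ]
  have hnn : ∀ r ∈ Ioo (0 : ℝ) 1, 0 ≤ (∫ θ in (0 : ℝ)..(2 * Real.pi), bb (GG F a s) r θ ^ 2) / r := by
    intro r hr
    refine div_nonneg ?_ hr.1.le
    exact intervalIntegral.integral_nonneg (by positivity) fun θ _ => sq_nonneg _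
  have hnae : 0 ≤ᵐ[volume.restrict (Ioo (0 : ℝ) 1)]
      fun r => (∫ θ in (0 : ℝ)..(2 * Real.pi), bb (GG F a s) r θ ^ 2) / r :=
    (ae_restrict_iff' measurableSet_Ioo).2 (Eventually.of_forall fun r hr => hnn r hr)
  have hbound : (∫⁻ r in Ioo (0 : ℝ) 1,
      ENNReal.ofReal ((∫ θ in (0 : ℝ)..(2 * Real.pi), bb (GG F a s) r θ ^ 2) / r))
      ≤ ENNReal.ofReal (8 * e ^ 2) := by
    have hpt : ∀ r ∈ Ioo (0 : ℝ) 1,
        ENNReal.ofReal ((∫ θ in (0 : ℝ)..(2 * Real.pi), bb (GG F a s) r θ ^ 2) / r)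
        ≤ (∫⁻ θ in Ioo (0 : ℝ) (2 * Real.pi),
          ENNReal.ofReal ((bb (GG F a s) r θ - Aa (cc (ap a)) r / 2) ^ 2 / r))
          + ENNReal.ofReal (Real.pi / 2 * e ^ 2 * r ^ 1) := by
      intro r hr
      have hr0 : 0 < r := hr.1
      obtain ⟨hc, hz, -⟩ := pr_F2 pr_F1 (GG F a s) (ap a) hG r hr
      have hm := IEn.mean hz
      have hp := pyth hc hm hr0
      have hc2 : Continuous (fun θ => (bb (GG F a s) r θ - Aa (cc (ap a)) r / 2) ^ 2 / r) := by
        fun_prop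
      rw [IEn.lint hc2 (fun θ => by positivity), ← ENNReal.ofReal_add
        (intervalIntegral.integral_nonneg (by positivity) fun θ _ => by positivity) (by positivity)]
      refine ENNReal.ofReal_le_ofReal ?_
      rw [hp]
      refine add_le_add le_rfl ?_
      obtain ⟨hA0, hA1⟩ := Aa_le hs hr
      have hA2 : Aa (cc (ap a)) r ^ 2 ≤ (e * r) ^ 2 := by
        exact pow_le_pow_left₀ hA0 hA1 2
      rw [div_le_iff₀ hr0]
      have hpi := Real.pi_pos
      nlinarith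
    refine (setLIntegral_mono' measurableSet_Ioo hpt).trans ?_
    rw [lintegral_add_right _ (by fun_prop), IVar.lint_pow _ (by positivity)]
    refine (add_le_add hvar le_rfl).trans ?_
    rw [← ENNReal.ofReal_add (by positivity) (by positivity)]
    refine ENNReal.ofReal_le_ofReal ?_
    have hpi : Real.pi < 3.15 := Real.pi_lt_d2
    have he2 : 0 ≤ e ^ 2 := sq_nonneg e
    push_cast
    nlinarith
  have hint : Integrable (fun r => (∫ θ in (0 : ℝ)..(2 * Real.pi), bb (GG F a s) r θ ^ 2) / r)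
      (volume.restrict (Ioo (0 : ℝ) 1)) :=
    (lintegral_ofReal_ne_top_iff_integrable hmeas hnae).1
      (ne_top_of_le_ne_top ENNReal.ofReal_ne_top hbound)
  refine ⟨?_, hrh.1, hrhd.1.congr_fun ?_ measurableSet_Ioo, ?_, hk2.1.congr_fun hk2e measurableSet_Ioo, ?_, ?_, ?_⟩
  · intro r hr
    have hr0 : 0 ≤ r := hr.1.le
    have hle : ∀ j : ℕ, cc a (j + 3) * r ^ (2 * (j + 3)) ≤ cc a (j + 3) := fun j =>
      mul_le_of_le_one_right (cc_nonneg a _) (pow_le_one₀ hr0 hr.2.le)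
    have hn : ∀ j : ℕ, 0 ≤ cc a (j + 3) * r ^ (2 * (j + 3)) := fun j =>
      mul_nonneg (cc_nonneg a _) (pow_nonneg hr0 _)
    refine ⟨tsum_nonneg hn, ?_, tsum_nonneg fun j => ?_, tsum_nonneg fun j => ?_⟩
    · rw [← hs.tsum_eq]
      exact (Summable.of_nonneg_of_le hn hle hs.summable).tsum_le_tsum hle hs.summable
    · exact mul_nonneg (cc_nonneg a _) (by positivity)
    · positivity
  · intro r _
    unfold rhd
    refine tsum_congr fun j => ?_
    ring
  · rw [← hrhd.2]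
    refine setIntegral_congr_fun measurableSet_Ioo fun r _ => ?_
    unfold rhd
    refine tsum_congr fun j => ?_
    ring
  · rw [← setIntegral_congr_fun measurableSet_Ioo hk2e, hk2.2, ← hs.tsum_eq]
    exact hks.tsum_le_tsum hkk hs.summable
  · exact IntegrableOn.congr_fun hint (fun r hr => (hI r hr).symm) measurableSet_Ioo
  · rw [setIntegral_congr_fun measurableSet_Ioo hI, integral_eq_lintegral_of_nonneg_ae hnae hmeas]
    refine (ENNReal.toReal_mono ENNReal.ofReal_ne_top hbound).trans ?_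
    rw [ENNReal.toReal_ofReal (by positivity)]

end Pool.Agent.MFK.CD
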