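import Pool.Agent.Work.MP_8826fd_mp.CD.Stmts
import Pool.Agent.Work.MP_a78000_an.RMT
import Pool.Agent.Work.MP_a78000_an.HolInv

/-!
# MP_8826fd_mp, block CD, item C1p: the Riemann map at a given point and its inverse
-/

set_option autoImplicit false

namespace Pool.Agent.MFK.CD

open MeasureTheory Set Filter Topology Pool.Agent.MFK.NF

theorem pr_C1p : StC1p := by
  intro Ω p hO hS hU h0
  obtain ⟨f, hf, hinj, him, hf0, _⟩ := Pool.Agent.RMT.riemann_mapping' hO hS hU h0
  have hleft : ∀ z ∈ Ω, Function.invFunOn f Ω (f z) = z := hinj.leftInvOn_invFunOn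
  have hsurj : ∀ w ∈ Metric.ball (0 : ℂ) 1, ∃ z ∈ Ω, f z = w := by
    intro w hw
    rw [← him] at hw
    exact hw
  refine ⟨f, Function.invFunOn f Ω, hf, ?_, ?_, ?_, ?_, hleft, hf0⟩
  · rw [← him]
    exact Pool.Agent.HolInv.differentiableOn_inv hO hf hinj
  · intro z hz
    rw [← him]
    exact ⟨z, hz, rfl⟩
  · intro w hw
    exact Function.invFunOn_mem (hsurj w hw)
  · intro w hw
    exact Function.invFunOn_eq (hsurj w hw)

end Pool.Agent.MFK.CD
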