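import Pool.Agent.Work.MP_8826fd_mp.CD.Stmts
import Pool.Agent.Work.MP_8826fd_mp.NF.I_C2

/-!
# MP_8826fd_mp, block CD, item CMx (assembly: the normalised conformal map)
-/

set_option autoImplicit false

namespace Pool.Agent.MFK.CD

open MeasureTheory Set Filter Topology Pool.Agent.MFK.NF

namespace ICMx

theorem vol_univ : volume (univ : Set ℂ) = ⊤ := by
  have := (Complex.volume_preserving_equiv_real_prod).measure_preimage
    (nullMeasurableSet_univ (α := ℝ × ℝ))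
  rw [preimage_univ] at this
  rw [this]
  simp

theorem sum_one {a : ℕ → ℂ} {Ω : Set ℂ} (hvol : volume Ω = ENNReal.ofReal Real.pi)
    (h1 : volume Ω = ENNReal.ofReal Real.pi * (∑' j : ℕ, ENNReal.ofReal (cc a j))) :
    (∑' j : ℕ, ENNReal.ofReal (cc a j)) = 1 := by
  rw [hvol] at h1
  have h2 : ENNReal.ofReal Real.pi ≠ 0 := by
    rw [Ne, ENNReal.ofReal_eq_zero, not_le]
    exact Real.pi_pos
  have h3 : ENNReal.ofReal Real.pi * 1 = ENNReal.ofReal Real.pi * ∑' j : ℕ, ENNReal.ofReal (cc a j) := by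
    rw [mul_one]; exact h1
  exact ((ENNReal.mul_right_inj h2 ENNReal.ofReal_ne_top).1 h3).symm

end ICMx

open ICMx in
theorem pr_CMx (h1 : StMax) (h2 : StC1p) (h3 : StSch) (h4 : StMob) (h5 : StA2) (h6 : StArea2) :
    StCMx := by
  intro Ω F₁ ρ hO hsc hvol hF₁ hm₁ hρ hρ1
  have h0 : (0 : ℂ) ∈ Metric.ball (0 : ℂ) 1 := Metric.mem_ball_self one_pos
  have hne : Ω ≠ univ := by
    intro h
    rw [h, vol_univ] at hvol
    exact ENNReal.ofReal_ne_top hvol.symm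
  obtain ⟨f0, F0, hf0, hF0, hfm, hFm, hfF, hFf, hp⟩ := h2 Ω (F₁ 0) hO hsc hne (hm₁ h0)
  have hS := h3 Ω f0 F0 F₁ hO hf0 hF0 hfm hFm hfF hFf hF₁ hm₁ hp
  have hinj : InjOn F0 (Metric.ball 0 1) := by
    intro x hx y hy hxy
    rw [← hfF x hx, ← hfF y hy, hxy]
  have hfin : volume (F0 '' Metric.ball 0 1) ≠ ⊤ := by
    refine ne_top_of_le_ne_top ?_ (measure_mono (hFm.image_subset))
    rw [hvol]
    exact ENNReal.ofReal_ne_top
  obtain ⟨ζ₀, hζ₀, hmax⟩ := h1 F0 hF0 hinj hfin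
  obtain ⟨f, F, s, hs, hsd, hd, hf, hF, hfm', hFm', hfF', hFf', hall⟩ :=
    h4 Ω f0 F0 ζ₀ hO hf0 hF0 hfm hFm hfF hFf hζ₀
  obtain ⟨a, ha⟩ : ∃ a : ℕ → ℂ, ∀ w ∈ Metric.ball (0 : ℂ) 1, HasSum (fun j => a j * w ^ j) (F w) :=
    ⟨_, IC2.taylor hF⟩
  have hH : Hol F a := ⟨hF, ha⟩
  have hCM : CMc Ω f F a := ⟨hH, hO, hf, hfm', hFm', hfF', hFf'⟩
  have hle : ∀ w ∈ Metric.ball (0 : ℂ) 1, ‖deriv F w‖ * (1 - ‖w‖ ^ 2) ≤ s := by
    intro w hw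
    obtain ⟨ζ, hζ, he⟩ := hall w hw
    rw [he, hsd]
    exact hmax ζ hζ
  obtain ⟨ha1, ha2⟩ := h5 F a s hH hs hd hle
  refine ⟨f, F, a, s, hCM, ⟨hH, hs, ha1, ha2, sum_one hvol (h6 Ω f F a hCM)⟩, ?_, hle⟩
  have h7 := hmax 0 h0
  rw [norm_zero, ← hsd] at h7
  have h8 : ‖deriv F0 0‖ * (1 - 0 ^ 2) = ‖deriv F0 0‖ := by ring
  rw [h8] at h7
  exact (hρ1.trans hS).trans h7

end Pool.Agent.MFK.CD
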