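import Pool.Agent.Work.MP_8826fd_mp.CD.Stmts

/-! MP_8826fd_mp, block CD, item FF: integration of StMn over the radius. -/

set_option autoImplicit false

namespace Pool.Agent.MFK.CD

open MeasureTheory Set Filter Topology Pool.Agent.MFK.NF

namespace IFF

/-- comparison of the two series -/
theorem comp (N : ℕ) (κ e : ℝ) (c q t : ℕ → ℝ) (hc : ∀ n, 0 ≤ c n)
    (hcc : HasSum (fun j : ℕ => ((j + 3 : ℕ) : ℝ) * c (j + 3)) e)
    (ht : Summable (fun j : ℕ => c (j + 3) * t (j + 2)))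
    (hq : ∀ n ∈ Finset.Icc 2 N, q n ≤ -κ * (n + 1))
    (ht2 : ∀ n : ℕ, N < n → 2 ≤ n → t n ≤ -κ * (n + 1)) :
    (∑ n ∈ Finset.Icc 2 N, c (n + 1) * (q n - t n)) + ∑' j : ℕ, c (j + 3) * t (j + 2) ≤ -κ * e := by
  have e1 : (∑ n ∈ Finset.Icc 2 N, c (n + 1) * (q n - t n))
      = ∑ j ∈ Finset.range (N + 1 - 2), c (j + 3) * (q (j + 2) - t (j + 2)) := by
    have h : Finset.Icc 2 N = Finset.Ico 2 (N + 1) := by
      ext x
      simp only [Finset.mem_Icc, Finset.mem_Ico]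
      omega
    rw [h, Finset.sum_Ico_eq_sum_range]
    refine Finset.sum_congr rfl fun j _ => ?_
    rw [show 2 + j + 1 = j + 3 by omega, show 2 + j = j + 2 by omega]
  set g : ℕ → ℝ := fun j => if j < N + 1 - 2 then c (j + 3) * (q (j + 2) - t (j + 2)) else 0 with hg
  have hgs : HasSum g (∑ j ∈ Finset.range (N + 1 - 2), c (j + 3) * (q (j + 2) - t (j + 2))) := by
    have h1 : HasSum g (∑ j ∈ Finset.range (N + 1 - 2), g j) := by
      refine hasSum_sum_of_ne_finset_zero fun j hj => ?_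
      rw [Finset.mem_range] at hj
      simp only [hg]
      rw [if_neg hj]
    have h2 : (∑ j ∈ Finset.range (N + 1 - 2), g j)
        = ∑ j ∈ Finset.range (N + 1 - 2), c (j + 3) * (q (j + 2) - t (j + 2)) := by
      refine Finset.sum_congr rfl fun j hj => ?_
      rw [Finset.mem_range] at hj
      simp only [hg]
      rw [if_pos hj]
    rw [← h2]
    exact h1
  have hsum := hgs.add ht.hasSum
  have hr : HasSum (fun j : ℕ => -κ * (((j + 3 : ℕ) : ℝ) * c (j + 3))) (-κ * e) := hcc.mul_left _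
  rw [e1]
  refine hasSum_le (fun j => ?_) hsum hr
  have hcj := hc (j + 3)
  have hcast : (((j + 2 : ℕ) : ℝ) + 1) = ((j + 3 : ℕ) : ℝ) := by
    push_cast
    ring
  by_cases hj : j < N + 1 - 2
  · have hq1 := hq (j + 2) (by rw [Finset.mem_Icc]; omega)
    rw [hcast] at hq1
    have h3 : g j = c (j + 3) * (q (j + 2) - t (j + 2)) := by
      simp only [hg]
      rw [if_pos hj]
    rw [h3]
    have h4 := mul_le_mul_of_nonneg_left hq1 hcj
    calc c (j + 3) * (q (j + 2) - t (j + 2)) + c (j + 3) * t (j + 2)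
        = c (j + 3) * q (j + 2) := by ring
      _ ≤ c (j + 3) * (-κ * ((j + 3 : ℕ) : ℝ)) := h4
      _ = -κ * (((j + 3 : ℕ) : ℝ) * c (j + 3)) := by ring
  · have ht1 := ht2 (j + 2) (by omega) (by omega)
    rw [hcast] at ht1
    have h3 : g j = 0 := by
      simp only [hg]
      rw [if_neg hj]
    rw [h3]
    have h4 := mul_le_mul_of_nonneg_left ht1 hcj
    calc 0 + c (j + 3) * t (j + 2) = c (j + 3) * t (j + 2) := by ring
      _ ≤ c (j + 3) * (-κ * ((j + 3 : ℕ) : ℝ)) := h4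
      _ = -κ * (((j + 3 : ℕ) : ℝ) * c (j + 3)) := by ring

/-- a `C¹` function is bounded on the ball -/
theorem bddBall (V : ℂ → ℂ) (hV : ContDiff ℝ 1 V) :
    ∃ Cv : ℝ, ∀ w ∈ Metric.ball (0 : ℂ) 1, ‖V w‖ ≤ Cv := by
  obtain ⟨Cv, hCv⟩ := (isCompact_closedBall (0 : ℂ) 1).exists_bound_of_continuousOn
    (f := V) hV.continuous.continuousOn
  exact ⟨Cv, fun w hw => hCv w (Metric.ball_subset_closedBall hw)⟩

/-- `∫ rh ≤ 1 - s²` -/
theorem int_rh_le (a : ℕ → ℂ) (s : ℝ)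
    (h : ∀ r ∈ Ioo (0 : ℝ) 1, rh a r ≤ 1 - s ^ 2) (hi : IntegrableOn (rh a) (Ioo 0 1)) :
    (∫ r in Ioo (0 : ℝ) 1, rh a r) ≤ 1 - s ^ 2 := by
  have h1 : (∫ r in Ioo (0 : ℝ) 1, rh a r) ≤ ∫ _r in Ioo (0 : ℝ) 1, (1 - s ^ 2) := by
    refine setIntegral_mono_on hi ?_ measurableSet_Ioo h
    exact integrableOn_const (by simp)
  have h2 : (∫ _r in Ioo (0 : ℝ) 1, (1 - s ^ 2)) = 1 - s ^ 2 := by
    rw [setIntegral_const]
    simp
  linarith

end IFF

open IFF in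
theorem pr_FF (h1 : StSer) (h2 : StBI) (h3 : StSplit) (h4 : StVV) (h5 : StMn) (h6 : StMI) : StFF := by
  intro C0 κ N hC0 hκ
  obtain ⟨C1, hC1, hMn⟩ := h5 C0 N hC0
  refine ⟨12 * C1, by positivity, ?_⟩
  intro B lam s m F a Ψ ΨA ΨB hB hB0 hlam hlam0 hN hs hΨ hA hBc hbd hbd2 hIl hQQ hTT
  obtain ⟨hs1, hcc, -, -, -, -⟩ := h1 F a s hN
  obtain ⟨hp, irh, irhd, erhd, ik2, lk2, ibG, lbG⟩ := h2 F a s hN
  obtain ⟨hVC, -⟩ := h4 m N a Ψ ΨA ΨB hΨ hA hBc
  obtain ⟨Cv, hCv⟩ := bddBall _ hVC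
  obtain ⟨-, -, -, hint, -⟩ := h3 B lam s Cv F a _ hN hVC hCv
  obtain ⟨hMIi, hTs, hMI⟩ := h6 B lam s m N F a Ψ ΨA ΨB hN hΨ hA hBc
  have hs0 := hN.s0
  set e : ℝ := 1 - s ^ 2 with he
  have he0 : 0 < e := by
    have : s ^ 2 < 1 := by nlinarith
    simp only [he]
    linarith
  have hsq : 0 ≤ Real.sqrt e := Real.sqrt_nonneg _
  have hsq3 : Real.sqrt e ^ 3 = Real.sqrt e * e := by
    have : Real.sqrt e ^ 2 = e := Real.sq_sqrt he0.le
    calc Real.sqrt e ^ 3 = Real.sqrt e * Real.sqrt e ^ 2 := by ring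
      _ = Real.sqrt e * e := by rw [this]
  -- integrability of the right side
  have i1 : IntegrableOn (fun _ : ℝ => e) (Ioo 0 1) := integrableOn_const (by simp)
  have i5 : IntegrableOn (fun r => (∫ θ in (0 : ℝ)..(2 * Real.pi), bG F s r θ ^ 2) / r / e) (Ioo 0 1) :=
    ibG.div_const e
  have i12 : IntegrableOn (fun r => e + rh a r) (Ioo 0 1) := i1.add irh
  have i123 : IntegrableOn (fun r => e + rh a r + rhd a r) (Ioo 0 1) := i12.add irhd
  have i1234 : IntegrableOn (fun r => e + rh a r + rhd a r + k2 a r / r) (Ioo 0 1) := i123.add ik2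
  have i12345 : IntegrableOn (fun r => e + rh a r + rhd a r + k2 a r / r
      + (∫ θ in (0 : ℝ)..(2 * Real.pi), bG F s r θ ^ 2) / r / e) (Ioo 0 1) := i1234.add i5
  have ierr : IntegrableOn (fun r => C1 * Real.sqrt e * (e + rh a r + rhd a r + k2 a r / r
      + (∫ θ in (0 : ℝ)..(2 * Real.pi), bG F s r θ ^ 2) / r / e)) (Ioo 0 1) := i12345.const_mul _
  have ir := hMIi.add ierr
  have step1 := setIntegral_mono_on hint ir measurableSet_Ioo
    (fun r hr => hMn B lam s m F a Ψ ΨA ΨB hB hB0 hlam hlam0 hN hs hΨ hA hBc hbd hbd2 r hr)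
  refine step1.trans ?_
  have step2 := integral_add hMIi ierr
  simp only [Pi.add_apply] at step2 ⊢
  rw [step2, hMI, hIl]
  -- the error
  have eerr : (∫ r in Ioo (0 : ℝ) 1, C1 * Real.sqrt e * (e + rh a r + rhd a r + k2 a r / r
      + (∫ θ in (0 : ℝ)..(2 * Real.pi), bG F s r θ ^ 2) / r / e)) ≤ 12 * C1 * Real.sqrt e ^ 3 := by
    rw [integral_const_mul, integral_add i1234 i5, integral_add i123 ik2, integral_add i12 irhd,
      integral_add i1 irh, integral_div]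
    have t1 : (∫ _r in Ioo (0 : ℝ) 1, e) = e := by
      rw [setIntegral_const]
      simp
    have t2 := int_rh_le a s (fun r hr => (hp r hr).2.1) irh
    have t5 : (∫ r in Ioo (0 : ℝ) 1, (∫ θ in (0 : ℝ)..(2 * Real.pi), bG F s r θ ^ 2) / r) / e
        ≤ 8 * e := by
      rw [div_le_iff₀ he0]
      calc _ ≤ 8 * (1 - s ^ 2) ^ 2 := lbG
        _ = 8 * e * e := by rw [he]; ring
    have t3 : (∫ r in Ioo (0 : ℝ) 1, rhd a r) = e := erhd
    have t4 : (∫ r in Ioo (0 : ℝ) 1, k2 a r / r) ≤ e := lk2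
    rw [t1, t3, hsq3]
    have t6 : e + (∫ r in Ioo (0 : ℝ) 1, rh a r) + e + (∫ r in Ioo (0 : ℝ) 1, k2 a r / r)
        + (∫ r in Ioo (0 : ℝ) 1, (∫ θ in (0 : ℝ)..(2 * Real.pi), bG F s r θ ^ 2) / r) / e ≤ 12 * e := by
      have t2' : (∫ r in Ioo (0 : ℝ) 1, rh a r) ≤ e := t2
      linarith
    have t7 : 0 ≤ C1 * Real.sqrt e := by positivity
    calc _ ≤ C1 * Real.sqrt e * (12 * e) := mul_le_mul_of_nonneg_left t6 t7
      _ = 12 * C1 * (Real.sqrt e * e) := by ring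
  -- the main part
  have main := comp N κ e (fun j => ‖a j‖ ^ 2)
    (fun n => QQ B lam m n (radf m Ψ) (radf ((m : ℤ) + n) (ΨA n)) (radf ((m : ℤ) - n) (ΨB n)))
    (fun n => TT B lam m n (radf m Ψ)) (fun n => by positivity)
    (by simpa [cc] using hcc) hTs hQQ hTT
  have hpi : 0 < Real.pi := Real.pi_pos
  have main2 := mul_le_mul_of_nonneg_left main hpi.le
  have fin1 : 2 * Real.pi * 0
      + Real.pi * (∑ n ∈ Finset.Icc 2 N, ‖a (n + 1)‖ ^ 2 *
        (QQ B lam m n (radf m Ψ) (radf ((m : ℤ) + n) (ΨA n)) (radf ((m : ℤ) - n) (ΨB n)) - TT B lam m n (radf m Ψ)))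
      + Real.pi * ∑' j : ℕ, ‖a (j + 3)‖ ^ 2 * TT B lam m (j + 2) (radf m Ψ) ≤ -(Real.pi * κ) * e := by
    calc _ = Real.pi * ((∑ n ∈ Finset.Icc 2 N, ‖a (n + 1)‖ ^ 2 *
        (QQ B lam m n (radf m Ψ) (radf ((m : ℤ) + n) (ΨA n)) (radf ((m : ℤ) - n) (ΨB n)) - TT B lam m n (radf m Ψ)))
        + ∑' j : ℕ, ‖a (j + 3)‖ ^ 2 * TT B lam m (j + 2) (radf m Ψ)) := by ring
      _ ≤ Real.pi * (-κ * e) := main2
      _ = -(Real.pi * κ) * e := by ring
  exact add_le_add fin1 eerr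

end Pool.Agent.MFK.CD
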