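import Pool.Agent.Work.MP_8826fd_mp.CD.Stmts
import Pool.Agent.Work.MP_8826fd_mp.NF.I_F1

/-!
# MP_8826fd_mp, block CD, item FK: angular integrals
-/

set_option autoImplicit false

namespace Pool.Agent.MFK.CD

open MeasureTheory Set Filter Topology Pool.Agent.MFK.NF

namespace IFK

lemma ex_cont (n : ℤ) : Continuous (ex n) := by
  unfold ex
  fun_prop

lemma ex_norm (n : ℤ) (θ : ℝ) : ‖ex n θ‖ = 1 := by
  have e : Complex.I * n * θ = ((n * θ : ℝ) : ℂ) * Complex.I := by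
    push_cast
    ring
  rw [ex, e, Complex.norm_exp_ofReal_mul_I]

lemma ex_mul (n k : ℤ) (θ : ℝ) : ex n θ * ex k θ = ex (n + k) θ := by
  rw [ex, ex, ex, ← Complex.exp_add]
  congr 1
  push_cast
  ring

lemma ex_conj (n : ℤ) (θ : ℝ) : (starRingEnd ℂ) (ex n θ) = ex (-n) θ := by
  rw [ex, ex, ← Complex.exp_conj]
  congr 1
  rw [map_mul, map_mul, Complex.conj_I, Complex.conj_ofReal, map_intCast]
  push_cast
  ring

lemma int_ex (n : ℤ) (c : ℂ) :
    (∫ θ in (0 : ℝ)..(2 * Real.pi), c * ex n θ) = if n = 0 then 2 * Real.pi * c else 0 := by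
  have h := IF1.orth n 0 c
  have e : ∀ θ : ℝ, c * Complex.exp (Complex.I * n * θ) * Complex.exp (-(Complex.I * ((0 : ℤ) : ℂ) * θ))
      = c * ex n θ := by
    intro θ
    rw [Int.cast_zero, mul_zero, zero_mul, neg_zero, Complex.exp_zero, mul_one, ex]
  simp only [e] at h
  have hp : (Real.pi : ℂ) ≠ 0 := by exact_mod_cast Real.pi_ne_zero
  have h2 : (∫ θ in (0 : ℝ)..(2 * Real.pi), c * ex n θ) = 2 * Real.pi * (if n = 0 then c else 0) := by
    rw [← h]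
    push_cast
    field_simp
  rw [h2]
  split_ifs <;> simp

lemma Rn_cont (a : ℕ → ℂ) (n : ℕ) : Continuous fun θ => Rn a n θ :=
  Complex.continuous_re.comp (continuous_const.mul (ex_cont _))

lemma Rn_le (a : ℕ → ℂ) (n : ℕ) (θ : ℝ) : |Rn a n θ| ≤ ‖a (n + 1)‖ := by
  refine (Complex.abs_re_le_norm _).trans ?_
  rw [norm_mul, ex_norm, mul_one]

lemma int_re (f : ℝ → ℂ) (hf : Continuous f) :
    (∫ θ in (0 : ℝ)..(2 * Real.pi), (f θ).re) = (∫ θ in (0 : ℝ)..(2 * Real.pi), f θ).re :=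
  Complex.reCLM.intervalIntegral_comp_comm (hf.intervalIntegrable _ _)

lemma int_Rn (a : ℕ → ℂ) (n : ℕ) (hn : 1 ≤ n) : (∫ θ in (0 : ℝ)..(2 * Real.pi), Rn a n θ) = 0 := by
  have h := int_re (fun θ => a (n + 1) * ex n θ) (continuous_const.mul (ex_cont _))
  rw [int_ex, if_neg (by omega)] at h
  exact h

lemma Rn_mul (a : ℕ → ℂ) (n k : ℕ) (θ : ℝ) : Rn a n θ * Rn a k θ =
    1 / 2 * ((a (n + 1) * a (k + 1) * ex ((n : ℤ) + k) θ).re
      + (a (n + 1) * (starRingEnd ℂ) (a (k + 1)) * ex ((n : ℤ) - k) θ).re) := by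
  have e1 : a (n + 1) * a (k + 1) * ex ((n : ℤ) + k) θ = (a (n + 1) * ex n θ) * (a (k + 1) * ex k θ) := by
    rw [← ex_mul]
    ring
  have e2 : a (n + 1) * (starRingEnd ℂ) (a (k + 1)) * ex ((n : ℤ) - k) θ =
      (a (n + 1) * ex n θ) * (starRingEnd ℂ) (a (k + 1) * ex k θ) := by
    rw [map_mul, ex_conj, sub_eq_add_neg, ← ex_mul]
    ring
  rw [e1, e2, Rn, Rn]
  simp only [Complex.mul_re, Complex.conj_re, Complex.conj_im]
  ring

lemma int_RR (a : ℕ → ℂ) (n k : ℕ) (hn : 1 ≤ n) : (∫ θ in (0 : ℝ)..(2 * Real.pi), Rn a n θ * Rn a k θ) =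
    if n = k then Real.pi * ‖a (n + 1)‖ ^ 2 else 0 := by
  have hc1 : Continuous fun θ => a (n + 1) * a (k + 1) * ex ((n : ℤ) + k) θ := continuous_const.mul (ex_cont _)
  have hc2 : Continuous fun θ => a (n + 1) * (starRingEnd ℂ) (a (k + 1)) * ex ((n : ℤ) - k) θ :=
    continuous_const.mul (ex_cont _)
  have hr1 : Continuous fun θ => (a (n + 1) * a (k + 1) * ex ((n : ℤ) + k) θ).re := Complex.continuous_re.comp hc1
  have hr2 : Continuous fun θ => (a (n + 1) * (starRingEnd ℂ) (a (k + 1)) * ex ((n : ℤ) - k) θ).re :=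
    Complex.continuous_re.comp hc2
  simp only [Rn_mul]
  rw [intervalIntegral.integral_const_mul, intervalIntegral.integral_add
    (hr1.intervalIntegrable _ _) (hr2.intervalIntegrable _ _),
    int_re _ hc1, int_re _ hc2, int_ex, int_ex, if_neg (by omega)]
  by_cases h : n = k
  · subst h
    rw [if_pos (sub_self _), if_pos rfl, Complex.mul_conj']
    have e : (2 * (Real.pi : ℂ) * (‖a (n + 1)‖ : ℂ) ^ 2) = ((2 * Real.pi * ‖a (n + 1)‖ ^ 2 : ℝ) : ℂ) := by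
      push_cast
      ring
    rw [e, Complex.ofReal_re, Complex.zero_re]
    ring
  · rw [if_neg (by omega), if_neg h]
    simp

/-- termwise integration against a bounded continuous function -/
lemma ser_int (D : ℕ → ℝ) (a : ℕ → ℂ) (K w : ℝ → ℝ) (W : ℝ) (hD : Summable fun n => |D n| * ‖a (n + 3)‖)
    (hK : ∀ θ, HasSum (fun n => D n * Rn a (n + 2) θ) (K θ)) (hw : Continuous w) (hW : ∀ θ, |w θ| ≤ W) :
    HasSum (fun n => D n * ∫ θ in (0 : ℝ)..(2 * Real.pi), Rn a (n + 2) θ * w θ)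
      (∫ θ in (0 : ℝ)..(2 * Real.pi), K θ * w θ) := by
  have key := intervalIntegral.hasSum_integral_of_dominated_convergence (μ := volume) (a := 0) (b := 2 * Real.pi)
    (F := fun n (θ : ℝ) => D n * (Rn a (n + 2) θ * w θ))
    (f := fun θ : ℝ => K θ * w θ) (fun n _ => |D n| * ‖a (n + 3)‖ * W)
    (fun n => (continuous_const.mul ((Rn_cont a (n + 2)).mul hw)).aestronglyMeasurable)
    (fun n => Eventually.of_forall fun θ _ => by
      rw [Real.norm_eq_abs, abs_mul, abs_mul, ← mul_assoc]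
      exact mul_le_mul (mul_le_mul_of_nonneg_left (Rn_le a (n + 2) θ) (abs_nonneg _)) (hW θ) (abs_nonneg _)
        (by positivity))
    (Eventually.of_forall fun θ _ => hD.mul_right W)
    intervalIntegrable_const
    (Eventually.of_forall fun θ _ => by
      refine ((hK θ).mul_right (w θ)).congr_fun fun n => ?_
      ring)
  simp only [intervalIntegral.integral_const_mul] at key
  exact key

/-- the three consequences -/
lemma ser3 (D : ℕ → ℝ) (a : ℕ → ℂ) (K : ℝ → ℝ) (hD : Summable fun n => |D n| * ‖a (n + 3)‖)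
    (hK : ∀ θ, HasSum (fun n => D n * Rn a (n + 2) θ) (K θ)) (hc : Continuous K) :
    (∫ θ in (0 : ℝ)..(2 * Real.pi), K θ) = 0 ∧
    (∀ n : ℕ, 2 ≤ n → (∫ θ in (0 : ℝ)..(2 * Real.pi), K θ * Rn a n θ)
      = Real.pi * (D (n - 2) * ‖a (n + 1)‖ ^ 2)) ∧
    (∫ θ in (0 : ℝ)..(2 * Real.pi), K θ ^ 2) = Real.pi * ∑' n : ℕ, D n ^ 2 * ‖a (n + 3)‖ ^ 2 := by
  have hii : ∀ n : ℕ, 2 ≤ n → (∫ θ in (0 : ℝ)..(2 * Real.pi), K θ * Rn a n θ)
      = Real.pi * (D (n - 2) * ‖a (n + 1)‖ ^ 2) := by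
    intro n hn
    have h := ser_int D a K (fun θ => Rn a n θ) ‖a (n + 1)‖ hD hK (Rn_cont a n) (Rn_le a n)
    have h2 : HasSum (fun j => D j * ∫ θ in (0 : ℝ)..(2 * Real.pi), Rn a (j + 2) θ * Rn a n θ)
        (D (n - 2) * ∫ θ in (0 : ℝ)..(2 * Real.pi), Rn a (n - 2 + 2) θ * Rn a n θ) := by
      refine hasSum_single (n - 2) fun j hj => ?_
      rw [int_RR a (j + 2) n (by omega), if_neg (by omega), mul_zero]
    rw [h.unique h2, Nat.sub_add_cancel hn, int_RR a n n (by omega), if_pos rfl]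
    ring
  refine ⟨?_, hii, ?_⟩
  · have h := ser_int D a K (fun _ => 1) 1 hD hK continuous_const (fun θ => by simp)
    simp only [mul_one] at h
    have h2 : ∀ n : ℕ, D n * (∫ θ in (0 : ℝ)..(2 * Real.pi), Rn a (n + 2) θ) = 0 := by
      intro n
      rw [int_Rn a (n + 2) (by omega), mul_zero]
    simp only [h2] at h
    exact h.unique hasSum_zero
  · have hb : ∀ θ, |K θ| ≤ ∑' n, |D n| * ‖a (n + 3)‖ := by
      intro θ
      rw [← (hK θ).tsum_eq, ← Real.norm_eq_abs]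
      have hs : Summable fun n => ‖D n * Rn a (n + 2) θ‖ := by
        refine Summable.of_nonneg_of_le (fun n => norm_nonneg _) (fun n => ?_) hD
        rw [Real.norm_eq_abs, abs_mul]
        exact mul_le_mul_of_nonneg_left (Rn_le a (n + 2) θ) (abs_nonneg _)
      refine (norm_tsum_le_tsum_norm hs).trans (hs.tsum_le_tsum (fun n => ?_) hD)
      rw [Real.norm_eq_abs, abs_mul]
      exact mul_le_mul_of_nonneg_left (Rn_le a (n + 2) θ) (abs_nonneg _)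
    have h := ser_int D a K K _ hD hK hc hb
    have e : ∀ n : ℕ, D n * (∫ θ in (0 : ℝ)..(2 * Real.pi), Rn a (n + 2) θ * K θ) =
        Real.pi * (D n ^ 2 * ‖a (n + 3)‖ ^ 2) := by
      intro n
      have h3 : (∫ θ in (0 : ℝ)..(2 * Real.pi), Rn a (n + 2) θ * K θ) =
          ∫ θ in (0 : ℝ)..(2 * Real.pi), K θ * Rn a (n + 2) θ :=
        intervalIntegral.integral_congr fun θ _ => mul_comm _ _
      rw [h3, hii (n + 2) (by omega), Nat.add_sub_cancel]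
      ring
    simp only [e] at h
    have e2 : (∫ θ in (0 : ℝ)..(2 * Real.pi), K θ ^ 2) = ∫ θ in (0 : ℝ)..(2 * Real.pi), K θ * K θ :=
      intervalIntegral.integral_congr fun θ _ => sq _
    rw [e2, ← h.tsum_eq, tsum_mul_left]

/-- Parseval for a power series in `e^{iθ}` starting at frequency `2` -/
lemma par (b : ℕ → ℂ) (hb : Summable fun j => ‖b j‖) (G : ℝ → ℂ) (hc : Continuous G)
    (hG : ∀ θ, HasSum (fun j : ℕ => b j * ex ((j : ℤ) + 2) θ) (G θ)) :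
    HasSum (fun j => 2 * Real.pi * ‖b j‖ ^ 2) (∫ θ in (0 : ℝ)..(2 * Real.pi), ‖G θ‖ ^ 2) := by
  have hper : ∀ θ, G (θ + 2 * Real.pi) = G θ := by
    intro θ
    refine (hG (θ + 2 * Real.pi)).unique ((hG θ).congr_fun fun j => ?_)
    have e : ex ((j : ℤ) + 2) (θ + 2 * Real.pi) = ex ((j : ℤ) + 2) θ := by
      have e1 : Complex.I * (((j : ℤ) + 2 : ℤ) : ℂ) * ((θ + 2 * Real.pi : ℝ) : ℂ) =
          Complex.I * (((j : ℤ) + 2 : ℤ) : ℂ) * θ + (((j : ℤ) + 2 : ℤ) : ℂ) * (2 * Real.pi * Complex.I) := by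
        push_cast
        ring
      rw [ex, ex, e1, Complex.exp_add, Complex.exp_int_mul_two_pi_mul_I, mul_one]
    rw [e]
  have hP := lPars G hc hper
  have hf := fun n : ℤ => IF1.fcSum b (fun j : ℕ => (j : ℤ) + 2) G hb hG n
  have hin : Function.Injective fun j : ℕ => (j : ℤ) + 2 := by
    intro i j hij
    have : (i : ℤ) + 2 = (j : ℤ) + 2 := hij
    omega
  have hz : ∀ n : ℤ, n ∉ Set.range (fun j : ℕ => (j : ℤ) + 2) → 2 * Real.pi * ‖fc G n‖ ^ 2 = 0 := by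
    intro n hn
    have h1 : (fun j : ℕ => if (j : ℤ) + 2 = n then b j else 0) = fun _ => 0 := by
      funext j
      rw [if_neg fun hj => hn ⟨j, hj⟩]
    have h2 := hf n
    rw [h1] at h2
    rw [h2.unique hasSum_zero]
    simp
  have h3 := (hin.hasSum_iff hz).2 hP
  refine h3.congr_fun fun j => ?_
  show 2 * Real.pi * ‖b j‖ ^ 2 = 2 * Real.pi * ‖fc G ((j : ℤ) + 2)‖ ^ 2
  have h4 : HasSum (fun i : ℕ => if (i : ℤ) + 2 = (j : ℤ) + 2 then b i else 0)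
      (if (j : ℤ) + 2 = (j : ℤ) + 2 then b j else 0) := by
    refine hasSum_single j fun i hi => ?_
    rw [if_neg (by omega)]
  rw [if_pos rfl] at h4
  rw [(hf ((j : ℤ) + 2)).unique h4]

lemma pc_pow (r θ : ℝ) (n : ℕ) : pc r θ ^ n = (r : ℂ) ^ n * ex (n : ℤ) θ := by
  rw [pc, mul_pow, ← Complex.exp_nat_mul, ex]
  congr 2
  push_cast
  ring

lemma pc_ball {r : ℝ} (h0 : 0 < r) (h1 : r < 1) (θ : ℝ) : pc r θ ∈ Metric.ball (0 : ℂ) 1 := by
  rw [mem_ball_zero_iff, pc, norm_mul, Complex.norm_real, Real.norm_eq_abs, abs_of_pos h0,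
    mul_comm Complex.I, Complex.norm_exp_ofReal_mul_I, mul_one]
  exact h1

lemma sumB {F : ℂ → ℂ} {a : ℕ → ℂ} (h : Hol F a) {r : ℝ} (h0 : 0 < r) (h1 : r < 1) :
    Summable fun j : ℕ => ((j : ℝ) + 3) * ‖a (j + 3)‖ * r ^ (j + 3) := by
  have h2 := (summable_nat_add_iff 3).2 (IF1.sumA h h0.le h1)
  refine h2.congr fun j => ?_
  push_cast
  ring

lemma gdS {F : ℂ → ℂ} {a : ℕ → ℂ} {s : ℝ}
    (hg : ∀ w ∈ Metric.ball (0 : ℂ) 1, HasSum (fun n : ℕ => ((n + 3 : ℕ) : ℂ) * a (n + 3) * w ^ (n + 2)) (gd F s w))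
    {r : ℝ} (h0 : 0 < r) (h1 : r < 1) (θ : ℝ) :
    HasSum (fun j : ℕ => (((j : ℝ) + 3 : ℝ) : ℂ) * ((r ^ (j + 2) : ℝ) : ℂ) * a (j + 3) * ex ((j : ℤ) + 2) θ)
      (gd F s (pc r θ)) := by
  refine (hg _ (pc_ball h0 h1 θ)).congr_fun fun j => ?_
  have e : ((j + 2 : ℕ) : ℤ) = (j : ℤ) + 2 := by push_cast; ring
  rw [pc_pow, e]
  push_cast
  ring

lemma gd2 {F : ℂ → ℂ} {a : ℕ → ℂ} {s : ℝ} (h : Hol F a)
    (hg : ∀ w ∈ Metric.ball (0 : ℂ) 1, HasSum (fun n : ℕ => ((n + 3 : ℕ) : ℂ) * a (n + 3) * w ^ (n + 2)) (gd F s w))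
    {r : ℝ} (h0 : 0 < r) (h1 : r < 1) (hc : Continuous fun θ => gd F s (pc r θ)) :
    HasSum (fun j : ℕ => 2 * Real.pi * (((j : ℝ) + 3) ^ 2 * ‖a (j + 3)‖ ^ 2 * r ^ (2 * j + 4)))
      (∫ θ in (0 : ℝ)..(2 * Real.pi), ‖gd F s (pc r θ)‖ ^ 2) := by
  have hn : ∀ j : ℕ, ‖(((j : ℝ) + 3 : ℝ) : ℂ) * ((r ^ (j + 2) : ℝ) : ℂ) * a (j + 3)‖ =
      ((j : ℝ) + 3) * r ^ (j + 2) * ‖a (j + 3)‖ := by
    intro j
    rw [norm_mul, norm_mul, Complex.norm_real, Complex.norm_real, Real.norm_eq_abs, Real.norm_eq_abs,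
      abs_of_nonneg (by positivity), abs_of_nonneg (by positivity)]
  have hb : Summable fun j : ℕ => ‖(((j : ℝ) + 3 : ℝ) : ℂ) * ((r ^ (j + 2) : ℝ) : ℂ) * a (j + 3)‖ := by
    refine ((sumB h h0 h1).mul_left (1 / r)).congr fun j => ?_
    rw [hn, pow_succ r (j + 2)]
    field_simp
  have hp := par _ hb (fun θ => gd F s (pc r θ)) hc (gdS hg h0 h1)
  refine hp.congr_fun fun j => ?_
  rw [hn]
  ring

lemma pc_smul (σ r θ : ℝ) : (σ : ℂ) * pc r θ = pc (σ * r) θ := by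
  rw [pc, pc]
  push_cast
  ring

/-- Fubini -/
lemma fub {F : ℂ → ℂ} {a : ℕ → ℂ} (s : ℝ) (h : Hol F a) {r : ℝ} (h0 : 0 < r) (h1 : r < 1) :
    (∫ θ in (0 : ℝ)..(2 * Real.pi), ∫ σ in (0 : ℝ)..1, σ * ‖gd F s ((σ : ℂ) * pc r θ)‖ ^ 2) =
      ∫ σ in (0 : ℝ)..1, σ * ∫ θ in (0 : ℝ)..(2 * Real.pi), ‖gd F s ((σ : ℂ) * pc r θ)‖ ^ 2 := by
  have hd : ContinuousOn (deriv F) (Metric.ball 0 1) := (h.Fd.deriv Metric.isOpen_ball).continuousOn
  have hm : Continuous fun p : ℝ × ℝ => (p.2 : ℂ) * pc r p.1 := by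
    unfold pc
    fun_prop
  have hmt : MapsTo (fun p : ℝ × ℝ => (p.2 : ℂ) * pc r p.1) (Icc 0 (2 * Real.pi) ×ˢ Icc 0 1) (Metric.ball 0 1) := by
    rintro ⟨θ, σ⟩ ⟨-, hσ⟩
    have hσ0 : 0 ≤ σ := hσ.1
    have hσ1 : σ ≤ 1 := hσ.2
    show (σ : ℂ) * pc r θ ∈ Metric.ball (0 : ℂ) 1
    have h2 : ‖pc r θ‖ < 1 := by simpa using pc_ball h0 h1 θ
    rw [mem_ball_zero_iff, norm_mul, Complex.norm_real, Real.norm_eq_abs, abs_of_nonneg hσ0]
    exact (mul_le_of_le_one_left (norm_nonneg _) hσ1).trans_lt h2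
  have hcomp : ContinuousOn (fun p : ℝ × ℝ => p.2 * ‖gd F s ((p.2 : ℂ) * pc r p.1)‖ ^ 2)
      (Icc 0 (2 * Real.pi) ×ˢ Icc 0 1) := by
    have h3 : ContinuousOn (fun p : ℝ × ℝ => deriv F ((p.2 : ℂ) * pc r p.1)) (Icc 0 (2 * Real.pi) ×ˢ Icc 0 1) :=
      hd.comp hm.continuousOn hmt
    exact continuous_snd.continuousOn.mul (((h3.sub continuousOn_const).norm).pow 2)
  have hint : IntegrableOn (fun p : ℝ × ℝ => p.2 * ‖gd F s ((p.2 : ℂ) * pc r p.1)‖ ^ 2)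
      (Ioc 0 (2 * Real.pi) ×ˢ Ioc 0 1) (volume.prod volume) :=
    (hcomp.integrableOn_compact (isCompact_Icc.prod isCompact_Icc)).mono_set
      (prod_mono Ioc_subset_Icc_self Ioc_subset_Icc_self)
  have h2pi : (0 : ℝ) ≤ 2 * Real.pi := by positivity
  have hsw := integral_integral_swap (μ := volume.restrict (Ioc (0 : ℝ) (2 * Real.pi)))
    (ν := volume.restrict (Ioc (0 : ℝ) 1)) (f := fun θ σ : ℝ => σ * ‖gd F s ((σ : ℂ) * pc r θ)‖ ^ 2)
    (by rw [Measure.prod_restrict]; exact hint)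
  simp only [intervalIntegral.integral_of_le h2pi, intervalIntegral.integral_of_le zero_le_one]
  rw [hsw]
  simp only [MeasureTheory.integral_const_mul]

end IFK

open IFK in
theorem pr_FK (h : StSer) : StFK := by
  intro F a s hN r hr
  have hr0 : 0 < r := hr.1
  have hr1 : r < 1 := hr.2
  obtain ⟨-, -, -, hg, -, h6⟩ := h F a s hN
  obtain ⟨hth, hck, hcb, hcg⟩ := h6 r hr
  have hH : Hol F a := hN.toHol
  -- kf
  have hD1 : Summable fun n : ℕ => |((n + 3 : ℕ) : ℝ) / (n + 4 : ℕ) * r ^ (n + 4)| * ‖a (n + 3)‖ := by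
    refine Summable.of_nonneg_of_le (fun n => by positivity) (fun n => ?_) (sumB hH hr0 hr1)
    rw [abs_of_nonneg (by positivity)]
    have e1 : ((n + 3 : ℕ) : ℝ) / (n + 4 : ℕ) ≤ (n : ℝ) + 3 := by
      rw [div_le_iff₀ (by positivity)]
      push_cast
      nlinarith [(Nat.cast_nonneg n : (0 : ℝ) ≤ n)]
    have e2 : r ^ (n + 4) ≤ r ^ (n + 3) := pow_le_pow_of_le_one hr0.le hr1.le (by omega)
    calc ((n + 3 : ℕ) : ℝ) / (n + 4 : ℕ) * r ^ (n + 4) * ‖a (n + 3)‖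
        ≤ ((n : ℝ) + 3) * r ^ (n + 3) * ‖a (n + 3)‖ :=
          mul_le_mul_of_nonneg_right (mul_le_mul e1 e2 (by positivity) (by positivity)) (norm_nonneg _)
      _ = ((n : ℝ) + 3) * ‖a (n + 3)‖ * r ^ (n + 3) := by ring
  obtain ⟨k1, k2', k3⟩ := ser3 (fun n : ℕ => ((n + 3 : ℕ) : ℝ) / (n + 4 : ℕ) * r ^ (n + 4)) a
    (fun θ => kf F s r θ) hD1 (fun θ => (hth θ).2.2) hck
  -- real part of gd
  have hD2 : Summable fun n : ℕ => |((n : ℝ) + 3) * r ^ (n + 2)| * ‖a (n + 3)‖ := by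
    refine ((sumB hH hr0 hr1).mul_left (1 / r)).congr fun n => ?_
    rw [abs_of_nonneg (by positivity), pow_succ r (n + 2)]
    field_simp
  have hK2 : ∀ θ, HasSum (fun n : ℕ => ((n : ℝ) + 3) * r ^ (n + 2) * Rn a (n + 2) θ) (gd F s (pc r θ)).re := by
    intro θ
    have h1 := Complex.reCLM.hasSum (gdS hg hr0 hr1 θ)
    refine h1.congr_fun fun n => ?_
    have e : (((n : ℝ) + 3 : ℝ) : ℂ) * ((r ^ (n + 2) : ℝ) : ℂ) * a (n + 3) * ex ((n : ℤ) + 2) θ =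
        (((((n : ℝ) + 3) * r ^ (n + 2) : ℝ)) : ℂ) * (a (n + 2 + 1) * ex ((n + 2 : ℕ) : ℤ) θ) := by
      have e0 : ((n + 2 : ℕ) : ℤ) = (n : ℤ) + 2 := by push_cast; ring
      rw [e0]
      push_cast
      ring
    show ((n : ℝ) + 3) * r ^ (n + 2) * Rn a (n + 2) θ =
      ((((n : ℝ) + 3 : ℝ) : ℂ) * ((r ^ (n + 2) : ℝ) : ℂ) * a (n + 3) * ex ((n : ℤ) + 2) θ).re
    rw [e, Complex.re_ofReal_mul, Rn]
  obtain ⟨g1, g2, -⟩ := ser3 (fun n : ℕ => ((n : ℝ) + 3) * r ^ (n + 2)) a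
    (fun θ => (gd F s (pc r θ)).re) hD2 hK2 (Complex.continuous_re.comp hcg)
  have hG2 := gd2 hH hg hr0 hr1 hcg
  have hpi : (Real.pi : ℝ) ≠ 0 := Real.pi_ne_zero
  refine ⟨k1, g1, fun n hn => ⟨?_, ?_⟩, ?_, ?_, ?_⟩
  · rw [k2' n hn]
    obtain ⟨m, rfl⟩ := Nat.exists_eq_add_of_le' hn
    rw [Nat.add_sub_cancel]
    push_cast
    ring
  · rw [g2 n hn]
    obtain ⟨m, rfl⟩ := Nat.exists_eq_add_of_le' hn
    rw [Nat.add_sub_cancel]
    push_cast
    ring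
  · rw [k3, k2]
    congr 1
    refine tsum_congr fun n => ?_
    ring
  · have h1 := hG2.mul_left (r / Real.pi)
    have h2 : rhd a r = r / Real.pi * ∫ θ in (0 : ℝ)..(2 * Real.pi), ‖gd F s (pc r θ)‖ ^ 2 := by
      rw [← h1.tsum_eq, rhd]
      refine tsum_congr fun j => ?_
      have e : 2 * (j + 3) - 1 = 2 * j + 4 + 1 := by omega
      rw [e, pow_succ r (2 * j + 4), cc]
      push_cast
      field_simp
    rw [h2]
    field_simp
  · have hb : ∀ θ, bG F s r θ = r ^ 2 * ∫ σ in (0 : ℝ)..1, σ * ‖gd F s ((σ : ℂ) * pc r θ)‖ ^ 2 := fun θ => rfl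
    simp only [hb]
    rw [intervalIntegral.integral_const_mul, fub s hH hr0 hr1]
    have key := intervalIntegral.hasSum_integral_of_dominated_convergence (μ := volume) (a := 0) (b := 1)
      (F := fun (j : ℕ) (σ : ℝ) => 2 * Real.pi * (((j : ℝ) + 3) ^ 2 * ‖a (j + 3)‖ ^ 2 * r ^ (2 * j + 4)) * σ ^ (2 * j + 5))
      (f := fun σ : ℝ => σ * ∫ θ in (0 : ℝ)..(2 * Real.pi), ‖gd F s ((σ : ℂ) * pc r θ)‖ ^ 2)
      (fun j _ => 2 * Real.pi * (((j : ℝ) + 3) ^ 2 * ‖a (j + 3)‖ ^ 2 * r ^ (2 * j + 4)))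
      (fun j => (by fun_prop : Continuous fun σ : ℝ =>
        2 * Real.pi * (((j : ℝ) + 3) ^ 2 * ‖a (j + 3)‖ ^ 2 * r ^ (2 * j + 4)) * σ ^ (2 * j + 5)).aestronglyMeasurable)
      (fun j => Eventually.of_forall fun σ hσ => by
        rw [uIoc_of_le zero_le_one] at hσ
        rw [Real.norm_eq_abs, abs_mul, abs_of_nonneg (by positivity), abs_of_nonneg (pow_nonneg hσ.1.le _)]
        exact mul_le_of_le_one_right (by positivity) (pow_le_one₀ hσ.1.le hσ.2))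
      (Eventually.of_forall fun σ _ => hG2.summable)
      intervalIntegrable_const
      (Eventually.of_forall fun σ hσ => by
        rw [uIoc_of_le zero_le_one] at hσ
        have hσ0 : 0 < σ * r := mul_pos hσ.1 hr0
        have hσ1 : σ * r < 1 := (mul_le_of_le_one_left hr0.le hσ.2).trans_lt hr1
        obtain ⟨-, -, -, hc'⟩ := h6 (σ * r) ⟨hσ0, hσ1⟩
        have h1 := (gd2 hH hg hσ0 hσ1 hc').mul_left σ
        simp only [pc_smul]
        refine h1.congr_fun fun j => ?_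
        rw [mul_pow σ r (2 * j + 4), pow_succ σ (2 * j + 4)]
        ring)
    have hkey := key.mul_left (r ^ 2)
    rw [← hkey.tsum_eq, rh, ← tsum_mul_left]
    refine tsum_congr fun j => ?_
    rw [intervalIntegral.integral_const_mul, integral_pow, cc]
    have e : 2 * (j + 3) = 2 * j + 4 + 2 := by omega
    rw [e, pow_add r (2 * j + 4) 2]
    push_cast
    rw [one_pow, zero_pow (by omega)]
    field_simp
    ring

end Pool.Agent.MFK.CD
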