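import Pool.Agent.Work.MP_8826fd_mp.CD.Stmts
import Pool.Agent.Work.MP_8826fd_mp.NF.I_Fin

/-! # [8826fd CD] item Fin: scaling of the theorem -/

set_option autoImplicit false

namespace Pool.Agent.MFK.CD

open MeasureTheory Set Filter Topology Pool.Agent.MFK.NF

namespace IFin

/-- the centre in the plane -/
noncomputable def ctr (R : ℝ) (q : ℂ) : ℝ × ℝ := (R * q.re, R * q.im)

theorem norm_sub_eq (y : ℝ × ℝ) (q : ℂ) :
    ‖(⟨y.1, y.2⟩ : ℂ) - q‖ = Real.sqrt ((y.1 - q.re) ^ 2 + (y.2 - q.im) ^ 2) := by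
  rw [Complex.norm_eq_sqrt_sq_add_sq]
  rfl

theorem aff_ball {R : ℝ} (hR : 0 < R) (q : ℂ) :
    Sc.aff 0 R '' toR (Metric.ball q 1) = edisc (ctr R q) R := by
  rw [Sc.aff_image hR]
  ext x
  show ((⟨R⁻¹ * (x.1 - 0), R⁻¹ * (x.2 - 0)⟩ : ℂ) ∈ Metric.ball q 1) ↔
    (x.1 - R * q.re) ^ 2 + (x.2 - R * q.im) ^ 2 < R ^ 2
  rw [mem_ball_iff_norm, norm_sub_eq (R⁻¹ * (x.1 - 0), R⁻¹ * (x.2 - 0)) q,
    Real.sqrt_lt' one_pos]
  show (R⁻¹ * (x.1 - 0) - q.re) ^ 2 + (R⁻¹ * (x.2 - 0) - q.im) ^ 2 < 1 ^ 2 ↔ _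
  have h : (x.1 - R * q.re) ^ 2 + (x.2 - R * q.im) ^ 2 =
      R ^ 2 * ((R⁻¹ * (x.1 - 0) - q.re) ^ 2 + (R⁻¹ * (x.2 - 0) - q.im) ^ 2) := by
    field_simp
    ring
  rw [h]
  constructor
  · intro h1
    nlinarith [pow_pos hR 2]
  · intro h1
    have h2 : (0 : ℝ) < R ^ 2 := by positivity
    by_contra h3
    rw [not_lt, one_pow] at h3
    nlinarith

theorem toR_symmDiff (S T : Set ℂ) : toR (symmDiff S T) = symmDiff (toR S) (toR T) := rfl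

theorem meas_toR {S : Set ℂ} (h : MeasurableSet S) : MeasurableSet (toR S) :=
  Complex.measurableEquivRealProd.symm.measurable h

theorem int_toR (S : Set ℂ) (h : ℂ → ℝ) :
    (∫ y in toR S, h ⟨y.1, y.2⟩) = ∫ z in S, h z :=
  Complex.volume_preserving_equiv_real_prod.symm.setIntegral_preimage_emb
    Complex.measurableEquivRealProd.symm.measurableEmbedding h S

theorem scale {R : ℝ} (hR : 0 < R) (t : ℝ) : min |R * t - R| R = R * min |t - 1| 1 := by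
  rw [mul_min_of_nonneg _ _ hR.le, mul_one, show R * t - R = R * (t - 1) by ring, abs_mul,
    abs_of_pos hR]

theorem int_eq {R : ℝ} (hR : 0 < R) (q : ℂ) {S : Set ℂ} (hS : IsOpen S) :
    (∫ x in symmDiff (Sc.aff 0 R '' toR S) (edisc (ctr R q) R),
      min |Real.sqrt ((x.1 - (ctr R q).1) ^ 2 + (x.2 - (ctr R q).2) ^ 2) - R| R)
      = R ^ 3 * dft q 1 S := by
  rw [← aff_ball hR q, ← Set.image_symmDiff (Sc.aff_inj hR 0), ← toR_symmDiff]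
  have hm : MeasurableSet (toR (symmDiff S (Metric.ball q 1))) :=
    meas_toR (hS.measurableSet.symmDiff Metric.isOpen_ball.measurableSet)
  rw [integral_image_eq_integral_abs_det_fderiv_smul (volume : Measure (ℝ × ℝ))
    hm (fun x _ => Sc.hasFDeriv_aff 0 R _ x) (Sc.aff_inj hR 0).injOn]
  have h1 : ∀ y : ℝ × ℝ, |(R • ContinuousLinearMap.id ℝ (ℝ × ℝ)).det| •
      min |Real.sqrt (((Sc.aff 0 R y).1 - (ctr R q).1) ^ 2 +
        ((Sc.aff 0 R y).2 - (ctr R q).2) ^ 2) - R| R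
      = R ^ 3 * (fun z : ℂ => min |‖z - q‖ - 1| 1) ⟨y.1, y.2⟩ := by
    intro y
    rw [Sc.det_aff R hR, smul_eq_mul]
    have h2 : Real.sqrt (((Sc.aff 0 R y).1 - (ctr R q).1) ^ 2 +
        ((Sc.aff 0 R y).2 - (ctr R q).2) ^ 2) = R * ‖(⟨y.1, y.2⟩ : ℂ) - q‖ := by
      rw [norm_sub_eq]
      have h3 : ((Sc.aff 0 R y).1 - (ctr R q).1) ^ 2 + ((Sc.aff 0 R y).2 - (ctr R q).2) ^ 2 =
          R ^ 2 * ((y.1 - q.re) ^ 2 + (y.2 - q.im) ^ 2) := by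
        show (0 + R * y.1 - R * q.re) ^ 2 + (0 + R * y.2 - R * q.im) ^ 2 = _
        ring
      rw [h3, Real.sqrt_mul (by positivity), Real.sqrt_sq hR.le]
    rw [h2, scale hR]
    ring
  simp only [h1]
  rw [integral_const_mul]
  congr 1
  exact int_toR (symmDiff S (Metric.ball q 1)) (fun z : ℂ => min |‖z - q‖ - 1| 1)

end IFin

theorem pr_Fin (h1 : StMU) : StFin := by
  intro B R hB hR
  obtain ⟨ε, hε, c, hc, H⟩ := h1 (B * R ^ 2) (by positivity)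
  refine ⟨ε, hε, c * ((R ^ 2)⁻¹ * (R ^ 3)⁻¹), by positivity, fun Ω F₁ hO hsc hvol hF hm hd => ?_⟩
  have hne := NF.IFin.nd_eq 0 hR Ω
  have hO' : IsOpen (NF.IFin.nd 0 R Ω) := by
    rw [hne]
    exact hO.preimage (NF.IFin.hom 0 hR).continuous
  have hsc' : IsSimplyConnected (NF.IFin.nd 0 R Ω) := by
    rw [hne, Homeomorph.isSimplyConnected_preimage]
    exact hsc
  have himg := NF.IFin.image_toR 0 hR Ω
  have hvol' : volume (NF.IFin.nd 0 R Ω) = ENNReal.ofReal Real.pi := by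
    have e1 := NF.IFin.vol_aff 0 hR (toR (NF.IFin.nd 0 R Ω))
    rw [himg, hvol, F3.vol_edisc 0 hR.le, NF.IFin.vol_toR hO', mul_comm Real.pi,
      ENNReal.ofReal_mul (by positivity)] at e1
    have h0 : ENNReal.ofReal (R ^ 2) ≠ 0 := by
      rw [Ne, ENNReal.ofReal_eq_zero, not_le]
      positivity
    exact ((ENNReal.mul_right_inj h0 ENNReal.ofReal_ne_top).1 e1).symm
  have hRc : (R : ℂ) ≠ 0 := by exact_mod_cast hR.ne'
  have hF' : DifferentiableOn ℂ (fun w => (R : ℂ)⁻¹ * F₁ w) (Metric.ball 0 1) :=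
    hF.const_mul _
  have hm' : MapsTo (fun w => (R : ℂ)⁻¹ * F₁ w) (Metric.ball 0 1) (NF.IFin.nd 0 R Ω) := by
    intro w hw
    have h2 := hm w hw
    show ((0 : ℝ × ℝ).1 + R * ((R : ℂ)⁻¹ * F₁ w).re, (0 : ℝ × ℝ).2 + R * ((R : ℂ)⁻¹ * F₁ w).im) ∈ Ω
    have h3 : ((R : ℂ)⁻¹ * F₁ w) = ((R⁻¹ : ℝ) : ℂ) * F₁ w := by push_cast; rfl
    rw [h3, Complex.re_ofReal_mul, Complex.im_ofReal_mul, mul_inv_cancel_left₀ hR.ne',
      mul_inv_cancel_left₀ hR.ne']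
    have h4 : ((0 : ℝ × ℝ).1 + (F₁ w).re, (0 : ℝ × ℝ).2 + (F₁ w).im) = ((F₁ w).re, (F₁ w).im) := by
      show ((0 : ℝ) + (F₁ w).re, (0 : ℝ) + (F₁ w).im) = _
      rw [zero_add, zero_add]
    rw [h4]
    exact h2
  have hd' : 1 - ε ≤ ‖deriv (fun w => (R : ℂ)⁻¹ * F₁ w) 0‖ := by
    have hda : DifferentiableAt ℂ F₁ 0 :=
      hF.differentiableAt (Metric.isOpen_ball.mem_nhds (Metric.mem_ball_self one_pos))
    rw [deriv_const_mul _ hda, norm_mul, norm_inv, Complex.norm_real, Real.norm_of_nonneg hR.le]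
    rw [inv_mul_eq_div, le_div_iff₀ hR]
    exact hd
  obtain ⟨q, hle, heq⟩ := H (NF.IFin.nd 0 R Ω) (fun w => (R : ℂ)⁻¹ * F₁ w) hO' hsc' hvol' hF' hm' hd'
  have s1 : lamN B Ω = (R ^ 2)⁻¹ * lamN (B * R ^ 2) (toR (NF.IFin.nd 0 R Ω)) := by
    have h2 := sc B R 0 (toR (NF.IFin.nd 0 R Ω)) hR (NF.IFin.isOpen_toR hO')
    rw [← h2]
    congr 1
    exact himg.symm
  have s2 : lamN B (edisc 0 R) = (R ^ 2)⁻¹ * lamN (B * R ^ 2) disc := by
    have h2 := sc B R 0 disc hR NF.IFin.isOpen_disc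
    rw [← h2]
    congr 1
    exact F2.edisc_image hR 0
  have hR2 : (0 : ℝ) < (R ^ 2)⁻¹ := by positivity
  refine ⟨IFin.ctr R q, ?_, fun he => ?_⟩
  · have h5 := IFin.int_eq hR q hO'
    rw [himg] at h5
    rw [h5, s1, s2]
    have h6 : c * ((R ^ 2)⁻¹ * (R ^ 3)⁻¹) * (R ^ 3 * dft q 1 (NF.IFin.nd 0 R Ω)) =
        (R ^ 2)⁻¹ * (c * dft q 1 (NF.IFin.nd 0 R Ω)) := by
      field_simp
    rw [h6, ← mul_sub]
    exact mul_le_mul_of_nonneg_left hle hR2.le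
  · rw [s1, s2] at he
    have h3 := heq (mul_left_cancel₀ hR2.ne' he)
    rw [← IFin.aff_ball hR q, ← h3]
    exact himg.symm

end Pool.Agent.MFK.CD
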