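import Pool.Agent.Work.MP_8826fd_mp.CD.Stmts

/-!
# MP_8826fd_mp, block CD: item Key
-/

set_option autoImplicit false

namespace Pool.Agent.MFK.CD

open MeasureTheory Set Filter Topology Pool.Agent.MFK.NF

namespace IKey

/-- `σ(r) r^(2n+2) g(r)²` -/
noncomputable def Fq (B lam : ℝ) (m n : ℕ) (g : ℝ → ℝ) (r : ℝ) : ℝ :=
  (lam + B * (2 * m - B * r ^ 2) / (n + 2)) * r ^ (2 * n + 2) * g r ^ 2

/-- its derivative -/
noncomputable def Fd (B lam : ℝ) (m n : ℕ) (g : ℝ → ℝ) (r : ℝ) : ℝ :=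
  ((-(2 * B ^ 2 * r / (n + 2))) * r ^ (2 * n + 2)
    + (lam + B * (2 * m - B * r ^ 2) / (n + 2)) * ((2 * n + 2) * r ^ (2 * n + 1))) * g r ^ 2
  + (lam + B * (2 * m - B * r ^ 2) / (n + 2)) * r ^ (2 * n + 2) * (2 * g r * deriv g r)

theorem hFd (B lam : ℝ) (m n : ℕ) (g : ℝ → ℝ) (hd : ∀ r, HasDerivAt g (deriv g r) r) (r : ℝ) :
    HasDerivAt (Fq B lam m n g) (Fd B lam m n g r) r := by
  have h1 : HasDerivAt (fun t : ℝ => lam + B * (2 * m - B * t ^ 2) / (n + 2))
      (-(2 * B ^ 2 * r / (n + 2))) r := by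
    have a1 : HasDerivAt (fun t : ℝ => t ^ 2) (2 * r) r := by
      simpa using hasDerivAt_pow 2 r
    have a2 := (((a1.const_mul B).const_sub (2 * (m : ℝ))).const_mul B).div_const ((n : ℝ) + 2)
    have a3 := a2.const_add lam
    refine a3.congr_deriv ?_
    ring
  have h2 : HasDerivAt (fun t : ℝ => t ^ (2 * n + 2)) ((2 * n + 2) * r ^ (2 * n + 1)) r := by
    have a1 := hasDerivAt_pow (2 * n + 2) r
    refine a1.congr_deriv ?_
    push_cast
    rfl
  have h3 : HasDerivAt (fun t : ℝ => g t ^ 2) (2 * g r * deriv g r) r := by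
    have a1 := (hd r).fun_pow 2
    refine a1.congr_deriv ?_
    push_cast
    ring
  have h4 := (h1.fun_mul h2).fun_mul h3
  unfold Fq
  refine h4.congr_deriv ?_
  unfold Fd
  ring

theorem ident (B lam : ℝ) (m n : ℕ) (g : ℝ → ℝ) (hd : ∀ r, HasDerivAt g (deriv g r) r)
    (gdc : Continuous (deriv g)) :
    TT B lam m n g - 2 * (∫ r in (0 : ℝ)..1, Sn B lam m n 1 g r * at1 B m n g r)
      - 2 * (∫ r in (0 : ℝ)..1, Sn B lam m n (-1) g r * bt1 B m n g r)
    = (n + 1) * (∫ r in (0 : ℝ)..1, 2 * r * (B * (m - B * r ^ 2 / 2) + lam) * g r ^ 2)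
      - (n + 1) * ((lam + B * (2 * m - B) / (n + 2)) * g 1 ^ 2) := by
  have gc : Continuous g := continuous_iff_continuousAt.mpr fun r => (hd r).continuousAt
  have hn2 : ((n : ℝ) + 2) ≠ 0 := by positivity
  have cF : Continuous (Fd B lam m n g) := by
    unfold Fd
    fun_prop
  have hF : (∫ r in (0 : ℝ)..1, Fd B lam m n g r)
      = (lam + B * (2 * m - B) / (n + 2)) * g 1 ^ 2 := by
    rw [intervalIntegral.integral_eq_sub_of_hasDerivAt (fun r _ => hFd B lam m n g hd r)
      (cF.intervalIntegrable 0 1)]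
    unfold Fq
    simp
  have c1 : Continuous (fun r : ℝ => (-(2 * B * (m - B * r ^ 2 / 2)) * (r ^ (2 * n + 1) - r)
    - lam * (2 * (n + 1) * r ^ (2 * n + 1) - 2 * r)) * g r ^ 2) := by fun_prop
  have c2 : Continuous (fun r : ℝ => g r ^ 2 * r ^ (2 * n + 3)) := by fun_prop
  have c3 : Continuous (fun r : ℝ => Sn B lam m n 1 g r * at1 B m n g r) := by
    unfold Sn at1 cf
    fun_prop
  have c4 : Continuous (fun r : ℝ => Sn B lam m n (-1) g r * bt1 B m n g r) := by
    unfold Sn bt1 cf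
    fun_prop
  have c5 : Continuous (fun r : ℝ => 2 * r * (B * (m - B * r ^ 2 / 2) + lam) * g r ^ 2) := by
    fun_prop
  rw [← hF]
  unfold TT
  rw [← intervalIntegral.integral_const_mul, ← intervalIntegral.integral_const_mul,
    ← intervalIntegral.integral_const_mul, ← intervalIntegral.integral_const_mul,
    ← intervalIntegral.integral_const_mul, ← intervalIntegral.integral_const_mul,
    ← intervalIntegral.integral_add, ← intervalIntegral.integral_sub,
    ← intervalIntegral.integral_sub, ← intervalIntegral.integral_sub]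
  · refine intervalIntegral.integral_congr fun r _ => ?_
    unfold Fd Sn at1 bt1 cf
    field_simp
    ring
  all_goals
    apply Continuous.intervalIntegrable
    fun_prop

end IKey

theorem pr_Key (h1 : StVir) (h2 : StOA) : StKey := by
  intro B lam m n hSp hn
  have hB := hSp.hB
  have hl := hSp.lam_lt
  have hz := hSp.zero
  obtain ⟨⟨-, -, hA⟩, ⟨-, -, hBt⟩⟩ := h2 B lam m n hB hl 1 one_pos
  obtain ⟨hv, -⟩ := h1 B lam m hSp
  have hn2 : ((n : ℝ) + 2) ≠ 0 := by positivity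
  have hid := IKey.ident B lam m n (gk B lam m) (gk_d1 hB hl m) (gk_dcont hB hl m)
  rw [hv] at hid
  rw [hz] at hA hBt
  have eA : deriv (at1 B m n (gk B lam m)) 1
      = gk B lam m 1 * ((B / 2 - m) ^ 2 - lam - n * (B / 2 - m)) / 2 := by
    rw [← one_mul (deriv (at1 B m n (gk B lam m)) 1), hA]
    unfold cf
    simp only [one_pow]
    field_simp
    ring
  have eB : deriv (bt1 B m n (gk B lam m)) 1
      = gk B lam m 1 * ((B / 2 - m) ^ 2 - lam + n * (B / 2 - m)) / 2 := by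
    rw [← one_mul (deriv (bt1 B m n (gk B lam m)) 1), hBt]
    unfold cf
    simp only [one_pow]
    field_simp
    ring
  refine ⟨eA, eB, ?_⟩
  have a1 : at1 B m n (gk B lam m) 1 = (m - B * n / (2 * (n + 2))) * gk B lam m 1 / 2 := by
    unfold at1 cf
    rw [hz]
    ring
  have b1 : bt1 B m n (gk B lam m) 1 = -((m - B * n / (2 * (n + 2))) * gk B lam m 1 / 2) := by
    unfold bt1 cf
    rw [hz]
    ring
  rw [eA, eB, a1, b1]
  have hid2 : TT B lam m n (gk B lam m)
      = (n + 1) * ((lam - (B / 2 - m) ^ 2) * gk B lam m 1 ^ 2)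
      - (n + 1) * ((lam + B * (2 * m - B) / (n + 2)) * gk B lam m 1 ^ 2)
      + 2 * (∫ r in (0 : ℝ)..1, Sn B lam m n 1 (gk B lam m) r * at1 B m n (gk B lam m) r)
      + 2 * (∫ r in (0 : ℝ)..1, Sn B lam m n (-1) (gk B lam m) r * bt1 B m n (gk B lam m) r) := by
    linarith
  rw [hid2]
  field_simp
  ring

end Pool.Agent.MFK.CD
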