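import Pool.Agent.Work.MP_8826fd_mp.CD.Stmts
import Pool.Agent.Work.MP_8826fd_mp.NF.I_En
import Pool.Agent.Work.MP_8826fd_mp.NF.I_Ray

/-!
# MP_8826fd_mp, block CD, item Lam (by helper84): the Rayleigh quotient of the test function
-/

set_option autoImplicit false

namespace Pool.Agent.MFK.CD

open MeasureTheory Set Filter Topology Pool.Agent.MFK.NF

namespace ILam

/-- energy of the test function on `Ω` -/
theorem energy (h1 : StDen2) (h2 : StPC2) {B : ℝ} {Ω : Set ℂ} {f F : ℂ → ℂ} {a : ℕ → ℂ} {φ : ℂ → ℝ} {V : ℂ → ℂ}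
    (hCM : CMc Ω f F a) (hG : Gau F φ) (hV : ContDiff ℝ 1 V) :
    (∫⁻ z in Ω, ENNReal.ofReal (edC B (UV B V φ f) z)) = EE B F V := by
  obtain ⟨hU, hD⟩ := h1 Ω f F a φ B V hCM hG hV
  have hF : ContinuousOn F (Metric.ball 0 1) := hCM.Fd.continuousOn
  have hball : MeasurableSet (Metric.ball (0 : ℂ) 1) := Metric.isOpen_ball.measurableSet
  have hm : AEMeasurable (fun w => ENNReal.ofReal (edC B (UV B V φ f) (F w)))
      (volume.restrict (Metric.ball (0 : ℂ) 1)) := by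
    have hc : ContinuousOn (fun w => edC B (UV B V φ f) (F w)) (Metric.ball (0 : ℂ) 1) :=
      (IEn.cont_edC hCM.opn hU).comp hF hCM.Fm
    exact (hc.aemeasurable hball).ennreal_ofReal
  rw [h2 Ω f F a (fun z => ENNReal.ofReal (edC B (UV B V φ f) z)) hCM hm]
  unfold EE
  refine setLIntegral_congr_fun measurableSet_Ioo (fun r hr => ?_)
  have e1 : ∀ θ : ℝ, ENNReal.ofReal (r * ‖deriv F (pc r θ)‖ ^ 2)
      * ENNReal.ofReal (edC B (UV B V φ f) (F (pc r θ))) = ENNReal.ofReal (eE B F V r θ) := by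
    intro θ
    have h := hr.1
    rw [← ENNReal.ofReal_mul (by positivity), (hD r hr θ).1]
  simp_rw [e1]

/-- mass of the test function on `Ω` -/
theorem mass (h1 : StDen2) (h2 : StPC2) {B : ℝ} {Ω : Set ℂ} {f F : ℂ → ℂ} {a : ℕ → ℂ} {φ : ℂ → ℝ} {V : ℂ → ℂ}
    (hCM : CMc Ω f F a) (hG : Gau F φ) (hV : ContDiff ℝ 1 V) :
    (∫⁻ z in Ω, ENNReal.ofReal (‖UV B V φ f z‖ ^ 2)) = MM F V := by
  obtain ⟨hU, hD⟩ := h1 Ω f F a φ B V hCM hG hV
  have hF : ContinuousOn F (Metric.ball 0 1) := hCM.Fd.continuousOn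
  have hball : MeasurableSet (Metric.ball (0 : ℂ) 1) := Metric.isOpen_ball.measurableSet
  have hm : AEMeasurable (fun w => ENNReal.ofReal (‖UV B V φ f (F w)‖ ^ 2))
      (volume.restrict (Metric.ball (0 : ℂ) 1)) := by
    have hc : ContinuousOn (fun w => ‖UV B V φ f (F w)‖ ^ 2) (Metric.ball (0 : ℂ) 1) :=
      ((hU.continuousOn.comp hF hCM.Fm).norm).pow 2
    exact (hc.aemeasurable hball).ennreal_ofReal
  rw [h2 Ω f F a (fun z => ENNReal.ofReal (‖UV B V φ f z‖ ^ 2)) hCM hm]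
  unfold MM
  refine setLIntegral_congr_fun measurableSet_Ioo (fun r hr => ?_)
  have e1 : ∀ θ : ℝ, ENNReal.ofReal (r * ‖deriv F (pc r θ)‖ ^ 2)
      * ENNReal.ofReal (‖UV B V φ f (F (pc r θ))‖ ^ 2) = ENNReal.ofReal (eM F V r θ) := by
    intro θ
    have h := hr.1
    rw [← ENNReal.ofReal_mul (by positivity), (hD r hr θ).2]
    rfl
  simp_rw [e1]

end ILam

theorem pr_Lam (h1 : StDen2) (h2 : StPC2) : StLam := by
  intro B ℓ Ω f F a φ V hCM hG hV hE hM hM0 hle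
  have hU := (h1 Ω f F a φ B V hCM hG hV).1
  have eqE := ILam.energy h1 h2 (B := B) hCM hG hV
  have eqM := ILam.mass h1 h2 (B := B) hCM hG hV
  refine pr_Ray B ℓ Ω (UV B V φ f) hCM.opn hU ?_ ?_ ?_ ?_
  · rw [eqE]; exact hE
  · rw [eqM]; exact hM
  · rw [eqM]; exact hM0
  · rw [eqE, eqM]; exact hle

end Pool.Agent.MFK.CD
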