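import Pool.Agent.Work.MP_8826fd_mp.CD.Stmts

/-!
# MP_8826fd_mp, block CD: item Par
-/

set_option autoImplicit false

namespace Pool.Agent.MFK.CD

open MeasureTheory Set Filter Topology Pool.Agent.MFK.NF

namespace IPar

theorem intg {f : ℝ → ℝ} {K : ℝ} (hm : AEStronglyMeasurable f (volume.restrict (Ioo (0 : ℝ) 1)))
    (hb : ∀ r ∈ Ioo (0 : ℝ) 1, |f r| ≤ K) : IntervalIntegrable f volume 0 1 := by
  rw [intervalIntegrable_iff_integrableOn_Ioo_of_le zero_le_one]
  refine Integrable.of_bound hm K ?_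
  rw [ae_restrict_iff' measurableSet_Ioo]
  exact Eventually.of_forall fun r hr => by
    rw [Real.norm_eq_abs]
    exact hb r hr

theorem lim0 {f : ℝ → ℝ} {K : ℝ} (hb : ∀ r ∈ Ioo (0 : ℝ) 1, |f r| ≤ K * r) :
    Tendsto f (𝓝[>] 0) (𝓝 0) := by
  have h1 : Tendsto (fun r : ℝ => K * r) (𝓝[>] 0) (𝓝 0) := by
    have h2 : Tendsto (fun r : ℝ => K * r) (𝓝 0) (𝓝 (K * 0)) :=
      (continuous_const.mul continuous_id).tendsto 0
    rw [mul_zero] at h2
    exact h2.mono_left nhdsWithin_le_nhds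
  refine squeeze_zero_norm' ?_ h1
  filter_upwards [Ioo_mem_nhdsGT (zero_lt_one' ℝ)] with r hr
  rw [Real.norm_eq_abs]
  exact hb r hr

theorem parA (B lam C : ℝ) (l : ℤ) (P S : ℝ → ℝ) (hS : Continuous S)
    (hP : ∀ r, 0 < r → HasDerivAt P (deriv P r) r ∧
      HasDerivAt (fun t => t * deriv P t) ((qn B l r ^ 2 - lam) * (r * P r) - S r) r)
    (hb : Bdd C l P) :
    IntervalIntegrable (fun r => S r * P r) volume 0 1 ∧
    Il B lam l P = P 1 * deriv P 1 + ∫ r in (0 : ℝ)..1, S r * P r := by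
  have hC : 0 ≤ C := (abs_nonneg _).trans (hb (1 / 2) (by constructor <;> norm_num)).1
  have mP : AEStronglyMeasurable P (volume.restrict (Ioo (0 : ℝ) 1)) :=
    ContinuousOn.aestronglyMeasurable
      (fun r hr => ((hP r hr.1).1.continuousAt).continuousWithinAt) measurableSet_Ioo
  have mD : AEStronglyMeasurable (deriv P) (volume.restrict (Ioo (0 : ℝ) 1)) :=
    (measurable_deriv P).aestronglyMeasurable
  have mq : AEStronglyMeasurable (qn B l) (volume.restrict (Ioo (0 : ℝ) 1)) := by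
    apply Measurable.aestronglyMeasurable
    unfold qn
    fun_prop
  have mi : AEStronglyMeasurable (fun r : ℝ => r) (volume.restrict (Ioo (0 : ℝ) 1)) :=
    measurable_id.aestronglyMeasurable
  have m1 : AEStronglyMeasurable
      (fun r => r * deriv P r ^ 2 + (qn B l r ^ 2 - lam) * (r * P r ^ 2))
      (volume.restrict (Ioo (0 : ℝ) 1)) :=
    (mi.mul (mD.pow 2)).add (((mq.pow 2).sub aestronglyMeasurable_const).mul (mi.mul (mP.pow 2)))
  obtain ⟨KS, hKS⟩ :=
    (isCompact_Icc (a := (0 : ℝ)) (b := 1)).exists_bound_of_continuousOn hS.continuousOn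
  have b1 : ∀ r ∈ Ioo (0 : ℝ) 1, |r * deriv P r ^ 2 + (qn B l r ^ 2 - lam) * (r * P r ^ 2)|
      ≤ C ^ 2 + (C + |B| * C) ^ 2 + |lam| * C ^ 2 := by
    intro r hr
    obtain ⟨e1, e2, e3⟩ := hb r hr
    have hQ : |qn B l r * P r| ≤ C + |B| * C := by
      have h0 : qn B l r * P r = l / r * P r - B * (r / 2 * P r) := by
        unfold qn
        ring
      rw [h0]
      refine (abs_sub _ _).trans ?_
      rw [abs_mul B]
      have h2 : |r / 2 * P r| ≤ C := by
        rw [abs_mul]
        have h1 : |r / 2| ≤ 1 := by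
          rw [abs_of_pos (by linarith [hr.1])]
          linarith [hr.2]
        calc |r / 2| * |P r| ≤ 1 * C := mul_le_mul h1 e1 (abs_nonneg _) zero_le_one
          _ = C := one_mul C
      have h3 := mul_le_mul_of_nonneg_left h2 (abs_nonneg B)
      linarith
    have s1 : deriv P r ^ 2 ≤ C ^ 2 := sq_le_sq' (abs_le.mp e2).1 (abs_le.mp e2).2
    have s2 : (qn B l r * P r) ^ 2 ≤ (C + |B| * C) ^ 2 := sq_le_sq' (abs_le.mp hQ).1 (abs_le.mp hQ).2
    have s3 : P r ^ 2 ≤ C ^ 2 := sq_le_sq' (abs_le.mp e1).1 (abs_le.mp e1).2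
    have e : r * deriv P r ^ 2 + (qn B l r ^ 2 - lam) * (r * P r ^ 2)
        = r * (deriv P r ^ 2 + (qn B l r * P r) ^ 2 - lam * P r ^ 2) := by ring
    rw [e, abs_mul, abs_of_pos hr.1]
    have h4 : |deriv P r ^ 2 + (qn B l r * P r) ^ 2 - lam * P r ^ 2|
        ≤ C ^ 2 + (C + |B| * C) ^ 2 + |lam| * C ^ 2 := by
      refine (abs_sub _ _).trans ?_
      rw [abs_of_nonneg (by positivity : (0 : ℝ) ≤ deriv P r ^ 2 + (qn B l r * P r) ^ 2), abs_mul,
        abs_of_nonneg (sq_nonneg (P r))]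
      have h5 := mul_le_mul_of_nonneg_left s3 (abs_nonneg lam)
      linarith
    calc r * |deriv P r ^ 2 + (qn B l r * P r) ^ 2 - lam * P r ^ 2|
        ≤ 1 * (C ^ 2 + (C + |B| * C) ^ 2 + |lam| * C ^ 2) :=
          mul_le_mul hr.2.le h4 (abs_nonneg _) zero_le_one
      _ = C ^ 2 + (C + |B| * C) ^ 2 + |lam| * C ^ 2 := one_mul _
  have hder : ∀ r ∈ Ioo (0 : ℝ) 1, HasDerivAt (fun t => (t * deriv P t) * P t)
      ((r * deriv P r ^ 2 + (qn B l r ^ 2 - lam) * (r * P r ^ 2)) - S r * P r) r := by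
    intro r hr
    refine ((hP r hr.1).2.fun_mul (hP r hr.1).1).congr_deriv ?_
    ring
  have i1 := intg m1 b1
  have i2 : IntervalIntegrable (fun r => S r * P r) volume 0 1 :=
    intg (K := KS * C) (hS.aestronglyMeasurable.mul mP) (by
      intro r hr
      rw [abs_mul]
      have h := hKS r ⟨hr.1.le, hr.2.le⟩
      rw [Real.norm_eq_abs] at h
      exact mul_le_mul h (hb r hr).1 (abs_nonneg _) ((abs_nonneg _).trans h))
  have hl0 : Tendsto (fun t => (t * deriv P t) * P t) (𝓝[>] 0) (𝓝 0) :=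
    lim0 (K := C * C) (by
      intro r hr
      rw [abs_mul, abs_mul, abs_of_pos hr.1]
      have h := mul_le_mul (hb r hr).2.1 (hb r hr).1 (abs_nonneg _) hC
      have h' := mul_le_mul_of_nonneg_left h hr.1.le
      linarith)
  have hl1 : Tendsto (fun t => (t * deriv P t) * P t) (𝓝[<] 1) (𝓝 ((1 * deriv P 1) * P 1)) :=
    (((hP 1 one_pos).2.continuousAt.mul (hP 1 one_pos).1.continuousAt).tendsto).mono_left
      nhdsWithin_le_nhds
  have hF := intervalIntegral.integral_eq_sub_of_hasDerivAt_of_tendsto zero_lt_one hder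
    (i1.sub i2) hl0 hl1
  rw [intervalIntegral.integral_sub i1 i2] at hF
  refine ⟨i2, ?_⟩
  unfold Il
  linarith

theorem parB (B lam C : ℝ) (l : ℤ) (A h S : ℝ → ℝ) (hS : Continuous S)
    (hA : ∀ r, 0 < r → HasDerivAt A (deriv A r) r ∧
      HasDerivAt (fun t => t * deriv A t) ((qn B l r ^ 2 - lam) * (r * A r) - S r) r)
    (hh : ∀ r, 0 < r → HasDerivAt h (deriv h r) r ∧
      HasDerivAt (fun t => t * deriv h t) ((qn B l r ^ 2 - lam) * (r * h r)) r)
    (hbA : Bdd C l A) (hbh : Bdd C l h) :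
    IntervalIntegrable (fun r => S r * h r) volume 0 1 ∧
    (∫ r in (0 : ℝ)..1, S r * h r) = A 1 * deriv h 1 - deriv A 1 * h 1 := by
  have hC : 0 ≤ C := (abs_nonneg _).trans (hbA (1 / 2) (by constructor <;> norm_num)).1
  have mh : AEStronglyMeasurable h (volume.restrict (Ioo (0 : ℝ) 1)) :=
    ContinuousOn.aestronglyMeasurable
      (fun r hr => ((hh r hr.1).1.continuousAt).continuousWithinAt) measurableSet_Ioo
  obtain ⟨KS, hKS⟩ :=
    (isCompact_Icc (a := (0 : ℝ)) (b := 1)).exists_bound_of_continuousOn hS.continuousOn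
  have hder : ∀ r ∈ Ioo (0 : ℝ) 1,
      HasDerivAt (fun t => (t * deriv h t) * A t - (t * deriv A t) * h t) (S r * h r) r := by
    intro r hr
    refine (((hh r hr.1).2.fun_mul (hA r hr.1).1).fun_sub
      ((hA r hr.1).2.fun_mul (hh r hr.1).1)).congr_deriv ?_
    ring
  have i2 : IntervalIntegrable (fun r => S r * h r) volume 0 1 :=
    intg (K := KS * C) (hS.aestronglyMeasurable.mul mh) (by
      intro r hr
      rw [abs_mul]
      have h1 := hKS r ⟨hr.1.le, hr.2.le⟩
      rw [Real.norm_eq_abs] at h1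
      exact mul_le_mul h1 (hbh r hr).1 (abs_nonneg _) ((abs_nonneg _).trans h1))
  have hl0 : Tendsto (fun t => (t * deriv h t) * A t - (t * deriv A t) * h t) (𝓝[>] 0) (𝓝 0) :=
    lim0 (K := C * C + C * C) (by
      intro r hr
      refine (abs_sub _ _).trans ?_
      rw [abs_mul, abs_mul, abs_mul, abs_mul, abs_of_pos hr.1]
      have h1 := mul_le_mul (hbh r hr).2.1 (hbA r hr).1 (abs_nonneg _) hC
      have h2 := mul_le_mul (hbA r hr).2.1 (hbh r hr).1 (abs_nonneg _) hC
      have h1' := mul_le_mul_of_nonneg_left h1 hr.1.le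
      have h2' := mul_le_mul_of_nonneg_left h2 hr.1.le
      linarith)
  have hl1 : Tendsto (fun t => (t * deriv h t) * A t - (t * deriv A t) * h t) (𝓝[<] 1)
      (𝓝 ((1 * deriv h 1) * A 1 - (1 * deriv A 1) * h 1)) :=
    (((hh 1 one_pos).2.continuousAt.mul (hA 1 one_pos).1.continuousAt).sub
      ((hA 1 one_pos).2.continuousAt.mul (hh 1 one_pos).1.continuousAt)).tendsto.mono_left
      nhdsWithin_le_nhds
  have hF := intervalIntegral.integral_eq_sub_of_hasDerivAt_of_tendsto zero_lt_one hder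
    i2 hl0 hl1
  refine ⟨i2, ?_⟩
  rw [hF]
  ring

end IPar

theorem pr_Par : StPar := by
  intro B lam x C l A h S hS hA hh hbA hbh
  have hC : 0 ≤ C := (abs_nonneg _).trans (hbA (1 / 2) (by constructor <;> norm_num)).1
  have hd : ∀ r, 0 < r → HasDerivAt (fun t => A t + x * h t) (deriv A r + x * deriv h r) r :=
    fun r hr => (hA r hr).1.fun_add ((hh r hr).1.const_mul x)
  have hdd : ∀ r, 0 < r → deriv (fun t => A t + x * h t) r = deriv A r + x * deriv h r :=
    fun r hr => (hd r hr).deriv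
  have hP : ∀ r, 0 < r → HasDerivAt (fun t => A t + x * h t) (deriv (fun t => A t + x * h t) r) r ∧
      HasDerivAt (fun t => t * deriv (fun t => A t + x * h t) t)
        ((qn B l r ^ 2 - lam) * (r * (A r + x * h r)) - S r) r := by
    intro r hr
    refine ⟨by rw [hdd r hr]; exact hd r hr, ?_⟩
    have h1 := (hA r hr).2.fun_add ((hh r hr).2.const_mul x)
    have h2 : (fun t => t * deriv (fun t => A t + x * h t) t) =ᶠ[𝓝 r]
        (fun t => t * deriv A t + x * (t * deriv h t)) := by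
      filter_upwards [lt_mem_nhds hr] with t ht
      rw [hdd t ht]
      ring
    refine (h1.congr_of_eventuallyEq h2).congr_deriv ?_
    ring
  have hb : Bdd (C + |x| * C) l (fun t => A t + x * h t) := by
    intro r hr
    obtain ⟨a1, a2, a3⟩ := hbA r hr
    obtain ⟨c1, c2, c3⟩ := hbh r hr
    refine ⟨?_, ?_, ?_⟩
    · refine (abs_add_le _ _).trans ?_
      rw [abs_mul]
      have := mul_le_mul_of_nonneg_left c1 (abs_nonneg x)
      linarith
    · rw [hdd r hr.1]
      refine (abs_add_le _ _).trans ?_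
      rw [abs_mul]
      have := mul_le_mul_of_nonneg_left c2 (abs_nonneg x)
      linarith
    · have e : (l : ℝ) / r * (A r + x * h r) = l / r * A r + x * (l / r * h r) := by ring
      rw [e]
      refine (abs_add_le _ _).trans ?_
      rw [abs_mul x]
      have := mul_le_mul_of_nonneg_left c3 (abs_nonneg x)
      linarith
  obtain ⟨-, k1⟩ := IPar.parA B lam _ l _ S hS hP hb
  obtain ⟨j2, -⟩ := IPar.parA B lam _ l _ S hS hA hbA
  obtain ⟨j3, k3⟩ := IPar.parB B lam C l A h S hS hA hh hbA hbh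
  have e1 : (∫ r in (0 : ℝ)..1, S r * (A r + x * h r))
      = (∫ r in (0 : ℝ)..1, S r * A r) + x * ∫ r in (0 : ℝ)..1, S r * h r := by
    rw [← intervalIntegral.integral_const_mul, ← intervalIntegral.integral_add j2 (j3.const_mul x)]
    congr 1
    ext r
    ring
  rw [k1, e1, k3, hdd 1 one_pos]
  ring

end Pool.Agent.MFK.CD
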