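import Pool.Agent.Work.MP_8826fd_mp.CD.Core
import Pool.Agent.Work.MP_8826fd_mp.CD.I_Par

/-!
# MP_8826fd_mp, block CD, item MI: radial integral of the main part
-/

set_option autoImplicit false

namespace Pool.Agent.MFK.CD

open MeasureTheory Set Filter Topology Pool.Agent.MFK.NF

namespace IMI

/-- bounded measurable functions -/
lemma ib {f : ℝ → ℝ} {K : ℝ} (hm : Measurable f) (hb : ∀ r ∈ Ioo (0 : ℝ) 1, |f r| ≤ K) :
    IntegrableOn f (Ioo 0 1) := by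
  refine Integrable.of_bound hm.aestronglyMeasurable K ?_
  rw [ae_restrict_iff' measurableSet_Ioo]
  exact Eventually.of_forall fun r hr => by
    rw [Real.norm_eq_abs]
    exact hb r hr

lemma ic {f : ℝ → ℝ} (hm : Continuous f) : IntegrableOn f (Ioo 0 1) :=
  (hm.integrableOn_Icc).mono_set Ioo_subset_Icc_self

lemma ii (f : ℝ → ℝ) : (∫ r in (0 : ℝ)..1, f r) = ∫ r in Ioo (0 : ℝ) 1, f r := by
  rw [intervalIntegral.integral_of_le zero_le_one, integral_Ioc_eq_integral_Ioo]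

/-- the energy density of a radial function is integrable -/
lemma i1 (B lam : ℝ) (l : ℤ) {Ψ : ℝ → ℝ} (h : ContDiff ℝ 1 Ψ) :
    IntegrableOn (fun r => r * deriv (radf l Ψ) r ^ 2 +
      (qn B l r ^ 2 - lam) * (r * radf l Ψ r ^ 2)) (Ioo 0 1) := by
  obtain ⟨K, hK, hb⟩ := ICore.bdd_ex l h
  have hs := ICore.radf_smooth l h
  have m1 : Measurable (radf l Ψ) := hs.continuous.measurable
  have m2 : Measurable (deriv (radf l Ψ)) := (hs.continuous_deriv le_rfl).measurable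
  have m3 : Measurable (qn B l) := by unfold qn; fun_prop
  refine ib (K := K ^ 2 + ((K + |B| * K) ^ 2 + |lam| * K ^ 2)) (by fun_prop) fun r hr => ?_
  obtain ⟨b1, b2, b3⟩ := hb r hr
  have hr0 : 0 ≤ r := hr.1.le
  have hr1 : r ≤ 1 := hr.2.le
  have e1 : |r * deriv (radf l Ψ) r ^ 2| ≤ K ^ 2 := by
    rw [abs_mul, abs_of_nonneg hr0, abs_of_nonneg (sq_nonneg _)]
    have : deriv (radf l Ψ) r ^ 2 ≤ K ^ 2 := sq_le_sq' (by linarith [neg_abs_le (deriv (radf l Ψ) r)])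
      (by linarith [le_abs_self (deriv (radf l Ψ) r)])
    calc r * deriv (radf l Ψ) r ^ 2 ≤ 1 * K ^ 2 := by gcongr
      _ = K ^ 2 := one_mul _
  have e2 : |qn B l r * radf l Ψ r| ≤ K + |B| * K := by
    have : qn B l r * radf l Ψ r = l / r * radf l Ψ r - B * (r / 2 * radf l Ψ r) := by
      unfold qn; ring
    rw [this]
    have e3 : |B * (r / 2 * radf l Ψ r)| ≤ |B| * K := by
      rw [abs_mul, abs_mul, abs_of_nonneg (by linarith : (0 : ℝ) ≤ r / 2)]
      have : r / 2 * |radf l Ψ r| ≤ 1 * K := by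
        apply mul_le_mul (by linarith) b1 (abs_nonneg _) zero_le_one
      rw [one_mul] at this
      exact mul_le_mul_of_nonneg_left this (abs_nonneg _)
    exact (abs_sub _ _).trans (by linarith)
  have e4 : (qn B l r ^ 2 - lam) * (r * radf l Ψ r ^ 2)
      = r * (qn B l r * radf l Ψ r) ^ 2 - lam * (r * radf l Ψ r ^ 2) := by ring
  have e5 : |r * (qn B l r * radf l Ψ r) ^ 2| ≤ (K + |B| * K) ^ 2 := by
    rw [abs_mul, abs_of_nonneg hr0, abs_of_nonneg (sq_nonneg _)]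
    have : (qn B l r * radf l Ψ r) ^ 2 ≤ (K + |B| * K) ^ 2 :=
      sq_le_sq' (by linarith [neg_abs_le (qn B l r * radf l Ψ r)])
        (by linarith [le_abs_self (qn B l r * radf l Ψ r)])
    calc r * (qn B l r * radf l Ψ r) ^ 2 ≤ 1 * (K + |B| * K) ^ 2 := by gcongr
      _ = _ := one_mul _
  have e6 : |lam * (r * radf l Ψ r ^ 2)| ≤ |lam| * K ^ 2 := by
    rw [abs_mul, abs_mul, abs_of_nonneg hr0, abs_of_nonneg (sq_nonneg (radf l Ψ r))]
    have : radf l Ψ r ^ 2 ≤ K ^ 2 := sq_le_sq' (by linarith [neg_abs_le (radf l Ψ r)])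
      (by linarith [le_abs_self (radf l Ψ r)])
    have h2 : r * radf l Ψ r ^ 2 ≤ 1 * K ^ 2 := by gcongr
    rw [one_mul] at h2
    exact mul_le_mul_of_nonneg_left h2 (abs_nonneg _)
  rw [e4]
  have f1 := abs_le.1 e1
  have f5 := abs_le.1 e5
  have f6 := abs_le.1 e6
  rw [abs_le]
  constructor <;> linarith [f1.1, f1.2, f5.1, f5.2, f6.1, f6.2]

lemma Sn_cont (B lam : ℝ) (m n : ℕ) (σ : ℝ) {g : ℝ → ℝ} (h : Continuous g) :
    Continuous (Sn B lam m n σ g) := by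
  unfold Sn
  fun_prop

/-- the `j`-th term -/
noncomputable def tj (B lam : ℝ) (m j : ℕ) (g : ℝ → ℝ) (r : ℝ) : ℝ :=
  ((j : ℝ) + 3) * ((-(2 * B * (m - B * r ^ 2 / 2)) * (r ^ (2 * (j + 2) + 1) - r)
    - lam * (2 * ((j + 2 : ℕ) + 1) * r ^ (2 * (j + 2) + 1) - 2 * r)) * g r ^ 2)
  + 4 * B ^ 2 * (((j : ℝ) + 3) / (j + 4)) ^ 2 * (g r ^ 2 * r ^ (2 * (j + 2) + 3))

lemma tj_cont (B lam : ℝ) (m j : ℕ) {g : ℝ → ℝ} (h : Continuous g) :
    Continuous (tj B lam m j g) := by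
  unfold tj
  fun_prop

lemma tj_int (B lam : ℝ) (m j : ℕ) {g : ℝ → ℝ} (h : Continuous g) :
    (∫ r in Ioo (0 : ℝ) 1, tj B lam m j g r) = TT B lam m (j + 2) g := by
  rw [← ii]
  unfold tj TT
  rw [intervalIntegral.integral_add (Continuous.intervalIntegrable (by fun_prop) _ _)
    (Continuous.intervalIntegrable (by fun_prop) _ _),
    intervalIntegral.integral_const_mul, intervalIntegral.integral_const_mul]
  push_cast
  have e1 : (j : ℝ) + 2 + 1 = j + 3 := by ring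
  have e2 : (j : ℝ) + 2 + 2 = j + 4 := by ring
  rw [e1, e2]

/-- bound for the `L¹` norm -/
lemma tj_bd (B lam K : ℝ) (m j : ℕ) {g : ℝ → ℝ} (h : Continuous g) (hK : 0 ≤ K)
    (hb : ∀ r ∈ Ioo (0 : ℝ) 1, |g r| ≤ K) :
    (∫ r in Ioo (0 : ℝ) 1, ‖tj B lam m j g r‖) ≤
      ((j : ℝ) + 3) * ((2 * |B| * (m + |B|) + 3 * |lam| + 4 * B ^ 2) * K ^ 2) := by
  have hle : ∀ r ∈ Ioo (0 : ℝ) 1, ‖tj B lam m j g r‖ ≤
      ((j : ℝ) + 3) * ((2 * |B| * (m + |B|)
        + |lam| * (2 * ((j : ℝ) + 3) * r ^ (2 * (j + 2) + 1) + 2) + 4 * B ^ 2) * K ^ 2) := by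
    intro r hr
    have hr0 : 0 ≤ r := hr.1.le
    have hr1 : r ≤ 1 := hr.2.le
    have hg : g r ^ 2 ≤ K ^ 2 := by
      have := hb r hr
      exact sq_le_sq' (by linarith [neg_abs_le (g r)]) (by linarith [le_abs_self (g r)])
    have hg0 := sq_nonneg (g r)
    have hp0 : 0 ≤ r ^ (2 * (j + 2) + 1) := pow_nonneg hr0 _
    have hp1 : r ^ (2 * (j + 2) + 1) ≤ 1 := pow_le_one₀ hr0 hr1
    have hq0 : 0 ≤ r ^ (2 * (j + 2) + 3) := pow_nonneg hr0 _
    have hq1 : r ^ (2 * (j + 2) + 3) ≤ 1 := pow_le_one₀ hr0 hr1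
    have a1 : |-(2 * B * (m - B * r ^ 2 / 2)) * (r ^ (2 * (j + 2) + 1) - r)| ≤
        2 * |B| * (m + |B|) := by
      rw [abs_mul, abs_neg, abs_mul, abs_mul, abs_two]
      have b1 : |(m : ℝ) - B * r ^ 2 / 2| ≤ m + |B| := by
        have c1 : |B * r ^ 2 / 2| ≤ |B| := by
          rw [abs_div, abs_mul, abs_two, abs_of_nonneg (sq_nonneg r)]
          have : r ^ 2 ≤ 1 := pow_le_one₀ hr0 hr1
          have : |B| * r ^ 2 ≤ |B| * 1 := mul_le_mul_of_nonneg_left this (abs_nonneg _)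
          have := abs_nonneg B
          linarith
        have c2 : |(m : ℝ)| = m := abs_of_nonneg (Nat.cast_nonneg _)
        have := abs_sub (m : ℝ) (B * r ^ 2 / 2)
        rw [c2] at this
        linarith
      have b2 : |r ^ (2 * (j + 2) + 1) - r| ≤ 1 := by
        rw [abs_le]; constructor <;> linarith
      have b3 : 0 ≤ 2 * |B| := by positivity
      have b4 : (0 : ℝ) ≤ m + |B| := by positivity
      calc 2 * |B| * |(m : ℝ) - B * r ^ 2 / 2| * |r ^ (2 * (j + 2) + 1) - r|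
          ≤ 2 * |B| * (m + |B|) * 1 := by gcongr
        _ = _ := mul_one _
    have a2 : |lam * (2 * ((j + 2 : ℕ) + 1) * r ^ (2 * (j + 2) + 1) - 2 * r)| ≤
        |lam| * (2 * ((j : ℝ) + 3) * r ^ (2 * (j + 2) + 1) + 2) := by
      rw [abs_mul]
      refine mul_le_mul_of_nonneg_left ?_ (abs_nonneg _)
      push_cast
      have e1 : (j : ℝ) + 2 + 1 = j + 3 := by ring
      rw [e1]
      have : 0 ≤ 2 * ((j : ℝ) + 3) * r ^ (2 * (j + 2) + 1) := by positivity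
      rw [abs_le]; constructor <;> linarith
    have a3 : |4 * B ^ 2 * (((j : ℝ) + 3) / (j + 4)) ^ 2 * (g r ^ 2 * r ^ (2 * (j + 2) + 3))| ≤
        ((j : ℝ) + 3) * (4 * B ^ 2 * K ^ 2) := by
      have c0 : 0 ≤ 4 * B ^ 2 * (((j : ℝ) + 3) / (j + 4)) ^ 2 * (g r ^ 2 * r ^ (2 * (j + 2) + 3)) := by
        positivity
      rw [abs_of_nonneg c0]
      have c1 : (((j : ℝ) + 3) / (j + 4)) ^ 2 ≤ 1 := by
        apply pow_le_one₀ (by positivity)
        rw [div_le_one (by positivity)]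
        linarith
      have c2 : g r ^ 2 * r ^ (2 * (j + 2) + 3) ≤ K ^ 2 * 1 := by gcongr
      calc 4 * B ^ 2 * (((j : ℝ) + 3) / (j + 4)) ^ 2 * (g r ^ 2 * r ^ (2 * (j + 2) + 3))
          ≤ 4 * B ^ 2 * 1 * (K ^ 2 * 1) := by gcongr
        _ = 1 * (4 * B ^ 2 * K ^ 2) := by ring
        _ ≤ ((j : ℝ) + 3) * (4 * B ^ 2 * K ^ 2) := by
            apply mul_le_mul_of_nonneg_right _ (by positivity)
            have : (0 : ℝ) ≤ j := Nat.cast_nonneg _
            linarith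
    rw [Real.norm_eq_abs]
    unfold tj
    have a4 : |((j : ℝ) + 3) * ((-(2 * B * (m - B * r ^ 2 / 2)) * (r ^ (2 * (j + 2) + 1) - r)
        - lam * (2 * ((j + 2 : ℕ) + 1) * r ^ (2 * (j + 2) + 1) - 2 * r)) * g r ^ 2)| ≤
        ((j : ℝ) + 3) * ((2 * |B| * (m + |B|)
          + |lam| * (2 * ((j : ℝ) + 3) * r ^ (2 * (j + 2) + 1) + 2)) * K ^ 2) := by
      have hj : (0 : ℝ) ≤ (j : ℝ) + 3 := by positivity
      rw [abs_mul, abs_of_nonneg hj, abs_mul, abs_of_nonneg hg0]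
      have d1 := (abs_sub (-(2 * B * (m - B * r ^ 2 / 2)) * (r ^ (2 * (j + 2) + 1) - r))
        (lam * (2 * ((j + 2 : ℕ) + 1) * r ^ (2 * (j + 2) + 1) - 2 * r))).trans (add_le_add a1 a2)
      have d0 : (0 : ℝ) ≤ 2 * |B| * (m + |B|)
          + |lam| * (2 * ((j : ℝ) + 3) * r ^ (2 * (j + 2) + 1) + 2) := by positivity
      exact mul_le_mul_of_nonneg_left (mul_le_mul d1 hg hg0 d0) hj
    refine (abs_add_le _ _).trans ((add_le_add a4 a3).trans (le_of_eq ?_))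
    ring
  have hi1 : IntegrableOn (fun r => ‖tj B lam m j g r‖) (Ioo 0 1) := ic (tj_cont B lam m j h).norm
  have hc : Continuous (fun r : ℝ => ((j : ℝ) + 3) * ((2 * |B| * (m + |B|)
        + |lam| * (2 * ((j : ℝ) + 3) * r ^ (2 * (j + 2) + 1) + 2) + 4 * B ^ 2) * K ^ 2)) := by
    fun_prop
  refine (setIntegral_mono_on hi1 (ic hc) measurableSet_Ioo hle).trans (le_of_eq ?_)
  rw [← ii]
  have hf : ∀ r : ℝ, ((j : ℝ) + 3) * ((2 * |B| * (m + |B|)
        + |lam| * (2 * ((j : ℝ) + 3) * r ^ (2 * (j + 2) + 1) + 2) + 4 * B ^ 2) * K ^ 2)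
      = ((j : ℝ) + 3) * ((2 * |B| * (m + |B|) + |lam| * 2 + 4 * B ^ 2) * K ^ 2)
        + (((j : ℝ) + 3) * |lam| * (2 * ((j : ℝ) + 3)) * K ^ 2) * r ^ (2 * (j + 2) + 1) := fun r => by
    ring
  simp only [hf]
  rw [intervalIntegral.integral_add (Continuous.intervalIntegrable (by fun_prop) _ _)
    (Continuous.intervalIntegrable (by fun_prop) _ _), intervalIntegral.integral_const,
    intervalIntegral.integral_const_mul, integral_pow]
  have hj : (2 * ((j : ℝ) + 2) + 1 + 1) ≠ 0 := by positivity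
  push_cast
  simp only [one_pow, ne_eq, Nat.add_eq_zero_iff, OfNat.ofNat_ne_zero, and_false, not_false_eq_true,
    zero_pow, sub_zero, smul_eq_mul, one_mul]
  field_simp
  ring

/-- product with a bounded function -/
lemma mulb {f h : ℝ → ℝ} {K : ℝ} (hf : IntegrableOn f (Ioo 0 1)) (hh : Measurable h)
    (hb : ∀ r ∈ Ioo (0 : ℝ) 1, |h r| ≤ K) : IntegrableOn (fun r => f r * h r) (Ioo 0 1) := by
  refine Integrable.mono' (hf.norm.const_mul K)
    (hf.aestronglyMeasurable.mul hh.aestronglyMeasurable) ?_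
  rw [ae_restrict_iff' measurableSet_Ioo]
  refine Eventually.of_forall fun r hr => ?_
  rw [norm_mul, Real.norm_eq_abs (h r), mul_comm]
  exact mul_le_mul_of_nonneg_right (hb r hr) (norm_nonneg _)

lemma int4 {A B C D : ℝ → ℝ} (hA : IntegrableOn A (Ioo 0 1)) (hB : IntegrableOn B (Ioo 0 1))
    (hC : IntegrableOn C (Ioo 0 1)) (hD : IntegrableOn D (Ioo 0 1)) :
    (∫ r in Ioo (0 : ℝ) 1, (A r + B r - C r - D r)) = (∫ r in Ioo (0 : ℝ) 1, A r)
      + (∫ r in Ioo (0 : ℝ) 1, B r) - (∫ r in Ioo (0 : ℝ) 1, C r) - ∫ r in Ioo (0 : ℝ) 1, D r := by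
  have h1 : IntegrableOn (fun r => A r + B r) (Ioo 0 1) := hA.add hB
  have h2 : IntegrableOn (fun r => A r + B r - C r) (Ioo 0 1) := h1.sub hC
  rw [integral_sub h2 hD, integral_sub h1 hC, integral_add hA hB]

lemma int3 {A B C : ℝ → ℝ} (hA : IntegrableOn A (Ioo 0 1)) (hB : IntegrableOn B (Ioo 0 1))
    (hC : IntegrableOn C (Ioo 0 1)) :
    (∫ r in Ioo (0 : ℝ) 1, (A r + B r + C r)) = (∫ r in Ioo (0 : ℝ) 1, A r)
      + (∫ r in Ioo (0 : ℝ) 1, B r) + ∫ r in Ioo (0 : ℝ) 1, C r := by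
  have h1 : IntegrableOn (fun r => A r + B r) (Ioo 0 1) := hA.add hB
  rw [integral_add h1 hC, integral_add hA hB]

/-- the sum over one corrector mode -/
lemma mode (B lam : ℝ) (m n : ℕ) {g : ℝ → ℝ} (hg : Continuous g) {ΨA ΨB : ℝ → ℝ}
    (hA : ContDiff ℝ 1 ΨA) (hB : ContDiff ℝ 1 ΨB) (l k : ℤ) (e : ℝ) :
    IntegrableOn (fun r => e * (2 * Real.pi * (r * deriv (radf l ΨA) r ^ 2
        + (qn B l r ^ 2 - lam) * (r * radf l ΨA r ^ 2))
      + 2 * Real.pi * (r * deriv (radf k ΨB) r ^ 2 + (qn B k r ^ 2 - lam) * (r * radf k ΨB r ^ 2))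
      - 4 * Real.pi * (Sn B lam m n 1 g r * radf l ΨA r)
      - 4 * Real.pi * (Sn B lam m n (-1) g r * radf k ΨB r))) (Ioo 0 1) ∧
    (∫ r in Ioo (0 : ℝ) 1, e * (2 * Real.pi * (r * deriv (radf l ΨA) r ^ 2
        + (qn B l r ^ 2 - lam) * (r * radf l ΨA r ^ 2))
      + 2 * Real.pi * (r * deriv (radf k ΨB) r ^ 2 + (qn B k r ^ 2 - lam) * (r * radf k ΨB r ^ 2))
      - 4 * Real.pi * (Sn B lam m n 1 g r * radf l ΨA r)
      - 4 * Real.pi * (Sn B lam m n (-1) g r * radf k ΨB r)))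
      = Real.pi * (e * (2 * Il B lam l (radf l ΨA) + 2 * Il B lam k (radf k ΨB)
        - 4 * (∫ r in (0 : ℝ)..1, Sn B lam m n 1 g r * radf l ΨA r)
        - 4 * ∫ r in (0 : ℝ)..1, Sn B lam m n (-1) g r * radf k ΨB r)) := by
  have j1 := (i1 B lam l hA).const_mul (2 * Real.pi)
  have j2 := (i1 B lam k hB).const_mul (2 * Real.pi)
  have c1 : Continuous (radf l ΨA) := (ICore.radf_smooth l hA).continuous
  have c2 : Continuous (radf k ΨB) := (ICore.radf_smooth k hB).continuous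
  have j3 : IntegrableOn (fun r => 4 * Real.pi * (Sn B lam m n 1 g r * radf l ΨA r)) (Ioo 0 1) :=
    ic (continuous_const.mul ((Sn_cont B lam m n 1 hg).mul c1))
  have j4 : IntegrableOn (fun r => 4 * Real.pi * (Sn B lam m n (-1) g r * radf k ΨB r)) (Ioo 0 1) :=
    ic (continuous_const.mul ((Sn_cont B lam m n (-1) hg).mul c2))
  refine ⟨(((j1.add j2).sub j3).sub j4).const_mul e, ?_⟩
  rw [integral_const_mul, int4 j1 j2 j3 j4, integral_const_mul, integral_const_mul,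
    integral_const_mul, integral_const_mul, ← ii, ← ii, ← ii, ← ii]
  unfold Il
  ring

/-- summability for the derivative of the series -/
lemma sumd {c : ℕ → ℝ} {D : ℝ} (hc : ∀ j, 0 ≤ c j) (hs : HasSum c D) {r : ℝ} (hr : r ∈ Ioo (0 : ℝ) 1) :
    Summable (fun j : ℕ => c j * (2 * ((j + 3 : ℕ) : ℝ) * r ^ (2 * (j + 3) - 1))) := by
  have h1 : Summable (fun n : ℕ => (n : ℝ) ^ 1 * r ^ n) :=
    summable_pow_mul_geometric_of_norm_lt_one 1 (by
      rw [Real.norm_eq_abs, abs_of_pos hr.1]; exact hr.2)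
  have h2 : Summable (fun j : ℕ => D * 2 * (((j + 3 : ℕ) : ℝ) ^ 1 * r ^ (j + 3))) :=
    ((summable_nat_add_iff 3).2 h1).mul_left _
  refine Summable.of_nonneg_of_le (fun j => ?_) (fun j => ?_) h2
  · exact mul_nonneg (hc j) (mul_nonneg (by positivity) (pow_nonneg hr.1.le _))
  · have hcj : c j ≤ D := hs.tsum_eq ▸ hs.summable.le_tsum j (fun i _ => hc i)
    have hp : r ^ (2 * (j + 3) - 1) ≤ r ^ (j + 3) :=
      pow_le_pow_of_le_one hr.1.le hr.2.le (by omega)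
    have h0 : (0 : ℝ) ≤ ((j + 3 : ℕ) : ℝ) := Nat.cast_nonneg _
    have h3 : 2 * ((j + 3 : ℕ) : ℝ) * r ^ (2 * (j + 3) - 1) ≤ 2 * ((j + 3 : ℕ) : ℝ) * r ^ (j + 3) :=
      mul_le_mul_of_nonneg_left hp (by positivity)
    have h4 : 0 ≤ 2 * ((j + 3 : ℕ) : ℝ) * r ^ (2 * (j + 3) - 1) :=
      mul_nonneg (by positivity) (pow_nonneg hr.1.le _)
    have h5 := mul_le_mul hcj h3 h4 (hs.nonneg hc)
    refine h5.trans (le_of_eq ?_)
    ring

end IMI

open IMI in
theorem pr_MI (h1 : StSer) (h2 : StBI) : StMI := by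
  intro B lam s m N F a Ψ ΨA ΨB hN hΨ hA hB
  obtain ⟨hs1, hsum, -, -, -, -⟩ := h1 F a s hN
  obtain ⟨hpos, irh, irhd, -, ik2, -, -, -⟩ := h2 F a s hN
  have hgc : Continuous (radf (m : ℤ) Ψ) := (ICore.radf_smooth _ hΨ).continuous
  obtain ⟨K, hK, hb⟩ := ICore.bdd_ex (m : ℤ) hΨ
  have hcc : ∀ j, 0 ≤ cc a (j + 3) := fun j => by unfold cc; positivity
  have i0 := i1 B lam (m : ℤ) hΨ
  generalize hgd : radf (m : ℤ) Ψ = g at hgc hb i0 ⊢
  have hbg : ∀ r ∈ Ioo (0 : ℝ) 1, |g r| ≤ K := fun r hr => (hb r hr).1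
  have hbg2 : ∀ r ∈ Ioo (0 : ℝ) 1, |g r ^ 2| ≤ K ^ 2 := fun r hr => by
    rw [abs_pow]; exact pow_le_pow_left₀ (abs_nonneg _) (hbg r hr) 2
  have hGi : ∀ j : ℕ, IntegrableOn (fun r => ‖a (j + 3)‖ ^ 2 * tj B lam m j g r) (Ioo 0 1) :=
    fun j => ic (continuous_const.mul (tj_cont B lam m j hgc))
  have hGint : ∀ j : ℕ, (∫ r in Ioo (0 : ℝ) 1, ‖a (j + 3)‖ ^ 2 * tj B lam m j g r)
      = ‖a (j + 3)‖ ^ 2 * TT B lam m (j + 2) g := fun j => by
    rw [integral_const_mul, tj_int B lam m j hgc]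
  have hGs : Summable (fun j : ℕ => ∫ r in Ioo (0 : ℝ) 1, ‖‖a (j + 3)‖ ^ 2 * tj B lam m j g r‖) := by
    refine Summable.of_nonneg_of_le (fun j => integral_nonneg fun r => norm_nonneg _) (fun j => ?_)
      (hsum.summable.mul_right ((2 * |B| * (m + |B|) + 3 * |lam| + 4 * B ^ 2) * K ^ 2))
    have e1 : (∫ r in Ioo (0 : ℝ) 1, ‖‖a (j + 3)‖ ^ 2 * tj B lam m j g r‖)
        = ‖a (j + 3)‖ ^ 2 * ∫ r in Ioo (0 : ℝ) 1, ‖tj B lam m j g r‖ := by
      rw [← integral_const_mul]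
      refine integral_congr_ae (Eventually.of_forall fun r => ?_)
      simp only [norm_mul, norm_pow, norm_norm]
    rw [e1]
    have e2 := mul_le_mul_of_nonneg_left (tj_bd B lam K m j hgc hK.le hbg) (sq_nonneg ‖a (j + 3)‖)
    refine e2.trans (le_of_eq ?_)
    unfold cc
    push_cast
    ring
  have hHS := hasSum_integral_of_summable_integral_norm hGi hGs
  simp only [hGint] at hHS
  -- the pointwise identity
  have hpt : ∀ r ∈ Ioo (0 : ℝ) 1, Real.pi * (rh a r - (1 - s ^ 2) * r ^ 2) *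
        (-(2 * B * (m - B * r ^ 2 / 2))) * g r ^ 2 / r
      - lam * Real.pi * (rhd a r - 2 * (1 - s ^ 2) * r) * g r ^ 2
      + 4 * Real.pi * B ^ 2 * g r ^ 2 * k2 a r / r
      = Real.pi * ∑' j : ℕ, ‖a (j + 3)‖ ^ 2 * tj B lam m j g r := by
    intro r hr
    have hr0 : r ≠ 0 := hr.1.ne'
    have s1 : Summable (fun j : ℕ => cc a (j + 3) * r ^ (2 * (j + 3))) := by
      refine Summable.of_nonneg_of_le (fun j => mul_nonneg (hcc j) (pow_nonneg hr.1.le _))
        (fun j => ?_) hsum.summable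
      exact mul_le_of_le_one_right (hcc j) (pow_le_one₀ hr.1.le hr.2.le)
    have s2 := sumd hcc hsum hr
    have s3 : Summable (fun j : ℕ => (((j + 3 : ℕ) : ℝ) / (j + 4 : ℕ)) ^ 2 * ‖a (j + 3)‖ ^ 2 *
        r ^ (2 * j + 8)) := by
      refine Summable.of_nonneg_of_le (fun j => mul_nonneg (by positivity) (pow_nonneg hr.1.le _))
        (fun j => ?_) hsum.summable
      have c1 : (((j + 3 : ℕ) : ℝ) / (j + 4 : ℕ)) ^ 2 ≤ 1 := by
        apply pow_le_one₀ (by positivity)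
        rw [div_le_one (by positivity)]
        push_cast; linarith
      have c2 : (((j + 3 : ℕ) : ℝ) / (j + 4 : ℕ)) ^ 2 * ‖a (j + 3)‖ ^ 2 ≤ cc a (j + 3) := by
        unfold cc
        have : (1 : ℝ) ≤ ((j + 3 : ℕ) : ℝ) := by push_cast; linarith [(Nat.cast_nonneg j : (0 : ℝ) ≤ j)]
        calc (((j + 3 : ℕ) : ℝ) / (j + 4 : ℕ)) ^ 2 * ‖a (j + 3)‖ ^ 2 ≤ 1 * ‖a (j + 3)‖ ^ 2 := by gcongr
          _ ≤ _ := by gcongr
      exact (mul_le_of_le_one_right (by positivity) (pow_le_one₀ hr.1.le hr.2.le)).trans c2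
    have t1 : HasSum (fun j : ℕ => cc a (j + 3) * r ^ (2 * (j + 3))) (rh a r) := s1.hasSum
    have t2 : HasSum (fun j : ℕ => cc a (j + 3) * (2 * ((j + 3 : ℕ) : ℝ) * r ^ (2 * (j + 3) - 1)))
      (rhd a r) := s2.hasSum
    have t3 : HasSum (fun j : ℕ => (((j + 3 : ℕ) : ℝ) / (j + 4 : ℕ)) ^ 2 * ‖a (j + 3)‖ ^ 2 *
        r ^ (2 * j + 8)) (k2 a r) := s3.hasSum
    have t4 := ((((t1.sub (hsum.mul_right (r ^ 2))).mul_right
        (-(2 * B * (m - B * r ^ 2 / 2)) * g r ^ 2 / r)).sub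
      ((t2.sub (hsum.mul_right (2 * r))).mul_right (lam * g r ^ 2))).add
      (t3.mul_right (4 * B ^ 2 * g r ^ 2 / r)))
    have t5 : (∑' j : ℕ, ‖a (j + 3)‖ ^ 2 * tj B lam m j g r) =
        (rh a r - (1 - s ^ 2) * r ^ 2) * (-(2 * B * (m - B * r ^ 2 / 2)) * g r ^ 2 / r)
        - (rhd a r - (1 - s ^ 2) * (2 * r)) * (lam * g r ^ 2)
        + k2 a r * (4 * B ^ 2 * g r ^ 2 / r) := by
      rw [← t4.tsum_eq]
      refine tsum_congr fun j => ?_
      have p1 : r ^ (2 * (j + 3)) = r ^ (2 * (j + 2) + 1) * r := by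
        rw [← pow_succ]; congr 1
      have p2 : r ^ (2 * (j + 3) - 1) = r ^ (2 * (j + 2) + 1) := by congr 1
      have p3 : r ^ (2 * j + 8) = r ^ (2 * (j + 2) + 3) * r := by
        rw [← pow_succ]; congr 1
      rw [p1, p2, p3]
      unfold tj cc
      push_cast
      field_simp
      ring
    rw [t5]
    ring
  -- integrability of the last three terms
  have m0 : Measurable (fun r => g r ^ 2) := (hgc.pow 2).measurable
  have k3 : IntegrableOn (fun r => Real.pi * (rh a r - (1 - s ^ 2) * r ^ 2) *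
        (-(2 * B * (m - B * r ^ 2 / 2))) * g r ^ 2 / r) (Ioo 0 1) := by
    have k30 : IntegrableOn (fun r => (rh a r - (1 - s ^ 2) * r ^ 2) / r) (Ioo 0 1) := by
      refine Integrable.of_bound (((irh.aestronglyMeasurable).sub
        (by fun_prop : Measurable fun r : ℝ => (1 - s ^ 2) * r ^ 2).aestronglyMeasurable).mul
          (measurable_inv.aestronglyMeasurable)) (1 - s ^ 2) ?_
      rw [ae_restrict_iff' measurableSet_Ioo]
      refine Eventually.of_forall fun r hr => ?_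
      have hD : 0 ≤ 1 - s ^ 2 := hsum.nonneg hcc
      have q1 : 0 ≤ rh a r := (hpos r hr).1
      have q2 : rh a r ≤ (1 - s ^ 2) * r := by
        have s1 : Summable (fun j : ℕ => cc a (j + 3) * r ^ (2 * (j + 3))) := by
          refine Summable.of_nonneg_of_le (fun j => mul_nonneg (hcc j) (pow_nonneg hr.1.le _))
            (fun j => ?_) hsum.summable
          exact mul_le_of_le_one_right (hcc j) (pow_le_one₀ hr.1.le hr.2.le)
        have : HasSum (fun j : ℕ => cc a (j + 3) * r ^ (2 * (j + 3))) (rh a r) := s1.hasSum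
        refine hasSum_le (fun j => ?_) this (hsum.mul_right r)
        refine mul_le_mul_of_nonneg_left ?_ (hcc j)
        calc r ^ (2 * (j + 3)) ≤ r ^ 1 := pow_le_pow_of_le_one hr.1.le hr.2.le (by omega)
          _ = r := pow_one r
      have q3 : (1 - s ^ 2) * r ^ 2 ≤ (1 - s ^ 2) * r := by
        refine mul_le_mul_of_nonneg_left ?_ hD
        nlinarith [hr.1, hr.2]
      have q4 : 0 ≤ (1 - s ^ 2) * r ^ 2 := mul_nonneg hD (sq_nonneg r)
      have q5 : |rh a r - (1 - s ^ 2) * r ^ 2| ≤ (1 - s ^ 2) * r := by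
        rw [abs_le]; constructor <;> linarith
      show ‖(rh a r - (1 - s ^ 2) * r ^ 2) * r⁻¹‖ ≤ 1 - s ^ 2
      rw [norm_mul, norm_inv, Real.norm_eq_abs, Real.norm_eq_abs, abs_of_pos hr.1,
        ← div_eq_mul_inv, div_le_iff₀ hr.1]
      exact q5
    have k31 := mulb (h := fun r => Real.pi * (-(2 * B * (m - B * r ^ 2 / 2))) * g r ^ 2)
      (K := Real.pi * (2 * |B| * (m + |B|)) * K ^ 2) k30 (by fun_prop) (fun r hr => by
        rw [abs_mul, abs_mul, abs_of_pos Real.pi_pos, abs_neg, abs_mul, abs_mul, abs_two]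
        have b1 : |(m : ℝ) - B * r ^ 2 / 2| ≤ m + |B| := by
          have c1 : |B * r ^ 2 / 2| ≤ |B| := by
            rw [abs_div, abs_mul, abs_two, abs_of_nonneg (sq_nonneg r)]
            have : r ^ 2 ≤ 1 := pow_le_one₀ hr.1.le hr.2.le
            have : |B| * r ^ 2 ≤ |B| * 1 := mul_le_mul_of_nonneg_left this (abs_nonneg _)
            have := abs_nonneg B
            linarith
          have c2 : |(m : ℝ)| = m := abs_of_nonneg (Nat.cast_nonneg _)
          have := abs_sub (m : ℝ) (B * r ^ 2 / 2)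
          rw [c2] at this
          linarith
        have b2 := hbg2 r hr
        have b3 := Real.pi_pos
        have b4 : (0 : ℝ) ≤ m + |B| := by positivity
        gcongr)
    refine k31.congr_fun (fun r hr => ?_) measurableSet_Ioo
    have hr0 : r ≠ 0 := hr.1.ne'
    show (rh a r - (1 - s ^ 2) * r ^ 2) / r * (Real.pi * (-(2 * B * (m - B * r ^ 2 / 2))) * g r ^ 2)
      = _
    field_simp
  have k4 : IntegrableOn (fun r => lam * Real.pi * (rhd a r - 2 * (1 - s ^ 2) * r) * g r ^ 2)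
      (Ioo 0 1) :=
    mulb (((irhd.sub (ic (by fun_prop : Continuous fun r : ℝ => 2 * (1 - s ^ 2) * r))).const_mul
      (lam * Real.pi))) m0 hbg2
  have k5 : IntegrableOn (fun r => 4 * Real.pi * B ^ 2 * g r ^ 2 * k2 a r / r) (Ioo 0 1) := by
    have k50 := mulb (ik2.const_mul (4 * Real.pi * B ^ 2)) m0 hbg2
    refine k50.congr_fun (fun r hr => ?_) measurableSet_Ioo
    show 4 * Real.pi * B ^ 2 * (k2 a r / r) * g r ^ 2 = _
    ring
  have k6 : IntegrableOn (fun r => Real.pi * (rh a r - (1 - s ^ 2) * r ^ 2) *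
        (-(2 * B * (m - B * r ^ 2 / 2))) * g r ^ 2 / r
      - lam * Real.pi * (rhd a r - 2 * (1 - s ^ 2) * r) * g r ^ 2
      + 4 * Real.pi * B ^ 2 * g r ^ 2 * k2 a r / r) (Ioo 0 1) := (k3.sub k4).add k5
  have hmode := fun n => mode B lam m n hgc (hA n) (hB n) ((m : ℤ) + n) ((m : ℤ) - n) (‖a (n + 1)‖ ^ 2)
  have k2' : IntegrableOn (fun r => ∑ n ∈ Finset.Icc 2 N, ‖a (n + 1)‖ ^ 2 *
      (2 * Real.pi * (r * deriv (radf ((m : ℤ) + n) (ΨA n)) r ^ 2
        + (qn B ((m : ℤ) + n) r ^ 2 - lam) * (r * radf ((m : ℤ) + n) (ΨA n) r ^ 2))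
      + 2 * Real.pi * (r * deriv (radf ((m : ℤ) - n) (ΨB n)) r ^ 2
        + (qn B ((m : ℤ) - n) r ^ 2 - lam) * (r * radf ((m : ℤ) - n) (ΨB n) r ^ 2))
      - 4 * Real.pi * (Sn B lam m n 1 g r * radf ((m : ℤ) + n) (ΨA n) r)
      - 4 * Real.pi * (Sn B lam m n (-1) g r * radf ((m : ℤ) - n) (ΨB n) r))) (Ioo 0 1) :=
    integrable_finset_sum _ fun n _ => (hmode n).1
  have k1 := i0.const_mul (2 * Real.pi)
  have hdec : ∀ r : ℝ, MI B lam s m N a g (fun n => radf ((m : ℤ) + n) (ΨA n))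
      (fun n => radf ((m : ℤ) - n) (ΨB n)) r =
      (2 * Real.pi * (r * deriv g r ^ 2 + (qn B m r ^ 2 - lam) * (r * g r ^ 2)) +
      ∑ n ∈ Finset.Icc 2 N, ‖a (n + 1)‖ ^ 2 *
      (2 * Real.pi * (r * deriv (radf ((m : ℤ) + n) (ΨA n)) r ^ 2
        + (qn B ((m : ℤ) + n) r ^ 2 - lam) * (r * radf ((m : ℤ) + n) (ΨA n) r ^ 2))
      + 2 * Real.pi * (r * deriv (radf ((m : ℤ) - n) (ΨB n)) r ^ 2
        + (qn B ((m : ℤ) - n) r ^ 2 - lam) * (r * radf ((m : ℤ) - n) (ΨB n) r ^ 2))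
      - 4 * Real.pi * (Sn B lam m n 1 g r * radf ((m : ℤ) + n) (ΨA n) r)
      - 4 * Real.pi * (Sn B lam m n (-1) g r * radf ((m : ℤ) - n) (ΨB n) r))) +
      (Real.pi * (rh a r - (1 - s ^ 2) * r ^ 2) *
        (-(2 * B * (m - B * r ^ 2 / 2))) * g r ^ 2 / r
      - lam * Real.pi * (rhd a r - 2 * (1 - s ^ 2) * r) * g r ^ 2
      + 4 * Real.pi * B ^ 2 * g r ^ 2 * k2 a r / r) := fun r => by
    unfold MI
    ring
  have hfun : MI B lam s m N a g (fun n => radf ((m : ℤ) + n) (ΨA n))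
      (fun n => radf ((m : ℤ) - n) (ΨB n)) = _ := funext hdec
  rw [hfun]
  refine ⟨(k1.add k2').add k6, hHS.summable, (int3 k1 k2' k6).trans ?_⟩
  rw [integral_const_mul,
    integral_finset_sum _ fun n _ => (hmode n).1, setIntegral_congr_fun measurableSet_Ioo hpt,
    integral_const_mul, ← hHS.tsum_eq, ← ii]
  congr 1
  congr 1
  rw [Finset.mul_sum]
  refine Finset.sum_congr rfl fun n _ => ?_
  rw [(hmode n).2]
  unfold QQ
  ring

end Pool.Agent.MFK.CD
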