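import Pool.Agent.Work.MP_8826fd_mp.CD.Stmts
import Pool.Agent.Work.MP_8826fd_mp.NF.I_PC

/-! MP_8826fd_mp, block CD, item Max (helper16): the conformal radius has a maximum point. -/

set_option autoImplicit false

namespace Pool.Agent.MFK.CD

open MeasureTheory Set Filter Topology Pool.Agent.MFK.NF

namespace IMax

theorem pc_circleMap (r θ : ℝ) : pc r θ = circleMap 0 r θ := by
  unfold pc circleMap
  rw [zero_add, mul_comm Complex.I]

/-- mean value inequality on circles -/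
theorem mv {H : ℂ → ℂ} (hH : DifferentiableOn ℂ H (Metric.ball 0 1)) {r : ℝ} (hr : r ∈ Ioo (0 : ℝ) 1) :
    ENNReal.ofReal (2 * Real.pi * ‖H 0‖) ≤
      ∫⁻ θ in Ioo (0 : ℝ) (2 * Real.pi), ENNReal.ofReal ‖H (pc r θ)‖ := by
  have hpi : (0 : ℝ) ≤ 2 * Real.pi := by positivity
  have habs : |r| = r := abs_of_pos hr.1
  have hcl : DiffContOnCl ℂ H (Metric.ball 0 |r|) := by
    rw [habs]
    apply DifferentiableOn.diffContOnCl
    rw [closure_ball _ hr.1.ne']
    exact hH.mono (Metric.closedBall_subset_ball hr.2)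
  have h1 := hcl.circleAverage
  have hcont : Continuous (fun θ : ℝ => H (pc r θ)) := by
    have hc : ContinuousOn H (Metric.ball 0 1) := hH.continuousOn
    refine hc.comp_continuous ?_ ?_
    · unfold pc
      fun_prop
    · intro θ
      rw [mem_ball_zero_iff, IPC.pc_norm hr.1.le]
      exact hr.2
  have h2 : H 0 = (2 * Real.pi)⁻¹ • ∫ θ in (0 : ℝ)..(2 * Real.pi), H (pc r θ) := by
    rw [← h1, Real.circleAverage_def]
    simp only [pc_circleMap]
  have h3 : 2 * Real.pi * ‖H 0‖ ≤ ∫ θ in (0 : ℝ)..(2 * Real.pi), ‖H (pc r θ)‖ := by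
    have h4 : ‖∫ θ in (0 : ℝ)..(2 * Real.pi), H (pc r θ)‖ ≤
        ∫ θ in (0 : ℝ)..(2 * Real.pi), ‖H (pc r θ)‖ :=
      intervalIntegral.norm_integral_le_integral_norm hpi
    have h5 : ‖H 0‖ = (2 * Real.pi)⁻¹ * ‖∫ θ in (0 : ℝ)..(2 * Real.pi), H (pc r θ)‖ := by
      rw [h2, norm_smul, Real.norm_of_nonneg (by positivity)]
    rw [h5, ← mul_assoc, mul_inv_cancel₀ (by positivity), one_mul]
    exact h4
  rw [intervalIntegral.integral_of_le hpi, integral_Ioc_eq_integral_Ioo] at h3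
  refine (ENNReal.ofReal_le_ofReal h3).trans (le_of_eq ?_)
  refine ofReal_integral_eq_lintegral_ofReal ?_ ?_
  · exact (hcont.norm.integrableOn_Icc (a := 0) (b := 2 * Real.pi)).mono_set Ioo_subset_Icc_self
  · exact ae_of_all _ fun θ => norm_nonneg _

/-- mean value inequality on the disc -/
theorem mvd {H : ℂ → ℂ} (hH : DifferentiableOn ℂ H (Metric.ball 0 1)) :
    ENNReal.ofReal (Real.pi * ‖H 0‖) ≤ ∫⁻ w in Metric.ball (0 : ℂ) 1, ENNReal.ofReal ‖H w‖ := by
  have hm : AEMeasurable (fun w => ENNReal.ofReal ‖H w‖) (volume.restrict (Metric.ball (0 : ℂ) 1)) :=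
    (hH.continuousOn.norm.aemeasurable Metric.isOpen_ball.measurableSet).ennreal_ofReal
  rw [IPC.polar hm]
  have h1 : (∫⁻ r in Ioo (0 : ℝ) 1, ENNReal.ofReal r * ENNReal.ofReal (2 * Real.pi * ‖H 0‖)) ≤
      ∫⁻ r in Ioo (0 : ℝ) 1, ∫⁻ θ in Ioo (0 : ℝ) (2 * Real.pi),
        ENNReal.ofReal r * ENNReal.ofReal ‖H (pc r θ)‖ := by
    refine setLIntegral_mono' measurableSet_Ioo fun r hr => ?_
    rw [lintegral_const_mul' _ _ ENNReal.ofReal_ne_top]
    gcongr
    exact mv hH hr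
  refine le_trans (le_of_eq ?_) h1
  rw [lintegral_mul_const' _ _ ENNReal.ofReal_ne_top]
  have h2 : ∫⁻ r in Ioo (0 : ℝ) 1, ENNReal.ofReal r = ENNReal.ofReal (1 / 2) := by
    rw [← ofReal_integral_eq_lintegral_ofReal]
    · congr 1
      rw [← integral_Ioc_eq_integral_Ioo, ← intervalIntegral.integral_of_le zero_le_one, integral_id]
      norm_num
    · exact (continuous_id.integrableOn_Icc (a := (0 : ℝ)) (b := 1)).mono_set Ioo_subset_Icc_self
    · filter_upwards [ae_restrict_mem measurableSet_Ioo] with r hr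
      exact hr.1.le
  rw [h2, ← ENNReal.ofReal_mul (by norm_num)]
  congr 1
  ring

/-- area of the image -/
theorem area_ge {G : ℂ → ℂ} (hG : DifferentiableOn ℂ G (Metric.ball 0 1)) (hi : InjOn G (Metric.ball 0 1)) :
    ENNReal.ofReal (Real.pi * ‖deriv G 0‖ ^ 2) ≤ volume (G '' Metric.ball 0 1) := by
  have h1 := IPC.cov hG hi (fun _ => 1)
  simp only [mul_one, lintegral_one] at h1
  rw [Measure.restrict_apply MeasurableSet.univ, univ_inter] at h1
  rw [h1]
  have hd : DifferentiableOn ℂ (fun w => deriv G w ^ 2) (Metric.ball 0 1) :=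
    (hG.deriv Metric.isOpen_ball).pow 2
  have h2 := mvd hd
  simp only [norm_pow] at h2
  exact h2

theorem local_est {F : ℂ → ℂ} (hF : DifferentiableOn ℂ F (Metric.ball 0 1)) (hi : InjOn F (Metric.ball 0 1))
    {ζ : ℂ} {ρ : ℝ} (hρ : 0 < ρ) (hsub : Metric.ball ζ ρ ⊆ Metric.ball 0 1) :
    ENNReal.ofReal (Real.pi * (ρ * ‖deriv F ζ‖) ^ 2) ≤ volume (F '' Metric.ball ζ ρ) := by
  have hmap : ∀ w ∈ Metric.ball (0 : ℂ) 1, ζ + ρ * w ∈ Metric.ball ζ ρ := by
    intro w hw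
    rw [mem_ball_zero_iff] at hw
    rw [mem_ball_iff_norm, add_sub_cancel_left, norm_mul, Complex.norm_real,
      Real.norm_of_nonneg hρ.le]
    nlinarith
  have hG : DifferentiableOn ℂ (fun w : ℂ => F (ζ + ρ * w)) (Metric.ball 0 1) := by
    refine DifferentiableOn.comp (t := Metric.ball 0 1) hF ?_ fun w hw => hsub (hmap w hw)
    fun_prop
  have hGi : InjOn (fun w : ℂ => F (ζ + ρ * w)) (Metric.ball 0 1) := by
    intro w hw v hv h
    have h1 := hi (hsub (hmap w hw)) (hsub (hmap v hv)) h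
    have h2 : (ρ : ℂ) * w = ρ * v := add_left_cancel h1
    exact mul_left_cancel₀ (by exact_mod_cast hρ.ne') h2
  have hder : deriv (fun w : ℂ => F (ζ + ρ * w)) 0 = ρ * deriv F ζ := by
    have hζ : ζ ∈ Metric.ball (0 : ℂ) 1 := hsub (Metric.mem_ball_self hρ)
    have h1 : HasDerivAt F (deriv F ζ) (ζ + ρ * 0) := by
      rw [mul_zero, add_zero]
      exact (hF.differentiableAt (Metric.isOpen_ball.mem_nhds hζ)).hasDerivAt
    have h2 : HasDerivAt (fun w : ℂ => ζ + ρ * w) (ρ : ℂ) 0 := by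
      simpa using ((hasDerivAt_id (0 : ℂ)).const_mul (ρ : ℂ)).const_add ζ
    have h3 := (h1.comp (0 : ℂ) h2).deriv
    rw [mul_comm]
    exact h3
  have h := area_ge hG hGi
  rw [hder, norm_mul, Complex.norm_real, Real.norm_of_nonneg hρ.le] at h
  refine h.trans (measure_mono ?_)
  rintro _ ⟨w, hw, rfl⟩
  exact ⟨ζ + ρ * w, hmap w hw, rfl⟩

/-- the area near the boundary is small -/
theorem tail {F : ℂ → ℂ} (hF : DifferentiableOn ℂ F (Metric.ball 0 1)) (hi : InjOn F (Metric.ball 0 1))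
    (hfin : volume (F '' Metric.ball 0 1) ≠ ⊤) {ε : ENNReal} (hε : ε ≠ 0) :
    ∃ r : ℝ, 0 < r ∧ r < 1 ∧ volume (F '' (Metric.ball 0 1 \ Metric.closedBall 0 r)) < ε := by
  have h1 := IPC.cov hF hi (fun _ => 1)
  simp only [mul_one, lintegral_one] at h1
  rw [Measure.restrict_apply MeasurableSet.univ, univ_inter] at h1
  rw [h1] at hfin
  obtain ⟨δ, hδ, hs⟩ := exists_pos_setLIntegral_lt_of_measure_lt hfin hε
  have hvol : ∀ r : ℝ, 0 < r → r < 1 →
      volume (Metric.ball (0 : ℂ) 1 \ Metric.closedBall 0 r) = ENNReal.ofReal (Real.pi * (1 - r ^ 2)) := by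
    intro r h0 h1
    rw [measure_sdiff (Metric.closedBall_subset_ball h1) Metric.isClosed_closedBall.nullMeasurableSet
      measure_closedBall_lt_top.ne, Complex.volume_ball, Complex.volume_closedBall]
    have e1 : ((NNReal.pi : NNReal) : ENNReal) = ENNReal.ofReal Real.pi := by
      rw [ENNReal.ofReal, ← NNReal.coe_real_pi, Real.toNNReal_coe]
    rw [e1, ← ENNReal.ofReal_pow zero_le_one, ← ENNReal.ofReal_pow h0.le,
      ← ENNReal.ofReal_mul (by positivity), ← ENNReal.ofReal_mul (by positivity),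
      ← ENNReal.ofReal_sub _ (by positivity)]
    congr 1
    ring
  have hT : Tendsto (fun r : ℝ => ENNReal.ofReal (Real.pi * (1 - r ^ 2))) (𝓝[<] 1) (𝓝 0) := by
    have : Tendsto (fun r : ℝ => ENNReal.ofReal (Real.pi * (1 - r ^ 2))) (𝓝 1) (𝓝 (ENNReal.ofReal (Real.pi * (1 - 1 ^ 2)))) := by
      refine (ENNReal.continuous_ofReal.comp ?_).tendsto 1
      fun_prop
    simp only [one_pow, sub_self, mul_zero, ENNReal.ofReal_zero] at this
    exact this.mono_left nhdsWithin_le_nhds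
  have hev : ∀ᶠ r : ℝ in 𝓝[<] 1, ENNReal.ofReal (Real.pi * (1 - r ^ 2)) < δ :=
    hT.eventually (gt_mem_nhds hδ)
  have hev2 : ∀ᶠ r : ℝ in 𝓝[<] 1, r ∈ Ioo (0 : ℝ) 1 := Ioo_mem_nhdsLT zero_lt_one
  obtain ⟨r, hr1, hr2⟩ := (hev.and hev2).exists
  refine ⟨r, hr2.1, hr2.2, ?_⟩
  set s : Set ℂ := Metric.ball 0 1 \ Metric.closedBall 0 r with hsdef
  have hsm : MeasurableSet s := Metric.isOpen_ball.measurableSet.diff Metric.isClosed_closedBall.measurableSet
  have hsub : s ⊆ Metric.ball 0 1 := sdiff_subset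
  have h2 : volume (F '' s) = ∫⁻ w in s, ENNReal.ofReal (‖deriv F w‖ ^ 2) := by
    have hD : ∀ w ∈ s, HasFDerivWithinAt F
        ((ContinuousLinearMap.toSpanSingleton ℂ (deriv F w)).restrictScalars ℝ : ℂ →L[ℝ] ℂ) s w := by
      intro w hw
      have h1 : HasDerivAt F (deriv F w) w :=
        (hF.differentiableAt (Metric.isOpen_ball.mem_nhds (hsub hw))).hasDerivAt
      exact (h1.hasFDerivAt.restrictScalars ℝ).hasFDerivWithinAt
    have h3 := lintegral_abs_det_fderiv_eq_addHaar_image volume hsm hD (hi.mono hsub)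
    rw [← h3]
    refine lintegral_congr fun w => ?_
    rw [IPC.det_mul, abs_of_nonneg (by positivity)]
  rw [h2]
  have h3 := hs s (by
    refine lt_of_le_of_lt (Measure.restrict_apply_le _ _) ?_
    rw [hvol r hr2.1 hr2.2]
    exact hr1)
  rwa [Measure.restrict_restrict hsm, inter_eq_self_of_subset_left hsub] at h3

end IMax

theorem pr_Max : StMax := by
  intro F hF hi hfin
  set S : ℂ → ℝ := fun ζ => ‖deriv F ζ‖ * (1 - ‖ζ‖ ^ 2) with hS
  have hSc : ContinuousOn S (Metric.ball 0 1) := by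
    have h1 : ContinuousOn (deriv F) (Metric.ball 0 1) := (hF.deriv Metric.isOpen_ball).continuousOn
    refine h1.norm.mul ?_
    fun_prop
  by_cases hz : ∀ ζ ∈ Metric.ball (0 : ℂ) 1, S ζ ≤ 0
  · refine ⟨0, Metric.mem_ball_self one_pos, fun ζ hζ => (hz ζ hζ).trans ?_⟩
    simp
  push Not at hz
  obtain ⟨ζ₁, h1, hpos⟩ := hz
  have hε : ENNReal.ofReal (Real.pi * (S ζ₁) ^ 2 / 16) ≠ 0 := by
    rw [ENNReal.ofReal_ne_zero_iff]
    positivity
  obtain ⟨r, hr0, hr1, hr⟩ := IMax.tail hF hi hfin hε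
  -- near the boundary `S` is small
  have hbd : ∀ ζ ∈ Metric.ball (0 : ℂ) 1, (2 + r) / 3 < ‖ζ‖ → S ζ < S ζ₁ := by
    intro ζ hζ hn
    rw [mem_ball_zero_iff] at hζ
    set ρ : ℝ := (1 - ‖ζ‖) / 2 with hρ
    have hρ0 : 0 < ρ := by rw [hρ]; linarith
    have hsub : Metric.ball ζ ρ ⊆ Metric.ball 0 1 \ Metric.closedBall 0 r := by
      intro z hz
      rw [mem_ball_iff_norm] at hz
      have e1 : ‖z‖ ≤ ‖ζ‖ + ‖z - ζ‖ := by
        have := norm_add_le ζ (z - ζ)
        rwa [add_sub_cancel] at this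
      have e2 : ‖ζ‖ ≤ ‖z‖ + ‖z - ζ‖ := by
        have := norm_sub_le z (z - ζ)
        rwa [sub_sub_cancel] at this
      constructor
      · rw [mem_ball_zero_iff]
        linarith
      · rw [mem_closedBall_zero_iff, not_le]
        linarith
    have h2 := IMax.local_est hF hi hρ0 (hsub.trans sdiff_subset)
    have h3 : volume (F '' Metric.ball ζ ρ) < ENNReal.ofReal (Real.pi * (S ζ₁) ^ 2 / 16) :=
      lt_of_le_of_lt (measure_mono (image_mono hsub)) hr
    have h4 := lt_of_le_of_lt h2 h3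
    rw [ENNReal.ofReal_lt_ofReal_iff (by positivity)] at h4
    have h5 : S ζ ≤ 4 * (ρ * ‖deriv F ζ‖) := by
      have e1 : 1 - ‖ζ‖ ^ 2 = (1 + ‖ζ‖) * (2 * ρ) := by rw [hρ]; ring
      have e2 : (1 + ‖ζ‖) * (2 * ρ) ≤ 4 * ρ := by nlinarith [norm_nonneg ζ]
      calc S ζ = ‖deriv F ζ‖ * ((1 + ‖ζ‖) * (2 * ρ)) := by rw [hS]; simp only [e1]
        _ ≤ ‖deriv F ζ‖ * (4 * ρ) := by gcongr
        _ = 4 * (ρ * ‖deriv F ζ‖) := by ring
    have h6 : (4 * (ρ * ‖deriv F ζ‖)) ^ 2 < (S ζ₁) ^ 2 := by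
      have hpi := Real.pi_pos
      have : (ρ * ‖deriv F ζ‖) ^ 2 < (S ζ₁) ^ 2 / 16 := by
        have h7 : Real.pi * (ρ * ‖deriv F ζ‖) ^ 2 < Real.pi * ((S ζ₁) ^ 2 / 16) := by
          linarith [h4, (show Real.pi * (S ζ₁) ^ 2 / 16 = Real.pi * ((S ζ₁) ^ 2 / 16) by ring)]
        exact lt_of_mul_lt_mul_left h7 hpi.le
      nlinarith
    have h7 : 4 * (ρ * ‖deriv F ζ‖) < S ζ₁ := lt_of_pow_lt_pow_left₀ 2 hpos.le h6
    linarith
  set t : ℝ := max ((2 + r) / 3) ‖ζ₁‖ with ht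
  have ht1 : t < 1 := by
    rw [ht, max_lt_iff]
    exact ⟨by linarith, mem_ball_zero_iff.1 h1⟩
  have hK : IsCompact (Metric.closedBall (0 : ℂ) t) := isCompact_closedBall 0 t
  have hKs : Metric.closedBall (0 : ℂ) t ⊆ Metric.ball 0 1 := Metric.closedBall_subset_ball ht1
  have hζ₁K : ζ₁ ∈ Metric.closedBall (0 : ℂ) t := by
    rw [mem_closedBall_zero_iff]
    exact le_max_right _ _
  obtain ⟨ζ₀, h0, hmax⟩ := hK.exists_isMaxOn ⟨ζ₁, hζ₁K⟩ (hSc.mono hKs)
  refine ⟨ζ₀, hKs h0, fun ζ hζ => ?_⟩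
  by_cases hc : ζ ∈ Metric.closedBall (0 : ℂ) t
  · exact hmax hc
  · rw [mem_closedBall_zero_iff, not_le] at hc
    have h2 := hbd ζ hζ (lt_of_le_of_lt (le_max_left _ _) hc)
    exact h2.le.trans (hmax hζ₁K)

end Pool.Agent.MFK.CD
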