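import Pool.Agent.Work.MP_8826fd_mp.CD.Stmts

/-!
# MP_8826fd_mp, block CD: item Mob (automorphism of the disc moving `ζ₀` to the centre).
-/

set_option autoImplicit false

namespace Pool.Agent.MFK.CD

open MeasureTheory Set Filter Topology Pool.Agent.MFK.NF

namespace IMob

/-- `|1 + conj a u|² - |u + a|² = (1 - |a|²)(1 - |u|²)` -/
lemma nsq (a u : ℂ) : ‖1 + (starRingEnd ℂ) a * u‖ ^ 2 - ‖u + a‖ ^ 2 = (1 - ‖a‖ ^ 2) * (1 - ‖u‖ ^ 2) := by
  rw [Complex.sq_norm, Complex.sq_norm, Complex.sq_norm, Complex.sq_norm]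
  simp only [Complex.normSq_apply, Complex.add_re, Complex.add_im, Complex.mul_re, Complex.mul_im,
    Complex.one_re, Complex.one_im, Complex.conj_re, Complex.conj_im]
  ring

lemma den_ne (a u : ℂ) (ha : ‖a‖ < 1) (hu : ‖u‖ < 1) : 1 + (starRingEnd ℂ) a * u ≠ 0 := by
  intro h
  have h1 := nsq a u
  rw [h, norm_zero] at h1
  have h2 : 0 < (1 - ‖a‖ ^ 2) * (1 - ‖u‖ ^ 2) := by
    apply mul_pos
    · have := norm_nonneg a; nlinarith
    · have := norm_nonneg u; nlinarith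
  have h3 : 0 ≤ ‖u + a‖ ^ 2 := by positivity
  nlinarith

/-- the disc automorphism `u ↦ (u + a)/(1 + conj a u)` -/
noncomputable def B (a u : ℂ) : ℂ := (u + a) / (1 + (starRingEnd ℂ) a * u)

lemma one_sub (a u : ℂ) (ha : ‖a‖ < 1) (hu : ‖u‖ < 1) :
    1 - ‖B a u‖ ^ 2 = (1 - ‖a‖ ^ 2) * (1 - ‖u‖ ^ 2) / ‖1 + (starRingEnd ℂ) a * u‖ ^ 2 := by
  have hd := den_ne a u ha hu
  have hn : ‖1 + (starRingEnd ℂ) a * u‖ ^ 2 ≠ 0 := by
    have := norm_ne_zero_iff.mpr hd
    positivity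
  unfold B
  rw [norm_div, div_pow, ← nsq a u, eq_div_iff hn, sub_mul, div_mul_cancel₀ _ hn, one_mul]

lemma maps (a u : ℂ) (ha : ‖a‖ < 1) (hu : ‖u‖ < 1) : ‖B a u‖ < 1 := by
  have h := one_sub a u ha hu
  have hd := den_ne a u ha hu
  have hn : 0 < ‖1 + (starRingEnd ℂ) a * u‖ ^ 2 := by
    have := norm_pos_iff.mpr hd
    positivity
  have h2 : 0 < (1 - ‖a‖ ^ 2) * (1 - ‖u‖ ^ 2) := by
    apply mul_pos
    · have := norm_nonneg a; nlinarith
    · have := norm_nonneg u; nlinarith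
  have h3 : 0 < 1 - ‖B a u‖ ^ 2 := by rw [h]; exact div_pos h2 hn
  have := norm_nonneg (B a u)
  nlinarith

lemma aux_ne (a : ℂ) (ha : ‖a‖ < 1) : 1 - (starRingEnd ℂ) a * a ≠ 0 := by
  have h := den_ne a (-a) ha (by rwa [norm_neg])
  intro h2
  apply h
  rw [mul_neg, ← sub_eq_add_neg]
  exact h2

lemma inv (a u : ℂ) (ha : ‖a‖ < 1) (hu : ‖u‖ < 1) : B (-a) (B a u) = u := by
  have hd := den_ne a u ha hu
  have ha2 := aux_ne a ha
  have hb := den_ne (-a) (B a u) (by rwa [norm_neg]) (maps a u ha hu)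
  unfold B at hb ⊢
  rw [map_neg] at hb ⊢
  have h1 : (u + a) / (1 + (starRingEnd ℂ) a * u) + -a = u * (1 - (starRingEnd ℂ) a * a) / (1 + (starRingEnd ℂ) a * u) := by
    rw [eq_div_iff hd, add_mul, div_mul_cancel₀ _ hd]
    ring
  have h2 : 1 + -(starRingEnd ℂ) a * ((u + a) / (1 + (starRingEnd ℂ) a * u))
      = (1 - (starRingEnd ℂ) a * a) / (1 + (starRingEnd ℂ) a * u) := by
    rw [eq_div_iff hd, add_mul, mul_assoc, div_mul_cancel₀ _ hd]
    ring
  rw [h1, h2, div_div_div_cancel_right₀ hd, mul_div_assoc, div_self ha2, mul_one]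

lemma hasDeriv (a u : ℂ) (ha : ‖a‖ < 1) (hu : ‖u‖ < 1) :
    HasDerivAt (B a) ((1 - (starRingEnd ℂ) a * a) / (1 + (starRingEnd ℂ) a * u) ^ 2) u := by
  have hd := den_ne a u ha hu
  have h1 : HasDerivAt (fun u : ℂ => u + a) 1 u := (hasDerivAt_id u).add_const a
  have h2 : HasDerivAt (fun u : ℂ => 1 + (starRingEnd ℂ) a * u) ((starRingEnd ℂ) a) u := by
    have := ((hasDerivAt_id u).const_mul ((starRingEnd ℂ) a)).const_add 1
    simpa using this
  have h3 := h1.div h2 hd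
  have h4 : (1 * (1 + (starRingEnd ℂ) a * u) - (u + a) * (starRingEnd ℂ) a) / (1 + (starRingEnd ℂ) a * u) ^ 2
      = (1 - (starRingEnd ℂ) a * a) / (1 + (starRingEnd ℂ) a * u) ^ 2 := by
    congr 1
    ring
  rw [h4] at h3
  exact h3

lemma norm_aux (a : ℂ) (ha : ‖a‖ < 1) : ‖1 - (starRingEnd ℂ) a * a‖ = 1 - ‖a‖ ^ 2 := by
  have h : (1 : ℂ) - (starRingEnd ℂ) a * a = ((1 - ‖a‖ ^ 2 : ℝ) : ℂ) := by
    rw [mul_comm, Complex.mul_conj, Complex.normSq_eq_norm_sq]
    push_cast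
    ring
  rw [h, Complex.norm_real, Real.norm_eq_abs, abs_of_nonneg]
  have := norm_nonneg a
  nlinarith

end IMob

open IMob in
theorem pr_Mob : StMob := by
  intro Ω f F a hO hfd hFd hfm hFm hfF hFf haB
  have ha : ‖a‖ < 1 := by simpa [Metric.mem_ball, dist_zero_right] using haB
  have mem : ∀ w : ℂ, w ∈ Metric.ball (0 : ℂ) 1 ↔ ‖w‖ < 1 := by
    intro w
    rw [Metric.mem_ball, dist_zero_right]
  -- the derivative at `a` does not vanish
  have hFdat : ∀ w ∈ Metric.ball (0 : ℂ) 1, HasDerivAt F (deriv F w) w := by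
    intro w hw
    exact (hFd.differentiableAt (Metric.isOpen_ball.mem_nhds hw)).hasDerivAt
  have hne : deriv F a ≠ 0 := by
    intro h0
    have hfa : HasDerivAt f (deriv f (F a)) (F a) :=
      (hfd.differentiableAt (hO.mem_nhds (hFm haB))).hasDerivAt
    have hc := hfa.comp a (hFdat a haB)
    have he : (f ∘ F) =ᶠ[𝓝 a] id := by
      filter_upwards [Metric.isOpen_ball.mem_nhds haB] with w hw
      exact hfF w hw
    have h1 := (hasDerivAt_id a).congr_of_eventuallyEq he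
    have h2 := hc.unique h1
    rw [h0, mul_zero] at h2
    exact zero_ne_one h2
  have hnpos : 0 < ‖deriv F a‖ := norm_pos_iff.mpr hne
  have ha2 : 0 < 1 - ‖a‖ ^ 2 := by have := norm_nonneg a; nlinarith
  obtain ⟨η, hη, hη2⟩ : ∃ η : ℂ, ‖η‖ = 1 ∧ deriv F a * η = ((‖deriv F a‖ : ℝ) : ℂ) := by
    refine ⟨(starRingEnd ℂ) (deriv F a) / ((‖deriv F a‖ : ℝ) : ℂ), ?_, ?_⟩
    · rw [norm_div, RCLike.norm_conj, Complex.norm_real, Real.norm_eq_abs, abs_of_pos hnpos,
        div_self hnpos.ne']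
    · rw [← mul_div_assoc, Complex.mul_conj, Complex.normSq_eq_norm_sq]
      have h3 : ((‖deriv F a‖ : ℝ) : ℂ) ≠ 0 := by exact_mod_cast hnpos.ne'
      rw [div_eq_iff h3]
      push_cast
      ring
  have hηc : (starRingEnd ℂ) η * η = 1 := by
    rw [mul_comm, Complex.mul_conj, Complex.normSq_eq_norm_sq, hη]
    simp
  have hηu : ∀ w : ℂ, ‖w‖ < 1 → ‖η * w‖ < 1 := by
    intro w hw
    rw [norm_mul, hη, one_mul]
    exact hw
  have hna : ‖-a‖ < 1 := by rwa [norm_neg]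
  -- derivative of the composed map
  have hder : ∀ w : ℂ, ‖w‖ < 1 → HasDerivAt (fun w => F (B a (η * w)))
      (deriv F (B a (η * w)) * ((1 - (starRingEnd ℂ) a * a) / (1 + (starRingEnd ℂ) a * (η * w)) ^ 2 * η)) w := by
    intro w hw
    have h1 : HasDerivAt (fun w : ℂ => η * w) η w := by
      simpa using (hasDerivAt_id w).const_mul η
    have h2 := (hasDeriv a (η * w) ha (hηu w hw)).comp w h1
    have h3 := (hFdat (B a (η * w)) ((mem _).2 (maps a _ ha (hηu w hw)))).comp w h2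
    exact h3
  refine ⟨fun z => (starRingEnd ℂ) η * B (-a) (f z), fun w => F (B a (η * w)),
    ‖deriv F a‖ * (1 - ‖a‖ ^ 2), mul_pos hnpos ha2, rfl, ?_, ?_, ?_, ?_, ?_, ?_, ?_, ?_⟩
  · have h := (hder 0 (by simp)).deriv
    rw [h]
    have hB : B a (η * 0) = a := by unfold B; simp
    rw [hB]
    have hc : (1 : ℂ) - (starRingEnd ℂ) a * a = ((1 - ‖a‖ ^ 2 : ℝ) : ℂ) := by
      rw [mul_comm, Complex.mul_conj, Complex.normSq_eq_norm_sq]
      push_cast
      ring
    have : deriv F a * ((1 - (starRingEnd ℂ) a * a) / (1 + (starRingEnd ℂ) a * (η * 0)) ^ 2 * η)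
        = (deriv F a * η) * (1 - (starRingEnd ℂ) a * a) := by
      simp
      ring
    rw [this, hη2, hc]
    push_cast
    ring
  · intro z hz
    have hfz := (mem _).1 (hfm hz)
    have h1 : DifferentiableAt ℂ f z := hfd.differentiableAt (hO.mem_nhds hz)
    have h2 := (hasDeriv (-a) (f z) hna hfz).differentiableAt
    have h3 : DifferentiableAt ℂ (fun z => B (-a) (f z)) z := h2.comp z h1
    exact (h3.const_mul ((starRingEnd ℂ) η)).differentiableWithinAt
  · intro w hw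
    exact (hder w ((mem w).1 hw)).differentiableAt.differentiableWithinAt
  · intro z hz
    rw [mem]
    have hfz := (mem _).1 (hfm hz)
    rw [norm_mul, RCLike.norm_conj, hη, one_mul]
    exact maps _ _ hna hfz
  · intro w hw
    exact hFm ((mem _).2 (maps a _ ha (hηu w ((mem w).1 hw))))
  · intro w hw
    have hw1 := (mem w).1 hw
    have hm := (mem _).2 (maps a _ ha (hηu w hw1))
    show (starRingEnd ℂ) η * B (-a) (f (F (B a (η * w)))) = w
    rw [hfF _ hm, inv a _ ha (hηu w hw1), ← mul_assoc, hηc, one_mul]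
  · intro z hz
    have hfz := (mem _).1 (hfm hz)
    show F (B a (η * ((starRingEnd ℂ) η * B (-a) (f z)))) = z
    rw [← mul_assoc, mul_comm η, hηc, one_mul]
    have h := inv (-a) (f z) hna hfz
    rw [neg_neg] at h
    rw [h]
    exact hFf z hz
  · intro w hw
    have hw1 := (mem w).1 hw
    refine ⟨B a (η * w), (mem _).2 (maps a _ ha (hηu w hw1)), ?_⟩
    rw [(hder w hw1).deriv, one_sub a _ ha (hηu w hw1), norm_mul, norm_mul, norm_div, norm_pow,
      norm_aux a ha, norm_mul η w, hη]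
    ring

end Pool.Agent.MFK.CD
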