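import Pool.Agent.Work.MP_8826fd_mp.CD.Stmts

/-!
# MP_8826fd_mp, block CD, item OA: equation of the transported parts
-/

set_option autoImplicit false

namespace Pool.Agent.MFK.CD

open MeasureTheory Set Filter Topology Pool.Agent.MFK.NF

namespace IOA

/-- both transported parts -/
noncomputable def AA (B : ℝ) (m n : ℕ) (e : ℝ) (g : ℝ → ℝ) (t : ℝ) : ℝ :=
  t ^ n * (t * deriv g t + e * cf B m n t * g t) / 2

/-- `r` times the derivative -/
noncomputable def EE1 (B lam : ℝ) (m n : ℕ) (e : ℝ) (g : ℝ → ℝ) (t : ℝ) : ℝ :=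
  t ^ n * ((n + e * cf B m n t) * (t * deriv g t)
    + (e * (n * cf B m n t) + (m - B * t ^ 2 / 2) ^ 2 - lam * t ^ 2
      - e * (B * n * t ^ 2 / (n + 2))) * g t) / 2

theorem hpow (n : ℕ) {t : ℝ} (ht : 0 < t) : (n : ℝ) * t ^ (n - 1) = n * t ^ n / t := by
  rcases Nat.eq_zero_or_pos n with h | h
  · subst h
    simp
  · obtain ⟨k, rfl⟩ : ∃ k, n = k + 1 := ⟨n - 1, by omega⟩
    rw [Nat.add_sub_cancel, pow_succ]
    field_simp

theorem hcf (B : ℝ) (m n : ℕ) (t : ℝ) :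
    HasDerivAt (cf B m n) (-(B * n * t / (n + 2))) t := by
  have h1 : HasDerivAt (fun x : ℝ => (m : ℝ) - B * n * x ^ 2 / (2 * (n + 2)))
      (0 - B * n * (((2 : ℕ) : ℝ) * t ^ (2 - 1)) / (2 * (n + 2))) t :=
    (hasDerivAt_const t (m : ℝ)).fun_sub
      (((hasDerivAt_pow 2 t).const_mul (B * n)).div_const (2 * ((n : ℝ) + 2)))
  have h2 : cf B m n = fun x : ℝ => (m : ℝ) - B * n * x ^ 2 / (2 * (n + 2)) := by
    funext x
    rfl
  rw [h2]
  refine h1.congr_deriv ?_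
  have h3 : ((n : ℝ) + 2) ≠ 0 := by positivity
  push_cast
  field_simp
  ring

theorem d1 (B lam : ℝ) (m n : ℕ) (e : ℝ) (hB : 0 < B) (hl : lam < B) {t : ℝ} (ht : 0 < t) :
    HasDerivAt (AA B m n e (gk B lam m)) (EE1 B lam m n e (gk B lam m) t / t) t := by
  have h1 := gk_ode hB hl m ht
  have h2 := gk_d1 hB hl m t
  have h3 := hcf B m n t
  have h4 : HasDerivAt (fun x : ℝ => x ^ n * (x * deriv (gk B lam m) x + e * cf B m n x * gk B lam m x) / 2)
      ((((n : ℝ) * t ^ (n - 1)) * (t * deriv (gk B lam m) t + e * cf B m n t * gk B lam m t)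
        + t ^ n * (t * ((((m : ℝ) / t - B * t / 2) ^ 2 - lam) * gk B lam m t)
          + (e * (-(B * n * t / (n + 2))) * gk B lam m t + e * cf B m n t * deriv (gk B lam m) t))) / 2) t :=
    ((hasDerivAt_pow n t).fun_mul (h1.fun_add ((h3.const_mul e).fun_mul h2))).div_const 2
  have h5 : AA B m n e (gk B lam m) =
      fun x : ℝ => x ^ n * (x * deriv (gk B lam m) x + e * cf B m n x * gk B lam m x) / 2 := by
    funext x
    rfl
  rw [h5]
  refine h4.congr_deriv ?_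
  rw [hpow n ht]
  unfold EE1
  have h6 : ((n : ℝ) + 2) ≠ 0 := by positivity
  have h7 : t ≠ 0 := ht.ne'
  generalize cf B m n t = c
  generalize gk B lam m t = g
  generalize deriv (gk B lam m) t = g1
  generalize t ^ n = T
  field_simp
  ring

theorem d2 (B lam : ℝ) (m n : ℕ) (e : ℝ) (he : e = 1 ∨ e = -1) (hB : 0 < B) (hl : lam < B) {t : ℝ}
    (ht : 0 < t) :
    HasDerivAt (EE1 B lam m n e (gk B lam m))
      (((((m : ℝ) + e * n) / t - B * t / 2) ^ 2 - lam) * (t * AA B m n e (gk B lam m) t)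
        - Sn B lam m n e (gk B lam m) t) t := by
  have h1 := gk_ode hB hl m ht
  have h2 := gk_d1 hB hl m t
  have h3 := hcf B m n t
  have hp2 : HasDerivAt (fun x : ℝ => x ^ 2) (((2 : ℕ) : ℝ) * t ^ (2 - 1)) t := hasDerivAt_pow 2 t
  have ha : HasDerivAt (fun x : ℝ => (n : ℝ) + e * cf B m n x) (0 + e * (-(B * n * t / (n + 2)))) t :=
    (hasDerivAt_const t (n : ℝ)).fun_add (h3.const_mul e)
  have hD : HasDerivAt (fun x : ℝ => (m : ℝ) - B * x ^ 2 / 2)
      (0 - B * (((2 : ℕ) : ℝ) * t ^ (2 - 1)) / 2) t :=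
    (hasDerivAt_const t (m : ℝ)).fun_sub ((hp2.const_mul B).div_const 2)
  have hb : HasDerivAt (fun x : ℝ => e * (n * cf B m n x) + (m - B * x ^ 2 / 2) ^ 2 - lam * x ^ 2
      - e * (B * n * x ^ 2 / (n + 2)))
      (e * (n * (-(B * n * t / (n + 2))))
        + ((2 : ℕ) : ℝ) * ((m : ℝ) - B * t ^ 2 / 2) ^ (2 - 1) * (0 - B * (((2 : ℕ) : ℝ) * t ^ (2 - 1)) / 2)
        - lam * (((2 : ℕ) : ℝ) * t ^ (2 - 1))
        - e * (B * n * (((2 : ℕ) : ℝ) * t ^ (2 - 1)) / (n + 2))) t :=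
    ((((h3.const_mul (n : ℝ)).const_mul e).fun_add (hD.fun_pow 2)).fun_sub (hp2.const_mul lam)).fun_sub
      (((hp2.const_mul (B * n)).div_const ((n : ℝ) + 2)).const_mul e)
  have h4 := ((hasDerivAt_pow n t).fun_mul ((ha.fun_mul h1).fun_add (hb.fun_mul h2))).div_const 2
  have h5 : EE1 B lam m n e (gk B lam m) = fun t : ℝ => t ^ n * ((n + e * cf B m n t) *
    (t * deriv (gk B lam m) t)
    + (e * (n * cf B m n t) + (m - B * t ^ 2 / 2) ^ 2 - lam * t ^ 2
      - e * (B * n * t ^ 2 / (n + 2))) * gk B lam m t) / 2 := by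
    funext x
    rfl
  rw [h5]
  refine h4.congr_deriv ?_
  rw [hpow n ht]
  unfold AA Sn
  rw [pow_succ t n]
  have h6 : ((n : ℝ) + 2) ≠ 0 := by positivity
  have h7 : t ≠ 0 := ht.ne'
  have hc : cf B m n t = (m : ℝ) - B * n * t ^ 2 / (2 * (n + 2)) := rfl
  rw [hc]
  generalize gk B lam m t = g
  generalize deriv (gk B lam m) t = g1
  generalize t ^ n = T
  rcases he with rfl | rfl
  · push_cast
    field_simp
    ring
  · push_cast
    field_simp
    ring

theorem main (B lam : ℝ) (m n : ℕ) (e : ℝ) (he : e = 1 ∨ e = -1) (hB : 0 < B) (hl : lam < B) {t : ℝ}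
    (ht : 0 < t) :
    HasDerivAt (AA B m n e (gk B lam m)) (deriv (AA B m n e (gk B lam m)) t) t ∧
    HasDerivAt (fun x => x * deriv (AA B m n e (gk B lam m)) x)
      (((((m : ℝ) + e * n) / t - B * t / 2) ^ 2 - lam) * (t * AA B m n e (gk B lam m) t)
        - Sn B lam m n e (gk B lam m) t) t ∧
    t * deriv (AA B m n e (gk B lam m)) t = EE1 B lam m n e (gk B lam m) t := by
  have hx : ∀ x : ℝ, 0 < x → x * deriv (AA B m n e (gk B lam m)) x = EE1 B lam m n e (gk B lam m) x := by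
    intro x hx
    rw [(d1 B lam m n e hB hl hx).deriv]
    field_simp
  refine ⟨(d1 B lam m n e hB hl ht).differentiableAt.hasDerivAt, ?_, hx t ht⟩
  apply (d2 B lam m n e he hB hl ht).congr_of_eventuallyEq
  filter_upwards [lt_mem_nhds ht] with x hx0
  exact hx x hx0

end IOA

theorem pr_OA : StOA := by
  intro B lam m n hB hl r hr
  have hA : at1 B m n (gk B lam m) = IOA.AA B m n 1 (gk B lam m) := by
    funext t
    unfold at1 IOA.AA
    ring
  have hA' : bt1 B m n (gk B lam m) = IOA.AA B m n (-1) (gk B lam m) := by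
    funext t
    unfold bt1 IOA.AA
    ring
  obtain ⟨a1, a2, a3⟩ := IOA.main B lam m n 1 (Or.inl rfl) hB hl hr
  obtain ⟨b1, b2, b3⟩ := IOA.main B lam m n (-1) (Or.inr rfl) hB hl hr
  rw [hA, hA']
  refine ⟨⟨a1, ?_, ?_⟩, ⟨b1, ?_, ?_⟩⟩
  · refine a2.congr_deriv ?_
    unfold qn
    push_cast
    ring
  · rw [a3]
    unfold IOA.EE1
    ring
  · refine b2.congr_deriv ?_
    unfold qn
    push_cast
    ring
  · rw [b3]
    unfold IOA.EE1
    ring

end Pool.Agent.MFK.CD
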