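import Pool.Agent.Work.MP_8826fd_mp.CD.Stmts

/-!
# MP_8826fd_mp, block CD, item One: assembly of the one-dimensional part
-/

set_option autoImplicit false

namespace Pool.Agent.MFK.CD

open MeasureTheory Set Filter Topology Pool.Agent.MFK.NF

namespace IOne

/-- a finite minimum -/
theorem fin_min (s : Finset ℕ) (f : ℕ → ℝ) (h : ∀ n ∈ s, f n < 0) :
    ∃ κ > (0 : ℝ), ∀ n ∈ s, f n ≤ -κ * (n + 1) := by
  induction s using Finset.induction_on with
  | empty => exact ⟨1, one_pos, fun n hn => absurd hn (Finset.notMem_empty n)⟩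
  | insert a s _ ih =>
    obtain ⟨κ, hκ, hs⟩ := ih (fun n hn => h n (Finset.mem_insert_of_mem hn))
    have ha := h a (Finset.mem_insert_self a s)
    have hpa : (0 : ℝ) < (a : ℝ) + 1 := by positivity
    refine ⟨min κ (-f a / (a + 1)), lt_min hκ (div_pos (by linarith) hpa), fun n hn => ?_⟩
    have hpn : (0 : ℝ) < (n : ℝ) + 1 := by positivity
    rcases Finset.mem_insert.1 hn with h1 | h1
    · subst h1
      have h2 : min κ (-f n / (n + 1)) * ((n : ℝ) + 1) ≤ (-f n / (n + 1)) * ((n : ℝ) + 1) :=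
        mul_le_mul_of_nonneg_right (min_le_right _ _) hpn.le
      rw [div_mul_cancel₀ _ hpn.ne'] at h2
      linarith
    · have h2 : min κ (-f a / (a + 1)) * ((n : ℝ) + 1) ≤ κ * ((n : ℝ) + 1) :=
        mul_le_mul_of_nonneg_right (min_le_left _ _) hpn.le
      have h3 := hs n h1
      linarith

theorem radf_c1 (l : ℤ) (Ψ : ℝ → ℝ) (h : ContDiff ℝ 1 Ψ) : ContDiff ℝ 1 (radf l Ψ) := by
  unfold radf
  exact (contDiff_id.pow l.natAbs).mul (h.comp (contDiff_id.pow 2))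

theorem bdd (l : ℤ) (Ψ : ℝ → ℝ) (h : ContDiff ℝ 1 Ψ) : ∃ C : ℝ, Bdd C l (radf l Ψ) := by
  have h1 := radf_c1 l Ψ h
  have hc : Continuous (radf l Ψ) := h1.continuous
  have hd : Continuous (deriv (radf l Ψ)) := h1.continuous_deriv le_rfl
  have he : Continuous (fun r : ℝ => (l : ℝ) * (r ^ (l.natAbs - 1) * Ψ (r ^ 2))) :=
    continuous_const.mul ((continuous_id.pow _).mul (h.continuous.comp (continuous_id.pow 2)))
  obtain ⟨C1, hC1⟩ := (isCompact_Icc (a := (0 : ℝ)) (b := 1)).exists_bound_of_continuousOn hc.continuousOn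
  obtain ⟨C2, hC2⟩ := (isCompact_Icc (a := (0 : ℝ)) (b := 1)).exists_bound_of_continuousOn hd.continuousOn
  obtain ⟨C3, hC3⟩ := (isCompact_Icc (a := (0 : ℝ)) (b := 1)).exists_bound_of_continuousOn he.continuousOn
  refine ⟨|C1| + |C2| + |C3|, fun r hr => ?_⟩
  have hr' : r ∈ Icc (0 : ℝ) 1 := ⟨hr.1.le, hr.2.le⟩
  have g1 := hC1 r hr'
  have g2 := hC2 r hr'
  have g3 := hC3 r hr'
  rw [Real.norm_eq_abs] at g1 g2 g3
  have a1 := le_abs_self C1
  have a2 := le_abs_self C2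
  have a3 := le_abs_self C3
  have b1 := abs_nonneg C1
  have b2 := abs_nonneg C2
  have b3 := abs_nonneg C3
  have hr0 : r ≠ 0 := hr.1.ne'
  have key : (l / r) * radf l Ψ r = (l : ℝ) * (r ^ (l.natAbs - 1) * Ψ (r ^ 2)) := by
    unfold radf
    by_cases hl : l = 0
    · subst hl
      simp
    · have h4 : l.natAbs = (l.natAbs - 1) + 1 := by
        have := Int.natAbs_pos.2 hl
        omega
      have h5 : r ^ l.natAbs = r ^ (l.natAbs - 1) * r := by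
        conv_lhs => rw [h4]
        exact pow_succ r _
      rw [h5]
      field_simp
  refine ⟨by linarith, by linarith, ?_⟩
  rw [key]
  linarith

theorem bdd_mono {C C' : ℝ} {l : ℤ} {P : ℝ → ℝ} (h : Bdd C l P) (hC : C ≤ C') : Bdd C' l P :=
  fun r hr => ⟨(h r hr).1.trans hC, (h r hr).2.1.trans hC, (h r hr).2.2.trans hC⟩

/-- the transported profile -/
noncomputable def P0 (m : ℕ) (Ψ : ℝ → ℝ) (t : ℝ) : ℝ := m * Ψ t + 2 * t * deriv Ψ t

theorem deriv_c1 (Ψ : ℝ → ℝ) (h : ContDiff ℝ 2 Ψ) : ContDiff ℝ 1 (deriv Ψ) := by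
  have h2 : ContDiff ℝ (1 + 1) Ψ := by
    norm_num
    exact h
  exact (contDiff_succ_iff_deriv.1 h2).2.2

theorem P0_c1 (m : ℕ) (Ψ : ℝ → ℝ) (h : ContDiff ℝ 2 Ψ) : ContDiff ℝ 1 (P0 m Ψ) := by
  have h1 : ContDiff ℝ 1 Ψ := h.of_le (by norm_num)
  unfold P0
  exact (contDiff_const.mul h1).add ((contDiff_const.mul contDiff_id).mul (deriv_c1 Ψ h))

/-- `r (r^m Ψ(r²))' = r^m P0(r²)` -/
theorem rderiv (m : ℕ) (Ψ : ℝ → ℝ) (h : ContDiff ℝ 2 Ψ) (r : ℝ) :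
    r * deriv (radf (m : ℤ) Ψ) r = r ^ m * P0 m Ψ (r ^ 2) := by
  have h1 : HasDerivAt Ψ (deriv Ψ (r ^ 2)) (r ^ 2) :=
    ((h.differentiable (by norm_num)) (r ^ 2)).hasDerivAt
  have h2 : HasDerivAt (fun t : ℝ => t ^ 2) (2 * r) r := by
    simpa using hasDerivAt_pow 2 r
  have h3 : HasDerivAt (fun t : ℝ => Ψ (t ^ 2)) (deriv Ψ (r ^ 2) * (2 * r)) r :=
    HasDerivAt.comp r h1 h2
  have h4 : HasDerivAt (fun t : ℝ => t ^ m * Ψ (t ^ 2))
      ((m : ℝ) * r ^ (m - 1) * Ψ (r ^ 2) + r ^ m * (deriv Ψ (r ^ 2) * (2 * r))) r :=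
    (hasDerivAt_pow m r).fun_mul h3
  have h5 : radf (m : ℤ) Ψ = fun t : ℝ => t ^ m * Ψ (t ^ 2) := by
    funext t
    simp [radf]
  rw [h5, h4.deriv]
  unfold P0
  rcases Nat.eq_zero_or_pos m with h0 | h0
  · subst h0
    simp
    ring
  · obtain ⟨j, rfl⟩ : ∃ j, m = j + 1 := ⟨m - 1, by omega⟩
    simp only [Nat.add_sub_cancel]
    ring

/-- profile of `at1` -/
noncomputable def PA (B : ℝ) (m n : ℕ) (Ψ : ℝ → ℝ) (t : ℝ) : ℝ :=
  (P0 m Ψ t + (m - B * n * t / (2 * (n + 2))) * Ψ t) / 2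

/-- profile of `bt1` -/
noncomputable def PB (B : ℝ) (m n : ℕ) (Ψ : ℝ → ℝ) (t : ℝ) : ℝ :=
  t ^ (min m n) * ((P0 m Ψ t - (m - B * n * t / (2 * (n + 2))) * Ψ t) / 2)

theorem lin_c1 (B : ℝ) (m n : ℕ) : ContDiff ℝ 1 (fun t : ℝ => ((m : ℝ) - B * n * t / (2 * (n + 2)))) :=
  contDiff_const.sub ((contDiff_const.mul contDiff_id).div_const _)

theorem PA_c1 (B : ℝ) (m n : ℕ) (Ψ : ℝ → ℝ) (h : ContDiff ℝ 2 Ψ) : ContDiff ℝ 1 (PA B m n Ψ) := by
  have h1 : ContDiff ℝ 1 Ψ := h.of_le (by norm_num)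
  unfold PA
  exact ((P0_c1 m Ψ h).add ((lin_c1 B m n).mul h1)).div_const 2

theorem PB_c1 (B : ℝ) (m n : ℕ) (Ψ : ℝ → ℝ) (h : ContDiff ℝ 2 Ψ) : ContDiff ℝ 1 (PB B m n Ψ) := by
  have h1 : ContDiff ℝ 1 Ψ := h.of_le (by norm_num)
  unfold PB
  exact (contDiff_id.pow (min m n)).mul (((P0_c1 m Ψ h).sub ((lin_c1 B m n).mul h1)).div_const 2)

theorem at_eq (B : ℝ) (m n : ℕ) (Ψ : ℝ → ℝ) (h : ContDiff ℝ 2 Ψ) :
    at1 B m n (radf (m : ℤ) Ψ) = radf ((m : ℤ) + n) (PA B m n Ψ) := by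
  funext r
  have h1 := rderiv m Ψ h r
  have h2 : ((m : ℤ) + n).natAbs = m + n := by
    rw [show ((m : ℤ) + n) = ((m + n : ℕ) : ℤ) by push_cast; ring]
    exact Int.natAbs_natCast _
  have h3 : radf (m : ℤ) Ψ r = r ^ m * Ψ (r ^ 2) := by simp [radf]
  unfold at1 cf
  rw [h1, h3]
  unfold radf PA
  rw [h2, pow_add]
  ring

theorem bt_eq (B : ℝ) (m n : ℕ) (Ψ : ℝ → ℝ) (h : ContDiff ℝ 2 Ψ) :
    bt1 B m n (radf (m : ℤ) Ψ) = radf ((m : ℤ) - n) (PB B m n Ψ) := by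
  funext r
  have h1 := rderiv m Ψ h r
  have h2 : r ^ ((m : ℤ) - n).natAbs * (r ^ 2) ^ (min m n) = r ^ m * r ^ n := by
    rw [← pow_mul, ← pow_add, ← pow_add]
    congr 1
    omega
  have h3 : radf (m : ℤ) Ψ r = r ^ m * Ψ (r ^ 2) := by simp [radf]
  unfold bt1 cf
  rw [h1, h3]
  unfold radf PB
  linear_combination (-((P0 m Ψ (r ^ 2) - ((m : ℝ) - B * n * r ^ 2 / (2 * (n + 2))) * Ψ (r ^ 2)) / 2)) * h2

theorem Sn_cont (B lam : ℝ) (m n : ℕ) (σ : ℝ) (g : ℝ → ℝ) (hg : Continuous g) :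
    Continuous (Sn B lam m n σ g) := by
  unfold Sn
  fun_prop

/-- the general lemma applied to one side -/
theorem side (h4 : StPar) (B lam x : ℝ) (l : ℤ) (A S F P : ℝ → ℝ) (hP : ContDiff ℝ 1 P)
    (hA : A = radf l P) (hS : Continuous S) (hR : Rad B lam l F)
    (hd : ∀ r, 0 < r → HasDerivAt A (deriv A r) r ∧
      HasDerivAt (fun t => t * deriv A t) ((qn B l r ^ 2 - lam) * (r * A r) - S r) r) :
    2 * Il B lam l (fun r => A r + x * radf l F r)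
      - 4 * (∫ r in (0 : ℝ)..1, S r * (A r + x * radf l F r))
    = 2 * A 1 * deriv A 1 - 2 * (∫ r in (0 : ℝ)..1, S r * A r) + 4 * x * radf l F 1 * deriv A 1
      + 2 * x ^ 2 * radf l F 1 * deriv (radf l F) 1 := by
  obtain ⟨C1, hC1⟩ := bdd l P hP
  obtain ⟨C2, hC2⟩ := bdd l F (hR.smooth.of_le (by norm_num))
  rw [← hA] at hC1
  have hreg := rReg B lam l F hR
  refine h4 B lam x (max C1 C2) l A (radf l F) S hS hd (fun r hr => ⟨hreg.1 r, ?_⟩)
    (bdd_mono hC1 (le_max_left _ _)) (bdd_mono hC2 (le_max_right _ _))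
  exact (hR.ode r hr).congr_deriv (by ring)

theorem radf_add (l : ℤ) (P F : ℝ → ℝ) (x : ℝ) :
    radf l (fun t => P t + x * F t) = fun r => radf l P r + x * radf l F r := by
  funext r
  unfold radf
  ring

end IOne

open IOne in
theorem pr_One (h0 : StAL) (_h1 : StVir) (h2 : StTTn) (h3 : StOA) (h4 : StPar) (h5 : StKey)
    (h6 : StSp2) : StOne := by
  intro B hB
  obtain ⟨lam, m, hSp, hD, hF⟩ := h6 B hB
  obtain ⟨N, κ0, hκ0, hT⟩ := h2 B lam m hSp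
  have hneg : ∀ n : ℕ, ∃ X Y : ℝ, 2 ≤ n →
      2 * (B / 2 - m) * (B / 2 + m) + 2 * Y * ((B / 2 - m) ^ 2 - lam - n * (B / 2 - m))
        + 2 * X * ((B / 2 - m) ^ 2 - lam + n * (B / 2 - m))
        + Y ^ 2 * dtn (fun n => FK B lam n) ((m : ℤ) + n)
        + X ^ 2 * dtn (fun n => FK B lam n) ((m : ℤ) - n) < 0 := by
    intro n
    by_cases hn : 2 ≤ n
    · obtain ⟨X, Y, hXY⟩ := h0 _ _ _ _ _ _ hF n hn
      exact ⟨X, Y, fun _ => hXY⟩
    · exact ⟨0, 0, fun h => absurd h hn⟩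
  choose X Y hXY using hneg
  have hrad : ∀ l : ℤ, Rad B lam l (FK B lam l) := hD.rad
  set Ψ : ℝ → ℝ := FK B lam (m : ℤ) with hΨ
  have hΨ2 : ContDiff ℝ 2 Ψ := (hrad m).smooth
  have hg : gk B lam m = radf (m : ℤ) Ψ := rfl
  set g1 : ℝ := gk B lam m 1 with hg1
  have hg1p : 0 < g1 := gk_pos hSp.hB hSp.lam_lt m one_pos
  set x : ℕ → ℝ := fun n => Y n * g1 / (2 * FK B lam ((m : ℤ) + n) 1) with hx
  set y : ℕ → ℝ := fun n => X n * g1 / (2 * FK B lam ((m : ℤ) - n) 1) with hy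
  set ΨA : ℕ → ℝ → ℝ := fun n t => PA B m n Ψ t + x n * FK B lam ((m : ℤ) + n) t with hΨA
  set ΨB : ℕ → ℝ → ℝ := fun n t => PB B m n Ψ t + y n * FK B lam ((m : ℤ) - n) t with hΨB
  have hQ : ∀ n ∈ Finset.Icc 2 N, QQ B lam m n (gk B lam m) (radf ((m : ℤ) + n) (ΨA n))
      (radf ((m : ℤ) - n) (ΨB n)) < 0 := by
    intro n hn
    have hn2 : 2 ≤ n := (Finset.mem_Icc.1 hn).1
    have e1 : radf ((m : ℤ) + n) (ΨA n)
        = fun r => at1 B m n (gk B lam m) r + x n * radf ((m : ℤ) + n) (FK B lam ((m : ℤ) + n)) r := by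
      rw [hg, at_eq B m n Ψ hΨ2]
      exact radf_add _ _ _ _
    have e2 : radf ((m : ℤ) - n) (ΨB n)
        = fun r => bt1 B m n (gk B lam m) r + y n * radf ((m : ℤ) - n) (FK B lam ((m : ℤ) - n)) r := by
      rw [hg, bt_eq B m n Ψ hΨ2]
      exact radf_add _ _ _ _
    have hgc := gk_cont hSp.hB hSp.lam_lt m
    have s1 := side h4 B lam (x n) ((m : ℤ) + n) (at1 B m n (gk B lam m))
      (Sn B lam m n 1 (gk B lam m)) (FK B lam ((m : ℤ) + n)) (PA B m n Ψ) (PA_c1 B m n Ψ hΨ2)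
      (at_eq B m n Ψ hΨ2) (Sn_cont _ _ _ _ _ _ hgc) (hrad _)
      (fun r hr => ⟨(h3 B lam m n hSp.hB hSp.lam_lt r hr).1.1, (h3 B lam m n hSp.hB hSp.lam_lt r hr).1.2.1⟩)
    have s2 := side h4 B lam (y n) ((m : ℤ) - n) (bt1 B m n (gk B lam m))
      (Sn B lam m n (-1) (gk B lam m)) (FK B lam ((m : ℤ) - n)) (PB B m n Ψ) (PB_c1 B m n Ψ hΨ2)
      (bt_eq B m n Ψ hΨ2) (Sn_cont _ _ _ _ _ _ hgc) (hrad _)
      (fun r hr => ⟨(h3 B lam m n hSp.hB hSp.lam_lt r hr).2.1, (h3 B lam m n hSp.hB hSp.lam_lt r hr).2.2.1⟩)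
    obtain ⟨k1, k2, k3⟩ := h5 B lam m n hSp hn2
    have hval : ∀ l : ℤ, radf l (FK B lam l) 1 = FK B lam l 1 := fun l => by simp [radf]
    have hp : ∀ l : ℤ, 0 < FK B lam l 1 := fun l => (hrad l).pos 1 zero_le_one
    have d1 : deriv (radf ((m : ℤ) + n) (FK B lam ((m : ℤ) + n))) 1
        = dtn (fun n => FK B lam n) ((m : ℤ) + n) * FK B lam ((m : ℤ) + n) 1 := by
      unfold dtn
      exact (div_mul_cancel₀ _ (hp _).ne').symm
    have d2 : deriv (radf ((m : ℤ) - n) (FK B lam ((m : ℤ) - n))) 1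
        = dtn (fun n => FK B lam n) ((m : ℤ) - n) * FK B lam ((m : ℤ) - n) 1 := by
      unfold dtn
      exact (div_mul_cancel₀ _ (hp _).ne').symm
    have x1 : x n * FK B lam ((m : ℤ) + n) 1 = Y n * g1 / 2 := by
      have := (hp ((m : ℤ) + n)).ne'
      simp only [hx]
      field_simp
    have y1 : y n * FK B lam ((m : ℤ) - n) 1 = X n * g1 / 2 := by
      have := (hp ((m : ℤ) - n)).ne'
      simp only [hy]
      field_simp
    have hsn := hXY n hn2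
    unfold QQ
    rw [e1, e2]
    rw [hval, d1] at s1
    rw [hval, d2] at s2
    rw [← hg1] at k1 k2 k3
    have t1 : 4 * x n * FK B lam ((m : ℤ) + n) 1 * deriv (at1 B m n (gk B lam m)) 1
        = Y n * g1 ^ 2 * ((B / 2 - m) ^ 2 - lam - n * (B / 2 - m)) := by
      rw [k1]
      linear_combination (4 * (g1 * ((B / 2 - m) ^ 2 - lam - n * (B / 2 - m)) / 2)) * x1
    have t2 : 4 * y n * FK B lam ((m : ℤ) - n) 1 * deriv (bt1 B m n (gk B lam m)) 1
        = X n * g1 ^ 2 * ((B / 2 - m) ^ 2 - lam + n * (B / 2 - m)) := by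
      rw [k2]
      linear_combination (4 * (g1 * ((B / 2 - m) ^ 2 - lam + n * (B / 2 - m)) / 2)) * y1
    have t3 : 2 * x n ^ 2 * FK B lam ((m : ℤ) + n) 1
          * (dtn (fun n => FK B lam n) ((m : ℤ) + n) * FK B lam ((m : ℤ) + n) 1)
        = g1 ^ 2 / 2 * (Y n ^ 2 * dtn (fun n => FK B lam n) ((m : ℤ) + n)) := by
      have := congrArg (fun z => z ^ 2) x1
      beta_reduce at this
      linear_combination (2 * dtn (fun n => FK B lam n) ((m : ℤ) + n)) * this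
    have t4 : 2 * y n ^ 2 * FK B lam ((m : ℤ) - n) 1
          * (dtn (fun n => FK B lam n) ((m : ℤ) - n) * FK B lam ((m : ℤ) - n) 1)
        = g1 ^ 2 / 2 * (X n ^ 2 * dtn (fun n => FK B lam n) ((m : ℤ) - n)) := by
      have := congrArg (fun z => z ^ 2) y1
      beta_reduce at this
      linear_combination (2 * dtn (fun n => FK B lam n) ((m : ℤ) - n)) * this
    rw [t1, t3] at s1
    rw [t2, t4] at s2
    have hfin : TT B lam m n (gk B lam m)
        + 2 * Il B lam ((m : ℤ) + n) (fun r => at1 B m n (gk B lam m) r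
            + x n * radf ((m : ℤ) + n) (FK B lam ((m : ℤ) + n)) r)
        + 2 * Il B lam ((m : ℤ) - n) (fun r => bt1 B m n (gk B lam m) r
            + y n * radf ((m : ℤ) - n) (FK B lam ((m : ℤ) - n)) r)
        - 4 * (∫ r in (0 : ℝ)..1, Sn B lam m n 1 (gk B lam m) r * (at1 B m n (gk B lam m) r
            + x n * radf ((m : ℤ) + n) (FK B lam ((m : ℤ) + n)) r))
        - 4 * (∫ r in (0 : ℝ)..1, Sn B lam m n (-1) (gk B lam m) r * (bt1 B m n (gk B lam m) r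
            + y n * radf ((m : ℤ) - n) (FK B lam ((m : ℤ) - n)) r))
        = g1 ^ 2 / 2 * (2 * (B / 2 - m) * (B / 2 + m)
          + 2 * Y n * ((B / 2 - m) ^ 2 - lam - n * (B / 2 - m))
          + 2 * X n * ((B / 2 - m) ^ 2 - lam + n * (B / 2 - m))
          + Y n ^ 2 * dtn (fun n => FK B lam n) ((m : ℤ) + n)
          + X n ^ 2 * dtn (fun n => FK B lam n) ((m : ℤ) - n)) := by
      linear_combination s1 + s2 + k3
    rw [hfin]
    exact mul_neg_of_pos_of_neg (by positivity) hsn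
  obtain ⟨κ1, hκ1, hK⟩ := fin_min (Finset.Icc 2 N) _ hQ
  refine ⟨lam, m, N, min κ0 κ1, ΨA, ΨB, hSp, lt_min hκ0 hκ1, fun n => ?_, fun n => ?_,
    fun n hn => ?_, fun n hn _ => ?_⟩
  · exact (PA_c1 B m n Ψ hΨ2).add (contDiff_const.mul ((hrad _).smooth.of_le (by norm_num)))
  · exact (PB_c1 B m n Ψ hΨ2).add (contDiff_const.mul ((hrad _).smooth.of_le (by norm_num)))
  · have h7 := hK n hn
    have h8 : min κ0 κ1 * ((n : ℝ) + 1) ≤ κ1 * ((n : ℝ) + 1) :=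
      mul_le_mul_of_nonneg_right (min_le_right _ _) (by positivity)
    linarith
  · have h7 := hT n hn
    have h8 : min κ0 κ1 * ((n : ℝ) + 1) ≤ κ0 * ((n : ℝ) + 1) :=
      mul_le_mul_of_nonneg_right (min_le_left _ _) (by positivity)
    linarith

end Pool.Agent.MFK.CD
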