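import Pool.Agent.Work.MP_8826fd_mp.CD.Stmts
import Pool.Agent.Work.MP_8826fd_mp.NF.I_PC

/-! MP_8826fd_mp, block CD, item PC2 (helper10): change of variables. -/

set_option autoImplicit false

namespace Pool.Agent.MFK.CD

open MeasureTheory Set Filter Topology Pool.Agent.MFK.NF

theorem pr_PC2 : StPC2 := by
  intro Ω f F a h hC hm
  have hinj : InjOn F (Metric.ball 0 1) := by
    intro w hw w' hw' hww
    rw [← hC.fF w hw, ← hC.fF w' hw', hww]
  have himg : F '' (Metric.ball 0 1) = Ω := by
    ext z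
    constructor
    · rintro ⟨w, hw, rfl⟩
      exact hC.Fm hw
    · intro hz
      exact ⟨f z, hC.fm hz, hC.Ff z hz⟩
  rw [← himg, IPC.cov hC.Fd hinj h]
  have hdm : AEMeasurable (fun w => ENNReal.ofReal (‖deriv F w‖ ^ 2))
      (volume.restrict (Metric.ball (0 : ℂ) 1)) := by
    have h1 : ContinuousOn (deriv F) (Metric.ball 0 1) :=
      (hC.Fd.deriv Metric.isOpen_ball).continuousOn
    have h2 : ContinuousOn (fun w => ENNReal.ofReal (‖deriv F w‖ ^ 2)) (Metric.ball 0 1) :=
      ENNReal.continuous_ofReal.comp_continuousOn ((h1.norm).pow 2)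
    exact h2.aemeasurable Metric.isOpen_ball.measurableSet
  have hp := IPC.polar (hdm.mul hm)
  simp only [Pi.mul_apply] at hp
  rw [hp]
  refine setLIntegral_congr_fun measurableSet_Ioo (fun r hr => ?_)
  refine lintegral_congr (fun θ => ?_)
  rw [← mul_assoc, ← ENNReal.ofReal_mul hr.1.le]

end Pool.Agent.MFK.CD
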