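import Pool.Agent.Work.MP_8826fd_mp.CD.Stmts

/-!
# MP_8826fd_mp, block CD, item Pt: the pointwise inequality (pure algebra)
-/

set_option autoImplicit false

namespace Pool.Agent.MFK.CD

namespace IPt


theorem nsq (X V : ℂ) (c : ℝ) :
    ‖X - Complex.I * (c : ℂ) * V‖ ^ 2
      = ‖X‖ ^ 2 + 2 * c * ((starRingEnd ℂ) X * V).im + c ^ 2 * ‖V‖ ^ 2 := by
  rw [← Complex.normSq_eq_norm_sq, ← Complex.normSq_eq_norm_sq, ← Complex.normSq_eq_norm_sq]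
  simp only [Complex.normSq_apply, Complex.sub_re, Complex.sub_im, Complex.mul_re, Complex.mul_im,
    Complex.I_re, Complex.I_im, Complex.ofReal_re, Complex.ofReal_im, Complex.conj_re, Complex.conj_im]
  ring

theorem nadd (U V : ℂ) :
    ‖U + V‖ ^ 2 = ‖U‖ ^ 2 + 2 * ((starRingEnd ℂ) U * V).re + ‖V‖ ^ 2 := by
  rw [← Complex.normSq_eq_norm_sq, ← Complex.normSq_eq_norm_sq, ← Complex.normSq_eq_norm_sq]
  simp only [Complex.normSq_apply, Complex.add_re, Complex.add_im, Complex.mul_re,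
    Complex.conj_re, Complex.conj_im]
  ring

theorem cre (U V : ℂ) : |((starRingEnd ℂ) U * V).re| ≤ ‖U‖ * ‖V‖ := by
  have h := Complex.abs_re_le_norm ((starRingEnd ℂ) U * V)
  rwa [norm_mul, Complex.norm_conj] at h

theorem cim (U V : ℂ) : |((starRingEnd ℂ) U * V).im| ≤ ‖U‖ * ‖V‖ := by
  have h := Complex.abs_im_le_norm ((starRingEnd ℂ) U * V)
  rwa [norm_mul, Complex.norm_conj] at h

/-- the exact identity -/
theorem ident (r s δ B lam K b g1 g2 N0 N1 R J00 J01 J11 XX : ℝ) (hr : r ≠ 0) (hs : s ^ 2 = 1 - δ ^ 2) :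
    (XX + 2 * (B * (2 * s * K + (b - δ ^ 2 * r ^ 2 / 2))) * (J00 + J01 + J11)
        + (B * (2 * s * K + (b - δ ^ 2 * r ^ 2 / 2))) ^ 2 * (N0 + 2 * R + N1)) / r
      - lam * (r * (s ^ 2 + 2 * s * g1 + g2) * (N0 + 2 * R + N1))
    = XX / r - lam * r * (N0 + 2 * R + N1) + 4 * B * s * K * J00 / r + 4 * B * K * J01 / r
      + 2 * B * (b - δ ^ 2 * r ^ 2 / 2) * J00 / r + 4 * B ^ 2 * K ^ 2 * N0 / r
      - 2 * lam * s * r * g1 * N0 - 4 * lam * r * g1 * R - lam * r * (g2 - δ ^ 2) * N0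
      + (-4 * B * (1 - s) * K * (J01 / r) + 4 * B * s * K * (J11 / r)
        + 2 * B * (b - δ ^ 2 * r ^ 2 / 2) * (J01 / r + J11 / r)
        + 4 * B ^ 2 * (K ^ 2 / r) * (2 * R + N1) - 4 * B ^ 2 * (K ^ 2 / r) * δ ^ 2 * (N0 + 2 * R + N1)
        + B ^ 2 * (4 * s * K * (b - δ ^ 2 * r ^ 2 / 2) + (b - δ ^ 2 * r ^ 2 / 2) ^ 2) / r * (N0 + 2 * R + N1)
        + 4 * lam * r * g1 * R * (1 - s) - 2 * lam * r * s * g1 * N1
        - lam * r * (g2 - δ ^ 2) * (2 * R + N1)) := by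
  have h4 : (B * (2 * s * K + (b - δ ^ 2 * r ^ 2 / 2))) ^ 2
      = B ^ 2 * (4 * (1 - δ ^ 2) * K ^ 2 + 4 * s * K * (b - δ ^ 2 * r ^ 2 / 2) + (b - δ ^ 2 * r ^ 2 / 2) ^ 2) := by
    rw [← hs]; ring
  rw [h4, hs]
  field_simp
  ring

theorem small (s δ : ℝ) (hs : 0 < s) (hs1 : s ≤ 1) (hδ : 0 < δ) (hδs : δ ^ 2 = 1 - s ^ 2) :
    δ ≤ 1 ∧ δ ^ 2 ≤ δ ∧ 1 - s ≤ δ ^ 2 := by
  have h0 : 0 ≤ s ^ 2 := sq_nonneg s
  have h1 : δ ≤ 1 := by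
    by_contra h
    push Not at h
    have : 1 < δ ^ 2 := one_lt_pow₀ h (by norm_num)
    linarith
  refine ⟨h1, pow_le_of_le_one hδ.le h1 (by norm_num), ?_⟩
  have : s ^ 2 ≤ s := pow_le_of_le_one hs.le hs1 (by norm_num)
  linarith

/-- the error terms -/
theorem errs (C0 r s δ B lam K b g1 g2 N0 N1 R j1 j2 : ℝ) (hC : 0 < C0) (hr : 0 < r) (hr1 : r ≤ 1)
    (hs : 0 < s) (hs1 : s ≤ 1) (hδ : 0 < δ) (hδs : δ ^ 2 = 1 - s ^ 2) (hB : 0 ≤ B) (hBC : B ≤ C0)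
    (hl : 0 ≤ lam) (hlC : lam ≤ C0) (hb : 0 ≤ b) (hg : g1 ^ 2 ≤ g2)
    (hN0C : N0 ≤ C0 ^ 2) (hN1 : 0 ≤ N1) (hN1C : N1 ≤ C0 ^ 2 * δ ^ 2)
    (hR : |R| ≤ C0 ^ 2 * δ) (hM : 0 ≤ N0 + 2 * R + N1)
    (hj1 : |j1| ≤ 2 * C0 ^ 2 * δ) (hj2 : |j2| ≤ C0 ^ 2 * δ ^ 2) :
    -4 * B * (1 - s) * K * j1 + 4 * B * s * K * j2
        + 2 * B * (b - δ ^ 2 * r ^ 2 / 2) * (j1 + j2)
        + 4 * B ^ 2 * (K ^ 2 / r) * (2 * R + N1) - 4 * B ^ 2 * (K ^ 2 / r) * δ ^ 2 * (N0 + 2 * R + N1)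
        + B ^ 2 * (4 * s * K * (b - δ ^ 2 * r ^ 2 / 2) + (b - δ ^ 2 * r ^ 2 / 2) ^ 2) / r * (N0 + 2 * R + N1)
        + 4 * lam * r * g1 * R * (1 - s) - 2 * lam * r * s * g1 * N1
        - lam * r * (g2 - δ ^ 2) * (2 * R + N1)
      ≤ (18 * C0 ^ 3 + 36 * C0 ^ 4) * δ * (δ ^ 2 + b + r * g2 + K ^ 2 / r + b ^ 2 / (r * δ ^ 2)) := by
  obtain ⟨hδ1, hδ2, h1s⟩ := small s δ hs hs1 hδ hδs
  have hd1 : 0 ≤ δ ^ 2 := sq_nonneg _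
  have h1s0 : 0 ≤ 1 - s := by linarith
  have hg2 : 0 ≤ g2 := le_trans (sq_nonneg _) hg
  have hK : K ^ 2 ≤ K ^ 2 / r := le_div_self (sq_nonneg K) hr hr1
  have hK0 : 0 ≤ K ^ 2 / r := by positivity
  have hd5 : 0 ≤ b ^ 2 / (r * δ ^ 2) := by positivity
  have hd3 : 0 ≤ r * g2 := by positivity
  set d4 := K ^ 2 / r with hd4def
  set d5 := b ^ 2 / (r * δ ^ 2) with hd5def
  -- |K| δ
  have hKδ : |K| * δ ≤ (δ ^ 2 + d4) / 2 := by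
    have := two_mul_le_add_sq |K| δ
    have h2 : |K| ^ 2 = K ^ 2 := sq_abs K
    linarith
  -- β2
  set β := b - δ ^ 2 * r ^ 2 / 2 with hβ
  have hr2 : r ^ 2 ≤ 1 := pow_le_one₀ hr.le hr1
  have hβa : |β| ≤ b + δ ^ 2 / 2 := by
    have h0 : 0 ≤ δ ^ 2 * r ^ 2 / 2 := by positivity
    have h1 : δ ^ 2 * r ^ 2 ≤ δ ^ 2 := mul_le_of_le_one_right hd1 hr2
    rw [abs_le]; constructor <;> linarith
  have hβ2 : β ^ 2 / (δ * r) ≤ δ * (2 * d5 + δ ^ 2 / 2) := by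
    have e1 : β ^ 2 ≤ 2 * b ^ 2 + δ ^ 4 * r ^ 4 / 2 := by
      have := sq_nonneg (b + δ ^ 2 * r ^ 2 / 2)
      have e : β ^ 2 = 2 * b ^ 2 + δ ^ 4 * r ^ 4 / 2 - (b + δ ^ 2 * r ^ 2 / 2) ^ 2 := by
        rw [hβ]; ring
      linarith
    have e2 : δ ^ 4 * r ^ 4 / 2 ≤ δ ^ 4 * r / 2 := by
      have h5 : r ^ 4 ≤ r := pow_le_of_le_one hr.le hr1 (by norm_num)
      have h4 : 0 ≤ δ ^ 4 := by positivity
      have := mul_le_mul_of_nonneg_left h5 h4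
      linarith
    rw [div_le_iff₀ (by positivity)]
    have e3 : δ * (2 * d5 + δ ^ 2 / 2) * (δ * r) = 2 * b ^ 2 + δ ^ 4 * r / 2 := by
      rw [hd5def]; field_simp
    rw [e3]; linarith
  have hβ2' : β ^ 2 / r ≤ δ * (2 * d5 + δ ^ 2 / 2) := by
    refine le_trans ?_ hβ2
    exact div_le_div_of_nonneg_left (sq_nonneg _) (by positivity) (mul_le_of_le_one_left hr.le hδ1)
  have hD0 : 0 ≤ δ ^ 2 + b + r * g2 + d4 + d5 := by positivity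
  set D := δ ^ 2 + b + r * g2 + d4 + d5 with hD
  have hM1 : N0 + 2 * R + N1 ≤ 4 * C0 ^ 2 := by
    have := (abs_le.mp hR).2
    have h2 : C0 ^ 2 * δ ≤ C0 ^ 2 := mul_le_of_le_one_right (sq_nonneg _) hδ1
    have h3 : C0 ^ 2 * δ ^ 2 ≤ C0 ^ 2 * δ := mul_le_mul_of_nonneg_left hδ2 (sq_nonneg _)
    linarith
  have hRN : |2 * R + N1| ≤ 3 * C0 ^ 2 * δ := by
    have h1 := (abs_le.mp hR).1
    have h2 := (abs_le.mp hR).2
    have h3 : C0 ^ 2 * δ ^ 2 ≤ C0 ^ 2 * δ := mul_le_mul_of_nonneg_left hδ2 (sq_nonneg _)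
    have h4 : 0 ≤ C0 ^ 2 * δ := by positivity
    rw [abs_le]; constructor <;> linarith
  set M := N0 + 2 * R + N1 with hMdef
  -- T1
  have T1 : -4 * B * (1 - s) * K * j1 ≤ 4 * C0 ^ 3 * δ * D := by
    calc -4 * B * (1 - s) * K * j1 ≤ |-4 * B * (1 - s) * K * j1| := le_abs_self _
      _ = 4 * B * (1 - s) * |K| * |j1| := by
          rw [abs_mul, abs_mul, abs_mul, abs_mul, abs_of_nonneg hB, abs_of_nonneg h1s0]; norm_num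
      _ ≤ 4 * C0 * δ ^ 2 * |K| * (2 * C0 ^ 2 * δ) := by gcongr
      _ = 8 * C0 ^ 3 * δ ^ 2 * (|K| * δ) := by ring
      _ ≤ 8 * C0 ^ 3 * δ * ((δ ^ 2 + d4) / 2) := by gcongr
      _ = 4 * C0 ^ 3 * δ * (δ ^ 2 + d4) := by ring
      _ ≤ 4 * C0 ^ 3 * δ * D := by
          gcongr; rw [hD]; linarith
  have T2 : 4 * B * s * K * j2 ≤ 2 * C0 ^ 3 * δ * D := by
    calc 4 * B * s * K * j2 ≤ |4 * B * s * K * j2| := le_abs_self _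
      _ = 4 * B * s * |K| * |j2| := by
          rw [abs_mul, abs_mul, abs_mul, abs_mul, abs_of_nonneg hB, abs_of_nonneg hs.le]; norm_num
      _ ≤ 4 * C0 * 1 * |K| * (C0 ^ 2 * δ ^ 2) := by gcongr
      _ = 4 * C0 ^ 3 * δ * (|K| * δ) := by ring
      _ ≤ 4 * C0 ^ 3 * δ * ((δ ^ 2 + d4) / 2) := by gcongr
      _ = 2 * C0 ^ 3 * δ * (δ ^ 2 + d4) := by ring
      _ ≤ 2 * C0 ^ 3 * δ * D := by
          gcongr; rw [hD]; linarith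
  have T3 : 2 * B * β * (j1 + j2) ≤ 6 * C0 ^ 3 * δ * D := by
    have hj : |j1 + j2| ≤ 3 * C0 ^ 2 * δ := by
      refine (abs_add_le _ _).trans ?_
      have h3 : C0 ^ 2 * δ ^ 2 ≤ C0 ^ 2 * δ := mul_le_mul_of_nonneg_left hδ2 (sq_nonneg _)
      linarith
    calc 2 * B * β * (j1 + j2) ≤ |2 * B * β * (j1 + j2)| := le_abs_self _
      _ = 2 * B * |β| * |j1 + j2| := by
          rw [abs_mul, abs_mul, abs_mul, abs_of_nonneg hB]; norm_num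
      _ ≤ 2 * C0 * (b + δ ^ 2 / 2) * (3 * C0 ^ 2 * δ) := by gcongr
      _ = 6 * C0 ^ 3 * δ * (b + δ ^ 2 / 2) := by ring
      _ ≤ 6 * C0 ^ 3 * δ * D := by
          gcongr; rw [hD]; linarith
  have T4 : 4 * B ^ 2 * d4 * (2 * R + N1) ≤ 12 * C0 ^ 4 * δ * D := by
    calc 4 * B ^ 2 * d4 * (2 * R + N1) ≤ 4 * B ^ 2 * d4 * |2 * R + N1| := by
          gcongr; exact le_abs_self _
      _ ≤ 4 * C0 ^ 2 * d4 * (3 * C0 ^ 2 * δ) := by gcongr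
      _ = 12 * C0 ^ 4 * δ * d4 := by ring
      _ ≤ 12 * C0 ^ 4 * δ * D := by
          gcongr; rw [hD]; linarith
  have T4' : 0 ≤ 4 * B ^ 2 * d4 * δ ^ 2 * M := by positivity
  have T5 : B ^ 2 * (4 * s * K * β + β ^ 2) / r * M ≤ 24 * C0 ^ 4 * δ * D := by
    have hKβ : |K| * |β| / r ≤ (δ * d4 + δ * (2 * d5 + δ ^ 2 / 2)) / 2 := by
      have h1 : |K| * |β| / r ≤ (δ * (K ^ 2 / r) + β ^ 2 / (δ * r)) / 2 := by
        have h2 : (δ * (K ^ 2 / r) + β ^ 2 / (δ * r)) / 2 - |K| * |β| / r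
            = (δ * |K| - |β|) ^ 2 / (2 * δ * r) := by
          have e1 : K ^ 2 = |K| ^ 2 := (sq_abs K).symm
          have e2 : β ^ 2 = |β| ^ 2 := (sq_abs β).symm
          rw [e1, e2]; field_simp; ring
        have h3 : 0 ≤ (δ * |K| - |β|) ^ 2 / (2 * δ * r) := by positivity
        linarith
      linarith
    have h5 : B ^ 2 * (4 * s * K * β + β ^ 2) / r ≤ C0 ^ 2 * (4 * (|K| * |β| / r) + β ^ 2 / r) := by
      have h6 : 4 * s * K * β ≤ 4 * (|K| * |β|) := by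
        calc 4 * s * K * β ≤ |4 * s * K * β| := le_abs_self _
          _ = 4 * s * |K| * |β| := by
              rw [abs_mul, abs_mul, abs_mul, abs_of_nonneg hs.le]; norm_num
          _ ≤ 4 * 1 * |K| * |β| := by gcongr
          _ = 4 * (|K| * |β|) := by ring
      calc B ^ 2 * (4 * s * K * β + β ^ 2) / r ≤ B ^ 2 * (4 * (|K| * |β|) + β ^ 2) / r := by gcongr
        _ ≤ C0 ^ 2 * (4 * (|K| * |β|) + β ^ 2) / r := by gcongr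
        _ = C0 ^ 2 * (4 * (|K| * |β| / r) + β ^ 2 / r) := by ring
    calc B ^ 2 * (4 * s * K * β + β ^ 2) / r * M
        ≤ C0 ^ 2 * (4 * (|K| * |β| / r) + β ^ 2 / r) * M := by gcongr
      _ ≤ C0 ^ 2 * (4 * (|K| * |β| / r) + β ^ 2 / r) * (4 * C0 ^ 2) := by gcongr
      _ ≤ C0 ^ 2 * (4 * ((δ * d4 + δ * (2 * d5 + δ ^ 2 / 2)) / 2) + δ * (2 * d5 + δ ^ 2 / 2)) * (4 * C0 ^ 2) := by
          gcongr
      _ = 4 * C0 ^ 4 * δ * (2 * d4 + 6 * d5 + 3 * δ ^ 2 / 2) := by ring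
      _ ≤ 4 * C0 ^ 4 * δ * (6 * D) := by
          gcongr; rw [hD]; linarith
      _ = 24 * C0 ^ 4 * δ * D := by ring
  have hg1 : |g1| * δ ≤ (δ ^ 2 + g2) / 2 := by
    have := two_mul_le_add_sq |g1| δ
    have h2 : |g1| ^ 2 = g1 ^ 2 := sq_abs g1
    linarith
  have hrg : r * (|g1| * δ) ≤ (δ ^ 2 + r * g2) / 2 := by
    have h2 : r * δ ^ 2 ≤ δ ^ 2 := mul_le_of_le_one_left hd1 hr1
    have h3 := mul_le_mul_of_nonneg_left hg1 hr.le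
    linarith
  have T7 : 4 * lam * r * g1 * R * (1 - s) ≤ 2 * C0 ^ 3 * δ * D := by
    calc 4 * lam * r * g1 * R * (1 - s) ≤ |4 * lam * r * g1 * R * (1 - s)| := le_abs_self _
      _ = 4 * lam * r * |g1| * |R| * (1 - s) := by
          rw [abs_mul, abs_mul, abs_mul, abs_mul, abs_mul, abs_of_nonneg hl, abs_of_nonneg hr.le,
            abs_of_nonneg h1s0]; norm_num
      _ ≤ 4 * C0 * r * |g1| * (C0 ^ 2 * δ) * (δ ^ 2) := by gcongr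
      _ = 4 * C0 ^ 3 * δ ^ 2 * (r * (|g1| * δ)) := by ring
      _ ≤ 4 * C0 ^ 3 * δ * ((δ ^ 2 + r * g2) / 2) := by gcongr
      _ = 2 * C0 ^ 3 * δ * (δ ^ 2 + r * g2) := by ring
      _ ≤ 2 * C0 ^ 3 * δ * D := by
          gcongr; rw [hD]; linarith
  have T8 : -(2 * lam * r * s * g1 * N1) ≤ 1 * C0 ^ 3 * δ * D := by
    calc -(2 * lam * r * s * g1 * N1) ≤ |2 * lam * r * s * g1 * N1| := neg_le_abs _
      _ = 2 * lam * r * s * |g1| * N1 := by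
          rw [abs_mul, abs_mul, abs_mul, abs_mul, abs_mul, abs_of_nonneg hl, abs_of_nonneg hr.le,
            abs_of_nonneg hs.le, abs_of_nonneg hN1]; norm_num
      _ ≤ 2 * C0 * r * 1 * |g1| * (C0 ^ 2 * δ ^ 2) := by gcongr
      _ = 2 * C0 ^ 3 * δ * (r * (|g1| * δ)) := by ring
      _ ≤ 2 * C0 ^ 3 * δ * ((δ ^ 2 + r * g2) / 2) := by gcongr
      _ = 1 * C0 ^ 3 * δ * (δ ^ 2 + r * g2) := by ring
      _ ≤ 1 * C0 ^ 3 * δ * D := by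
          gcongr; rw [hD]; linarith
  have T9 : -(lam * r * (g2 - δ ^ 2) * (2 * R + N1)) ≤ 3 * C0 ^ 3 * δ * D := by
    have h6 : |g2 - δ ^ 2| ≤ g2 + δ ^ 2 := by
      rw [abs_le]; constructor <;> linarith
    calc -(lam * r * (g2 - δ ^ 2) * (2 * R + N1)) ≤ |lam * r * (g2 - δ ^ 2) * (2 * R + N1)| := neg_le_abs _
      _ = lam * r * |g2 - δ ^ 2| * |2 * R + N1| := by
          rw [abs_mul, abs_mul, abs_mul, abs_of_nonneg hl, abs_of_nonneg hr.le]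
      _ ≤ C0 * r * (g2 + δ ^ 2) * (3 * C0 ^ 2 * δ) := by gcongr
      _ = 3 * C0 ^ 3 * δ * (r * g2 + r * δ ^ 2) := by ring
      _ ≤ 3 * C0 ^ 3 * δ * D := by
          have h7 : r * δ ^ 2 ≤ δ ^ 2 := mul_le_of_le_one_left hd1 hr1
          gcongr; rw [hD]; linarith
  have hfin : (18 * C0 ^ 3 + 36 * C0 ^ 4) * δ * D = 4 * C0 ^ 3 * δ * D + 2 * C0 ^ 3 * δ * D
      + 6 * C0 ^ 3 * δ * D + 12 * C0 ^ 4 * δ * D + 24 * C0 ^ 4 * δ * D + 2 * C0 ^ 3 * δ * D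
      + 1 * C0 ^ 3 * δ * D + 3 * C0 ^ 3 * δ * D := by ring
  rw [hfin]; linarith

end IPt

theorem pr_Pt : StPt := by
  intro C0 hC
  refine ⟨18 * C0 ^ 3 + 36 * C0 ^ 4, by positivity, ?_⟩
  intro r s δ B lam K b g1 g2 V0 V1 X0 X1 hr hr1 hs hs1 hδ hδs hB hBC hl hlC hb hg hV0 hV1 hX0 hX1
  have e1 : (X0 + X1 + Complex.I * ((B * r ^ 2 / 2 : ℝ) : ℂ) * (V0 + V1))
      - Complex.I * ((B * (s ^ 2 * r ^ 2 / 2 + 2 * s * K + b) : ℝ) : ℂ) * (V0 + V1)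
      = (X0 + X1) - Complex.I * ((B * (2 * s * K + (b - δ ^ 2 * r ^ 2 / 2)) : ℝ) : ℂ) * (V0 + V1) := by
    have : B * (s ^ 2 * r ^ 2 / 2 + 2 * s * K + b)
        = B * (2 * s * K + (b - δ ^ 2 * r ^ 2 / 2)) + B * r ^ 2 / 2 := by rw [hδs]; ring
    rw [this, Complex.ofReal_add]; ring
  have hJ : ((starRingEnd ℂ) (X0 + X1) * (V0 + V1)).im
      = ((starRingEnd ℂ) X0 * V0).im + ((starRingEnd ℂ) X0 * V1 + (starRingEnd ℂ) X1 * V0).im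
        + ((starRingEnd ℂ) X1 * V1).im := by
    rw [← Complex.add_im, ← Complex.add_im]
    congr 1
    rw [map_add]; ring
  have hM : ‖V0 + V1‖ ^ 2 = ‖V0‖ ^ 2 + 2 * ((starRingEnd ℂ) V0 * V1).re + ‖V1‖ ^ 2 := IPt.nadd V0 V1
  rw [e1, IPt.nsq, hJ, hM, IPt.ident r s δ B lam K b g1 g2 (‖V0‖ ^ 2) (‖V1‖ ^ 2) _ _ _ _ _ hr.ne'
    (by linarith)]
  have hC2 : 0 ≤ C0 := hC.le
  have hX0' : ‖X0‖ / r ≤ C0 := by rwa [div_le_iff₀ hr]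
  have hX1' : ‖X1‖ / r ≤ C0 * δ := by rwa [div_le_iff₀ hr]
  have hj1 : |((starRingEnd ℂ) X0 * V1 + (starRingEnd ℂ) X1 * V0).im / r| ≤ 2 * C0 ^ 2 * δ := by
    rw [abs_div, abs_of_pos hr, Complex.add_im, div_le_iff₀ hr]
    refine (abs_add_le _ _).trans ?_
    have h1 := IPt.cim X0 V1
    have h2 := IPt.cim X1 V0
    have h3 : ‖X0‖ * ‖V1‖ ≤ (C0 * r) * (C0 * δ) := by gcongr
    have h4 : ‖X1‖ * ‖V0‖ ≤ (C0 * δ * r) * C0 := by gcongr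
    calc _ ≤ ‖X0‖ * ‖V1‖ + ‖X1‖ * ‖V0‖ := add_le_add h1 h2
      _ ≤ (C0 * r) * (C0 * δ) + (C0 * δ * r) * C0 := add_le_add h3 h4
      _ = 2 * C0 ^ 2 * δ * r := by ring
  have hj2 : |((starRingEnd ℂ) X1 * V1).im / r| ≤ C0 ^ 2 * δ ^ 2 := by
    rw [abs_div, abs_of_pos hr, div_le_iff₀ hr]
    have h1 := IPt.cim X1 V1
    have h3 : ‖X1‖ * ‖V1‖ ≤ (C0 * δ * r) * (C0 * δ) := by gcongr
    calc _ ≤ ‖X1‖ * ‖V1‖ := h1
      _ ≤ (C0 * δ * r) * (C0 * δ) := h3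
      _ = C0 ^ 2 * δ ^ 2 * r := by ring
  have hR : |((starRingEnd ℂ) V0 * V1).re| ≤ C0 ^ 2 * δ := by
    calc _ ≤ ‖V0‖ * ‖V1‖ := IPt.cre V0 V1
      _ ≤ C0 * (C0 * δ) := by gcongr
      _ = C0 ^ 2 * δ := by ring
  have hN0 : ‖V0‖ ^ 2 ≤ C0 ^ 2 := by gcongr
  have hN1 : ‖V1‖ ^ 2 ≤ C0 ^ 2 * δ ^ 2 := by
    calc ‖V1‖ ^ 2 ≤ (C0 * δ) ^ 2 := by gcongr
      _ = C0 ^ 2 * δ ^ 2 := by ring
  have hM0 : 0 ≤ ‖V0‖ ^ 2 + 2 * ((starRingEnd ℂ) V0 * V1).re + ‖V1‖ ^ 2 := by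
    rw [← hM]; positivity
  have := IPt.errs C0 r s δ B lam K b g1 g2 (‖V0‖ ^ 2) (‖V1‖ ^ 2) (((starRingEnd ℂ) V0 * V1).re)
    (((starRingEnd ℂ) X0 * V1 + (starRingEnd ℂ) X1 * V0).im / r) (((starRingEnd ℂ) X1 * V1).im / r)
    hC hr hr1 hs hs1 hδ hδs hB hBC hl hlC hb hg hN0 (by positivity) hN1 hR hM0 hj1 hj2
  linarith

end Pool.Agent.MFK.CD
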