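import Pool.Agent.Work.MP_8826fd_mp.CD.Stmts
import Pool.Agent.Work.MP_8826fd_mp.NF.I_Q

/-! Item [8826fd CD Q1] (helper5): the quadratic form of the variance, without a congruence
condition on the support.  Adapted from `NF/I_Q.lean` (helper82). -/

set_option autoImplicit false

namespace Pool.Agent.MFK.CD

open MeasureTheory Set Filter Topology Pool.Agent.MFK.NF

namespace IQ1

open scoped ENNReal

/-- number of positive integers up to `j`. -/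
theorem count (j : ℕ) :
    ∑' n : ℕ, (if n + 1 ≤ j then (1 : ℝ≥0∞) else 0) = (j : ℝ≥0∞) := by
  rw [tsum_eq_sum (s := Finset.range j)]
  · have h1 : ∀ n ∈ Finset.range j, (if n + 1 ≤ j then (1 : ℝ≥0∞) else 0) = 1 := by
      intro n hn
      have hn' : n + 1 ≤ j := Finset.mem_range.mp hn
      exact if_pos hn'
    rw [Finset.sum_congr rfl h1]
    simp
  · intro n hn
    refine if_neg ?_
    intro h
    exact hn (Finset.mem_range.mpr h)

/-- the majorant. -/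
noncomputable def G (x : ℕ → ℝ) (n k l : ℕ) : ℝ≥0∞ :=
  IQ.C x k * (IQ.C x (l + (n + 1)) * IQ.D k (l + (n + 1)))

theorem term_le (x : ℕ → ℝ) (hx : ∀ j, 0 ≤ x j) (n k l : ℕ) :
    ENNReal.ofReal (kap x (n + 1) k * kap x (n + 1) l / (k + l + (n + 1))) ≤
      2⁻¹ * (G x n k l + G x n l k) := by
  unfold G IQ.C IQ.D
  have p1 : (0 : ℝ) ≤ (k : ℝ) * x k ^ 2 := by positivity
  have p2 : (0 : ℝ) ≤ ((l + (n + 1) : ℕ) : ℝ) * x (l + (n + 1)) ^ 2 := by positivity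
  have p3 : (0 : ℝ) ≤ (l : ℝ) * x l ^ 2 := by positivity
  have p4 : (0 : ℝ) ≤ ((k + (n + 1) : ℕ) : ℝ) * x (k + (n + 1)) ^ 2 := by positivity
  have p5 : (0 : ℝ) ≤ 1 / ((k : ℝ) + (l + (n + 1) : ℕ)) := by positivity
  have p6 : (0 : ℝ) ≤ 1 / ((l : ℝ) + (k + (n + 1) : ℕ)) := by positivity
  have e2 : (2⁻¹ : ℝ≥0∞) = ENNReal.ofReal (1 / 2) := by
    rw [one_div, ENNReal.ofReal_inv_of_pos (by norm_num)]
    simp
  rw [← ENNReal.ofReal_mul p2, ← ENNReal.ofReal_mul p1, ← ENNReal.ofReal_mul p4,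
    ← ENNReal.ofReal_mul p3, ← ENNReal.ofReal_add (mul_nonneg p1 (mul_nonneg p2 p5))
      (mul_nonneg p3 (mul_nonneg p4 p6)), e2, ← ENNReal.ofReal_mul (by norm_num)]
  refine ENNReal.ofReal_le_ofReal ?_
  have := IQ.real_bound x hx n k l
  linarith

theorem inner_le (x : ℕ → ℝ) (k : ℕ) :
    ∑' n : ℕ, ∑' l : ℕ, G x n k l ≤ IQ.C x k * ∑' j : ℕ, IQ.C x j := by
  have e1 : ∀ n : ℕ, ∑' l : ℕ, G x n k l =
      IQ.C x k * ∑' j : ℕ, (if n + 1 ≤ j then IQ.C x j * IQ.D k j else 0) := by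
    intro n
    rw [← IQ.shift (fun j => IQ.C x j * IQ.D k j) (n + 1), ← ENNReal.tsum_mul_left]
    refine tsum_congr fun l => ?_
    rfl
  simp only [e1]
  rw [ENNReal.tsum_mul_left, ENNReal.tsum_comm]
  refine mul_le_mul_right ?_ _
  have e4 : ∀ j : ℕ, ∑' n : ℕ, (if n + 1 ≤ j then IQ.C x j * IQ.D k j else 0) =
      IQ.C x j * IQ.D k j * (j : ℝ≥0∞) := by
    intro j
    rw [← count j, ← ENNReal.tsum_mul_left]
    refine tsum_congr fun n => ?_
    split_ifs <;> simp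
  simp only [e4]
  refine ENNReal.tsum_le_tsum fun j => ?_
  have hk : (0 : ℝ) ≤ k := Nat.cast_nonneg k
  have h1 : IQ.D k j * (j : ℝ≥0∞) ≤ 1 := by
    unfold IQ.D
    rw [← ENNReal.ofReal_natCast j, ← ENNReal.ofReal_mul (by positivity)]
    refine (ENNReal.ofReal_le_ofReal ?_).trans (le_of_eq ENNReal.ofReal_one)
    rcases Nat.eq_zero_or_pos j with hj | hj
    · subst hj
      simp
    · have hjpos : (0 : ℝ) < j := by exact_mod_cast hj
      rw [one_div, inv_mul_le_iff₀ (by positivity)]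
      linarith
  calc IQ.C x j * IQ.D k j * (j : ℝ≥0∞) = IQ.C x j * (IQ.D k j * (j : ℝ≥0∞)) := by ring
    _ ≤ IQ.C x j * 1 := mul_le_mul_right h1 _
    _ = IQ.C x j := mul_one _

end IQ1

open IQ1 in
theorem pr_Q1 : StQ1 := by
  intro x hx
  have h1 : ∀ n : ℕ, (∑' k : ℕ, ∑' l : ℕ,
      ENNReal.ofReal (kap x (n + 1) k * kap x (n + 1) l / (k + l + (n + 1)))) ≤
      ∑' k : ℕ, ∑' l : ℕ, G x n k l := by
    intro n
    have h2 : (∑' k : ℕ, ∑' l : ℕ,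
        ENNReal.ofReal (kap x (n + 1) k * kap x (n + 1) l / (k + l + (n + 1)))) ≤
        ∑' k : ℕ, ∑' l : ℕ, 2⁻¹ * (G x n k l + G x n l k) :=
      ENNReal.tsum_le_tsum fun k => ENNReal.tsum_le_tsum fun l => term_le x hx n k l
    refine h2.trans (le_of_eq ?_)
    have h3 : ∑' k : ℕ, ∑' l : ℕ, G x n l k = ∑' k : ℕ, ∑' l : ℕ, G x n k l :=
      ENNReal.tsum_comm
    simp only [ENNReal.tsum_mul_left, ENNReal.tsum_add]
    rw [h3, ← two_mul, ← mul_assoc, ENNReal.inv_mul_cancel (by norm_num) (by norm_num), one_mul]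
  calc (∑' n : ℕ, ∑' k : ℕ, ∑' l : ℕ,
        ENNReal.ofReal (kap x (n + 1) k * kap x (n + 1) l / (k + l + (n + 1))))
      ≤ ∑' n : ℕ, ∑' k : ℕ, ∑' l : ℕ, G x n k l := ENNReal.tsum_le_tsum h1
    _ = ∑' k : ℕ, ∑' n : ℕ, ∑' l : ℕ, G x n k l := ENNReal.tsum_comm
    _ ≤ ∑' k : ℕ, IQ.C x k * ∑' j : ℕ, IQ.C x j :=
        ENNReal.tsum_le_tsum fun k => inner_le x k
    _ = (∑' k : ℕ, IQ.C x k) * ∑' j : ℕ, IQ.C x j := ENNReal.tsum_mul_right
    _ = (∑' j : ℕ, ENNReal.ofReal (j * x j ^ 2)) ^ 2 := by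
        rw [sq]
        rfl

end Pool.Agent.MFK.CD
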