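import Pool.Agent.Work.MP_8826fd_mp.CD.Stmts

/-!
# MP_8826fd_mp, block CD, item Sch: comparison of derivatives by the Schwarz lemma
-/

set_option autoImplicit false

namespace Pool.Agent.MFK.CD

open MeasureTheory Set Filter Topology Pool.Agent.MFK.NF

theorem pr_Sch : StSch := by
  intro Ω f F F₁ hΩ hf hF hfm hFm hfF hFf hF₁ hF₁m h0
  have h0b : (0 : ℂ) ∈ Metric.ball (0 : ℂ) 1 := Metric.mem_ball_self one_pos
  have hball : Metric.ball (0 : ℂ) 1 ∈ 𝓝 (0 : ℂ) := Metric.isOpen_ball.mem_nhds h0b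
  have hp : F₁ 0 ∈ Ω := hF₁m h0b
  -- the point `F 0`
  have hF0 : F 0 = F₁ 0 := by
    have := hFf (F₁ 0) hp
    rwa [h0] at this
  have hdf : DifferentiableAt ℂ f (F₁ 0) := hf.differentiableAt (hΩ.mem_nhds hp)
  have hdF₁ : DifferentiableAt ℂ F₁ 0 := hF₁.differentiableAt hball
  have hdF : DifferentiableAt ℂ F 0 := hF.differentiableAt hball
  -- derivative of `f ∘ F₁`
  have h1 : deriv (f ∘ F₁) 0 = deriv f (F₁ 0) * deriv F₁ 0 := deriv_comp 0 hdf hdF₁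
  -- derivative of `f ∘ F`
  have h2 : deriv (f ∘ F) 0 = deriv f (F₁ 0) * deriv F 0 := by
    have hdf' : DifferentiableAt ℂ f (F 0) := by rw [hF0]; exact hdf
    have := deriv_comp (x := (0 : ℂ)) hdf' hdF
    rwa [hF0] at this
  have h3 : deriv (f ∘ F) 0 = 1 := by
    have heq : (f ∘ F) =ᶠ[𝓝 0] id := by
      filter_upwards [hball] with w hw
      exact hfF w hw
    rw [heq.deriv_eq]
    exact deriv_id 0
  -- Schwarz
  have h4 : ‖deriv (f ∘ F₁) 0‖ ≤ 1 := by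
    refine Complex.norm_deriv_le_one_of_mapsTo_ball (R := 1) (hf.comp hF₁ hF₁m) ?_ one_pos
    have : (f ∘ F₁) 0 = 0 := h0
    rw [this]
    intro w hw
    exact Metric.ball_subset_closedBall (hfm (hF₁m hw))
  have h5 : deriv F₁ 0 = deriv (f ∘ F₁) 0 * deriv F 0 := by
    rw [h1]
    have : deriv f (F₁ 0) * deriv F 0 = 1 := by rw [← h2, h3]
    calc deriv F₁ 0 = deriv F₁ 0 * (deriv f (F₁ 0) * deriv F 0) := by rw [this, mul_one]
      _ = deriv f (F₁ 0) * deriv F₁ 0 * deriv F 0 := by ring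
  rw [h5, norm_mul]
  calc ‖deriv (f ∘ F₁) 0‖ * ‖deriv F 0‖ ≤ 1 * ‖deriv F 0‖ :=
        mul_le_mul_of_nonneg_right h4 (norm_nonneg _)
    _ = ‖deriv F 0‖ := one_mul _

end Pool.Agent.MFK.CD
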