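import Pool.Agent.Work.MP_8826fd_mp.CD.Stmts
import Pool.Agent.Work.MP_8826fd_mp.NF.I_F1

/-!
# MP_8826fd_mp, block CD, item Ser: elementary facts on a normalised map
-/

set_option autoImplicit false

namespace Pool.Agent.MFK.CD

open MeasureTheory Set Filter Topology Pool.Agent.MFK.NF

namespace ISer

lemma ccn (a : ℕ → ℂ) (j : ℕ) : 0 ≤ cc a j := by
  unfold cc
  positivity

lemma sumcc {a : ℕ → ℂ} (h : (∑' j : ℕ, ENNReal.ofReal (cc a j)) = 1) : HasSum (cc a) 1 := by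
  have e : ∀ j, (ENNReal.ofReal (cc a j)).toReal = cc a j := fun j => ENNReal.toReal_ofReal (ccn a j)
  have h1 : Summable (cc a) := by
    have := ENNReal.summable_toReal (f := fun j => ENNReal.ofReal (cc a j)) (by rw [h]; exact ENNReal.one_ne_top)
    exact this.congr e
  have h2 : (∑' j, cc a j) = 1 := by
    have := ENNReal.tsum_toReal_eq (f := fun j => ENNReal.ofReal (cc a j)) (fun j => ENNReal.ofReal_ne_top)
    rw [h] at this
    simp only [e] at this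
    simpa using this.symm
  rw [← h2]
  exact h1.hasSum

/-- the differentiated series -/
lemma serD' {F : ℂ → ℂ} {a : ℕ → ℂ} (h : Hol F a) {w : ℂ} (hw : w ∈ Metric.ball (0 : ℂ) 1) :
    HasSum (fun n : ℕ => a n * (n * w ^ (n - 1))) (deriv F w) := by
  have hw1 : ‖w‖ < 1 := by simpa using hw
  obtain ⟨ρ, hr1, hr2⟩ := exists_between hw1
  have hr0 : 0 < ρ := (norm_nonneg w).trans_lt hr1
  have hsum := IF1.sumA h hr0.le hr2
  have hu : Summable fun j : ℕ => (j : ℝ) * ‖a j‖ * ρ ^ (j - 1) := by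
    have h2 := hsum.mul_left (1 / ρ)
    refine h2.congr fun j => ?_
    rcases j with _ | j
    · simp
    · rw [Nat.add_sub_cancel, pow_succ]
      field_simp
  have hball : Metric.ball (0 : ℂ) ρ ⊆ Metric.ball 0 1 := Metric.ball_subset_ball hr2.le
  have hwρ : w ∈ Metric.ball (0 : ℂ) ρ := by simpa using hr1
  have hder : ∀ (n : ℕ) (y : ℂ), y ∈ Metric.ball (0 : ℂ) ρ →
      HasDerivAt (fun z => a n * z ^ n) (a n * (n * y ^ (n - 1))) y := fun n y _ =>
    (hasDerivAt_pow n y).const_mul (a n)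
  have hbd : ∀ (n : ℕ) (y : ℂ), y ∈ Metric.ball (0 : ℂ) ρ →
      ‖a n * (n * y ^ (n - 1))‖ ≤ (n : ℝ) * ‖a n‖ * ρ ^ (n - 1) := by
    intro n y hy
    have hy' : ‖y‖ ≤ ρ := by
      have : ‖y‖ < ρ := by simpa using hy
      exact this.le
    rw [norm_mul, norm_mul, norm_pow, Complex.norm_natCast]
    have : ‖y‖ ^ (n - 1) ≤ ρ ^ (n - 1) := pow_le_pow_left₀ (norm_nonneg y) hy' _
    calc ‖a n‖ * (n * ‖y‖ ^ (n - 1)) = (n : ℝ) * ‖a n‖ * ‖y‖ ^ (n - 1) := by ring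
      _ ≤ _ := mul_le_mul_of_nonneg_left this (by positivity)
  have hd := hasDerivAt_tsum_of_isPreconnected hu Metric.isOpen_ball
    (convex_ball (0 : ℂ) ρ).isPreconnected hder hbd hwρ (h.ser w hw).summable hwρ
  have hev : F =ᶠ[𝓝 w] fun z => ∑' n, a n * z ^ n := by
    filter_upwards [Metric.isOpen_ball.mem_nhds hw] with z hz
    exact (h.ser z hz).tsum_eq.symm
  have hdF : deriv F w = ∑' n : ℕ, a n * (n * w ^ (n - 1)) := (hd.congr_of_eventuallyEq hev).deriv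
  have hs' : Summable fun n : ℕ => a n * (n * w ^ (n - 1)) :=
    Summable.of_norm_bounded hu fun n => hbd n w hwρ
  rw [hdF]
  exact hs'.hasSum

lemma serG {F : ℂ → ℂ} {a : ℕ → ℂ} {s : ℝ} (h : Nrm F a s) {w : ℂ} (hw : w ∈ Metric.ball (0 : ℂ) 1) :
    HasSum (fun n : ℕ => ((n + 3 : ℕ) : ℂ) * a (n + 3) * w ^ (n + 2)) (gd F s w) := by
  have h1 := (hasSum_nat_add_iff' (f := fun n : ℕ => a n * ((n : ℂ) * w ^ (n - 1))) 3).2 (serD' h.toHol hw)
  have e : deriv F w - ∑ i ∈ Finset.range 3, a i * ((i : ℂ) * w ^ (i - 1)) = gd F s w := by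
    rw [gd, Finset.sum_range_succ, Finset.sum_range_succ, Finset.sum_range_succ, h.a1, h.a2]
    simp
  rw [e] at h1
  refine h1.congr_fun fun n => ?_
  show ((n + 3 : ℕ) : ℂ) * a (n + 3) * w ^ (n + 2) = a (n + 3) * (((n + 3 : ℕ) : ℂ) * w ^ (n + 3 - 1))
  rw [show n + 3 - 1 = n + 2 from rfl]
  ring

lemma nsq (F : ℂ → ℂ) (s : ℝ) (w : ℂ) :
    ‖deriv F w‖ ^ 2 = s ^ 2 + 2 * s * (gd F s w).re + ‖gd F s w‖ ^ 2 := by
  rw [Complex.sq_norm, Complex.sq_norm, Complex.normSq_apply, Complex.normSq_apply, gd, Complex.sub_re, Complex.sub_im,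
    Complex.ofReal_re, Complex.ofReal_im]
  ring

lemma npc {r : ℝ} (hr : r ∈ Ioo (0 : ℝ) 1) (θ : ℝ) : ‖pc r θ‖ = r := by
  rw [pc, norm_mul, Complex.norm_real, Real.norm_eq_abs, abs_of_pos hr.1, mul_comm Complex.I,
    Complex.norm_exp_ofReal_mul_I, mul_one]

lemma contpc (r : ℝ) : Continuous fun θ : ℝ => pc r θ := by
  unfold pc
  fun_prop

lemma contG {F : ℂ → ℂ} {a : ℕ → ℂ} (h : Hol F a) (s : ℝ) : ContinuousOn (gd F s) (Metric.ball 0 1) :=
  (h.Fd.deriv Metric.isOpen_ball).continuousOn.sub continuousOn_const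

lemma mem {r : ℝ} (hr : r ∈ Ioo (0 : ℝ) 1) (θ : ℝ) {σ : ℝ} (h0 : 0 ≤ σ) (h1 : σ ≤ 1) :
    (σ : ℂ) * pc r θ ∈ Metric.closedBall (0 : ℂ) r := by
  rw [mem_closedBall_zero_iff, norm_mul, npc hr, Complex.norm_real, Real.norm_eq_abs, abs_of_nonneg h0]
  exact mul_le_of_le_one_left hr.1.le h1

lemma sub1 {r : ℝ} (hr : r ∈ Ioo (0 : ℝ) 1) : Metric.closedBall (0 : ℂ) r ⊆ Metric.ball 0 1 :=
  Metric.closedBall_subset_ball hr.2

/-- bound for `gd` -/
lemma bd {F : ℂ → ℂ} {a : ℕ → ℂ} (h : Hol F a) (s : ℝ) {r : ℝ} (hr : r ∈ Ioo (0 : ℝ) 1) :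
    ∃ M : ℝ, 0 ≤ M ∧ ∀ θ σ : ℝ, 0 ≤ σ → σ ≤ 1 → ‖gd F s ((σ : ℂ) * pc r θ)‖ ≤ M := by
  obtain ⟨M, hM⟩ := (isCompact_closedBall (0 : ℂ) r).exists_bound_of_continuousOn ((contG h s).mono (sub1 hr))
  have hM' : ∀ θ σ : ℝ, 0 ≤ σ → σ ≤ 1 → ‖gd F s ((σ : ℂ) * pc r θ)‖ ≤ M := fun θ σ h0 h1 => hM _ (mem hr θ h0 h1)
  exact ⟨M, (norm_nonneg _).trans (hM' 0 0 le_rfl zero_le_one), hM'⟩

/-- continuity along a ray -/
lemma contσ {F : ℂ → ℂ} {a : ℕ → ℂ} (h : Hol F a) (s : ℝ) {r : ℝ} (hr : r ∈ Ioo (0 : ℝ) 1) (θ : ℝ) :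
    ContinuousOn (fun σ : ℝ => gd F s ((σ : ℂ) * pc r θ)) (Icc 0 1) := by
  refine (contG h s).comp (by fun_prop) fun σ hσ => sub1 hr (mem hr θ hσ.1 hσ.2)

/-- continuity in `θ` -/
lemma contθ {F : ℂ → ℂ} {a : ℕ → ℂ} (h : Hol F a) (s : ℝ) {r : ℝ} (hr : r ∈ Ioo (0 : ℝ) 1) {σ : ℝ} (h0 : 0 ≤ σ) (h1 : σ ≤ 1) :
    Continuous (fun θ : ℝ => gd F s ((σ : ℂ) * pc r θ)) := by
  rw [← continuousOn_univ]
  refine (contG h s).comp ((contpc r).const_mul _ |>.continuousOn) fun θ _ => sub1 hr (mem hr θ h0 h1)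

lemma contI {E : Type*} [NormedAddCommGroup E] [NormedSpace ℝ E] (f : ℝ → ℝ → E) (M : ℝ)
    (hb : ∀ θ σ : ℝ, 0 ≤ σ → σ ≤ 1 → ‖f θ σ‖ ≤ M) (hc1 : ∀ θ, ContinuousOn (f θ) (Icc 0 1))
    (hc2 : ∀ σ : ℝ, 0 ≤ σ → σ ≤ 1 → Continuous fun θ => f θ σ) : Continuous fun θ => ∫ σ in (0 : ℝ)..1, f θ σ := by
  refine intervalIntegral.continuous_of_dominated_interval (bound := fun _ => M) (fun θ => ?_)
    (fun θ => Eventually.of_forall fun σ hσ => ?_) intervalIntegrable_const (Eventually.of_forall fun σ hσ => ?_)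
  · rw [uIoc_of_le zero_le_one]
    exact ((hc1 θ).mono Ioc_subset_Icc_self).aestronglyMeasurable measurableSet_Ioc
  · rw [uIoc_of_le zero_le_one] at hσ
    exact hb θ σ hσ.1.le hσ.2
  · rw [uIoc_of_le zero_le_one] at hσ
    exact hc2 σ hσ.1.le hσ.2

lemma kfs {F : ℂ → ℂ} {a : ℕ → ℂ} {s : ℝ} (h : Nrm F a s) {r : ℝ} (hr : r ∈ Ioo (0 : ℝ) 1) (θ : ℝ) :
    HasSum (fun n : ℕ => ((n + 3 : ℕ) : ℂ) / ((n + 4 : ℕ) : ℂ) * a (n + 3) * pc r θ ^ (n + 2))
      (∫ σ in (0 : ℝ)..1, (σ : ℂ) * gd F s ((σ : ℂ) * pc r θ)) := by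
  have hsum : Summable fun n : ℕ => ((n + 3 : ℕ) : ℝ) * ‖a (n + 3)‖ * r ^ (n + 2) := by
    have h1 := (summable_nat_add_iff (f := fun j : ℕ => (j : ℝ) * ‖a j‖ * r ^ j) 3).2 (IF1.sumA h.toHol hr.1.le hr.2)
    have h2 := h1.mul_left (1 / r)
    refine h2.congr fun n => ?_
    have := hr.1.ne'
    rw [pow_succ r (n + 2)]
    field_simp
  have key := intervalIntegral.hasSum_integral_of_dominated_convergence (μ := volume) (a := (0 : ℝ)) (b := 1)
    (F := fun (n : ℕ) (σ : ℝ) => (((n + 3 : ℕ) : ℂ) * a (n + 3) * pc r θ ^ (n + 2)) * ((σ ^ (n + 3) : ℝ) : ℂ))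
    (f := fun σ : ℝ => (σ : ℂ) * gd F s ((σ : ℂ) * pc r θ))
    (fun n _ => ((n + 3 : ℕ) : ℝ) * ‖a (n + 3)‖ * r ^ (n + 2))
    (fun n => (by fun_prop : Continuous fun σ : ℝ =>
      (((n + 3 : ℕ) : ℂ) * a (n + 3) * pc r θ ^ (n + 2)) * ((σ ^ (n + 3) : ℝ) : ℂ)).aestronglyMeasurable)
    (fun n => Eventually.of_forall fun σ hσ => by
      rw [uIoc_of_le zero_le_one] at hσ
      rw [norm_mul, norm_mul, norm_mul, norm_pow, npc hr, Complex.norm_natCast, Complex.norm_real, Real.norm_eq_abs,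
        abs_of_nonneg (pow_nonneg hσ.1.le _)]
      exact mul_le_of_le_one_right (by have := hr.1.le; positivity) (pow_le_one₀ hσ.1.le hσ.2))
    (Eventually.of_forall fun σ hσ => hsum)
    intervalIntegrable_const
    (Eventually.of_forall fun σ hσ => by
      rw [uIoc_of_le zero_le_one] at hσ
      refine ((serG h (sub1 hr (mem hr θ hσ.1.le hσ.2))).mul_left (σ : ℂ)).congr_fun fun n => ?_
      rw [mul_pow]
      push_cast
      ring)
  refine key.congr_fun fun n => ?_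
  rw [intervalIntegral.integral_const_mul, intervalIntegral.integral_ofReal, integral_pow]
  push_cast
  simp
  ring

end ISer

open ISer in
theorem pr_Ser : StSer := by
  intro F a s h
  have hsum := sumcc h.sum
  have h3 : HasSum (fun j : ℕ => cc a (j + 3)) (1 - s ^ 2) := by
    have h1 := (hasSum_nat_add_iff' (f := cc a) 3).2 hsum
    have e : (1 : ℝ) - ∑ i ∈ Finset.range 3, cc a i = 1 - s ^ 2 := by
      rw [Finset.sum_range_succ, Finset.sum_range_succ, Finset.sum_range_succ]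
      simp [cc, h.a1, h.a2]
    rw [e] at h1
    exact h1
  have hs1 : s ≤ 1 := by
    have h0 : 0 ≤ 1 - s ^ 2 := h3.nonneg fun j => ccn a _
    have := h.s0
    nlinarith
  refine ⟨hs1, h3, fun n hn => ?_, fun w hw => serG h hw, fun w => nsq F s w, fun r hr => ⟨fun θ => ⟨?_, ?_, ?_⟩, ?_, ?_, ?_⟩⟩
  · have h4 := le_hasSum h3 (n - 2) (fun j _ => ccn a _)
    have e : n - 2 + 3 = n + 1 := by omega
    rw [e] at h4
    simpa [cc] using h4
  · have hI1 : IntervalIntegrable (fun σ : ℝ => (σ : ℂ) * gd F s ((σ : ℂ) * pc r θ)) volume 0 1 := by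
      refine ContinuousOn.intervalIntegrable ?_
      rw [uIcc_of_le zero_le_one]
      exact (Complex.continuous_ofReal.continuousOn).mul (contσ h.toHol s hr θ)
    have hI2 : IntervalIntegrable (fun σ : ℝ => σ * ‖gd F s ((σ : ℂ) * pc r θ)‖ ^ 2) volume 0 1 := by
      refine ContinuousOn.intervalIntegrable ?_
      rw [uIcc_of_le zero_le_one]
      exact continuousOn_id.mul ((contσ h.toHol s hr θ).norm.pow 2)
    have hI3 : IntervalIntegrable (fun σ : ℝ => ((σ : ℂ) * gd F s ((σ : ℂ) * pc r θ)).re) volume 0 1 := by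
      refine ContinuousOn.intervalIntegrable ?_
      rw [uIcc_of_le zero_le_one]
      exact Complex.continuous_re.comp_continuousOn
        ((Complex.continuous_ofReal.continuousOn).mul (contσ h.toHol s hr θ))
    have hre : (∫ σ in (0 : ℝ)..1, (σ : ℂ) * gd F s ((σ : ℂ) * pc r θ)).re =
        ∫ σ in (0 : ℝ)..1, ((σ : ℂ) * gd F s ((σ : ℂ) * pc r θ)).re := by
      have := Complex.reCLM.intervalIntegral_comp_comm hI1
      simpa using this.symm
    have hgg : gg F (pc r θ) = s ^ 2 / 2 + 2 * s * (∫ σ in (0 : ℝ)..1, ((σ : ℂ) * gd F s ((σ : ℂ) * pc r θ)).re) +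
        ∫ σ in (0 : ℝ)..1, σ * ‖gd F s ((σ : ℂ) * pc r θ)‖ ^ 2 := by
      have e1 : (fun σ : ℝ => σ * ‖deriv F ((σ : ℂ) * pc r θ)‖ ^ 2) = fun σ : ℝ => s ^ 2 * σ +
          2 * s * ((σ : ℂ) * gd F s ((σ : ℂ) * pc r θ)).re + σ * ‖gd F s ((σ : ℂ) * pc r θ)‖ ^ 2 := by
        funext σ
        rw [nsq F s, Complex.re_ofReal_mul]
        ring
      rw [gg, e1, intervalIntegral.integral_add _ hI2, intervalIntegral.integral_add _ (hI3.const_mul _),
        intervalIntegral.integral_const_mul, intervalIntegral.integral_const_mul, integral_id]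
      · ring
      · exact (continuous_const.mul continuous_id).intervalIntegrable _ _
      · exact ((continuous_const.mul continuous_id).intervalIntegrable _ _).add (hI3.const_mul _)
    rw [bb, kf, bG, hgg, hre]
    ring
  · unfold bG
    refine mul_nonneg (sq_nonneg _) (intervalIntegral.integral_nonneg zero_le_one fun σ hσ => ?_)
    exact mul_nonneg hσ.1 (sq_nonneg _)
  · have h5 := (kfs h hr θ).mul_left ((r : ℂ) ^ 2)
    have h6 := Complex.hasSum_re h5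
    have e2 : ((r : ℂ) ^ 2 * ∫ σ in (0 : ℝ)..1, (σ : ℂ) * gd F s ((σ : ℂ) * pc r θ)).re = kf F s r θ := by
      rw [kf, ← Complex.ofReal_pow, Complex.re_ofReal_mul]
    rw [e2] at h6
    refine h6.congr_fun fun n => ?_
    rw [Rn, ex, pc, mul_pow, ← Complex.exp_nat_mul]
    have e3 : (r : ℂ) ^ 2 * (((n + 3 : ℕ) : ℂ) / ((n + 4 : ℕ) : ℂ) * a (n + 3) *
        ((r : ℂ) ^ (n + 2) * Complex.exp (((n + 2 : ℕ) : ℂ) * (Complex.I * θ)))) =
        ((((n + 3 : ℕ) : ℝ) / ((n + 4 : ℕ) : ℝ) * r ^ (n + 4) : ℝ) : ℂ) *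
          (a (n + 2 + 1) * Complex.exp (Complex.I * (((n + 2 : ℕ) : ℤ) : ℂ) * θ)) := by
      have e4 : ((n + 2 : ℕ) : ℂ) * (Complex.I * θ) = Complex.I * (((n + 2 : ℕ) : ℤ) : ℂ) * θ := by
        push_cast
        ring
      rw [e4]
      push_cast
      ring
    rw [e3, Complex.re_ofReal_mul]
  · obtain ⟨M, hM0, hM⟩ := bd h.toHol s hr
    have := contI (fun θ σ : ℝ => (σ : ℂ) * gd F s ((σ : ℂ) * pc r θ)) M
      (fun θ σ h0 h1 => by
        rw [norm_mul, Complex.norm_real, Real.norm_eq_abs, abs_of_nonneg h0]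
        exact (mul_le_of_le_one_left (norm_nonneg _) h1).trans (hM θ σ h0 h1))
      (fun θ => (Complex.continuous_ofReal.continuousOn).mul (contσ h.toHol s hr θ))
      (fun σ h0 h1 => (contθ h.toHol s hr h0 h1).const_mul _)
    unfold kf
    exact continuous_const.mul (Complex.continuous_re.comp this)
  · obtain ⟨M, hM0, hM⟩ := bd h.toHol s hr
    have := contI (fun θ σ : ℝ => σ * ‖gd F s ((σ : ℂ) * pc r θ)‖ ^ 2) (M ^ 2)
      (fun θ σ h0 h1 => by
        rw [norm_mul, Real.norm_eq_abs, abs_of_nonneg h0, norm_pow, norm_norm]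
        exact (mul_le_of_le_one_left (by positivity) h1).trans (pow_le_pow_left₀ (norm_nonneg _) (hM θ σ h0 h1) 2))
      (fun θ => continuousOn_id.mul ((contσ h.toHol s hr θ).norm.pow 2))
      (fun σ h0 h1 => ((contθ h.toHol s hr h0 h1).norm.pow 2).const_mul _)
    unfold bG
    exact continuous_const.mul this
  · have := contθ h.toHol s hr zero_le_one le_rfl
    simpa using this

end Pool.Agent.MFK.CD
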