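import Pool.Agent.Work.MP_8826fd_mp.CD.Stmts

/-!
# MP_8826fd_mp, block CD, item Sp2: spectral data of the disc with the functions `FK`
-/

set_option autoImplicit false

namespace Pool.Agent.MFK.CD

open MeasureTheory Set Filter Topology Pool.Agent.MFK.NF

namespace ISp2

theorem spec2 (h1 : RRad) (h2 : RUp) (h3 : RDown) (h4 : RRecUp) (h5 : RRecDown) (h6 : RGround)
    (h7 : RF) : ∀ B : ℝ, 0 < B → ∃ (lam : ℝ) (m : ℕ), Data B lam m (fun n => FK B lam n) ∧
    deriv (gk B lam m) 1 = 0 ∧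
    Facts (B / 2 - m) (B / 2 + m) lam m (fun k => dtn (fun n => FK B lam n) ((m : ℤ) - k))
      (fun k => dtn (fun n => FK B lam n) ((m : ℤ) + k)) := by
  intro B hB
  obtain ⟨lam, m, hl0, hlB, hnn, hz⟩ := h6 B hB
  set F : ℤ → ℝ → ℝ := fun n => FK B lam n with hF
  have hrad : ∀ n : ℤ, Rad B lam n (F n) := fun n => h1 B lam n hB hlB
  have hF1 : ∀ n : ℤ, 0 < F n 1 := fun n => (hrad n).pos 1 zero_le_one
  have hdnn : ∀ n : ℤ, 0 ≤ dtn F n := fun n => div_nonneg (hnn n) (hF1 n).le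
  have hdz : dtn F (m : ℤ) = 0 := by
    unfold dtn
    rw [show deriv (radf (m : ℤ) (F (m : ℤ))) 1 = 0 from hz]
    simp
  have hup : ∀ k : ℕ, 0 < (B / 2 + m) + k - dtn F ((m : ℤ) + k) ∧
      dtn F ((m : ℤ) + (k + 1 : ℕ)) * ((B / 2 + m) + k - dtn F ((m : ℤ) + k))
        = (1 + (B / 2 + m) + k) * dtn F ((m : ℤ) + k)
          - (k - (B / 2 - m)) * (k - (B / 2 - m) + 1) + lam := by
    intro k
    have hr := h4 B lam ((m + k : ℕ) : ℤ) (F ((m + k : ℕ) : ℤ)) (F (((m + k : ℕ) : ℤ) + 1))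
      (B * ((((m + k : ℕ) : ℝ) + 1 - (1 / 2 - lam / (2 * B))) / (((m + k : ℕ) : ℝ) + 1)))
      (hrad _) (hrad _) ?_ ?_
    · have e1 : ((m : ℤ) + (k + 1 : ℕ)) = ((m + k : ℕ) : ℤ) + 1 := by push_cast; ring
      have e2 : ((m : ℤ) + k) = ((m + k : ℕ) : ℤ) := by push_cast; ring
      rw [e1, e2]
      obtain ⟨ha, hb⟩ := hr
      unfold dtn
      constructor
      · have : ((((m + k : ℕ) : ℤ) : ℝ)) = m + k := by push_cast; ring
        rw [this] at ha
        linarith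
      · have : ((((m + k : ℕ) : ℤ) : ℝ)) = m + k := by push_cast; ring
        rw [this] at hb
        linear_combination hb
    · have : lam / (2 * B) < 1 / 2 := by
        rw [div_lt_iff₀ (by positivity)]; linarith
      have h8 : (0 : ℝ) < ((m + k : ℕ) : ℝ) + 1 - (1 / 2 - lam / (2 * B)) := by
        have : 0 < lam / (2 * B) := by positivity
        have h9 : (0 : ℝ) ≤ ((m + k : ℕ) : ℝ) := Nat.cast_nonneg _
        linarith
      positivity
    · intro r hr
      have := h2 B lam (m + k) r hB hlB hr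
      simpa using this
  have hdown : ∀ k : ℕ, 0 < dtn F ((m : ℤ) - k) + (B / 2 + m) - k ∧
      dtn F ((m : ℤ) - (k + 1 : ℕ)) * (dtn F ((m : ℤ) - k) + (B / 2 + m) - k)
        = ((B / 2 + m) - k - 1) * dtn F ((m : ℤ) - k)
          + ((B / 2 - m) + k) * ((B / 2 - m) + k + 1) - lam := by
    intro k
    obtain ⟨C, hC, hl⟩ := h3 B lam ((m : ℤ) - k) hB hlB
    obtain ⟨ha, hb⟩ := h5 B lam ((m : ℤ) - k) (F ((m : ℤ) - k)) (F (((m : ℤ) - k) - 1)) C
      (hrad _) (hrad _) hC hl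
    have e1 : ((m : ℤ) - (k + 1 : ℕ)) = ((m : ℤ) - k) - 1 := by push_cast; ring
    rw [e1]
    unfold dtn
    constructor
    · push_cast at ha
      linarith
    · push_cast at hb
      linear_combination hb
  have hal0 : dtn F ((m : ℤ) - (0 : ℕ)) = 0 := by simpa using hdz
  have hbe0 : dtn F ((m : ℤ) + (0 : ℕ)) = 0 := by simpa using hdz
  refine ⟨lam, m, ⟨hl0, hlB, hrad, hdnn, hdz⟩, hz, ?_⟩
  obtain ⟨f1, f2, f3, f4, f5⟩ := h7 B lam hB hl0 hlB
  have hM : (0 : ℝ) < B / 2 + m := by positivity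
  refine ⟨?_, by ring, hl0, by linarith, hal0, hbe0, fun k => hdnn _, fun k => hdnn _,
    fun k => (hdown k).1, fun k => (hup k).1, fun k => (hdown k).2, fun k => (hup k).2,
    ?_, ?_, ?_, ?_, ?_, ?_⟩
  · -- 0 < p
    have ha := (hdown 0).2
    have hb := (hup 0).2
    rw [hal0] at ha
    rw [hbe0] at hb
    have ha' := hdnn ((m : ℤ) - (0 + 1 : ℕ))
    have hb' := hdnn ((m : ℤ) + (0 + 1 : ℕ))
    simp only [Nat.cast_zero] at ha hb
    by_contra hneg
    have h10 : 0 ≤ dtn F ((m : ℤ) - (0 + 1 : ℕ)) * (B / 2 + m) := mul_nonneg ha' hM.le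
    have h11 : 0 ≤ dtn F ((m : ℤ) + (0 + 1 : ℕ)) * (B / 2 + m) := mul_nonneg hb' hM.le
    nlinarith
  · intro k
    have := f1 (m + k)
    have e1 : ((m : ℤ) + (k + 1 : ℕ)) = ((m + k : ℕ) : ℤ) + 1 := by push_cast; ring
    have e2 : ((m : ℤ) + k) = ((m + k : ℕ) : ℤ) := by push_cast; ring
    simp only [e1, e2]
    exact this
  · intro k
    have := f2 (m + k)
    have e2 : ((m : ℤ) + k) = ((m + k : ℕ) : ℤ) := by push_cast; ring
    simp only [e2]
    refine this.trans (le_of_eq ?_)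
    push_cast; ring
  · intro k hk
    have := f2 (m - k)
    have e2 : ((m : ℤ) - k) = ((m - k : ℕ) : ℤ) := by push_cast [hk]; ring
    simp only [e2]
    refine this.trans (le_of_eq ?_)
    push_cast [hk]; ring
  · intro k hk
    have := f3 (k - m)
    have e2 : ((m : ℤ) - k) = -((k - m : ℕ) : ℤ) := by push_cast [hk]; ring
    simp only [e2]
    refine this.trans (le_of_eq ?_)
    push_cast [hk]; ring
  · intro k hk
    have := f4 (k - m)
    have e2 : ((m : ℤ) - k) = -((k - m : ℕ) : ℤ) := by push_cast [hk]; ring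
    simp only [e2]
    refine this.trans (le_of_eq ?_)
    push_cast [hk]; ring
  · intro k
    have := f5 (m + k)
    have e2 : ((m : ℤ) + k) = ((m + k : ℕ) : ℤ) := by push_cast; ring
    simp only [e2]
    refine le_trans (le_of_eq ?_) this
    push_cast; ring

end ISp2

theorem pr_Sp2 : StSp2 := by
  intro B hB
  obtain ⟨lam, m, hD, hz, hF⟩ := ISp2.spec2 Asm.rRad' Asm.rUp' Asm.rDown' (rRec rReg).1 (rRec rReg).2
    Asm.rGround' Asm.rF' B hB
  exact ⟨lam, m, ⟨hB, hD.lam_pos, hD.lam_lt, hz, hF.hp, Asm.stLB B lam m _ hB hD⟩, hD, hF⟩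

end Pool.Agent.MFK.CD
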