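import Pool.Agent.Work.MP_8826fd_mp.CD.Stmts
import Pool.Agent.Work.MP_8826fd_mp.NF.I_Gau
import Pool.Agent.Work.MP_8826fd_mp.NF.I_Den
import Pool.Agent.Work.MP_8826fd_mp.NF.I_En

/-!
# MP_8826fd_mp, block CD, item Split: integrability of energy and mass
-/

set_option autoImplicit false

namespace Pool.Agent.MFK.CD

open MeasureTheory Set Filter Topology Pool.Agent.MFK.NF

namespace ISplit

lemma pcc : Continuous (fun p : ℝ × ℝ => pc p.1 p.2) := by
  unfold pc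
  fun_prop

lemma pce : Continuous (fun p : ℝ × ℝ => Complex.exp (Complex.I * (p.2 : ℂ))) := by
  fun_prop

lemma maps : MapsTo (fun p : ℝ × ℝ => pc p.1 p.2) (Ioo (0 : ℝ) 1 ×ˢ univ) (Metric.ball (0 : ℂ) 1) :=
  fun p hp => IDen.pc_mem hp.1 p.2

lemma cont_gg {F : ℂ → ℂ} (hF : DifferentiableOn ℂ F (Metric.ball 0 1)) :
    ContinuousOn (gg F) (Metric.ball 0 1) :=
  fun _ hw => (IGau.hgg hF hw).continuousAt.continuousWithinAt

lemma cont_dF {F : ℂ → ℂ} (hF : DifferentiableOn ℂ F (Metric.ball 0 1)) :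
    ContinuousOn (deriv F) (Metric.ball 0 1) := (hF.deriv Metric.isOpen_ball).continuousOn

lemma cont_E (B : ℝ) {F V : ℂ → ℂ} (hF : DifferentiableOn ℂ F (Metric.ball 0 1))
    (hV : ContDiff ℝ 1 V) :
    ContinuousOn (fun p : ℝ × ℝ => eE B F V p.1 p.2) (Ioo (0 : ℝ) 1 ×ˢ univ) := by
  have h1 : Continuous (fun p : ℝ × ℝ => fderiv ℝ V (pc p.1 p.2)) :=
    (hV.continuous_fderiv (by norm_num)).comp pcc
  have h2 : Continuous (fun p : ℝ × ℝ => vr V p.1 p.2) := by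
    unfold vr
    exact h1.clm_apply pce
  have h3 : Continuous (fun p : ℝ × ℝ => vth V p.1 p.2) := by
    unfold vth
    exact h1.clm_apply (continuous_const.mul pce)
  have h4 : ContinuousOn (fun p : ℝ × ℝ => bb F p.1 p.2) (Ioo (0 : ℝ) 1 ×ˢ univ) := by
    unfold bb
    exact (continuous_fst.pow 2).continuousOn.mul ((cont_gg hF).comp pcc.continuousOn maps)
  have h5 : ContinuousOn (fun p : ℝ × ℝ => B * bb F p.1 p.2 / p.1) (Ioo (0 : ℝ) 1 ×ˢ univ) :=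
    (continuousOn_const.mul h4).div continuous_fst.continuousOn (fun p hp => ne_of_gt hp.1.1)
  have h6 : Continuous (fun p : ℝ × ℝ => V (pc p.1 p.2)) := hV.continuous.comp pcc
  unfold eE
  refine continuous_fst.continuousOn.mul (((h2.norm.pow 2).continuousOn).add
    (((h3.continuousOn.sub ((continuousOn_const.mul ?_).mul h6.continuousOn)).norm).pow 2))
  exact Complex.continuous_ofReal.comp_continuousOn h5

lemma cont_M {F V : ℂ → ℂ} (hF : DifferentiableOn ℂ F (Metric.ball 0 1))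
    (hV : ContDiff ℝ 1 V) :
    ContinuousOn (fun p : ℝ × ℝ => eM F V p.1 p.2) (Ioo (0 : ℝ) 1 ×ˢ univ) := by
  have h6 : Continuous (fun p : ℝ × ℝ => V (pc p.1 p.2)) := hV.continuous.comp pcc
  unfold eM
  exact (continuous_fst.continuousOn.mul
    ((((cont_dF hF).comp pcc.continuousOn maps).norm).pow 2)).mul (h6.norm.pow 2).continuousOn

/-- slices -/
lemma slice {f : ℝ → ℝ → ℝ}
    (hf : ContinuousOn (fun p : ℝ × ℝ => f p.1 p.2) (Ioo (0 : ℝ) 1 ×ˢ univ)) {r : ℝ}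
    (hr : r ∈ Ioo (0 : ℝ) 1) : Continuous (f r) := by
  have h : Continuous (fun θ : ℝ => ((r, θ) : ℝ × ℝ)) := by fun_prop
  exact hf.comp_continuous h (fun θ => ⟨hr, mem_univ _⟩)

/-- the general statement -/
lemma gen {f : ℝ → ℝ → ℝ} {G : ℝ → ℝ}
    (hf : ContinuousOn (fun p : ℝ × ℝ => f p.1 p.2) (Ioo (0 : ℝ) 1 ×ˢ univ))
    (h0 : ∀ r ∈ Ioo (0 : ℝ) 1, ∀ θ, 0 ≤ f r θ)
    (hG : IntegrableOn G (Ioo 0 1))
    (hle : ∀ r ∈ Ioo (0 : ℝ) 1, (∫ θ in (0 : ℝ)..(2 * Real.pi), f r θ) ≤ G r) :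
    IntegrableOn (fun r => ∫ θ in (0 : ℝ)..(2 * Real.pi), f r θ) (Ioo 0 1) ∧
    (∫⁻ r in Ioo (0 : ℝ) 1, ∫⁻ θ in Ioo (0 : ℝ) (2 * Real.pi), ENNReal.ofReal (f r θ))
      = ENNReal.ofReal (∫ r in Ioo (0 : ℝ) 1, ∫ θ in (0 : ℝ)..(2 * Real.pi), f r θ) ∧
    0 ≤ (∫ r in Ioo (0 : ℝ) 1, ∫ θ in (0 : ℝ)..(2 * Real.pi), f r θ) := by
  have hp : (0 : ℝ) ≤ 2 * Real.pi := by positivity
  have hin : ∀ r ∈ Ioo (0 : ℝ) 1,
      (∫⁻ θ in Ioo (0 : ℝ) (2 * Real.pi), ENNReal.ofReal (f r θ))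
        = ENNReal.ofReal (∫ θ in (0 : ℝ)..(2 * Real.pi), f r θ) :=
    fun r hr => IEn.lint (slice hf hr) (h0 r hr)
  have hnn : ∀ r ∈ Ioo (0 : ℝ) 1, 0 ≤ ∫ θ in (0 : ℝ)..(2 * Real.pi), f r θ :=
    fun r hr => intervalIntegral.integral_nonneg hp (fun θ _ => h0 r hr θ)
  have hm1 : AEMeasurable (fun p : ℝ × ℝ => ENNReal.ofReal (f p.1 p.2))
      ((volume.restrict (Ioo (0 : ℝ) 1)).prod (volume.restrict (Ioo (0 : ℝ) (2 * Real.pi)))) := by
    rw [Measure.prod_restrict]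
    refine AEMeasurable.ennreal_ofReal ?_
    exact (hf.mono (prod_mono subset_rfl (subset_univ _))).aemeasurable
      (measurableSet_Ioo.prod measurableSet_Ioo)
  have hm2 : AEMeasurable (fun r => ∫⁻ θ in Ioo (0 : ℝ) (2 * Real.pi), ENNReal.ofReal (f r θ))
      (volume.restrict (Ioo (0 : ℝ) 1)) := hm1.lintegral_prod_right'
  have hm3 : AEStronglyMeasurable (fun r => ∫ θ in (0 : ℝ)..(2 * Real.pi), f r θ)
      (volume.restrict (Ioo (0 : ℝ) 1)) := by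
    refine AEStronglyMeasurable.congr (hm2.ennreal_toReal.aestronglyMeasurable) ?_
    refine (ae_restrict_iff' measurableSet_Ioo).2 (Eventually.of_forall fun r hr => ?_)
    simp only
    rw [hin r hr, ENNReal.toReal_ofReal (hnn r hr)]
  have hi : IntegrableOn (fun r => ∫ θ in (0 : ℝ)..(2 * Real.pi), f r θ) (Ioo 0 1) := by
    refine Integrable.mono' hG hm3 ?_
    refine (ae_restrict_iff' measurableSet_Ioo).2 (Eventually.of_forall fun r hr => ?_)
    rw [Real.norm_eq_abs, abs_of_nonneg (hnn r hr)]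
    exact hle r hr
  have hnn' : 0 ≤ᵐ[volume.restrict (Ioo (0 : ℝ) 1)]
      (fun r => ∫ θ in (0 : ℝ)..(2 * Real.pi), f r θ) :=
    (ae_restrict_iff' measurableSet_Ioo).2 (Eventually.of_forall fun r hr => hnn r hr)
  refine ⟨hi, ?_, setIntegral_nonneg measurableSet_Ioo hnn⟩
  rw [ofReal_integral_eq_lintegral_ofReal hi hnn']
  exact setLIntegral_congr_fun measurableSet_Ioo hin

lemma sq_sub_le (x y : ℂ) : ‖x - y‖ ^ 2 ≤ 2 * ‖x‖ ^ 2 + 2 * ‖y‖ ^ 2 := by
  have h := norm_sub_le x y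
  have h0 := norm_nonneg (x - y)
  nlinarith [sq_nonneg (‖x‖ - ‖y‖)]

lemma norm_e (θ : ℝ) : ‖Complex.exp (Complex.I * (θ : ℂ))‖ = 1 := by
  rw [mul_comm, Complex.norm_exp_ofReal_mul_I]

/-- pointwise bound of the energy density -/
lemma bdE {B K r θ : ℝ} {F V : ℂ → ℂ} (hr : r ∈ Ioo (0 : ℝ) 1)
    (hK1 : ‖fderiv ℝ V (pc r θ)‖ ≤ K) (hK2 : ‖V (pc r θ)‖ ≤ K) :
    eE B F V r θ ≤ 3 * K ^ 2 * r + 2 * B ^ 2 * K ^ 2 * (bb F r θ ^ 2 / r) := by
  have hr0 := hr.1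
  have hK : 0 ≤ K := (norm_nonneg _).trans hK2
  have h1 : ‖vr V r θ‖ ≤ K := by
    unfold vr
    calc ‖fderiv ℝ V (pc r θ) (Complex.exp (Complex.I * θ))‖
        ≤ ‖fderiv ℝ V (pc r θ)‖ * ‖Complex.exp (Complex.I * θ)‖ := ContinuousLinearMap.le_opNorm _ _
      _ ≤ K := by rw [norm_e, mul_one]; exact hK1
  have h2 : ‖vth V r θ‖ ≤ K := by
    unfold vth
    calc ‖fderiv ℝ V (pc r θ) (Complex.I * Complex.exp (Complex.I * θ))‖
        ≤ ‖fderiv ℝ V (pc r θ)‖ * ‖Complex.I * Complex.exp (Complex.I * θ)‖ :=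
          ContinuousLinearMap.le_opNorm _ _
      _ ≤ K := by rw [norm_mul, norm_e, Complex.norm_I, mul_one, mul_one]; exact hK1
  have h3 : ‖Complex.I * ((B * bb F r θ / r : ℝ) : ℂ) * V (pc r θ)‖ ^ 2
      ≤ (B * bb F r θ / r) ^ 2 * K ^ 2 := by
    rw [norm_mul, norm_mul, Complex.norm_I, one_mul, Complex.norm_real, mul_pow, Real.norm_eq_abs,
      sq_abs]
    gcongr
  have h4 := sq_sub_le (vth V r θ) (Complex.I * ((B * bb F r θ / r : ℝ) : ℂ) * V (pc r θ))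
  have h5 : ‖vr V r θ‖ ^ 2 ≤ K ^ 2 := by gcongr
  have h6 : ‖vth V r θ‖ ^ 2 ≤ K ^ 2 := by gcongr
  have h7 : ‖vr V r θ‖ ^ 2 + ‖vth V r θ - Complex.I * ((B * bb F r θ / r : ℝ) : ℂ) * V (pc r θ)‖ ^ 2
      ≤ 3 * K ^ 2 + 2 * ((B * bb F r θ / r) ^ 2 * K ^ 2) := by linarith
  unfold eE
  calc r * (‖vr V r θ‖ ^ 2
        + ‖vth V r θ - Complex.I * ((B * bb F r θ / r : ℝ) : ℂ) * V (pc r θ)‖ ^ 2)
      ≤ r * (3 * K ^ 2 + 2 * ((B * bb F r θ / r) ^ 2 * K ^ 2)) :=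
        mul_le_mul_of_nonneg_left h7 hr0.le
    _ = 3 * K ^ 2 * r + 2 * B ^ 2 * K ^ 2 * (bb F r θ ^ 2 / r) := by
        field_simp

lemma ci {f : ℝ → ℝ} (hf : Continuous f) : IntegrableOn f (Ioo (0 : ℝ) 1) :=
  (hf.continuousOn.integrableOn_Icc (a := (0 : ℝ)) (b := 1)).mono_set Ioo_subset_Icc_self

lemma sq3 (x y z : ℝ) : (x + y + z) ^ 2 ≤ 3 * (x ^ 2 + y ^ 2 + z ^ 2) := by
  nlinarith [sq_nonneg (x - y), sq_nonneg (y - z), sq_nonneg (x - z)]

end ISplit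

theorem pr_Split (h1 : StSer) (h2 : StFK) (h3 : StBI) : StSplit := by
  intro B lam s Cv F a V hN hV hC
  have hp : (0 : ℝ) ≤ 2 * Real.pi := by positivity
  obtain ⟨hs1, -, -, -, hnorm, hser⟩ := h1 F a s hN
  have hs0 := hN.s0
  obtain ⟨hB1, -, hB3, hB4, hB5, -, hB7, -⟩ := h3 F a s hN
  have hF := hN.Fd
  have hCv : 0 ≤ Cv := (norm_nonneg _).trans (hC 0 (by simp))
  have hcE := ISplit.cont_E B hF hV
  have hcM := ISplit.cont_M hF hV
  -- the mass
  have hM0 : ∀ r ∈ Ioo (0 : ℝ) 1, ∀ θ, 0 ≤ eM F V r θ := by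
    intro r hr θ
    have := hr.1
    unfold eM
    positivity
  have hMi : IntegrableOn (fun r => Cv ^ 2 * (2 * Real.pi * s ^ 2 * r + Real.pi * rhd a r))
      (Ioo 0 1) := by
    have i1 : IntegrableOn (fun r : ℝ => 2 * Real.pi * s ^ 2 * r) (Ioo 0 1) :=
      (ISplit.ci (f := fun r : ℝ => 2 * Real.pi * s ^ 2 * r) (by fun_prop))
    exact (i1.add (hB3.const_mul Real.pi)).const_mul (Cv ^ 2)
  have hMle : ∀ r ∈ Ioo (0 : ℝ) 1, (∫ θ in (0 : ℝ)..(2 * Real.pi), eM F V r θ)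
      ≤ Cv ^ 2 * (2 * Real.pi * s ^ 2 * r + Real.pi * rhd a r) := by
    intro r hr
    have hr0 := hr.1
    obtain ⟨-, hk0, -, -, hgd, -⟩ := h2 F a s hN r hr
    obtain ⟨-, -, -, cgd⟩ := hser r hr
    have hle : ∀ θ ∈ Icc (0 : ℝ) (2 * Real.pi), eM F V r θ
        ≤ Cv ^ 2 * r * (s ^ 2 + 2 * s * (gd F s (pc r θ)).re + ‖gd F s (pc r θ)‖ ^ 2) := by
      intro θ _
      rw [← hnorm]
      unfold eM
      have hv : ‖V (pc r θ)‖ ^ 2 ≤ Cv ^ 2 := by
        have := hC _ (IDen.pc_mem hr θ)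
        gcongr
      calc r * ‖deriv F (pc r θ)‖ ^ 2 * ‖V (pc r θ)‖ ^ 2
          ≤ r * ‖deriv F (pc r θ)‖ ^ 2 * Cv ^ 2 := by gcongr
        _ = Cv ^ 2 * r * ‖deriv F (pc r θ)‖ ^ 2 := by ring
    have cre : Continuous (fun θ => (gd F s (pc r θ)).re) := Complex.continuous_re.comp cgd
    have cn : Continuous (fun θ => ‖gd F s (pc r θ)‖ ^ 2) := cgd.norm.pow 2
    have cM : Continuous (fun θ => eM F V r θ) := ISplit.slice hcM hr
    have cR : Continuous (fun θ => Cv ^ 2 * r * (s ^ 2 + 2 * s * (gd F s (pc r θ)).re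
        + ‖gd F s (pc r θ)‖ ^ 2)) := by fun_prop
    have hI := intervalIntegral.integral_mono_on (μ := volume) hp (cM.intervalIntegrable _ _)
      (cR.intervalIntegrable _ _) hle
    refine hI.trans (le_of_eq ?_)
    have d1 : Continuous (fun θ => s ^ 2 + 2 * s * (gd F s (pc r θ)).re) := by fun_prop
    have d2 : Continuous (fun θ => 2 * s * (gd F s (pc r θ)).re) := by fun_prop
    rw [intervalIntegral.integral_const_mul, intervalIntegral.integral_add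
      (d1.intervalIntegrable _ _)
      (cn.intervalIntegrable _ _), intervalIntegral.integral_add intervalIntegrable_const
      (d2.intervalIntegrable _ _), intervalIntegral.integral_const_mul,
      hk0, hgd]
    simp only [intervalIntegral.integral_const, smul_eq_mul]
    field_simp
    ring
  obtain ⟨iM, lM, nM⟩ := ISplit.gen hcM hM0 hMi hMle
  -- the energy
  obtain ⟨K1, hK1⟩ := (isCompact_closedBall (0 : ℂ) 1).exists_bound_of_continuousOn
    (hV.continuous_fderiv (by norm_num)).continuousOn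
  obtain ⟨K2, hK2⟩ := (isCompact_closedBall (0 : ℂ) 1).exists_bound_of_continuousOn
    hV.continuous.continuousOn
  obtain ⟨K, hK⟩ : ∃ K : ℝ, K = max K1 K2 := ⟨_, rfl⟩
  have hb1 : ∀ r ∈ Ioo (0 : ℝ) 1, ∀ θ, ‖fderiv ℝ V (pc r θ)‖ ≤ K := fun r hr θ =>
    (hK1 _ (Metric.ball_subset_closedBall (IDen.pc_mem hr θ))).trans (hK ▸ le_max_left _ _)
  have hb2 : ∀ r ∈ Ioo (0 : ℝ) 1, ∀ θ, ‖V (pc r θ)‖ ≤ K := fun r hr θ =>
    (hK2 _ (Metric.ball_subset_closedBall (IDen.pc_mem hr θ))).trans (hK ▸ le_max_right _ _)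
  have hE0 : ∀ r ∈ Ioo (0 : ℝ) 1, ∀ θ, 0 ≤ eE B F V r θ := by
    intro r hr θ
    have := hr.1
    unfold eE
    positivity
  have hEi : IntegrableOn (fun r => 6 * Real.pi * K ^ 2 * r + 6 * B ^ 2 * K ^ 2 *
      (Real.pi / 2 * r ^ 3 + 4 * Real.pi * (k2 a r / r)
        + (∫ θ in (0 : ℝ)..(2 * Real.pi), bG F s r θ ^ 2) / r)) (Ioo 0 1) := by
    have i1 : IntegrableOn (fun r : ℝ => 6 * Real.pi * K ^ 2 * r) (Ioo 0 1) :=
      (ISplit.ci (f := fun r : ℝ => 6 * Real.pi * K ^ 2 * r) (by fun_prop))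
    have i2 : IntegrableOn (fun r : ℝ => Real.pi / 2 * r ^ 3) (Ioo 0 1) :=
      (ISplit.ci (f := fun r : ℝ => Real.pi / 2 * r ^ 3) (by fun_prop))
    exact i1.add (((i2.add (hB5.const_mul (4 * Real.pi))).add hB7).const_mul (6 * B ^ 2 * K ^ 2))
  have hEle : ∀ r ∈ Ioo (0 : ℝ) 1, (∫ θ in (0 : ℝ)..(2 * Real.pi), eE B F V r θ)
      ≤ 6 * Real.pi * K ^ 2 * r + 6 * B ^ 2 * K ^ 2 *
      (Real.pi / 2 * r ^ 3 + 4 * Real.pi * (k2 a r / r)
        + (∫ θ in (0 : ℝ)..(2 * Real.pi), bG F s r θ ^ 2) / r) := by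
    intro r hr
    have hr0 := hr.1
    obtain ⟨-, -, -, hkk, -, -⟩ := h2 F a s hN r hr
    obtain ⟨hbb, ckf, cbG, -⟩ := hser r hr
    have hle : ∀ θ ∈ Icc (0 : ℝ) (2 * Real.pi), eE B F V r θ
        ≤ 3 * K ^ 2 * r + 6 * B ^ 2 * K ^ 2 / r * (r ^ 4 / 4 + 4 * kf F s r θ ^ 2
          + bG F s r θ ^ 2) := by
      intro θ _
      refine (ISplit.bdE hr (hb1 r hr θ) (hb2 r hr θ)).trans ?_
      have e1 : bb F r θ ^ 2 ≤ 3 * (r ^ 4 / 4 + 4 * kf F s r θ ^ 2 + bG F s r θ ^ 2) := by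
        rw [(hbb θ).1]
        refine (ISplit.sq3 _ _ _).trans ?_
        have hs2 : s ^ 2 ≤ 1 := by nlinarith
        have hs4 : s ^ 4 ≤ 1 := by nlinarith [sq_nonneg s]
        have e2 : (s ^ 2 * r ^ 2 / 2) ^ 2 ≤ r ^ 4 / 4 := by
          have : (s ^ 2 * r ^ 2 / 2) ^ 2 = s ^ 4 * (r ^ 4 / 4) := by ring
          rw [this]
          have h4 : 0 ≤ r ^ 4 / 4 := by positivity
          nlinarith
        have e3 : (2 * s * kf F s r θ) ^ 2 ≤ 4 * kf F s r θ ^ 2 := by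
          have : (2 * s * kf F s r θ) ^ 2 = s ^ 2 * (4 * kf F s r θ ^ 2) := by ring
          rw [this]
          nlinarith [sq_nonneg (kf F s r θ)]
        linarith
      have e4 : 2 * B ^ 2 * K ^ 2 * (bb F r θ ^ 2 / r) ≤ 2 * B ^ 2 * K ^ 2 *
          (3 * (r ^ 4 / 4 + 4 * kf F s r θ ^ 2 + bG F s r θ ^ 2) / r) := by gcongr
      refine (add_le_add_right e4 _).trans (le_of_eq ?_)
      ring
    have cE : Continuous (fun θ => eE B F V r θ) := ISplit.slice hcE hr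
    have cR : Continuous (fun θ => 3 * K ^ 2 * r + 6 * B ^ 2 * K ^ 2 / r *
        (r ^ 4 / 4 + 4 * kf F s r θ ^ 2 + bG F s r θ ^ 2)) := by fun_prop
    have hI := intervalIntegral.integral_mono_on (μ := volume) hp (cE.intervalIntegrable _ _)
      (cR.intervalIntegrable _ _) hle
    refine hI.trans (le_of_eq ?_)
    have c1 : Continuous (fun θ => 4 * kf F s r θ ^ 2) := by fun_prop
    have c2 : Continuous (fun θ => bG F s r θ ^ 2) := by fun_prop
    have c3 : Continuous (fun θ => r ^ 4 / 4 + 4 * kf F s r θ ^ 2) := by fun_prop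
    have c4 : Continuous (fun θ => 6 * B ^ 2 * K ^ 2 / r *
        (r ^ 4 / 4 + 4 * kf F s r θ ^ 2 + bG F s r θ ^ 2)) := by fun_prop
    rw [intervalIntegral.integral_add intervalIntegrable_const
      (c4.intervalIntegrable _ _), intervalIntegral.integral_const_mul,
      intervalIntegral.integral_const_mul, intervalIntegral.integral_add
      (c3.intervalIntegrable _ _) (c2.intervalIntegrable _ _),
      intervalIntegral.integral_add intervalIntegrable_const (c1.intervalIntegrable _ _),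
      intervalIntegral.integral_const_mul, hkk]
    simp only [intervalIntegral.integral_const, smul_eq_mul]
    field_simp
    ring
  obtain ⟨iE, lE, nE⟩ := ISplit.gen hcE hE0 hEi hEle
  have hEE : EE B F V = ENNReal.ofReal
      (∫ r in Ioo (0 : ℝ) 1, ∫ θ in (0 : ℝ)..(2 * Real.pi), eE B F V r θ) := lE
  have hMM : MM F V = ENNReal.ofReal
      (∫ r in Ioo (0 : ℝ) 1, ∫ θ in (0 : ℝ)..(2 * Real.pi), eM F V r θ) := lM
  have hsub : ∀ r ∈ Ioo (0 : ℝ) 1,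
      (∫ θ in (0 : ℝ)..(2 * Real.pi), (eE B F V r θ - lam * eM F V r θ))
      = (∫ θ in (0 : ℝ)..(2 * Real.pi), eE B F V r θ)
        - lam * ∫ θ in (0 : ℝ)..(2 * Real.pi), eM F V r θ := by
    intro r hr
    have cE : Continuous (fun θ => eE B F V r θ) := ISplit.slice hcE hr
    have cM : Continuous (fun θ => eM F V r θ) := ISplit.slice hcM hr
    have cM' : Continuous (fun θ => lam * eM F V r θ) := by fun_prop
    rw [intervalIntegral.integral_sub (cE.intervalIntegrable _ _)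
      (cM'.intervalIntegrable _ _), intervalIntegral.integral_const_mul]
  refine ⟨by rw [hEE]; exact ENNReal.ofReal_ne_top, by rw [hMM]; exact ENNReal.ofReal_ne_top,
    ?_, ?_, ?_⟩
  · rw [hMM, ENNReal.toReal_ofReal nM]
    have hmono := setIntegral_mono_on iM hMi measurableSet_Ioo hMle
    refine hmono.trans (le_of_eq ?_)
    have i1 : IntegrableOn (fun r : ℝ => 2 * Real.pi * s ^ 2 * r) (Ioo 0 1) :=
      (ISplit.ci (f := fun r : ℝ => 2 * Real.pi * s ^ 2 * r) (by fun_prop))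
    rw [integral_const_mul, integral_add i1 (hB3.const_mul Real.pi), integral_const_mul,
      integral_const_mul, hB4]
    have e1 : (∫ r in Ioo (0 : ℝ) 1, r) = 1 / 2 := by
      rw [← integral_Ioc_eq_integral_Ioo, ← intervalIntegral.integral_of_le zero_le_one,
        integral_id]
      norm_num
    rw [e1]
    ring
  · refine (iE.sub (iM.const_mul lam)).congr_fun_ae ?_
    refine (ae_restrict_iff' measurableSet_Ioo).2 (Eventually.of_forall fun r hr => ?_)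
    exact (hsub r hr).symm
  · rw [hEE, hMM, ENNReal.toReal_ofReal nE, ENNReal.toReal_ofReal nM,
      setIntegral_congr_fun measurableSet_Ioo hsub, integral_sub iE (iM.const_mul lam),
      integral_const_mul]

end Pool.Agent.MFK.CD
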