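import Pool.Agent.Work.MP_8826fd_mp.CD.Stmts
import Pool.Agent.Work.MP_8826fd_mp.NF.I_Den

/-!
# MP_8826fd_mp, block CD, item VV: polar form of the test function
-/

set_option autoImplicit false

namespace Pool.Agent.MFK.CD

open MeasureTheory Set Filter Topology Pool.Agent.MFK.NF

namespace IVV

lemma contDiff_vz (l : ℤ) {Ψ : ℝ → ℝ} (hΨ : ContDiff ℝ 1 Ψ) : ContDiff ℝ 1 (vz l Ψ) := by
  have h2 : ContDiff ℝ 1 (fun w : ℂ => ‖w‖ ^ 2) := contDiff_norm_sq ℝ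
  have h3 : ContDiff ℝ 1 (fun w : ℂ => Ψ (‖w‖ ^ 2)) := hΨ.comp h2
  have h4 : ContDiff ℝ 1 (fun w : ℂ => ((Ψ (‖w‖ ^ 2) : ℝ) : ℂ)) :=
    Complex.ofRealCLM.contDiff.comp h3
  unfold vz
  by_cases hl : 0 ≤ l
  · simp only [if_pos hl]
    exact (contDiff_id.pow _).mul h4
  · simp only [if_neg hl]
    have h5 : ContDiff ℝ 1 (fun w : ℂ => (starRingEnd ℂ) w) := Complex.conjCLE.contDiff
    exact (h5.pow _).mul h4

lemma vz_pc (l : ℤ) (Ψ : ℝ → ℝ) (r θ : ℝ) :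
    vz l Ψ (pc r θ) = ((radf l Ψ r : ℝ) : ℂ) * ex l θ := by
  unfold vz radf
  rw [IDen.norm_pc]
  by_cases hl : 0 ≤ l
  · rw [if_pos hl]
    have h1 : ((l.natAbs : ℕ) : ℂ) = (l : ℂ) := by
      have h2 : ((l.natAbs : ℕ) : ℤ) = l := Int.natAbs_of_nonneg hl
      rw [← Int.cast_natCast, h2]
    have h3 : pc r θ ^ l.natAbs = (r : ℂ) ^ l.natAbs * ex l θ := by
      unfold pc ex
      rw [mul_pow, ← Complex.exp_nat_mul, h1]
      congr 2
      ring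
    rw [h3]
    push_cast
    ring
  · rw [if_neg hl]
    have h1 : ((l.natAbs : ℕ) : ℂ) = -(l : ℂ) := by
      have h2 : ((l.natAbs : ℕ) : ℤ) = -l := Int.ofNat_natAbs_of_nonpos (le_of_lt (not_le.mp hl))
      rw [← Int.cast_natCast, h2, Int.cast_neg]
    have h3 : (starRingEnd ℂ) (pc r θ) ^ l.natAbs = (r : ℂ) ^ l.natAbs * ex l θ := by
      unfold pc ex
      rw [map_mul, Complex.conj_ofReal, ← Complex.exp_conj, map_mul, Complex.conj_I,
        Complex.conj_ofReal, mul_pow, ← Complex.exp_nat_mul, h1]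
      congr 2
      ring
    rw [h3]
    push_cast
    ring

lemma VV_pc (m N : ℕ) (a : ℕ → ℂ) (Ψ : ℝ → ℝ) (ΨA ΨB : ℕ → ℝ → ℝ) (r θ : ℝ) :
    VV m N a Ψ ΨA ΨB (pc r θ) = ((radf m Ψ r : ℝ) : ℂ) * ex m θ
      + lin m N a (fun n => radf ((m : ℤ) + n) (ΨA n) r)
        (fun n => radf ((m : ℤ) - n) (ΨB n) r) θ := by
  unfold VV lin
  rw [vz_pc]
  congr 1
  refine Finset.sum_congr rfl fun n _ => ?_
  rw [vz_pc, vz_pc]
  ring

lemma radf_diff (l : ℤ) {Ψ : ℝ → ℝ} (hΨ : ContDiff ℝ 1 Ψ) (r : ℝ) :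
    HasDerivAt (radf l Ψ) (deriv (radf l Ψ) r) r := by
  have h : Differentiable ℝ (radf l Ψ) := by
    unfold radf
    have h1 : Differentiable ℝ (fun r : ℝ => r ^ 2) := differentiable_id.pow 2
    exact (differentiable_id.pow _).mul ((hΨ.differentiable (by norm_num)).comp h1)
  exact (h r).hasDerivAt

lemma contDiff_VV (m N : ℕ) (a : ℕ → ℂ) {Ψ : ℝ → ℝ} {ΨA ΨB : ℕ → ℝ → ℝ} (h1 : ContDiff ℝ 1 Ψ)
    (h2 : ∀ n, ContDiff ℝ 1 (ΨA n)) (h3 : ∀ n, ContDiff ℝ 1 (ΨB n)) :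
    ContDiff ℝ 1 (VV m N a Ψ ΨA ΨB) := by
  unfold VV
  refine (contDiff_vz _ h1).add (ContDiff.sum fun n _ => ?_)
  exact (contDiff_const.mul (contDiff_vz _ (h2 n))).add (contDiff_const.mul (contDiff_vz _ (h3 n)))

lemma ex_t (l : ℤ) (θ : ℝ) : HasDerivAt (fun s : ℝ => ex l s) (Complex.I * l * ex l θ) θ := by
  unfold ex
  have h1 : HasDerivAt (fun s : ℝ => Complex.I * (l : ℂ) * (s : ℂ)) (Complex.I * l) θ := by
    have := (Complex.ofRealCLM.hasDerivAt (x := θ)).const_mul (Complex.I * (l : ℂ))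
    simpa using this
  have h2 := h1.cexp
  rw [mul_comm (Complex.exp _)] at h2
  exact h2

lemma lin_r (m N : ℕ) (a : ℕ → ℂ) (x y : ℕ → ℝ → ℝ) (x' y' : ℕ → ℝ) (r θ : ℝ)
    (hx : ∀ n, HasDerivAt (x n) (x' n) r) (hy : ∀ n, HasDerivAt (y n) (y' n) r) :
    HasDerivAt (fun s : ℝ => lin m N a (fun n => x n s) (fun n => y n s) θ)
      (lin m N a x' y' θ) r := by
  unfold lin
  refine HasDerivAt.fun_sum fun n _ => ?_
  have h1 := (((hx n).ofReal_comp).const_mul (a (n + 1))).mul_const (ex ((m : ℤ) + n) θ)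
  have h2 := (((hy n).ofReal_comp).const_mul ((starRingEnd ℂ) (a (n + 1)))).mul_const
    (ex ((m : ℤ) - n) θ)
  exact h1.add h2

lemma lin_t (m N : ℕ) (a : ℕ → ℂ) (x y : ℕ → ℝ) (θ : ℝ) :
    HasDerivAt (fun s : ℝ => lin m N a x y s)
      (Complex.I * lin m N a (fun n => ((m : ℝ) + n) * x n) (fun n => ((m : ℝ) - n) * y n) θ) θ := by
  unfold lin
  rw [Finset.mul_sum]
  refine HasDerivAt.fun_sum fun n _ => ?_
  have h1 := (ex_t ((m : ℤ) + n) θ).const_mul (a (n + 1) * (x n : ℂ))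
  have h2 := (ex_t ((m : ℤ) - n) θ).const_mul ((starRingEnd ℂ) (a (n + 1)) * (y n : ℂ))
  have h3 := h1.add h2
  have h4 : Complex.I * (a (n + 1) * (((fun n => ((m : ℝ) + n) * x n) n : ℝ) : ℂ) *
      ex ((m : ℤ) + n) θ + (starRingEnd ℂ) (a (n + 1)) *
        (((fun n => ((m : ℝ) - n) * y n) n : ℝ) : ℂ) * ex ((m : ℤ) - n) θ) =
      a (n + 1) * (x n : ℂ) * (Complex.I * (((m : ℤ) + n : ℤ) : ℂ) * ex ((m : ℤ) + n) θ) +
      (starRingEnd ℂ) (a (n + 1)) * (y n : ℂ) *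
        (Complex.I * (((m : ℤ) - n : ℤ) : ℂ) * ex ((m : ℤ) - n) θ) := by
    push_cast
    ring
  rw [h4]
  exact h3

end IVV

open IVV

theorem pr_VV : StVV := by
  intro m N a Ψ ΨA ΨB hΨ hA hB
  have hC := contDiff_VV m N a hΨ hA hB
  refine ⟨hC, fun r hr θ => ⟨VV_pc m N a Ψ ΨA ΨB r θ, ?_, ?_⟩⟩
  · unfold vr
    have hd : HasFDerivAt (VV m N a Ψ ΨA ΨB) (fderiv ℝ (VV m N a Ψ ΨA ΨB) (pc r θ)) (pc r θ) :=
      (hC.differentiable (by norm_num) _).hasFDerivAt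
    have h1 := hd.comp_hasDerivAt r (IDen.pc_r r θ)
    have h2 := ((radf_diff (m : ℤ) hΨ r).ofReal_comp.mul_const (ex m θ)).add
      (lin_r m N a (fun n => radf ((m : ℤ) + n) (ΨA n)) (fun n => radf ((m : ℤ) - n) (ΨB n))
        (fun n => deriv (radf ((m : ℤ) + n) (ΨA n)) r) (fun n => deriv (radf ((m : ℤ) - n) (ΨB n)) r)
        r θ (fun n => radf_diff _ (hA n) r) (fun n => radf_diff _ (hB n) r))
    have h3 : (VV m N a Ψ ΨA ΨB ∘ fun s : ℝ => pc s θ) =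
        fun s : ℝ => ((radf m Ψ s : ℝ) : ℂ) * ex m θ
          + lin m N a (fun n => radf ((m : ℤ) + n) (ΨA n) s)
            (fun n => radf ((m : ℤ) - n) (ΨB n) s) θ := by
      funext s
      exact VV_pc m N a Ψ ΨA ΨB s θ
    rw [h3] at h1
    exact h1.unique h2
  · unfold vth
    have hd : HasFDerivAt (VV m N a Ψ ΨA ΨB) (fderiv ℝ (VV m N a Ψ ΨA ΨB) (pc r θ)) (pc r θ) :=
      (hC.differentiable (by norm_num) _).hasFDerivAt
    have h1 := hd.comp_hasDerivAt θ (IDen.pc_t r θ)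
    have h2 := ((ex_t (m : ℤ) θ).const_mul ((radf m Ψ r : ℝ) : ℂ)).add
      (lin_t m N a (fun n => radf ((m : ℤ) + n) (ΨA n) r) (fun n => radf ((m : ℤ) - n) (ΨB n) r) θ)
    have h3 : (VV m N a Ψ ΨA ΨB ∘ fun s : ℝ => pc r s) =
        fun s : ℝ => ((radf m Ψ r : ℝ) : ℂ) * ex m s
          + lin m N a (fun n => radf ((m : ℤ) + n) (ΨA n) r)
            (fun n => radf ((m : ℤ) - n) (ΨB n) r) s := by
      funext s
      exact VV_pc m N a Ψ ΨA ΨB r s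
    rw [h3] at h1
    have h4 := h1.unique h2
    have h5 : fderiv ℝ (VV m N a Ψ ΨA ΨB) (pc r θ)
        ((r : ℂ) * (Complex.I * Complex.exp (Complex.I * θ))) =
        (r : ℂ) * fderiv ℝ (VV m N a Ψ ΨA ΨB) (pc r θ)
          (Complex.I * Complex.exp (Complex.I * θ)) := by
      rw [← Complex.real_smul, map_smul, Complex.real_smul]
    rw [h5] at h4
    have hr' : (r : ℂ) ≠ 0 := by exact_mod_cast hr.1.ne'
    apply mul_left_cancel₀ hr'
    rw [h4]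
    have h6 : lin m N a (fun n => ((m : ℝ) + n) / r * radf ((m : ℤ) + n) (ΨA n) r)
          (fun n => ((m : ℝ) - n) / r * radf ((m : ℤ) - n) (ΨB n) r) θ =
        (r : ℂ)⁻¹ * lin m N a (fun n => ((m : ℝ) + n) * radf ((m : ℤ) + n) (ΨA n) r)
          (fun n => ((m : ℝ) - n) * radf ((m : ℤ) - n) (ΨB n) r) θ := by
      unfold lin
      rw [Finset.mul_sum]
      refine Finset.sum_congr rfl fun n _ => ?_
      push_cast
      field_simp
    rw [h6]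
    push_cast
    field_simp

end Pool.Agent.MFK.CD
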