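import Pool.Agent.Work.MP_8826fd_mp.CD.I_Par

/-!
# MP_8826fd_mp, block CD: item Vir
-/

set_option autoImplicit false

namespace Pool.Agent.MFK.CD

open MeasureTheory Set Filter Topology Pool.Agent.MFK.NF

namespace IVir

theorem mg0 (B lam : ℝ) (m : ℕ) : (m : ℝ) * gk B lam m 0 = 0 := by
  rcases Nat.eq_zero_or_pos m with h | h
  · rw [h]; simp
  · have h2 : gk B lam m 0 = 0 := by
      unfold gk radf
      simp [h.ne']
    rw [h2, mul_zero]

theorem bd {B lam : ℝ} (hB : 0 < B) (hl : lam < B) (m : ℕ) : ∃ K : ℝ, Bdd K m (gk B lam m) := by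
  obtain ⟨K, -, hK⟩ := gk_bdd hB hl m
  refine ⟨K, fun r hr => ?_⟩
  obtain ⟨h1, h2, h3⟩ := hK r ⟨hr.1.le, hr.2.le⟩
  refine ⟨h1, h2, ?_⟩
  have h4 := h3 hr.1
  push_cast
  exact h4

/-- derivative of `(r g')² - ((m - B r²/2)² - lam r²) g²` -/
theorem der {B lam : ℝ} (hB : 0 < B) (hl : lam < B) (m : ℕ) {r : ℝ} (hr : 0 < r) :
    HasDerivAt (fun t => (t * deriv (gk B lam m) t) ^ 2
      - ((m - B * t ^ 2 / 2) ^ 2 - lam * t ^ 2) * gk B lam m t ^ 2)
      (2 * r * (B * (m - B * r ^ 2 / 2) + lam) * gk B lam m r ^ 2) r := by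
  have h1 := (gk_ode hB hl m hr).fun_pow 2
  have h2 := (gk_d1 hB hl m r).fun_pow 2
  have h3 : HasDerivAt (fun t : ℝ => ((m : ℝ) - B * t ^ 2 / 2) ^ 2 - lam * t ^ 2)
      (2 * ((m : ℝ) - B * r ^ 2 / 2) * (-(B * r)) - lam * (2 * r)) r := by
    have a1 : HasDerivAt (fun t : ℝ => t ^ 2) (2 * r) r := by
      simpa using hasDerivAt_pow 2 r
    have a2 : HasDerivAt (fun t : ℝ => (m : ℝ) - B * t ^ 2 / 2) (-(B * r)) r :=
      (((a1.const_mul B).div_const 2).const_sub (m : ℝ)).congr_deriv (by ring)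
    exact ((a2.fun_pow 2).fun_sub (a1.const_mul lam)).congr_deriv (by push_cast; ring)
  refine (h1.fun_sub (h3.fun_mul h2)).congr_deriv ?_
  push_cast
  field_simp
  ring

end IVir

theorem pr_Vir : StVir := by
  intro B lam m hSp
  have hB := hSp.hB
  have hl := hSp.lam_lt
  constructor
  · have hc : ContinuousOn (fun t : ℝ => (t * deriv (gk B lam m) t) ^ 2
        - ((m - B * t ^ 2 / 2) ^ 2 - lam * t ^ 2) * gk B lam m t ^ 2) (Icc 0 1) := by
      have e1 := gk_cont hB hl m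
      have e2 := gk_dcont hB hl m
      exact Continuous.continuousOn (by fun_prop)
    have hi : IntervalIntegrable
        (fun r : ℝ => 2 * r * (B * (m - B * r ^ 2 / 2) + lam) * gk B lam m r ^ 2) volume 0 1 := by
      have e1 := gk_cont hB hl m
      exact Continuous.intervalIntegrable (by fun_prop) 0 1
    rw [intervalIntegral.integral_eq_sub_of_hasDerivAt_of_le zero_le_one hc
      (fun r hr => IVir.der hB hl m hr.1) hi]
    rw [hSp.zero]
    have h0 := IVir.mg0 B lam m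
    have h1 : ((m : ℝ) * gk B lam m 0) ^ 2 = 0 := by rw [h0]; norm_num
    simp only [one_pow, mul_one, mul_zero, ne_eq, OfNat.ofNat_ne_zero, not_false_eq_true, zero_pow,
      zero_mul, zero_div, sub_zero, zero_sub]
    nlinarith [h1]
  · obtain ⟨K, hK⟩ := IVir.bd hB hl m
    have h := (IPar.parA B lam K m (gk B lam m) (fun _ => 0) continuous_const (fun r hr => ?_) hK).2
    · rw [h, hSp.zero]
      simp
    · refine ⟨gk_d1 hB hl m r, (gk_ode hB hl m hr).congr_deriv ?_⟩
      unfold qn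
      push_cast
      ring

end Pool.Agent.MFK.CD
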