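import Pool.Agent.Work.MP_8826fd_mp.CD.StmtsU

/-!
# MP_8826fd_mp, block CD, item Bk: explicit bounds for the regular radial solutions
-/

set_option autoImplicit false

namespace Pool.Agent.MFK.CD

open MeasureTheory Set Filter Topology Pool.Agent.MFK.NF

namespace IBk

theorem An_mem {B lam : ℝ} (l : ℤ) (hB : 0 < B) (h0 : 0 ≤ lam) (hl : lam < B) :
    0 ≤ An B lam l ∧ An B lam l ≤ (l.natAbs : ℝ) + 1 := by
  have h1 : 0 ≤ lam / (2 * B) := by positivity
  have h2 : lam / (2 * B) ≤ 1 / 2 := by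
    rw [div_le_div_iff₀ (by positivity) (by norm_num)]
    linarith
  have h3 : (0 : ℝ) ≤ (l.natAbs : ℝ) := Nat.cast_nonneg _
  unfold An
  split_ifs
  · constructor <;> linarith
  · constructor <;> linarith

theorem phi_zero (A b : ℝ) : Phi A b 0 = 1 := by
  unfold Phi
  rw [tsum_eq_single 0 (fun k hk => by rw [zero_pow hk, mul_zero])]
  simp [kc]

/-- `Phi ≤ e^z` -/
theorem phi_up {A b : ℝ} (hA : 0 ≤ A) (hAb : A ≤ b) (hb : 0 < b) {z : ℝ} (hz : 0 ≤ z) : Phi A b z ≤ Real.exp z := by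
  have hd : ∀ z : ℝ, HasDerivAt (fun z => Real.exp (-z) * Phi A b z)
      (Real.exp (-z) * (Phi1 A b z - Phi A b z)) z := by
    intro z
    have h1 : HasDerivAt (fun z : ℝ => -z) (-1) z := (hasDerivAt_id z).neg
    have h2 := h1.exp.mul (Asm.kDer' A b z hb)
    refine h2.congr_deriv ?_
    ring
  have hanti : AntitoneOn (fun z => Real.exp (-z) * Phi A b z) (Ici 0) := by
    refine antitoneOn_of_deriv_nonpos (convex_Ici 0) (fun z _ => (hd z).continuousAt.continuousWithinAt)
      (fun z _ => (hd z).differentiableAt.differentiableWithinAt) fun z hz => ?_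
    rw [interior_Ici] at hz
    rw [(hd z).deriv]
    have h1 := (Asm.kBd A b z hA hAb hb (le_of_lt hz)).2
    have h2 := Real.exp_pos (-z)
    nlinarith
  have h1 := hanti (self_mem_Ici) (show z ∈ Ici (0 : ℝ) from hz) hz
  simp only [phi_zero, neg_zero, Real.exp_zero, mul_one] at h1
  have h2 : Real.exp z * (Real.exp (-z) * Phi A b z) ≤ Real.exp z * 1 :=
    mul_le_mul_of_nonneg_left h1 (Real.exp_pos _).le
  rw [← mul_assoc, ← Real.exp_add, add_neg_cancel, Real.exp_zero, one_mul, mul_one] at h2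
  exact h2

theorem fk_der (B lam : ℝ) (l : ℤ) (s : ℝ) : HasDerivAt (FK B lam l)
    (Real.exp (-(B * s / 4)) * (-(B / 4) * Phi (An B lam l) (l.natAbs + 1) (B * s / 2)
      + B / 2 * Phi1 (An B lam l) (l.natAbs + 1) (B * s / 2))) s := by
  have hb : (0 : ℝ) < (l.natAbs : ℝ) + 1 := by positivity
  have h1 : HasDerivAt (fun s : ℝ => -(B * s / 4)) (-(B / 4)) s := by
    have := (((hasDerivAt_id s).const_mul B).div_const 4).fun_neg
    simpa using this
  have h2 : HasDerivAt (fun s : ℝ => B * s / 2) (B / 2) s := by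
    have := ((hasDerivAt_id s).const_mul B).div_const 2
    simpa using this
  have h3 := (Asm.kDer' (An B lam l) ((l.natAbs : ℝ) + 1) (B * s / 2) hb).comp s h2
  have h4 := h1.exp.mul h3
  refine h4.congr_deriv ?_
  simp only [Function.comp]
  ring

end IBk

open IBk in
theorem pr_Bk : StBk := by
  intro B lam l hB h0 hl
  obtain ⟨hA0, hA1⟩ := An_mem l hB h0 hl
  have hb : (0 : ℝ) < (l.natAbs : ℝ) + 1 := by positivity
  have hn : |(l : ℝ)| = (l.natAbs : ℝ) := by
    rw [← Int.cast_abs, Int.abs_eq_natAbs, Int.cast_natCast]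
  have hE : Real.exp (B / 4) ≤ Real.exp (B / 2) := Real.exp_le_exp.2 (by linarith)
  have hE1 : 1 ≤ Real.exp (B / 4) := Real.one_le_exp (by positivity)
  -- bounds of `FK`
  have hphi : ∀ s ∈ Icc (0 : ℝ) 1, 1 ≤ Phi (An B lam l) (l.natAbs + 1) (B * s / 2) ∧
      Real.exp (-(B * s / 4)) * Phi (An B lam l) (l.natAbs + 1) (B * s / 2) ≤ Real.exp (B / 4) ∧
      0 ≤ Phi1 (An B lam l) (l.natAbs + 1) (B * s / 2) ∧
      Phi1 (An B lam l) (l.natAbs + 1) (B * s / 2) ≤ Phi (An B lam l) (l.natAbs + 1) (B * s / 2) := by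
    intro s hs
    have hz : 0 ≤ B * s / 2 := by
      have := hs.1
      positivity
    have h1 := Asm.kPos _ _ (B * s / 2) hA0 hb hz
    have h2 := phi_up hA0 hA1 hb hz
    refine ⟨h1.1, ?_, h1.2, (Asm.kBd _ _ _ hA0 hA1 hb hz).2⟩
    calc Real.exp (-(B * s / 4)) * Phi (An B lam l) (l.natAbs + 1) (B * s / 2)
        ≤ Real.exp (-(B * s / 4)) * Real.exp (B * s / 2) := mul_le_mul_of_nonneg_left h2 (Real.exp_pos _).le
      _ = Real.exp (B * s / 4) := by rw [← Real.exp_add]; congr 1; ring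
      _ ≤ Real.exp (B / 4) := Real.exp_le_exp.2 (by nlinarith [hs.2])
  have hF : ∀ s ∈ Icc (0 : ℝ) 1, |FK B lam l s| ≤ Real.exp (B / 4) := by
    intro s hs
    obtain ⟨h1, h2, -, -⟩ := hphi s hs
    have h3 : 0 ≤ FK B lam l s := mul_nonneg (Real.exp_pos _).le (by linarith)
    rw [abs_of_nonneg h3]
    exact h2
  have hF' : ∀ s ∈ Icc (0 : ℝ) 1, |deriv (FK B lam l) s| ≤ B * Real.exp (B / 4) := by
    intro s hs
    obtain ⟨h1, h2, h3, h4⟩ := hphi s hs
    rw [(fk_der B lam l s).deriv, abs_le]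
    set E := Real.exp (-(B * s / 4)) with hEdef
    have hE0 : 0 < E := Real.exp_pos _
    set p := Phi (An B lam l) (l.natAbs + 1) (B * s / 2)
    set p1 := Phi1 (An B lam l) (l.natAbs + 1) (B * s / 2)
    have h5 : E * (-(B / 4) * p + B / 2 * p1) = -(B / 4) * (E * p) + B / 2 * (E * p1) := by ring
    have h6 : 0 ≤ E * p1 := mul_nonneg hE0.le h3
    have h7 : E * p1 ≤ E * p := mul_le_mul_of_nonneg_left h4 hE0.le
    have h8 : 0 ≤ E * p := mul_nonneg hE0.le (by linarith)
    rw [h5]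
    constructor
    · nlinarith
    · nlinarith
  refine ⟨fun r hr => ?_, ?_⟩
  · have hr2 : r ^ 2 ∈ Icc (0 : ℝ) 1 := ⟨by positivity, pow_le_one₀ hr.1.le hr.2.le⟩
    have hFr := hF _ hr2
    have hFr' := hF' _ hr2
    have hr0 := hr.1
    have hpow : ∀ k : ℕ, |r ^ k| ≤ 1 := by
      intro k
      rw [abs_of_nonneg (pow_nonneg hr0.le _)]
      exact pow_le_one₀ hr0.le hr.2.le
    have hk0 : (0 : ℝ) ≤ (l.natAbs : ℝ) := Nat.cast_nonneg _
    have hE0 : 0 < Real.exp (B / 4) := Real.exp_pos _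
    have hC : ∀ x : ℝ, x ≤ ((l.natAbs : ℝ) + 2 * B + 1) * Real.exp (B / 4) →
        x ≤ (|(l : ℝ)| + 2 * B + 1) * Real.exp (B / 2) := by
      intro x hx
      rw [hn]
      exact hx.trans (mul_le_mul_of_nonneg_left hE (by positivity))
    refine ⟨hC _ ?_, hC _ ?_, hC _ ?_⟩
    · unfold radf
      rw [abs_mul]
      have := mul_le_mul (hpow l.natAbs) hFr (abs_nonneg _) zero_le_one
      nlinarith
    · have hd : HasDerivAt (radf l (FK B lam l))
          ((l.natAbs : ℝ) * r ^ (l.natAbs - 1) * FK B lam l (r ^ 2) + r ^ l.natAbs * (deriv (FK B lam l) (r ^ 2) * (2 * r))) r := by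
        have h1 := hasDerivAt_pow l.natAbs r
        have h2 : HasDerivAt (fun r : ℝ => r ^ 2) (2 * r) r := by
          have := hasDerivAt_pow 2 r
          simpa using this
        have h3 : HasDerivAt (fun r : ℝ => FK B lam l (r ^ 2)) (deriv (FK B lam l) (r ^ 2) * (2 * r)) r :=
          HasDerivAt.comp (h := fun r : ℝ => r ^ 2) (h₂ := FK B lam l) r
            (fk_der B lam l (r ^ 2)).differentiableAt.hasDerivAt h2
        exact h1.mul h3
      rw [hd.deriv]
      refine (abs_add_le _ _).trans ?_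
      have e1 : |(l.natAbs : ℝ) * r ^ (l.natAbs - 1) * FK B lam l (r ^ 2)| ≤ (l.natAbs : ℝ) * Real.exp (B / 4) := by
        rw [abs_mul, abs_mul, abs_of_nonneg hk0]
        have h1 : (l.natAbs : ℝ) * |r ^ (l.natAbs - 1)| ≤ (l.natAbs : ℝ) := mul_le_of_le_one_right hk0 (hpow _)
        exact mul_le_mul h1 hFr (abs_nonneg _) hk0
      have e2 : |r ^ l.natAbs * (deriv (FK B lam l) (r ^ 2) * (2 * r))| ≤ 2 * B * Real.exp (B / 4) := by
        rw [abs_mul, abs_mul, abs_of_pos (by linarith : (0 : ℝ) < 2 * r)]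
        have h1 : |deriv (FK B lam l) (r ^ 2)| * (2 * r) ≤ B * Real.exp (B / 4) * 2 :=
          mul_le_mul hFr' (by linarith [hr.2]) (by linarith) (by positivity)
        have h2 := mul_le_mul (hpow l.natAbs) h1 (by positivity) zero_le_one
        linarith
      nlinarith
    · unfold radf
      have e1 : |(l : ℝ) / r * (r ^ l.natAbs * FK B lam l (r ^ 2))| ≤ (l.natAbs : ℝ) * Real.exp (B / 4) := by
        rcases Nat.eq_zero_or_pos l.natAbs with hk | hk
        · have hl0 : l = 0 := Int.natAbs_eq_zero.1 hk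
          rw [hl0]
          simp
        · obtain ⟨k, hk'⟩ : ∃ k, l.natAbs = k + 1 := ⟨l.natAbs - 1, by omega⟩
          have e : (l : ℝ) / r * (r ^ l.natAbs * FK B lam l (r ^ 2)) = (l : ℝ) * (r ^ k * FK B lam l (r ^ 2)) := by
            rw [hk', pow_succ]
            field_simp
          rw [e, abs_mul, abs_mul, hn]
          refine mul_le_mul_of_nonneg_left ?_ hk0
          have := mul_le_mul (hpow k) hFr (abs_nonneg _) zero_le_one
          linarith
      nlinarith
  · obtain ⟨h1, -, -, -⟩ := hphi 1 ⟨zero_le_one, le_rfl⟩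
    unfold FK
    have e : B * 1 / 4 = B / 4 := by ring
    rw [e]
    exact le_mul_of_one_le_right (Real.exp_pos _).le h1

end Pool.Agent.MFK.CD
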