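import Pool.Agent.Work.MP_8826fd_mp.CD.I_TTu
import Pool.Agent.Work.MP_8826fd_mp.CD.I_Bk

set_option autoImplicit false

namespace Pool.Agent.MFK.CD

open MeasureTheory Set Filter Topology Pool.Agent.MFK.NF

/-- the item TTn from the uniform items TTu and Bk -/
theorem ttn_of (h1 : StTTu) (h2 : StBk) : StTTn := by
  intro B lam m S
  have hB := S.hB
  have hb := (h2 B lam (m : ℤ) hB S.lam_pos.le S.lam_lt).1
  set K := (|((m : ℤ) : ℝ)| + 2 * B + 1) * Real.exp (B / 2) with hK
  have hK0 : 0 < K := by positivity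
  have hg := gk_pos hB S.lam_lt m one_pos
  have hp := S.hp
  obtain ⟨N, κ, hκ, h⟩ := h1 (K + B) ((B / 2 - m) ^ 2 * gk B lam m 1 ^ 2) (by positivity) (by positivity)
  exact ⟨N, κ, hκ, fun n hn => h B lam m S (by linarith) (ICore.Bdd.mono hb (by linarith)) le_rfl n hn⟩

end Pool.Agent.MFK.CD
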