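import Pool.Agent.Work.MP_8826fd_mp.CD.Core
import Pool.Agent.Work.MP_8826fd_mp.CD.I_Max
import Pool.Agent.Work.MP_8826fd_mp.CD.I_C1p
import Pool.Agent.Work.MP_8826fd_mp.CD.I_Sch
import Pool.Agent.Work.MP_8826fd_mp.CD.I_Mob
import Pool.Agent.Work.MP_8826fd_mp.CD.I_A2
import Pool.Agent.Work.MP_8826fd_mp.CD.I_PC2
import Pool.Agent.Work.MP_8826fd_mp.CD.I_Area2
import Pool.Agent.Work.MP_8826fd_mp.CD.I_CMx
import Pool.Agent.Work.MP_8826fd_mp.CD.I_Den2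
import Pool.Agent.Work.MP_8826fd_mp.CD.I_Lam
import Pool.Agent.Work.MP_8826fd_mp.CD.I_Ser
import Pool.Agent.Work.MP_8826fd_mp.CD.I_FK
import Pool.Agent.Work.MP_8826fd_mp.CD.I_Q1
import Pool.Agent.Work.MP_8826fd_mp.CD.I_BI
import Pool.Agent.Work.MP_8826fd_mp.CD.I_Split
import Pool.Agent.Work.MP_8826fd_mp.CD.I_Pt
import Pool.Agent.Work.MP_8826fd_mp.CD.I_VV
import Pool.Agent.Work.MP_8826fd_mp.CD.I_Ang
import Pool.Agent.Work.MP_8826fd_mp.CD.I_Mn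
import Pool.Agent.Work.MP_8826fd_mp.CD.I_MI
import Pool.Agent.Work.MP_8826fd_mp.CD.I_FF
import Pool.Agent.Work.MP_8826fd_mp.CD.I_Vir
import Pool.Agent.Work.MP_8826fd_mp.CD.T2
import Pool.Agent.Work.MP_8826fd_mp.CD.I_OA
import Pool.Agent.Work.MP_8826fd_mp.CD.I_Par
import Pool.Agent.Work.MP_8826fd_mp.CD.I_Key
import Pool.Agent.Work.MP_8826fd_mp.CD.I_Sp2
import Pool.Agent.Work.MP_8826fd_mp.CD.I_One
import Pool.Agent.Work.MP_8826fd_mp.CD.I_Dft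
import Pool.Agent.Work.MP_8826fd_mp.CD.I_Fin
import Pool.Agent.Work.MP_8826fd_mp.AL.A0
import Pool.Agent.Work.MP_8826fd_mp.AL.A
import Pool.Agent.Work.MP_8826fd_mp.AL.CB
import Pool.Agent.Work.MP_8826fd_mp.AL.D

/-!
# MP_8826fd_mp, block CD: the main theorem
-/

set_option autoImplicit false

namespace Pool.Agent.MFK.CD

theorem hAL : StAL := AL0.stAL_of (fun p M lam m al be F hm k hk =>
  AL.mode_ge_three_of AL.stC AL.stB AL.stA0 AL.stA AL.stD AL.stD23 F hm k hk)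

theorem hArea2 : StArea2 := pr_Area2 pr_PC2
theorem hCMx : StCMx := pr_CMx pr_Max pr_C1p pr_Sch pr_Mob pr_A2 hArea2
theorem hLam : StLam := pr_Lam pr_Den2 pr_PC2
theorem hSer : StSer := pr_Ser
theorem hFK : StFK := pr_FK hSer
theorem hBI : StBI := pr_BI hSer hFK pr_Q1
theorem hSplit : StSplit := pr_Split hSer hFK hBI
theorem hMn : StMn := pr_Mn hSer hFK pr_Pt pr_VV pr_Ang
theorem hMI : StMI := pr_MI hSer hBI
theorem hFF : StFF := pr_FF hSer hBI hSplit pr_VV hMn hMI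
theorem hKey : StKey := pr_Key pr_Vir pr_OA
theorem hOne : StOne := pr_One hAL pr_Vir (ttn_of (pr_TTu pr_Vir) pr_Bk) pr_OA pr_Par hKey pr_Sp2
theorem hCore : StCore := pr_Core hCMx hLam hSer hSplit hFF pr_VV pr_Dft
theorem hMU : StMU := pr_MU hCore pr_Vir hOne
theorem hFin : StFin := pr_Fin hMU

end Pool.Agent.MFK.CD
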