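import Pool.Agent.Work.MP_8826fd_mp.CD.StmtsU

/-!
# MP_8826fd_mp, block CD, item DJ: joint continuity of the Dirichlet to Neumann numbers
-/

set_option autoImplicit false

namespace Pool.Agent.MFK.CD

open MeasureTheory Set Filter Topology Pool.Agent.MFK.NF

namespace IDJ

/-- the explicit formula -/
noncomputable def G (l : ℤ) (p : ℝ × ℝ) : ℝ :=
  (l.natAbs : ℝ) - p.1 / 2 + p.1 * (Phi1 (An p.1 p.2 l) (l.natAbs + 1) (p.1 / 2) /
    Phi (An p.1 p.2 l) (l.natAbs + 1) (p.1 / 2))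

lemma An_cont (l : ℤ) {p : ℝ × ℝ} (hp : 0 < p.1) :
    ContinuousAt (fun q : ℝ × ℝ => An q.1 q.2 l) p := by
  unfold An
  have h1 : ContinuousAt (fun q : ℝ × ℝ => q.2 / (2 * q.1)) p :=
    continuousAt_snd.div (continuousAt_const.mul continuousAt_fst)
      (mul_ne_zero two_ne_zero hp.ne')
  exact (continuousAt_const.sub h1).add continuousAt_const

lemma An_nonneg (B lam : ℝ) (l : ℤ) (hB : 0 < B) (hl : lam < B) : 0 ≤ An B lam l := by
  unfold An
  have h1 : lam / (2 * B) ≤ 1 / 2 := by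
    rw [div_le_iff₀ (by positivity)]
    linarith
  have h2 : (0 : ℝ) ≤ (if l < 0 then (l.natAbs : ℝ) else 0) := by
    split_ifs
    · positivity
    · exact le_refl 0
  linarith

lemma G_cont (h : StPJ) (l : ℤ) {p : ℝ × ℝ} (hp : 0 < p.1) (hp2 : p.2 < p.1) :
    ContinuousAt (G l) p := by
  have hA := An_cont l hp
  have hz : ContinuousAt (fun q : ℝ × ℝ => q.1 / 2) p := continuousAt_fst.div_const 2
  have hb1 : (0 : ℝ) < (l.natAbs : ℝ) + 1 := by positivity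
  have hb2 : (0 : ℝ) < (l.natAbs : ℝ) + 1 + 1 := by positivity
  have h1 : ContinuousAt (fun q : ℝ × ℝ => Phi (An q.1 q.2 l) (l.natAbs + 1) (q.1 / 2)) p :=
    ContinuousAt.comp (f := fun q : ℝ × ℝ => ((An q.1 q.2 l, q.1 / 2) : ℝ × ℝ))
      (g := fun q : ℝ × ℝ => Phi q.1 (l.natAbs + 1) q.2) (h _ hb1).continuousAt (hA.prodMk hz)
  have h2 : ContinuousAt (fun q : ℝ × ℝ => Phi (An q.1 q.2 l + 1) (l.natAbs + 1 + 1) (q.1 / 2)) p :=
    ContinuousAt.comp (f := fun q : ℝ × ℝ => ((An q.1 q.2 l + 1, q.1 / 2) : ℝ × ℝ))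
      (g := fun q : ℝ × ℝ => Phi q.1 (l.natAbs + 1 + 1) q.2) (h _ hb2).continuousAt
      ((hA.add continuousAt_const).prodMk hz)
  have h3 : ContinuousAt (fun q : ℝ × ℝ => Phi1 (An q.1 q.2 l) (l.natAbs + 1) (q.1 / 2)) p := by
    unfold Phi1
    exact (hA.div_const _).mul h2
  have h4 : Phi (An p.1 p.2 l) (l.natAbs + 1) (p.1 / 2) ≠ 0 := by
    have := (Asm.kPos (An p.1 p.2 l) ((l.natAbs : ℝ) + 1) (p.1 / 2) (An_nonneg _ _ _ hp hp2) hb1
      (by positivity)).1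
    linarith
  unfold G
  exact (continuousAt_const.sub hz).add (continuousAt_fst.mul (h3.div h1 h4))

end IDJ

open IDJ

theorem pr_DJ (h : StPJ) : StDJ := by
  intro B₀ lam₀ l hB hl
  have hG : ContinuousAt (G l) (B₀, lam₀) := G_cont h l (p := (B₀, lam₀)) hB hl
  refine hG.congr ?_
  have h1 : ∀ᶠ p : ℝ × ℝ in 𝓝 (B₀, lam₀), 0 < p.1 :=
    continuousAt_fst.eventually (lt_mem_nhds hB)
  have h2 : ∀ᶠ p : ℝ × ℝ in 𝓝 (B₀, lam₀), 0 < p.1 - p.2 := by
    have hc : ContinuousAt (fun p : ℝ × ℝ => p.1 - p.2) (B₀, lam₀) :=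
      continuousAt_fst.sub continuousAt_snd
    exact hc.eventually (lt_mem_nhds (show (0 : ℝ) < B₀ - lam₀ by linarith))
  filter_upwards [h1, h2] with p hp1 hp2
  have := (Asm.rVal' p.1 p.2 l hp1).2 (by linarith)
  unfold G
  exact this.symm

end Pool.Agent.MFK.CD
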