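import Pool.Agent.Work.MP_8826fd_mp.CD.StmtsU

/-! # [8826fd CD] item Lc: continuity of the disc energy in the field -/

set_option autoImplicit false

namespace Pool.Agent.MFK.CD

open MeasureTheory Set Filter Topology Pool.Agent.MFK.NF

namespace ILc

theorem lamN_nonneg (B : ℝ) (Ω : Set (ℝ × ℝ)) : 0 ≤ lamN B Ω := by
  apply Real.sInf_nonneg
  rintro q ⟨u, -, -, -, -, rfl⟩
  apply integral_nonneg
  intro x
  show 0 ≤ eden B u x
  unfold eden
  positivity

end ILc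

theorem pr_Lc (h : RT.StLip) : StLc := by
  intro B₀ e hB₀ he
  have hL : 0 ≤ lamN B₀ disc := ILc.lamN_nonneg B₀ disc
  set L := lamN B₀ disc with hLdef
  obtain ⟨t, ht0, ht1, htL⟩ : ∃ t : ℝ, 0 < t ∧ t ≤ 1 ∧ t * L ≤ e / 8 := by
    refine ⟨min 1 (e / (8 * (L + 1))), by positivity, min_le_left _ _, ?_⟩
    have h1 : min 1 (e / (8 * (L + 1))) * L ≤ e / (8 * (L + 1)) * L :=
      mul_le_mul_of_nonneg_right (min_le_right _ _) hL
    have h2 : e / (8 * (L + 1)) * L ≤ e / 8 := by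
      rw [div_mul_eq_mul_div, div_le_div_iff₀ (by positivity) (by positivity)]
      nlinarith
    exact h1.trans h2
  have hs : (0 : ℝ) < 1 + 1 / t := by positivity
  refine ⟨min 1 (e / (1 + 1 / t)), by positivity, fun B hB hd => ?_⟩
  have hd1 : |B - B₀| < 1 := hd.trans_le (min_le_left _ _)
  have hd2 : |B - B₀| < e / (1 + 1 / t) := hd.trans_le (min_le_right _ _)
  have hX : (1 + 1 / t) * (B - B₀) ^ 2 ≤ e := by
    have h3 : (B - B₀) ^ 2 ≤ |B - B₀| := by
      rw [← sq_abs]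
      nlinarith [abs_nonneg (B - B₀)]
    have h4 : (B - B₀) ^ 2 ≤ e / (1 + 1 / t) := h3.trans hd2.le
    rw [le_div_iff₀ hs] at h4
    linarith
  have a1 := (h B₀ B t ht0).1
  have a2 := (h B B₀ t ht0).1
  rw [← hLdef] at a1 a2
  have hX' : (1 + 1 / t) * (B₀ - B) ^ 2 / 4 ≤ e / 4 := by
    have : (B₀ - B) ^ 2 = (B - B₀) ^ 2 := by ring
    rw [this]
    linarith
  have hX2 : (1 + 1 / t) * (B - B₀) ^ 2 / 4 ≤ e / 4 := by linarith
  have hX0 : 0 ≤ (1 + 1 / t) * (B - B₀) ^ 2 / 4 := by positivity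
  have hB' : 0 ≤ lamN B disc := ILc.lamN_nonneg B disc
  set M := lamN B disc
  rw [abs_sub_lt_iff]
  constructor
  · linarith
  · -- `L ≤ (1 + t) M + X`, `M ≤ (1 + t) L + X`
    have h5 : M ≤ L + e / 8 + e / 4 := by linarith
    have h6 : t * M ≤ t * L + t * (e / 8 + e / 4) := by nlinarith
    have h7 : t * (e / 8 + e / 4) ≤ 1 * (e / 8 + e / 4) :=
      mul_le_mul_of_nonneg_right ht1 (by positivity)
    linarith

end Pool.Agent.MFK.CD
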