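import Pool.Agent.Work.MP_8826fd_mp.CD.StmtsU

/-!
# MP_8826fd_mp, block CD, item Neg: uniform negativity of the forms
-/

set_option autoImplicit false

namespace Pool.Agent.MFK.CD

open MeasureTheory Set Filter Topology Pool.Agent.MFK.NF

namespace INeg

/-- the form -/
noncomputable def fm (B lam : ℝ) (m n : ℕ) (x y : ℝ) : ℝ :=
  2 * (B / 2 - m) * (B / 2 + m)
      + 2 * y * ((B / 2 - m) ^ 2 - lam - n * (B / 2 - m)) + 2 * x * ((B / 2 - m) ^ 2 - lam + n * (B / 2 - m))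
      + y ^ 2 * dtn (fun k => FK B lam k) ((m : ℤ) + n) + x ^ 2 * dtn (fun k => FK B lam k) ((m : ℤ) - n)

theorem exists_pos_le {ι : Type} (s : Finset ι) (f : ι → ℝ) (hf : ∀ i ∈ s, 0 < f i) :
    ∃ c : ℝ, 0 < c ∧ ∀ i ∈ s, c ≤ f i := by
  classical
  induction s using Finset.induction_on with
  | empty => exact ⟨1, one_pos, fun i hi => absurd hi (Finset.notMem_empty i)⟩
  | insert a t ha ih =>
    obtain ⟨c, hc, h⟩ := ih (fun i hi => hf i (Finset.mem_insert_of_mem hi))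
    refine ⟨min c (f a), lt_min hc (hf a (Finset.mem_insert_self a t)), fun i hi => ?_⟩
    rcases Finset.mem_insert.1 hi with h1 | h1
    · rw [h1]; exact min_le_right _ _
    · exact (min_le_left _ _).trans (h i h1)

theorem exists_ge {ι : Type} (s : Finset ι) (f : ι → ℝ) :
    ∃ c : ℝ, 0 < c ∧ ∀ i ∈ s, f i ≤ c := by
  classical
  induction s using Finset.induction_on with
  | empty => exact ⟨1, one_pos, fun i hi => absurd hi (Finset.notMem_empty i)⟩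
  | insert a t ha ih =>
    obtain ⟨c, hc, h⟩ := ih
    refine ⟨max c (f a), lt_max_of_lt_left hc, fun i hi => ?_⟩
    rcases Finset.mem_insert.1 hi with h1 | h1
    · rw [h1]; exact le_max_right _ _
    · exact (h i h1).trans (le_max_left _ _)

theorem lam_eq (h4 : RT.StUd) {B lam : ℝ} {m : ℕ} (h : Sp B lam m) : lam = lamN B disc :=
  le_antisymm h.lb (h4 B lam m h.hB h.lam_lt h.zero).1

theorem tend (h3 : StLc) {B₀ : ℝ} (hB₀ : 0 < B₀) :
    Tendsto (fun B => lamN B disc) (𝓝 B₀) (𝓝 (lamN B₀ disc)) := by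
  rw [Metric.tendsto_nhds]
  intro e he
  obtain ⟨η, hη, h⟩ := h3 B₀ e hB₀ he
  filter_upwards [lt_mem_nhds hB₀, Metric.ball_mem_nhds B₀ hη] with B h1 h2
  rw [Real.dist_eq]
  exact h B h1 (by rw [← Real.dist_eq]; exact h2)

theorem comp_gen (G : ℝ → ℝ → ℝ) (L : ℝ → ℝ) (B₀ : ℝ)
    (hG : ContinuousAt (fun p : ℝ × ℝ => G p.1 p.2) (B₀, L B₀))
    (hL : Tendsto L (𝓝 B₀) (𝓝 (L B₀))) :
    Tendsto (fun B => G B (L B)) (𝓝 B₀) (𝓝 (G B₀ (L B₀))) := by
  have h2 : Tendsto (fun B : ℝ => (B, L B)) (𝓝 B₀) (𝓝 (B₀, L B₀)) :=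
    tendsto_id.prodMk_nhds hL
  exact hG.tendsto.comp h2

theorem tend_dtn (h1 : StDJ) (h3 : StLc) {B₀ : ℝ} (hB₀ : 0 < B₀) (hl : lamN B₀ disc < B₀) (l : ℤ) :
    Tendsto (fun B => dtn (fun n => FK B (lamN B disc) n) l) (𝓝 B₀)
      (𝓝 (dtn (fun n => FK B₀ (lamN B₀ disc) n) l)) := by
  have h := comp_gen (fun B lam => dtn (fun n => FK B lam n) l) (fun B => lamN B disc) B₀
    (h1 B₀ (lamN B₀ disc) l hB₀ hl) (tend h3 hB₀)
  exact h

theorem tend_fm (h1 : StDJ) (h3 : StLc) {B₀ : ℝ} (hB₀ : 0 < B₀) (hl : lamN B₀ disc < B₀) (m n : ℕ)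
    (x y : ℝ) : Tendsto (fun B => fm B (lamN B disc) m n x y) (𝓝 B₀)
      (𝓝 (fm B₀ (lamN B₀ disc) m n x y)) := by
  have hid : Tendsto (fun B : ℝ => B) (𝓝 B₀) (𝓝 B₀) := tendsto_id
  have hL := tend h3 hB₀
  have hp : Tendsto (fun B : ℝ => B / 2 - m) (𝓝 B₀) (𝓝 (B₀ / 2 - m)) :=
    (hid.div_const 2).sub_const _
  have hM : Tendsto (fun B : ℝ => B / 2 + m) (𝓝 B₀) (𝓝 (B₀ / 2 + m)) :=
    (hid.div_const 2).add_const _
  unfold fm
  exact (((((hp.const_mul 2).mul hM).add ((((hp.pow 2).sub hL).sub (hp.const_mul (n : ℝ))).const_mul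
    (2 * y))).add ((((hp.pow 2).sub hL).add (hp.const_mul (n : ℝ))).const_mul (2 * x))).add
    ((tend_dtn h1 h3 hB₀ hl _).const_mul (y ^ 2))).add ((tend_dtn h1 h3 hB₀ hl _).const_mul (x ^ 2))

/-- one pair `(m, n)` -/
theorem one (h0 : StAL) (h1 : StDJ) (h2 : StSp3) (h3 : StLc) (h4 : RT.StUd) {B₀ : ℝ}
    (hB₀ : 0 < B₀) (hl0 : 0 < lamN B₀ disc) (hl : lamN B₀ disc < B₀)
    (hnn : ∀ n : ℤ, 0 ≤ dtn (fun k => FK B₀ (lamN B₀ disc) k) n) (m n : ℕ) (hn : 2 ≤ n) :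
    ∃ X κ : ℝ, 0 < κ ∧ ∀ᶠ B in 𝓝 B₀, ∀ lam : ℝ, Sp B lam m → Data B lam m (fun n => FK B lam n) →
      ∃ x y : ℝ, |x| ≤ X ∧ |y| ≤ X ∧ fm B lam m n x y ≤ -κ := by
  by_cases hz : dtn (fun k => FK B₀ (lamN B₀ disc) k) (m : ℤ) = 0
  · obtain ⟨-, -, hF⟩ := h2 B₀ (lamN B₀ disc) m hB₀ hl0 hl hnn hz
    obtain ⟨x, y, hxy⟩ := h0 _ _ _ _ _ _ hF n hn
    have hv : fm B₀ (lamN B₀ disc) m n x y < 0 := hxy
    refine ⟨max |x| |y|, -(fm B₀ (lamN B₀ disc) m n x y) / 2, by linarith, ?_⟩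
    have h5 := tend_fm h1 h3 hB₀ hl m n x y
    have h6 : fm B₀ (lamN B₀ disc) m n x y < fm B₀ (lamN B₀ disc) m n x y / 2 := by linarith
    filter_upwards [h5.eventually (gt_mem_nhds h6)] with B hB lam hS _
    refine ⟨x, y, le_max_left _ _, le_max_right _ _, ?_⟩
    rw [lam_eq h4 hS]
    linarith
  · refine ⟨1, 1, one_pos, ?_⟩
    have h5 := tend_dtn h1 h3 hB₀ hl (m : ℤ)
    filter_upwards [h5.eventually_ne hz] with B hB lam hS hD
    exfalso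
    apply hB
    have h6 := hD.zero
    rw [← lam_eq h4 hS]
    exact h6

end INeg

theorem pr_Neg (h0 : StAL) (h1 : StDJ) (h2 : StSp3) (h3 : StLc) (h4 : RT.StUd) (h5 : StSp2) :
    StNeg := by
  intro B₀ hB₀
  obtain ⟨lam₁, m₁, hS₁, hD₁, -⟩ := h5 B₀ hB₀
  have hlam₁ := INeg.lam_eq h4 hS₁
  have hl0 : 0 < lamN B₀ disc := by rw [← hlam₁]; exact hS₁.lam_pos
  have hl : lamN B₀ disc < B₀ := by rw [← hlam₁]; exact hS₁.lam_lt
  have hnn : ∀ n : ℤ, 0 ≤ dtn (fun k => FK B₀ (lamN B₀ disc) k) n := by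
    rw [← hlam₁]; exact hD₁.nonneg
  constructor
  · have h6 : lamN B₀ disc / 2 < lamN B₀ disc := by linarith
    have h7 := (INeg.tend h3 hB₀).eventually (lt_mem_nhds h6)
    obtain ⟨η, hη, h8⟩ := Metric.eventually_nhds_iff.1 h7
    refine ⟨min 1 (lamN B₀ disc / 4), lt_min one_pos (by linarith), η, hη, ?_⟩
    intro B lam m hB hS hF
    have h9 : lamN B₀ disc / 2 < lam := by
      rw [INeg.lam_eq h4 hS]
      exact h8 (by rw [Real.dist_eq]; exact hB)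
    have hp := hF.hp
    have hM := hF.al_den 0
    have hr := hF.al_rec 0
    have ha := hF.al_nonneg 1
    have ha0 := hF.al0
    simp only [Nat.cast_zero, zero_add, sub_zero, add_zero] at hM hr ha ha0
    rw [ha0] at hM hr
    have hr' : dtn (fun n => FK B lam n) ((m : ℤ) - ((1 : ℕ) : ℤ)) * (B / 2 + m)
        = (B / 2 - m) * (B / 2 - m + 1) - lam := by
      have := hr
      simp only [mul_zero, zero_add] at this
      linarith
    have hM' : 0 < B / 2 + (m : ℝ) := by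
      have := hM
      simp only [zero_add] at this
      linarith
    have h10 : 0 ≤ dtn (fun n => FK B lam n) ((m : ℤ) - ((1 : ℕ) : ℤ)) * (B / 2 + m) :=
      mul_nonneg ha hM'.le
    rw [hr'] at h10
    by_contra hcon
    push Not at hcon
    have h11 := lt_of_lt_of_le hcon (min_le_left _ _)
    have h12 := lt_of_lt_of_le hcon (min_le_right _ _)
    nlinarith
  · intro N
    obtain ⟨M₀, hM₀⟩ := exists_nat_gt (B₀ + 1)
    set s : Finset (ℕ × ℕ) := Finset.range M₀ ×ˢ Finset.Icc 2 N with hs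
    have key : ∀ q : ℕ × ℕ, ∃ X κ : ℝ, 0 < κ ∧ (q ∈ s → ∀ᶠ B in 𝓝 B₀, ∀ lam : ℝ, Sp B lam q.1 →
        Data B lam q.1 (fun n => FK B lam n) →
        ∃ x y : ℝ, |x| ≤ X ∧ |y| ≤ X ∧ INeg.fm B lam q.1 q.2 x y ≤ -κ) := by
      intro q
      by_cases hq : q ∈ s
      · have hq2 : 2 ≤ q.2 := by
          rw [hs, Finset.mem_product, Finset.mem_Icc] at hq
          exact hq.2.1
        obtain ⟨X, κ, hκ, h⟩ := INeg.one h0 h1 h2 h3 h4 hB₀ hl0 hl hnn q.1 q.2 hq2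
        exact ⟨X, κ, hκ, fun _ => h⟩
      · exact ⟨1, 1, one_pos, fun h => absurd h hq⟩
    choose X κ hκ hX using key
    obtain ⟨κ₀, hκ₀, hκle⟩ := INeg.exists_pos_le s κ (fun i _ => hκ i)
    obtain ⟨X₀, hX₀, hXge⟩ := INeg.exists_ge s X
    have hall : ∀ᶠ B in 𝓝 B₀, ∀ q ∈ s, ∀ lam : ℝ, Sp B lam q.1 →
        Data B lam q.1 (fun n => FK B lam n) →
        ∃ x y : ℝ, |x| ≤ X q ∧ |y| ≤ X q ∧ INeg.fm B lam q.1 q.2 x y ≤ -κ q :=
      (Filter.eventually_all_finset s).2 (fun q hq => hX q hq)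
    obtain ⟨η, hη, h8⟩ := Metric.eventually_nhds_iff.1 hall
    refine ⟨min η 1, lt_min hη one_pos, X₀, hX₀, κ₀, hκ₀, ?_⟩
    intro B lam m hB hS hD n hn
    have hB1 : |B - B₀| < η := lt_of_lt_of_le hB (min_le_left _ _)
    have hB2 : |B - B₀| < 1 := lt_of_lt_of_le hB (min_le_right _ _)
    have hmM : m < M₀ := by
      have h9 := hS.hp
      have h10 := (abs_lt.1 hB2).2
      have h11 : (m : ℝ) < M₀ := by linarith
      exact_mod_cast h11
    have hq : ((m, n) : ℕ × ℕ) ∈ s := by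
      rw [hs, Finset.mem_product]
      exact ⟨Finset.mem_range.2 hmM, hn⟩
    obtain ⟨x, y, hx, hy, hxy⟩ := h8 (by rw [Real.dist_eq]; exact hB1) (m, n) hq lam hS hD
    refine ⟨x, y, hx.trans (hXge _ hq), hy.trans (hXge _ hq), ?_⟩
    have h12 := hκle _ hq
    have h13 : INeg.fm B lam m n x y ≤ -κ (m, n) := hxy
    unfold INeg.fm at h13
    linarith

end Pool.Agent.MFK.CD
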