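import Pool.Agent.Work.MP_8826fd_mp.CD.StmtsU

/-! # Item PJ: joint continuity of the Kummer function in the parameter and the variable -/

set_option autoImplicit false

namespace Pool.Agent.MFK.CD

open MeasureTheory Set Filter Topology Pool.Agent.MFK.NF

namespace IPJ

/-- the terms are dominated on a bounded set of parameters and variables -/
theorem term_le {A0 z0 b A z : ℝ} (hb : 0 < b) (hA : |A - A0| < 1) (hz : |z - z0| < 1) (k : ℕ) :
    |kc A b k * z ^ k| ≤ |kc (|A0| + 1) b k * (|z0| + 1) ^ k| := by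
  rw [abs_mul, abs_mul, abs_pow, abs_pow]
  have hz1 : |z| ≤ |(|z0| + 1)| := by
    calc |z| = |z0 + (z - z0)| := by ring_nf
      _ ≤ |z0| + |z - z0| := abs_add_le _ _
      _ ≤ |z0| + 1 := by linarith
      _ ≤ |(|z0| + 1)| := le_abs_self _
  refine mul_le_mul ?_ (pow_le_pow_left₀ (abs_nonneg _) hz1 k) (by positivity) (abs_nonneg _)
  unfold kc
  rw [Finset.abs_prod, Finset.abs_prod]
  refine Finset.prod_le_prod (fun i _ => abs_nonneg _) (fun i _ => ?_)
  rw [abs_div, abs_div]
  refine div_le_div_of_nonneg_right ?_ (abs_nonneg _)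
  have h1 : |A| ≤ |A0| + 1 := by
    calc |A| = |A0 + (A - A0)| := by ring_nf
      _ ≤ |A0| + |A - A0| := abs_add_le _ _
      _ ≤ |A0| + 1 := by linarith
  calc |A + (i : ℝ)| ≤ |A| + |(i : ℝ)| := abs_add_le _ _
    _ = |A| + i := by rw [abs_of_nonneg (Nat.cast_nonneg i : (0 : ℝ) ≤ i)]
    _ ≤ |A0| + 1 + i := by linarith
    _ ≤ |(|A0| + 1 + (i : ℝ))| := le_abs_self _

theorem term_cont (b : ℝ) (k : ℕ) : Continuous (fun p : ℝ × ℝ => kc p.1 b k * p.2 ^ k) := by
  refine Continuous.mul ?_ (continuous_snd.pow k)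
  unfold kc
  refine continuous_finsetProd _ (fun i _ => ?_)
  exact (continuous_fst.add continuous_const).div_const _

end IPJ

theorem pr_PJ : StPJ := by
  intro b hb
  rw [continuous_iff_continuousAt]
  rintro ⟨A0, z0⟩
  have hs : ContinuousOn (fun p : ℝ × ℝ => ∑' k, kc p.1 b k * p.2 ^ k)
      (Metric.ball ((A0, z0) : ℝ × ℝ) 1) := by
    refine continuousOn_tsum (u := fun k => |kc (|A0| + 1) b k * (|z0| + 1) ^ k|) ?_
      ((kSum _ b (|z0| + 1) hb).2) ?_
    · intro k
      exact (IPJ.term_cont b k).continuousOn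
    · intro k p hp
      rw [Real.norm_eq_abs]
      have hd : dist p (A0, z0) < 1 := hp
      rw [Prod.dist_eq, max_lt_iff, Real.dist_eq, Real.dist_eq] at hd
      exact IPJ.term_le hb hd.1 hd.2 k
  exact hs.continuousAt (Metric.ball_mem_nhds _ one_pos)

end Pool.Agent.MFK.CD
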