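import Pool.Agent.Work.MP_8826fd_mp.CD.StmtsU
import Pool.Agent.Work.MP_8826fd_mp.CD.I_One

/-!
# MP_8826fd_mp, block CD, item Qf: closed form of the second variation with uniform bounds
-/

set_option autoImplicit false

namespace Pool.Agent.MFK.CD

open MeasureTheory Set Filter Topology Pool.Agent.MFK.NF

namespace IQf

/-- elementary bounds -/
theorem bnd {r P P' W Q K l L : ℝ} {n : ℕ} (hn : 2 ≤ n) (hr : r ∈ Ioo (0 : ℝ) 1)
    (hP : P = r ^ n * W / 2) (hP' : r * P' = r ^ n * Q / 2) (hW : |W| ≤ K) (hQ : |Q| ≤ K)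
    (hl : |l| ≤ L) (hL : 1 ≤ L) : |P| ≤ L * K ∧ |P'| ≤ L * K ∧ |(l / r) * P| ≤ L * K := by
  obtain ⟨k, rfl⟩ : ∃ k, n = k + 1 := ⟨n - 1, by omega⟩
  have hr0 : (0 : ℝ) < r := hr.1
  have hK : 0 ≤ K := (abs_nonneg W).trans hW
  have hLK : K ≤ L * K := le_mul_of_one_le_left hK hL
  have h0 : (0 : ℝ) ≤ r ^ k := pow_nonneg hr0.le k
  have h1 : r ^ k ≤ 1 := pow_le_one₀ hr0.le hr.2.le
  have h2 : P' = r ^ k * Q / 2 := by
    have : r * P' = r * (r ^ k * Q / 2) := by rw [hP']; ring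
    exact mul_left_cancel₀ hr0.ne' this
  have h3 : (l / r) * P = l * (r ^ k * W / 2) := by
    rw [hP]
    field_simp
    ring
  have e1 : |r ^ k * W / 2| ≤ K / 2 := by
    rw [abs_div, abs_mul, abs_of_nonneg h0, abs_two]
    have : r ^ k * |W| ≤ 1 * K := mul_le_mul h1 hW (abs_nonneg _) zero_le_one
    linarith
  have e2 : |r ^ k * Q / 2| ≤ K / 2 := by
    rw [abs_div, abs_mul, abs_of_nonneg h0, abs_two]
    have : r ^ k * |Q| ≤ 1 * K := mul_le_mul h1 hQ (abs_nonneg _) zero_le_one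
    linarith
  refine ⟨?_, ?_, ?_⟩
  · have h4 : P = r * (r ^ k * W / 2) := by rw [hP]; ring
    rw [h4, abs_mul, abs_of_pos hr0]
    have : r * |r ^ k * W / 2| ≤ 1 * (K / 2) := mul_le_mul hr.2.le e1 (abs_nonneg _) zero_le_one
    linarith
  · rw [h2]
    linarith
  · rw [h3, abs_mul]
    have : |l| * |r ^ k * W / 2| ≤ L * (K / 2) :=
      mul_le_mul hl e1 (abs_nonneg _) (by linarith)
    linarith

/-- sums of bounded functions -/
theorem bdd_add {C1 C2 X x : ℝ} {l : ℤ} {P h : ℝ → ℝ} (hP : Bdd C1 l P) (hh : Bdd C2 l h)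
    (hx : |x| ≤ X) (h2 : 0 ≤ C2) (dP : ∀ r, 0 < r → DifferentiableAt ℝ P r)
    (dh : ∀ r, 0 < r → DifferentiableAt ℝ h r) :
    Bdd (C1 + X * C2) l (fun r => P r + x * h r) := by
  intro r hr
  obtain ⟨a1, a2, a3⟩ := hP r hr
  obtain ⟨b1, b2, b3⟩ := hh r hr
  have key : ∀ p q : ℝ, |p| ≤ C1 → |q| ≤ C2 → |p + x * q| ≤ C1 + X * C2 := by
    intro p q hp hq
    calc |p + x * q| ≤ |p| + |x * q| := abs_add_le _ _
      _ = |p| + |x| * |q| := by rw [abs_mul]
      _ ≤ C1 + X * C2 := add_le_add hp (mul_le_mul hx hq (abs_nonneg _) ((abs_nonneg _).trans hx))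
  refine ⟨key _ _ a1 b1, ?_, ?_⟩
  · have hd : deriv (fun r => P r + x * h r) r = deriv P r + x * deriv h r :=
      ((dP r hr.1).hasDerivAt.add ((dh r hr.1).hasDerivAt.const_mul x)).deriv
    rw [hd]
    exact key _ _ a2 b2
  · have : (l / r) * (P r + x * h r) = (l / r) * P r + x * ((l / r) * h r) := by ring
    rw [this]
    exact key _ _ a3 b3

end IQf

open IOne IQf in
theorem pr_Qf (h3 : StOA) (h4 : StPar) (h5 : StKey) (h6 : StBk) : StQf := by
  intro C0 n hC0 hn2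
  set E : ℝ := Real.exp C0 with hE
  have hE1 : 1 ≤ E := Real.one_le_exp hC0.le
  set Cb : ℝ := (3 * C0 + 1) * E with hCb
  have hCb0 : 0 < Cb := by positivity
  set Ch : ℝ := (3 * C0 + n + 1) * E with hCh
  have hCh0 : 0 < Ch := by positivity
  set X : ℝ := C0 * Cb * E with hX
  have hX0 : 0 < X := by positivity
  set K : ℝ := (n + 2 * C0) * Cb + (2 * n * C0 + C0 ^ 2 + 2 * C0) * Cb + (1 + 2 * C0) * Cb with hK
  have hK0 : 0 < K := by positivity
  set L : ℝ := C0 + n + 1 with hL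
  have hL1 : 1 ≤ L := by
    have : (0 : ℝ) ≤ n := Nat.cast_nonneg n
    linarith
  refine ⟨L * K + X * Ch, by positivity, ?_⟩
  intro B lam x y m hSp hBC hx hy
  have hB := hSp.hB
  have hlam := hSp.lam_pos
  have hlt := hSp.lam_lt
  have hm : (m : ℝ) < B / 2 := by
    have := hSp.hp
    linarith
  have hm0 : (0 : ℝ) ≤ m := Nat.cast_nonneg m
  have hn0 : (0 : ℝ) ≤ n := Nat.cast_nonneg n
  have hrad : ∀ l : ℤ, Rad B lam l (FK B lam l) := fun l => Asm.rRad' B lam l hB hlt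
  set Ψ : ℝ → ℝ := FK B lam (m : ℤ) with hΨ
  have hΨ2 : ContDiff ℝ 2 Ψ := (hrad m).smooth
  have hg : gk B lam m = radf (m : ℤ) Ψ := rfl
  set g1 : ℝ := gk B lam m 1 with hg1
  have hg1p : 0 < g1 := gk_pos hB hlt m one_pos
  have hval : ∀ l : ℤ, radf l (FK B lam l) 1 = FK B lam l 1 := fun l => by simp [radf]
  have hp : ∀ l : ℤ, 0 < FK B lam l 1 := fun l => (hrad l).pos 1 zero_le_one
  -- bounds for the radial functions
  have hexp : Real.exp (B / 2) ≤ E := Real.exp_le_exp.2 (by linarith)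
  have hbk : ∀ l : ℤ, |(l : ℝ)| ≤ C0 + n → Bdd Ch l (radf l (FK B lam l)) := by
    intro l hl
    refine bdd_mono (h6 B lam l hB hlam.le hlt).1 ?_
    refine mul_le_mul ?_ hexp (Real.exp_pos _).le (by positivity)
    linarith
  have hbg : Bdd Cb (m : ℤ) (gk B lam m) := by
    refine bdd_mono (h6 B lam (m : ℤ) hB hlam.le hlt).1 ?_
    refine mul_le_mul ?_ hexp (Real.exp_pos _).le (by positivity)
    have : |(((m : ℕ) : ℤ) : ℝ)| = (m : ℝ) := by simp
    rw [this]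
    linarith
  have hlow : ∀ l : ℤ, E⁻¹ ≤ FK B lam l 1 := by
    intro l
    refine le_trans ?_ (h6 B lam l hB hlam.le hlt).2
    rw [hE, ← Real.exp_neg]
    exact Real.exp_le_exp.2 (by linarith)
  have hg1C : g1 ≤ Cb := by
    have hc : Tendsto (gk B lam m) (𝓝[<] 1) (𝓝 (gk B lam m 1)) :=
      ((gk_cont hB hlt m).tendsto 1).mono_left nhdsWithin_le_nhds
    refine le_of_tendsto hc ?_
    filter_upwards [Ioo_mem_nhdsLT (zero_lt_one (α := ℝ))] with r hr
    exact (le_abs_self _).trans (hbg r hr).1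
  have hcoef : ∀ (w : ℝ) (l : ℤ), |w| ≤ C0 → |w * g1 / (2 * FK B lam l 1)| ≤ X := by
    intro w l hw
    have h7 : 0 < E⁻¹ := by positivity
    have h7' : 0 < 2 * FK B lam l 1 := by have := hp l; positivity
    rw [abs_div, abs_mul, abs_of_pos hg1p, abs_of_pos h7', div_le_iff₀ h7']
    have h8 : |w| * g1 ≤ C0 * Cb := mul_le_mul hw hg1C hg1p.le hC0.le
    have h9 : C0 * Cb ≤ X * (2 * FK B lam l 1) := by
      have h10 : X * (2 * E⁻¹) ≤ X * (2 * FK B lam l 1) :=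
        mul_le_mul_of_nonneg_left (by linarith [hlow l]) hX0.le
      have h11 : X * (2 * E⁻¹) = 2 * (C0 * Cb) := by
        rw [hX]
        field_simp
      have h12 : 0 < C0 * Cb := by positivity
      linarith
    linarith
  set ξ : ℝ := y * g1 / (2 * FK B lam ((m : ℤ) + n) 1) with hξ
  set ζ : ℝ := x * g1 / (2 * FK B lam ((m : ℤ) - n) 1) with hζ
  have hξX : |ξ| ≤ X := hcoef y _ hy
  have hζX : |ζ| ≤ X := hcoef x _ hx
  set ΨA : ℝ → ℝ := fun t => PA B m n Ψ t + ξ * FK B lam ((m : ℤ) + n) t with hΨA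
  set ΨB : ℝ → ℝ := fun t => PB B m n Ψ t + ζ * FK B lam ((m : ℤ) - n) t with hΨB
  have e1 : radf ((m : ℤ) + n) ΨA
      = fun r => at1 B m n (gk B lam m) r + ξ * radf ((m : ℤ) + n) (FK B lam ((m : ℤ) + n)) r := by
    rw [hg, at_eq B m n Ψ hΨ2]
    exact radf_add _ _ _ _
  have e2 : radf ((m : ℤ) - n) ΨB
      = fun r => bt1 B m n (gk B lam m) r + ζ * radf ((m : ℤ) - n) (FK B lam ((m : ℤ) - n)) r := by
    rw [hg, bt_eq B m n Ψ hΨ2]
    exact radf_add _ _ _ _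
  have hl1 : |(((m : ℤ) + n : ℤ) : ℝ)| ≤ C0 + n := by
    push_cast
    rw [abs_of_nonneg (by positivity)]
    linarith
  have hl2 : |(((m : ℤ) - n : ℤ) : ℝ)| ≤ C0 + n := by
    push_cast
    rw [abs_le]
    constructor <;> linarith
  -- elementary bounds on the interval
  have hel : ∀ r ∈ Ioo (0 : ℝ) 1, |cf B m n r| ≤ 2 * C0 ∧ |(m : ℝ) - B * r ^ 2 / 2| ≤ C0 ∧
      0 ≤ lam * r ^ 2 ∧ lam * r ^ 2 ≤ C0 ∧ 0 ≤ B * n * r ^ 2 / (n + 2) ∧
      B * n * r ^ 2 / (n + 2) ≤ C0 := by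
    intro r hr
    have hr2 : r ^ 2 ≤ 1 := pow_le_one₀ hr.1.le hr.2.le
    have hr20 : 0 ≤ r ^ 2 := sq_nonneg r
    have hBr : B * r ^ 2 ≤ C0 := by
      calc B * r ^ 2 ≤ C0 * 1 := mul_le_mul hBC hr2 hr20 hC0.le
        _ = C0 := mul_one _
    have hBr0 : 0 ≤ B * r ^ 2 := by positivity
    have hq0 : 0 ≤ B * n * r ^ 2 / (n + 2) := by positivity
    have hq : B * n * r ^ 2 / (n + 2) ≤ C0 := by
      rw [div_le_iff₀ (by positivity)]
      nlinarith
    refine ⟨?_, ?_, by positivity, ?_, hq0, hq⟩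
    · unfold cf
      have h13 : B * n * r ^ 2 / (2 * (n + 2)) = (B * n * r ^ 2 / (n + 2)) / 2 := by
        field_simp
      rw [h13, abs_le]
      constructor <;> linarith
    · rw [abs_le]
      constructor <;> linarith
    · calc lam * r ^ 2 ≤ C0 * 1 := mul_le_mul (by linarith) hr2 hr20 hC0.le
        _ = C0 := mul_one _
  have hW : ∀ (s : ℝ), |s| ≤ 1 → ∀ r ∈ Ioo (0 : ℝ) 1,
      |r * deriv (gk B lam m) r + s * (cf B m n r * gk B lam m r)| ≤ K := by
    intro s hs r hr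
    obtain ⟨c1, -⟩ := hel r hr
    obtain ⟨a1, a2, -⟩ := hbg r hr
    have f1 : |r * deriv (gk B lam m) r| ≤ Cb := by
      rw [abs_mul, abs_of_pos hr.1]
      calc r * |deriv (gk B lam m) r| ≤ 1 * Cb := mul_le_mul hr.2.le a2 (abs_nonneg _) zero_le_one
        _ = Cb := one_mul _
    have f2 : |s * (cf B m n r * gk B lam m r)| ≤ 2 * C0 * Cb := by
      rw [abs_mul, abs_mul]
      calc |s| * (|cf B m n r| * |gk B lam m r|) ≤ 1 * (2 * C0 * Cb) :=
            mul_le_mul hs (mul_le_mul c1 a1 (abs_nonneg _) (by positivity)) (by positivity)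
              zero_le_one
        _ = 2 * C0 * Cb := one_mul _
    have f3 : 0 ≤ (n + 2 * C0) * Cb + (2 * n * C0 + C0 ^ 2 + 2 * C0) * Cb := by positivity
    calc |r * deriv (gk B lam m) r + s * (cf B m n r * gk B lam m r)|
        ≤ |r * deriv (gk B lam m) r| + |s * (cf B m n r * gk B lam m r)| := abs_add_le _ _
      _ ≤ Cb + 2 * C0 * Cb := add_le_add f1 f2
      _ ≤ K := by rw [hK]; linarith
  have hQ : ∀ (s : ℝ), |s| ≤ 1 → ∀ r ∈ Ioo (0 : ℝ) 1,
      |(n + s * cf B m n r) * (r * deriv (gk B lam m) r)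
      + (s * (n * cf B m n r) + (m - B * r ^ 2 / 2) ^ 2 - lam * r ^ 2
        - s * (B * n * r ^ 2 / (n + 2))) * gk B lam m r| ≤ K := by
    intro s hs r hr
    obtain ⟨c1, c2, c3, c4, c5, c6⟩ := hel r hr
    obtain ⟨a1, a2, -⟩ := hbg r hr
    have f1 : |r * deriv (gk B lam m) r| ≤ Cb := by
      rw [abs_mul, abs_of_pos hr.1]
      calc r * |deriv (gk B lam m) r| ≤ 1 * Cb := mul_le_mul hr.2.le a2 (abs_nonneg _) zero_le_one
        _ = Cb := one_mul _
    have f2 : |s * cf B m n r| ≤ 2 * C0 := by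
      rw [abs_mul]
      calc |s| * |cf B m n r| ≤ 1 * (2 * C0) := mul_le_mul hs c1 (abs_nonneg _) zero_le_one
        _ = 2 * C0 := one_mul _
    have f3 : |(n : ℝ) + s * cf B m n r| ≤ n + 2 * C0 := by
      calc |(n : ℝ) + s * cf B m n r| ≤ |(n : ℝ)| + |s * cf B m n r| := abs_add_le _ _
        _ ≤ n + 2 * C0 := by rw [abs_of_nonneg hn0]; linarith
    have f4 : |s * (n * cf B m n r)| ≤ 2 * n * C0 := by
      have : s * (n * cf B m n r) = n * (s * cf B m n r) := by ring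
      rw [this, abs_mul, abs_of_nonneg hn0]
      calc (n : ℝ) * |s * cf B m n r| ≤ n * (2 * C0) := mul_le_mul_of_nonneg_left f2 hn0
        _ = 2 * n * C0 := by ring
    have f5 : (m - B * r ^ 2 / 2) ^ 2 ≤ C0 ^ 2 := sq_le_sq' (by linarith [abs_le.1 c2])
      (abs_le.1 c2).2
    have f5' : 0 ≤ (m - B * r ^ 2 / 2) ^ 2 := sq_nonneg _
    have f6 : |s * (B * n * r ^ 2 / (n + 2))| ≤ C0 := by
      rw [abs_mul, abs_of_nonneg c5]
      calc |s| * (B * n * r ^ 2 / (n + 2)) ≤ 1 * C0 := mul_le_mul hs c6 c5 zero_le_one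
        _ = C0 := one_mul _
    have f7 : |s * (n * cf B m n r) + (m - B * r ^ 2 / 2) ^ 2 - lam * r ^ 2
        - s * (B * n * r ^ 2 / (n + 2))| ≤ 2 * n * C0 + C0 ^ 2 + 2 * C0 := by
      rw [abs_le] at f4 f6 ⊢
      constructor
      · nlinarith [f4.1, f6.2]
      · nlinarith [f4.2, f6.1]
    have f8 : 0 ≤ (1 + 2 * C0) * Cb := by positivity
    calc _ ≤ |(n + s * cf B m n r) * (r * deriv (gk B lam m) r)|
          + |(s * (n * cf B m n r) + (m - B * r ^ 2 / 2) ^ 2 - lam * r ^ 2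
            - s * (B * n * r ^ 2 / (n + 2))) * gk B lam m r| := abs_add_le _ _
      _ ≤ (n + 2 * C0) * Cb + (2 * n * C0 + C0 ^ 2 + 2 * C0) * Cb := by
          exact add_le_add
            ((abs_mul _ _).le.trans (mul_le_mul f3 f1 (abs_nonneg _) (by positivity)))
            ((abs_mul _ _).le.trans (mul_le_mul f7 a1 (abs_nonneg _) (by positivity)))
      _ ≤ K := by rw [hK]; linarith
  have hLl1 : |(((m : ℤ) + n : ℤ) : ℝ)| ≤ L := by linarith
  have hLl2 : |(((m : ℤ) - n : ℤ) : ℝ)| ≤ L := by linarith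
  have hA : Bdd (L * K) ((m : ℤ) + n) (at1 B m n (gk B lam m)) := by
    intro r hr
    refine bnd (W := r * deriv (gk B lam m) r + 1 * (cf B m n r * gk B lam m r))
      (Q := (n + 1 * cf B m n r) * (r * deriv (gk B lam m) r)
      + (1 * (n * cf B m n r) + (m - B * r ^ 2 / 2) ^ 2 - lam * r ^ 2
        - 1 * (B * n * r ^ 2 / (n + 2))) * gk B lam m r) hn2 hr ?_ ?_
      (hW 1 (by simp) r hr) (hQ 1 (by simp) r hr) hLl1 hL1
    · unfold at1
      ring
    · rw [(h3 B lam m n hB hlt r hr.1).1.2.2]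
      ring
  have hBb : Bdd (L * K) ((m : ℤ) - n) (bt1 B m n (gk B lam m)) := by
    intro r hr
    refine bnd (W := r * deriv (gk B lam m) r + (-1) * (cf B m n r * gk B lam m r))
      (Q := (n + (-1) * cf B m n r) * (r * deriv (gk B lam m) r)
      + ((-1) * (n * cf B m n r) + (m - B * r ^ 2 / 2) ^ 2 - lam * r ^ 2
        - (-1) * (B * n * r ^ 2 / (n + 2))) * gk B lam m r) hn2 hr ?_ ?_
      (hW (-1) (by simp) r hr) (hQ (-1) (by simp) r hr) hLl2 hL1
    · unfold bt1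
      ring
    · rw [(h3 B lam m n hB hlt r hr.1).2.2.2]
      ring
  have dFK : ∀ (l : ℤ) (r : ℝ), 0 < r → DifferentiableAt ℝ (radf l (FK B lam l)) r :=
    fun l r _ => (radf_c1 l _ ((hrad l).smooth.of_le (by norm_num))).differentiable (by norm_num) r
  refine ⟨ΨA, ΨB, ?_, ?_, ?_, ?_, ?_⟩
  · exact (PA_c1 B m n Ψ hΨ2).add (contDiff_const.mul ((hrad _).smooth.of_le (by norm_num)))
  · exact (PB_c1 B m n Ψ hΨ2).add (contDiff_const.mul ((hrad _).smooth.of_le (by norm_num)))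
  · rw [e1]
    exact bdd_add hA (hbk _ hl1) hξX hCh0.le
      (fun r hr => (h3 B lam m n hB hlt r hr).1.1.differentiableAt) (dFK _)
  · rw [e2]
    exact bdd_add hBb (hbk _ hl2) hζX hCh0.le
      (fun r hr => (h3 B lam m n hB hlt r hr).2.1.differentiableAt) (dFK _)
  · have hgc := gk_cont hB hlt m
    have s1 := side h4 B lam ξ ((m : ℤ) + n) (at1 B m n (gk B lam m))
      (Sn B lam m n 1 (gk B lam m)) (FK B lam ((m : ℤ) + n)) (PA B m n Ψ) (PA_c1 B m n Ψ hΨ2)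
      (at_eq B m n Ψ hΨ2) (Sn_cont _ _ _ _ _ _ hgc) (hrad _)
      (fun r hr => ⟨(h3 B lam m n hB hlt r hr).1.1, (h3 B lam m n hB hlt r hr).1.2.1⟩)
    have s2 := side h4 B lam ζ ((m : ℤ) - n) (bt1 B m n (gk B lam m))
      (Sn B lam m n (-1) (gk B lam m)) (FK B lam ((m : ℤ) - n)) (PB B m n Ψ) (PB_c1 B m n Ψ hΨ2)
      (bt_eq B m n Ψ hΨ2) (Sn_cont _ _ _ _ _ _ hgc) (hrad _)
      (fun r hr => ⟨(h3 B lam m n hB hlt r hr).2.1, (h3 B lam m n hB hlt r hr).2.2.1⟩)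
    obtain ⟨k1, k2, k3⟩ := h5 B lam m n hSp hn2
    have d1 : deriv (radf ((m : ℤ) + n) (FK B lam ((m : ℤ) + n))) 1
        = dtn (fun n => FK B lam n) ((m : ℤ) + n) * FK B lam ((m : ℤ) + n) 1 := by
      unfold dtn
      exact (div_mul_cancel₀ _ (hp _).ne').symm
    have d2 : deriv (radf ((m : ℤ) - n) (FK B lam ((m : ℤ) - n))) 1
        = dtn (fun n => FK B lam n) ((m : ℤ) - n) * FK B lam ((m : ℤ) - n) 1 := by
      unfold dtn
      exact (div_mul_cancel₀ _ (hp _).ne').symm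
    have x1 : ξ * FK B lam ((m : ℤ) + n) 1 = y * g1 / 2 := by
      have := (hp ((m : ℤ) + n)).ne'
      rw [hξ]
      field_simp
    have y1 : ζ * FK B lam ((m : ℤ) - n) 1 = x * g1 / 2 := by
      have := (hp ((m : ℤ) - n)).ne'
      rw [hζ]
      field_simp
    unfold QQ
    rw [e1, e2]
    rw [hval, d1] at s1
    rw [hval, d2] at s2
    rw [← hg1] at k1 k2 k3
    have t1 : 4 * ξ * FK B lam ((m : ℤ) + n) 1 * deriv (at1 B m n (gk B lam m)) 1
        = y * g1 ^ 2 * ((B / 2 - m) ^ 2 - lam - n * (B / 2 - m)) := by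
      rw [k1]
      linear_combination (4 * (g1 * ((B / 2 - m) ^ 2 - lam - n * (B / 2 - m)) / 2)) * x1
    have t2 : 4 * ζ * FK B lam ((m : ℤ) - n) 1 * deriv (bt1 B m n (gk B lam m)) 1
        = x * g1 ^ 2 * ((B / 2 - m) ^ 2 - lam + n * (B / 2 - m)) := by
      rw [k2]
      linear_combination (4 * (g1 * ((B / 2 - m) ^ 2 - lam + n * (B / 2 - m)) / 2)) * y1
    have t3 : 2 * ξ ^ 2 * FK B lam ((m : ℤ) + n) 1
          * (dtn (fun n => FK B lam n) ((m : ℤ) + n) * FK B lam ((m : ℤ) + n) 1)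
        = g1 ^ 2 / 2 * (y ^ 2 * dtn (fun n => FK B lam n) ((m : ℤ) + n)) := by
      have := congrArg (fun z => z ^ 2) x1
      beta_reduce at this
      linear_combination (2 * dtn (fun n => FK B lam n) ((m : ℤ) + n)) * this
    have t4 : 2 * ζ ^ 2 * FK B lam ((m : ℤ) - n) 1
          * (dtn (fun n => FK B lam n) ((m : ℤ) - n) * FK B lam ((m : ℤ) - n) 1)
        = g1 ^ 2 / 2 * (x ^ 2 * dtn (fun n => FK B lam n) ((m : ℤ) - n)) := by
      have := congrArg (fun z => z ^ 2) y1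
      beta_reduce at this
      linear_combination (2 * dtn (fun n => FK B lam n) ((m : ℤ) - n)) * this
    rw [t1, t3] at s1
    rw [t2, t4] at s2
    linear_combination s1 + s2 + k3

end Pool.Agent.MFK.CD
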