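import Pool.Agent.Work.MP_8826fd_mp.CD.StmtsU

/-!
# MP_8826fd_mp, block CD: assembly of the uniform part
-/

set_option autoImplicit false

namespace Pool.Agent.MFK.CD

open MeasureTheory Set Filter Topology Pool.Agent.MFK.NF

open ICore in
theorem pr_OneU (h1 : StSp2) (h2 : StVir) (h3 : StBk) (h4 : StTTu) (h5 : StQf) (h6 : StNeg) : StOneU := by
  intro B₀ hB₀
  obtain ⟨⟨p₀, hp₀, η₁, hη₁, hP⟩, hN'⟩ := h6 B₀ hB₀
  set C1 := B₀ + 1 with hC1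
  have hC10 : 0 < C1 := by positivity
  set K := (C1 + 2 * C1 + 1) * Real.exp (C1 / 2) with hK
  have hK0 : 0 < K := by positivity
  set C0a := K + C1 with hC0a
  have hC0a0 : 0 < C0a := by positivity
  set γ := p₀ ^ 2 * Real.exp (-(C1 / 4)) ^ 2 with hγ
  have hγ0 : 0 < γ := by positivity
  obtain ⟨N, κ1, hκ1, hT⟩ := h4 C0a γ hC0a0 hγ0
  obtain ⟨η₂, hη₂, X, hX, κ2, hκ2, hneg⟩ := hN' N
  have hQ : ∀ n : ℕ, ∃ C > (0 : ℝ), 2 ≤ n → ∀ (B lam x y : ℝ) (m : ℕ), Sp B lam m → B ≤ C0a + X →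
      |x| ≤ C0a + X → |y| ≤ C0a + X → ∃ ΨA ΨB : ℝ → ℝ, ContDiff ℝ 1 ΨA ∧ ContDiff ℝ 1 ΨB ∧
      Bdd C ((m : ℤ) + n) (radf ((m : ℤ) + n) ΨA) ∧ Bdd C ((m : ℤ) - n) (radf ((m : ℤ) - n) ΨB) ∧
      QQ B lam m n (gk B lam m) (radf ((m : ℤ) + n) ΨA) (radf ((m : ℤ) - n) ΨB)
        = gk B lam m 1 ^ 2 / 2 * (2 * (B / 2 - m) * (B / 2 + m)
          + 2 * y * ((B / 2 - m) ^ 2 - lam - n * (B / 2 - m)) + 2 * x * ((B / 2 - m) ^ 2 - lam + n * (B / 2 - m))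
          + y ^ 2 * dtn (fun k => FK B lam k) ((m : ℤ) + n) + x ^ 2 * dtn (fun k => FK B lam k) ((m : ℤ) - n)) := by
    intro n
    by_cases hn : 2 ≤ n
    · obtain ⟨C, hC, h⟩ := h5 (C0a + X) n (by positivity) hn
      exact ⟨C, hC, fun _ => h⟩
    · exact ⟨1, one_pos, fun h => absurd h hn⟩
  choose CQ hCQ0 hCQ using hQ
  set S := ∑ n ∈ Finset.Icc 2 N, CQ n with hS
  have hS0 : 0 ≤ S := Finset.sum_nonneg fun i _ => (hCQ0 i).le
  have hSle : ∀ n ∈ Finset.Icc 2 N, CQ n ≤ S := fun n hn =>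
    Finset.single_le_sum (f := CQ) (fun i _ => (hCQ0 i).le) hn
  have hE : 0 < Real.exp (-(C1 / 4)) := Real.exp_pos _
  set κ := min κ1 (Real.exp (-(C1 / 4)) ^ 2 / 2 * κ2 / (N + 1)) with hκ
  have hκ0 : 0 < κ := lt_min hκ1 (by positivity)
  refine ⟨min (min η₁ η₂) 1, lt_min (lt_min hη₁ hη₂) one_pos, C0a + X + S, by positivity, κ, hκ0, N, ?_⟩
  intro B hB hBη
  obtain ⟨lam, m, hSp, hData, hFacts⟩ := h1 B hB
  have hb1 : |B - B₀| < η₁ := hBη.trans_le ((min_le_left _ _).trans (min_le_left _ _))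
  have hb2 : |B - B₀| < η₂ := hBη.trans_le ((min_le_left _ _).trans (min_le_right _ _))
  have hb3 : |B - B₀| < 1 := hBη.trans_le (min_le_right _ _)
  have hBC : B ≤ C1 := by have := (abs_lt.1 hb3).2; linarith
  have hp := hP B lam m hb1 hSp hFacts
  have hl0 := hSp.lam_pos
  have hlB := hSp.lam_lt
  have hm : (m : ℝ) ≤ C1 := by have := hSp.hp; linarith
  have hm0 : (0 : ℝ) ≤ m := Nat.cast_nonneg m
  obtain ⟨hbd, hg1⟩ := h3 B lam (m : ℤ) hB hl0.le hlB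
  have hbdK : Bdd K (m : ℤ) (radf (m : ℤ) (FK B lam (m : ℤ))) := by
    refine Bdd.mono hbd ?_
    rw [hK]
    have e1 : |((m : ℤ) : ℝ)| = m := by
      rw [Int.cast_natCast, abs_of_nonneg hm0]
    rw [e1]
    have e2 : Real.exp (B / 2) ≤ Real.exp (C1 / 2) := Real.exp_le_exp.2 (by linarith)
    have e3 := Real.exp_pos (B / 2)
    exact mul_le_mul (by linarith) e2 e3.le (by positivity)
  have hgk1 : gk B lam m 1 = FK B lam (m : ℤ) 1 := by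
    unfold gk radf
    rw [one_pow, one_pow, one_mul]
  have hg : Real.exp (-(C1 / 4)) ≤ gk B lam m 1 := by
    rw [hgk1]
    exact (Real.exp_le_exp.2 (by linarith)).trans hg1
  have hg2 : Real.exp (-(C1 / 4)) ^ 2 ≤ gk B lam m 1 ^ 2 := pow_le_pow_left₀ hE.le hg 2
  -- the correctors
  have hex : ∀ n : ℕ, ∃ ΨA ΨB : ℝ → ℝ, ContDiff ℝ 1 ΨA ∧ ContDiff ℝ 1 ΨB ∧ (n ∈ Finset.Icc 2 N →
      Bdd (CQ n) ((m : ℤ) + n) (radf ((m : ℤ) + n) ΨA) ∧ Bdd (CQ n) ((m : ℤ) - n) (radf ((m : ℤ) - n) ΨB) ∧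
      QQ B lam m n (gk B lam m) (radf ((m : ℤ) + n) ΨA) (radf ((m : ℤ) - n) ΨB) ≤ -κ * (n + 1)) := by
    intro n
    by_cases hn : n ∈ Finset.Icc 2 N
    · obtain ⟨x, y, hx, hy, hf⟩ := hneg B lam m hb2 hSp hData n hn
      obtain ⟨ΨA, ΨB, hA, hBs, a1, a2, a3⟩ := hCQ n (Finset.mem_Icc.1 hn).1 B lam x y m hSp
        (by linarith) (by linarith) (by linarith)
      refine ⟨ΨA, ΨB, hA, hBs, fun _ => ⟨a1, a2, ?_⟩⟩
      rw [a3]
      have e1 : gk B lam m 1 ^ 2 / 2 * (2 * (B / 2 - m) * (B / 2 + m)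
          + 2 * y * ((B / 2 - m) ^ 2 - lam - n * (B / 2 - m)) + 2 * x * ((B / 2 - m) ^ 2 - lam + n * (B / 2 - m))
          + y ^ 2 * dtn (fun k => FK B lam k) ((m : ℤ) + n) + x ^ 2 * dtn (fun k => FK B lam k) ((m : ℤ) - n))
          ≤ gk B lam m 1 ^ 2 / 2 * (-κ2) := mul_le_mul_of_nonneg_left hf (by positivity)
      refine e1.trans ?_
      have hnN : (n : ℝ) + 1 ≤ N + 1 := by
        have : (n : ℝ) ≤ N := by exact_mod_cast (Finset.mem_Icc.1 hn).2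
        linarith
      have hn0 : (0 : ℝ) ≤ n := Nat.cast_nonneg n
      have e2 : κ * (n + 1) ≤ Real.exp (-(C1 / 4)) ^ 2 / 2 * κ2 := by
        have e3 : κ ≤ Real.exp (-(C1 / 4)) ^ 2 / 2 * κ2 / (N + 1) := min_le_right _ _
        rw [le_div_iff₀ (by positivity)] at e3
        have e4 : κ * ((n : ℝ) + 1) ≤ κ * (N + 1) := mul_le_mul_of_nonneg_left hnN hκ0.le
        linarith
      have e5 : Real.exp (-(C1 / 4)) ^ 2 / 2 * κ2 ≤ gk B lam m 1 ^ 2 / 2 * κ2 :=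
        mul_le_mul_of_nonneg_right (by linarith) hκ2.le
      linarith
    · exact ⟨fun _ => 0, fun _ => 0, contDiff_const, contDiff_const, fun h => absurd h hn⟩
  choose ΨA ΨB hA hBs hAB using hex
  refine ⟨lam, m, FK B lam (m : ℤ), ΨA, ΨB, ?_, hSp.lb⟩
  refine ⟨hB.le, by linarith, hl0.le, by linarith, (gk_rad hSp.hB hSp.lam_lt m).smooth.of_le (by norm_num),
    hA, hBs, Bdd.mono hbdK (by linarith), ?_, (h2 B lam m hSp).2, fun n hn => (hAB n hn).2.2, ?_⟩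
  · intro n hn
    have := hSle n hn
    exact ⟨Bdd.mono (hAB n hn).1 (by linarith), Bdd.mono (hAB n hn).2.1 (by linarith)⟩
  · intro n hn _
    have hγle : γ ≤ (B / 2 - m) ^ 2 * gk B lam m 1 ^ 2 := by
      rw [hγ]
      exact mul_le_mul (pow_le_pow_left₀ hp₀.le hp 2) hg2 (by positivity) (by positivity)
    have h8 := hT B lam m hSp (by linarith) (Bdd.mono hbdK (by linarith)) hγle n hn
    have hn0 : (0 : ℝ) ≤ n := Nat.cast_nonneg n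
    have h9 : κ * ((n : ℝ) + 1) ≤ κ1 * (n + 1) := mul_le_mul_of_nonneg_right (min_le_left _ _) (by positivity)
    have h10 : radf (m : ℤ) (FK B lam (m : ℤ)) = gk B lam m := rfl
    rw [h10]
    linarith

theorem pr_MUU (h1 : StCore) (h2 : StOneU) : StMUU := by
  intro B₀ hB₀
  obtain ⟨η, hη, C0, hC0, κ, hκ, N, h⟩ := h2 B₀ hB₀
  obtain ⟨ε, hε, c, hc, hU⟩ := h1 C0 κ N hC0 hκ
  refine ⟨η, hη, ε, hε, c, hc, fun B hB hBη Ω F₁ => ?_⟩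
  obtain ⟨lam, m, Ψ, ΨA, ΨB, hD, hlb⟩ := h B hB hBη
  exact hU B lam m Ψ ΨA ΨB hD hlb Ω F₁

theorem dft_nonneg (q : ℂ) {R : ℝ} (hR : 0 ≤ R) (Ω : Set ℂ) : 0 ≤ dft q R Ω := by
  unfold dft
  exact integral_nonneg fun z => le_min (abs_nonneg _) hR

theorem pr_MUc (h : StMUU) : RT.StMUc := by
  intro B₀ hB₀
  obtain ⟨η, hη, ε, hε, c, hc, hU⟩ := h B₀ hB₀
  refine ⟨η, hη, ε, hε, fun B hB hBη Ω F₁ h1 h2 h3 h4 h5 h6 => ?_⟩
  obtain ⟨q, hq1, hq2⟩ := hU B hB hBη Ω F₁ h1 h2 h3 h4 h5 h6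
  refine ⟨q, ?_, hq2⟩
  have := dft_nonneg q zero_le_one Ω
  nlinarith

end Pool.Agent.MFK.CD
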