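import Pool.Agent.Work.MP_8826fd_mp.CD.All
import Pool.Agent.Work.MP_8826fd_mp.CD.OneU
import Pool.Agent.Work.MP_8826fd_mp.CD.I_Qf
import Pool.Agent.Work.MP_8826fd_mp.CD.I_PJ
import Pool.Agent.Work.MP_8826fd_mp.CD.I_DJ
import Pool.Agent.Work.MP_8826fd_mp.CD.I_Sp3
import Pool.Agent.Work.MP_8826fd_mp.CD.I_Lc
import Pool.Agent.Work.MP_8826fd_mp.CD.I_Neg
import Pool.Agent.Work.MP_8826fd_mp.RT.I_Lip
import Pool.Agent.Work.MP_8826fd_mp.RT.I_Ud

/-!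
# MP_8826fd_mp, block CD: the theorem with constants locally uniform in the field (used by the block RT)
-/

set_option autoImplicit false

namespace Pool.Agent.MFK.CD

theorem hQf : StQf := pr_Qf pr_OA pr_Par hKey pr_Bk
theorem hNeg : StNeg := pr_Neg hAL (pr_DJ pr_PJ) pr_Sp3 (pr_Lc RT.pr_Lip) RT.pr_Ud pr_Sp2
theorem hOneU : StOneU := pr_OneU pr_Sp2 pr_Vir pr_Bk (pr_TTu pr_Vir) hQf hNeg
theorem hMUU : StMUU := pr_MUU hCore hOneU

end Pool.Agent.MFK.CD
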