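import Pool.Agent.Work.MP_8826fd_mp.CD.Stmts
import Pool.Agent.Work.MP_8826fd_mp.NF.I_Fin
import Pool.Agent.Work.MP_8826fd_mp.NF.I_MU
import Pool.Agent.Work.MP_8826fd_mp.NF.I_Gau

/-!
# MP_8826fd_mp, block CD: the theorem for area `π`, uniform in the data
-/

set_option autoImplicit false

namespace Pool.Agent.MFK.CD

open MeasureTheory Set Filter Topology Pool.Agent.MFK.NF

/-- the data of the one-dimensional part, with the constants `C0`, `κ`, `N` -/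
structure Dat (C0 κ : ℝ) (N : ℕ) (B lam : ℝ) (m : ℕ) (Ψ : ℝ → ℝ) (ΨA ΨB : ℕ → ℝ → ℝ) : Prop where
  B0 : 0 ≤ B
  B1 : B ≤ C0
  l0 : 0 ≤ lam
  l1 : lam ≤ C0
  sm : ContDiff ℝ 1 Ψ
  smA : ∀ n, ContDiff ℝ 1 (ΨA n)
  smB : ∀ n, ContDiff ℝ 1 (ΨB n)
  bd : Bdd C0 m (radf m Ψ)
  bdn : ∀ n ∈ Finset.Icc 2 N, Bdd C0 ((m : ℤ) + n) (radf ((m : ℤ) + n) (ΨA n)) ∧
    Bdd C0 ((m : ℤ) - n) (radf ((m : ℤ) - n) (ΨB n))
  il : Il B lam m (radf m Ψ) = 0
  q : ∀ n ∈ Finset.Icc 2 N,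
    QQ B lam m n (radf m Ψ) (radf ((m : ℤ) + n) (ΨA n)) (radf ((m : ℤ) - n) (ΨB n)) ≤ -κ * (n + 1)
  t : ∀ n : ℕ, N < n → 2 ≤ n → TT B lam m n (radf m Ψ) ≤ -κ * (n + 1)

/-- the theorem for area `π` for given constants of the data -/
def StCore : Prop := ∀ (C0 κ : ℝ) (N : ℕ), 0 < C0 → 0 < κ → ∃ ε > (0 : ℝ), ∃ c > (0 : ℝ),
  ∀ (B lam : ℝ) (m : ℕ) (Ψ : ℝ → ℝ) (ΨA ΨB : ℕ → ℝ → ℝ), Dat C0 κ N B lam m Ψ ΨA ΨB → lam ≤ lamN B disc →
  ∀ (Ω : Set ℂ) (F₁ : ℂ → ℂ), IsOpen Ω → IsSimplyConnected Ω →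
  volume Ω = ENNReal.ofReal Real.pi → DifferentiableOn ℂ F₁ (Metric.ball 0 1) → MapsTo F₁ (Metric.ball 0 1) Ω → 1 - ε ≤ ‖deriv F₁ 0‖ →
  ∃ q : ℂ, lamN B (toR Ω) ≤ lamN B disc - c * dft q 1 Ω ∧
    (lamN B (toR Ω) = lamN B disc → Ω = Metric.ball q 1)

namespace ICore

theorem ex_norm (l : ℤ) (θ : ℝ) : ‖ex l θ‖ = 1 := by
  unfold ex
  have h : Complex.I * (l : ℂ) * (θ : ℂ) = ((l * θ : ℝ) : ℂ) * Complex.I := by
    push_cast
    ring
  rw [h, Complex.norm_exp_ofReal_mul_I]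

theorem norm_a {F : ℂ → ℂ} {a : ℕ → ℂ} {s : ℝ} (hSer : StSer) (h : Nrm F a s) {n : ℕ} (hn : 2 ≤ n) :
    ‖a (n + 1)‖ ≤ 1 := by
  have h1 := (hSer F a s h).2.2.1 n hn
  have h2 : (0 : ℝ) ≤ n := Nat.cast_nonneg n
  have h3 : ‖a (n + 1)‖ ^ 2 ≤ 1 := by
    have h4 : 0 ≤ ‖a (n + 1)‖ ^ 2 := by positivity
    have h5 : 0 ≤ s ^ 2 := by positivity
    nlinarith
  have h6 := norm_nonneg (a (n + 1))
  nlinarith

/-- bound of the test function -/
theorem bound {C0 κ : ℝ} {N : ℕ} {B lam : ℝ} {m : ℕ} {Ψ : ℝ → ℝ} {ΨA ΨB : ℕ → ℝ → ℝ} (hC0 : 0 < C0)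
    (hD : Dat C0 κ N B lam m Ψ ΨA ΨB) (hSer : StSer) (hVV : StVV)
    {F : ℂ → ℂ} {a : ℕ → ℂ} {s : ℝ} (h : Nrm F a s) :
    ∀ w ∈ Metric.ball (0 : ℂ) 1, ‖VV m N a Ψ ΨA ΨB w‖ ≤ C0 * (2 * N + 3) := by
  obtain ⟨hV, hP⟩ := hVV m N a Ψ ΨA ΨB hD.sm hD.smA hD.smB
  have hcont : Continuous (VV m N a Ψ ΨA ΨB) := hV.continuous
  have key : ∀ w ∈ Metric.ball (0 : ℂ) 1, w ≠ 0 → ‖VV m N a Ψ ΨA ΨB w‖ ≤ C0 * (2 * N + 3) := by
    intro w hw hw0
    rw [mem_ball_zero_iff] at hw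
    have hr : ‖w‖ ∈ Ioo (0 : ℝ) 1 := ⟨norm_pos_iff.2 hw0, hw⟩
    have hpc : pc ‖w‖ w.arg = w := by
      unfold pc
      rw [mul_comm Complex.I]
      exact Complex.norm_mul_exp_arg_mul_I w
    have h1 := (hP ‖w‖ hr w.arg).1
    rw [hpc] at h1
    rw [h1]
    have h2 : ‖((radf m Ψ ‖w‖ : ℝ) : ℂ) * ex m w.arg‖ ≤ C0 := by
      rw [norm_mul, ex_norm, mul_one, Complex.norm_real, Real.norm_eq_abs]
      exact (hD.bd ‖w‖ hr).1
    have h3 : ‖lin m N a (fun n => radf ((m : ℤ) + n) (ΨA n) ‖w‖)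
        (fun n => radf ((m : ℤ) - n) (ΨB n) ‖w‖) w.arg‖ ≤ ∑ n ∈ Finset.Icc 2 N, 2 * C0 := by
      unfold lin
      refine norm_sum_le_of_le _ fun n hn => ?_
      have hn2 := (Finset.mem_Icc.1 hn).1
      have ha := norm_a hSer h hn2
      obtain ⟨b1, b2⟩ := hD.bdn n hn
      have c1 := (b1 ‖w‖ hr).1
      have c2 := (b2 ‖w‖ hr).1
      have hna := norm_nonneg (a (n + 1))
      refine (norm_add_le _ _).trans ?_
      rw [norm_mul, norm_mul, norm_mul, norm_mul, ex_norm, ex_norm, mul_one, mul_one,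
        Complex.norm_real, Complex.norm_real, Real.norm_eq_abs, Real.norm_eq_abs, RCLike.norm_conj]
      have d1 := abs_nonneg (radf ((m : ℤ) + n) (ΨA n) ‖w‖)
      have d2 := abs_nonneg (radf ((m : ℤ) - n) (ΨB n) ‖w‖)
      nlinarith
    rw [Finset.sum_const, nsmul_eq_mul] at h3
    have h4 : ((Finset.Icc 2 N).card : ℝ) ≤ N + 1 := by
      rw [Nat.card_Icc]
      have : N + 1 - 2 ≤ N + 1 := Nat.sub_le _ _
      exact_mod_cast this
    have h5 : ((Finset.Icc 2 N).card : ℝ) * (2 * C0) ≤ (N + 1) * (2 * C0) :=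
      mul_le_mul_of_nonneg_right h4 (by positivity)
    refine (norm_add_le _ _).trans ?_
    linarith
  intro w hw
  by_cases hw0 : w = 0
  · -- continuity
    have hcl : IsClosed {w : ℂ | ‖VV m N a Ψ ΨA ΨB w‖ ≤ C0 * (2 * N + 3)} :=
      isClosed_le hcont.norm continuous_const
    rw [hw0]
    have hlim : Tendsto (fun j : ℕ => (((1 : ℝ) / (j + 2) : ℝ) : ℂ)) atTop (𝓝 0) := by
      have h1 : Tendsto (fun j : ℕ => (1 : ℝ) / (j + 2)) atTop (𝓝 0) := by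
        have h2 : Tendsto (fun j : ℕ => ((j : ℝ) + 2)) atTop atTop :=
          tendsto_atTop_add_const_right _ _ tendsto_natCast_atTop_atTop
        exact h2.const_div_atTop 1
      have h2 := (Complex.continuous_ofReal.tendsto 0).comp h1
      rw [Complex.ofReal_zero] at h2
      exact h2
    refine hcl.mem_of_tendsto hlim (Eventually.of_forall fun j => ?_)
    have hj : (0 : ℝ) ≤ j := Nat.cast_nonneg j
    refine key _ ?_ ?_
    · rw [mem_ball_zero_iff, Complex.norm_real, Real.norm_eq_abs, abs_of_pos (by positivity),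
        div_lt_one (by positivity)]
      linarith
    · exact_mod_cast (by positivity : (0 : ℝ) < 1 / ((j : ℝ) + 2)).ne'
  · exact key w hw hw0

/-- the disc -/
theorem disc_case {Ω : Set ℂ} {f F : ℂ → ℂ} {a : ℕ → ℂ} {s : ℝ} (hSer : StSer)
    (hCM : CMc Ω f F a) (h : Nrm F a s) (hs : s = 1) : Ω = Metric.ball (a 0) 1 := by
  have hz : ∀ j, 2 ≤ j → a j = 0 := by
    intro j hj
    rcases Nat.lt_or_ge j 3 with h3 | h3
    · have : j = 2 := by omega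
      rw [this]
      exact h.a2
    · have h4 := (hSer F a s h).2.2.1 (j - 1) (by omega)
      have hj1 : j - 1 + 1 = j := by omega
      rw [hj1, hs] at h4
      have h5 : (0 : ℝ) ≤ ((j - 1 : ℕ) : ℝ) := Nat.cast_nonneg _
      have h6 : ‖a j‖ ^ 2 ≤ 0 := by
        have h7 : 0 ≤ ‖a j‖ ^ 2 := by positivity
        nlinarith
      have h7 : ‖a j‖ = 0 := by
        have h8 : 0 ≤ ‖a j‖ ^ 2 := by positivity
        exact pow_eq_zero_iff (two_ne_zero) |>.1 (le_antisymm h6 h8)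
      exact norm_eq_zero.1 h7
  have hF : ∀ w ∈ Metric.ball (0 : ℂ) 1, F w = a 0 + w := by
    intro w hw
    refine (hCM.ser w hw).unique ?_
    have h1 : HasSum (fun j : ℕ => a j * w ^ j) (∑ j ∈ Finset.range 2, a j * w ^ j) := by
      refine hasSum_sum_of_ne_finset_zero fun j hj => ?_
      rw [Finset.mem_range, not_lt] at hj
      rw [hz j hj, zero_mul]
    rw [Finset.sum_range_succ, Finset.sum_range_one, h.a1, hs] at h1
    simpa using h1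
  ext z
  constructor
  · intro hz
    have h1 := hCM.fm hz
    have h2 := hF _ h1
    rw [hCM.Ff z hz] at h2
    rw [mem_ball_iff_norm, h2, add_sub_cancel_left]
    rwa [mem_ball_zero_iff] at h1
  · intro hz
    rw [mem_ball_iff_norm] at hz
    have h1 : z - a 0 ∈ Metric.ball (0 : ℂ) 1 := by
      rw [mem_ball_zero_iff]
      exact hz
    have h2 := hF _ h1
    rw [add_sub_cancel] at h2
    rw [← h2]
    exact hCM.Fm h1

/-- translation of the disc -/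
theorem lam_ball (B : ℝ) (q : ℂ) : lamN B (toR (Metric.ball q 1)) = lamN B disc := by
  have h2 := sc B 1 (q.re, q.im) disc one_pos IFin.isOpen_disc
  rw [one_pow, inv_one, one_mul, mul_one] at h2
  rw [← h2]
  congr 1
  ext x
  show (⟨x.1, x.2⟩ : ℂ) ∈ Metric.ball q 1 ↔ x ∈ (fun y : ℝ × ℝ => (q.re, q.im) + (1 : ℝ) • y) '' disc
  rw [mem_ball_iff_norm]
  have h : ‖(⟨x.1, x.2⟩ : ℂ) - q‖ ^ 2 = (x.1 - q.re) ^ 2 + (x.2 - q.im) ^ 2 := by
    rw [Complex.sq_norm, Complex.normSq_apply, Complex.sub_re, Complex.sub_im]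
    ring
  have h3 : ‖(⟨x.1, x.2⟩ : ℂ) - q‖ < 1 ↔ (x.1 - q.re) ^ 2 + (x.2 - q.im) ^ 2 < 1 := by
    rw [← h]
    constructor
    · intro h1
      nlinarith [norm_nonneg ((⟨x.1, x.2⟩ : ℂ) - q)]
    · intro h1
      nlinarith [norm_nonneg ((⟨x.1, x.2⟩ : ℂ) - q)]
  rw [h3]
  constructor
  · intro h4
    refine ⟨(x.1 - q.re, x.2 - q.im), h4, ?_⟩
    apply Prod.ext
    · show q.re + 1 * (x.1 - q.re) = x.1
      ring
    · show q.im + 1 * (x.2 - q.im) = x.2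
      ring
  · rintro ⟨y, hy, rfl⟩
    show (q.re + 1 * y.1 - q.re) ^ 2 + (q.im + 1 * y.2 - q.im) ^ 2 < 1
    have h5 : y.1 ^ 2 + y.2 ^ 2 < 1 := hy
    have e1 : q.re + 1 * y.1 - q.re = y.1 := by ring
    have e2 : q.im + 1 * y.2 - q.im = y.2 := by ring
    rw [e1, e2]
    exact h5

theorem dft_self (q : ℂ) : dft q 1 (Metric.ball q 1) = 0 := by
  unfold dft
  rw [symmDiff_self]
  simp

end ICore

open ICore in
theorem pr_Core (hCMx : StCMx) (hLam : StLam) (hSer : StSer) (hSplit : StSplit) (hFF : StFF)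
    (hVV : StVV) (hDft : StDft) : StCore := by
  intro C0 κ N hC0 hκ
  obtain ⟨C, hC, hF⟩ := hFF C0 κ N hC0 hκ
  obtain ⟨Cd, hCd, hdft⟩ := hDft
  have hpi := Real.pi_pos
  set Cv := C0 * (2 * N + 3) with hCv
  have hCv0 : 0 < Cv := by positivity
  set ε := min (1 / 2) ((Real.pi * κ / (2 * C)) ^ 2 / 2) with hε
  have hε0 : 0 < ε := lt_min (by norm_num) (by positivity)
  set c1 := κ / (2 * Cv ^ 2) with hc1
  have hc10 : 0 < c1 := by positivity
  refine ⟨ε, hε0, c1 / Cd, by positivity, ?_⟩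
  intro B lam m Ψ ΨA ΨB hD hlb Ω F₁ hO hsc hvol hF₁ hm hρ
  have hρ0 : 0 < 1 - ε := by
    have : ε ≤ 1 / 2 := min_le_left _ _
    linarith
  obtain ⟨f, F, a, s, hCM, hN, hs, hmax⟩ := hCMx Ω F₁ (1 - ε) hO hsc hvol hF₁ hm hρ0 hρ
  have hs1 : s ≤ 1 := (hSer F a s hN).1
  have hs0 := hN.s0
  rcases lt_or_eq_of_le hs1 with hs' | hs'
  · have hδ : 0 < 1 - s ^ 2 := by nlinarith
    set δ := Real.sqrt (1 - s ^ 2) with hδd
    have hδ0 : 0 < δ := Real.sqrt_pos.2 hδ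
    have hδ2 : δ ^ 2 = 1 - s ^ 2 := Real.sq_sqrt hδ.le
    have hδs : C * δ ≤ Real.pi * κ / 2 := by
      have h1 : δ ^ 2 ≤ (Real.pi * κ / (2 * C)) ^ 2 := by
        rw [hδ2]
        have h2 : ε ≤ (Real.pi * κ / (2 * C)) ^ 2 / 2 := min_le_right _ _
        nlinarith
      have h3 : δ ≤ Real.pi * κ / (2 * C) :=
        (abs_le_of_sq_le_sq' h1 (by positivity)).2
      rw [le_div_iff₀ (by positivity)] at h3
      linarith
    have hmain := hF B lam s m F a Ψ ΨA ΨB hD.B0 hD.B1 hD.l0 hD.l1 hN hs' hD.sm hD.smA hD.smB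
      hD.bd hD.bdn hD.il hD.q hD.t
    have hVc := (hVV m N a Ψ ΨA ΨB hD.sm hD.smA hD.smB).1
    obtain ⟨hE, hM, hMle, -, hEM⟩ := hSplit B lam s Cv F a (VV m N a Ψ ΨA ΨB) hN hVc
      (bound hC0 hD hSer hVV hN)
    rw [← hEM] at hmain
    set E := (EE B F (VV m N a Ψ ΨA ΨB)).toReal with hEdef
    set M := (MM F (VV m N a Ψ ΨA ΨB)).toReal with hMdef
    have hE0 : 0 ≤ E := ENNReal.toReal_nonneg
    have hM0 : 0 ≤ M := ENNReal.toReal_nonneg
    have h3 : E - lam * M ≤ -(Real.pi * κ / 2) * δ ^ 2 := by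
      have e1 : C * Real.sqrt (1 - s ^ 2) ^ 3 = (C * δ) * δ ^ 2 := by
        rw [← hδd]
        ring
      rw [e1, ← hδ2] at hmain
      have e2 : (C * δ) * δ ^ 2 ≤ (Real.pi * κ / 2) * δ ^ 2 :=
        mul_le_mul_of_nonneg_right hδs (by positivity)
      linarith
    have hMne : MM F (VV m N a Ψ ΨA ΨB) ≠ 0 := by
      intro h0
      rw [hMdef, h0, ENNReal.toReal_zero, mul_zero, sub_zero] at h3
      have : -(Real.pi * κ / 2) * δ ^ 2 < 0 := by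
        have : 0 < (Real.pi * κ / 2) * δ ^ 2 := by positivity
        linarith
      linarith
    obtain ⟨φ, hφ⟩ := pr_Gau F hCM.Fd
    have h4 : E ≤ (lam - c1 * δ ^ 2) * M := by
      have e1 : c1 * M ≤ Real.pi * κ / 2 := by
        have : c1 * M ≤ c1 * (Real.pi * Cv ^ 2) := mul_le_mul_of_nonneg_left hMle hc10.le
        have e3 : c1 * (Real.pi * Cv ^ 2) = Real.pi * κ / 2 := by
          rw [hc1]
          field_simp
        linarith
      have e2 : c1 * M * δ ^ 2 ≤ (Real.pi * κ / 2) * δ ^ 2 :=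
        mul_le_mul_of_nonneg_right e1 (by positivity)
      nlinarith
    have h5 := hLam B (lam - c1 * δ ^ 2) Ω f F a φ (VV m N a Ψ ΨA ΨB) hCM hφ hVc hE hM hMne h4
    have h6 := hdft Ω f F a s hCM hN
    have h7 : c1 / Cd * dft (a 0) 1 Ω ≤ c1 * δ ^ 2 := by
      have : c1 / Cd * dft (a 0) 1 Ω ≤ c1 / Cd * (Cd * (1 - s ^ 2)) :=
        mul_le_mul_of_nonneg_left h6 (by positivity)
      have e3 : c1 / Cd * (Cd * (1 - s ^ 2)) = c1 * δ ^ 2 := by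
        rw [hδ2]
        field_simp
      linarith
    have h8 : 0 < c1 * δ ^ 2 := by positivity
    refine ⟨a 0, by linarith, fun he => ?_⟩
    exfalso
    linarith
  · have hΩ := disc_case hSer hCM hN hs'
    refine ⟨a 0, ?_, fun _ => hΩ⟩
    rw [hΩ, dft_self, mul_zero, sub_zero]
    exact (lam_ball B (a 0)).le

/-! ### bounds for the functions of the data -/

namespace ICore

theorem radf_smooth (l : ℤ) {Ψ : ℝ → ℝ} (h : ContDiff ℝ 1 Ψ) : ContDiff ℝ 1 (radf l Ψ) := by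
  unfold radf
  exact (contDiff_id.pow _).mul (h.comp (contDiff_id.pow 2))

theorem bdd_ex (l : ℤ) {Ψ : ℝ → ℝ} (h : ContDiff ℝ 1 Ψ) : ∃ K > (0 : ℝ), Bdd K l (radf l Ψ) := by
  have h1 := radf_smooth l h
  obtain ⟨C1, hC1⟩ := (isCompact_Icc (a := (0 : ℝ)) (b := 1)).exists_bound_of_continuousOn
    h1.continuous.continuousOn
  obtain ⟨C2, hC2⟩ := (isCompact_Icc (a := (0 : ℝ)) (b := 1)).exists_bound_of_continuousOn
    (h1.continuous_deriv le_rfl).continuousOn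
  obtain ⟨C3, hC3⟩ := (isCompact_Icc (a := (0 : ℝ)) (b := 1)).exists_bound_of_continuousOn
    h.continuous.continuousOn
  refine ⟨|C1| + |C2| + |(l : ℝ)| * |C3| + 1, by positivity, fun r hr => ?_⟩
  have hr' : r ∈ Icc (0 : ℝ) 1 := ⟨hr.1.le, hr.2.le⟩
  have b1 := hC1 r hr'
  have b2 := hC2 r hr'
  rw [Real.norm_eq_abs] at b1 b2
  have a1 := le_abs_self C1
  have a2 := le_abs_self C2
  have a3 := le_abs_self C3
  have n1 := abs_nonneg C1
  have n2 := abs_nonneg C2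
  have n3 := abs_nonneg C3
  have n4 := abs_nonneg (l : ℝ)
  have n5 : 0 ≤ |(l : ℝ)| * |C3| := by positivity
  refine ⟨by linarith, by linarith, ?_⟩
  have hr2 : r ^ 2 ∈ Icc (0 : ℝ) 1 := ⟨by positivity, pow_le_one₀ hr.1.le hr.2.le⟩
  have b3 := hC3 _ hr2
  rw [Real.norm_eq_abs] at b3
  rcases Nat.eq_zero_or_pos l.natAbs with h0 | h0
  · have : l = 0 := Int.natAbs_eq_zero.1 h0
    rw [this]
    simp only [Int.cast_zero, zero_div, zero_mul, abs_zero]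
    positivity
  · have e1 : (l : ℝ) / r * radf l Ψ r = l * (r ^ (l.natAbs - 1) * Ψ (r ^ 2)) := by
      unfold radf
      obtain ⟨k, hk⟩ : ∃ k, l.natAbs = k + 1 := ⟨l.natAbs - 1, by omega⟩
      rw [hk, Nat.add_sub_cancel, pow_succ]
      have := hr.1.ne'
      field_simp
    rw [e1, abs_mul, abs_mul]
    have e2 : |r ^ (l.natAbs - 1)| ≤ 1 := by
      rw [abs_of_nonneg (pow_nonneg hr.1.le _)]
      exact pow_le_one₀ hr.1.le hr.2.le
    have e3 : |r ^ (l.natAbs - 1)| * |Ψ (r ^ 2)| ≤ 1 * |C3| := by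
      refine mul_le_mul e2 (by linarith) (abs_nonneg _) zero_le_one
    have e4 := mul_le_mul_of_nonneg_left e3 n4
    linarith

theorem Bdd.mono {K K' : ℝ} {l : ℤ} {P : ℝ → ℝ} (h : Bdd K l P) (hK : K ≤ K') : Bdd K' l P :=
  fun r hr => ⟨(h r hr).1.trans hK, (h r hr).2.1.trans hK, (h r hr).2.2.trans hK⟩

end ICore

open ICore in
theorem pr_MU (hCore : StCore) (hVir : StVir) (hOne : StOne) : StMU := by
  intro B hB
  obtain ⟨lam, m, N, κ, ΨA, ΨB, S, hκ, hA, hBs, hq, ht⟩ := hOne B hB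
  have hsm : ContDiff ℝ 1 (FK B lam (m : ℤ)) := (gk_rad S.hB S.lam_lt m).smooth.of_le (by norm_num)
  obtain ⟨K0, hK0, hb0⟩ := bdd_ex (m : ℤ) hsm
  choose KA hKA0 hKA using fun n : ℕ => bdd_ex ((m : ℤ) + n) (hA n)
  choose KB hKB0 hKB using fun n : ℕ => bdd_ex ((m : ℤ) - n) (hBs n)
  set C0 := K0 + (∑ n ∈ Finset.Icc 2 N, (KA n + KB n)) + B + lam with hC0d
  have hsum : ∀ n ∈ Finset.Icc 2 N, KA n + KB n ≤ ∑ n ∈ Finset.Icc 2 N, (KA n + KB n) := by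
    intro n hn
    exact Finset.single_le_sum (f := fun n => KA n + KB n)
      (fun i _ => by have := hKA0 i; have := hKB0 i; linarith) hn
  have hs0 : 0 ≤ ∑ n ∈ Finset.Icc 2 N, (KA n + KB n) :=
    Finset.sum_nonneg fun i _ => by have := hKA0 i; have := hKB0 i; linarith
  have hlp := S.lam_pos
  have hC0 : 0 < C0 := by positivity
  obtain ⟨ε, hε, c, hc, h⟩ := hCore C0 κ N hC0 hκ
  refine ⟨ε, hε, c, hc, fun Ω F₁ => h B lam m (FK B lam (m : ℤ)) ΨA ΨB ?_ S.lb Ω F₁⟩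
  refine ⟨hB.le, by linarith, hlp.le, by linarith, hsm, hA, hBs, Bdd.mono hb0 (by linarith), ?_, (hVir B lam m S).2, hq, ht⟩
  intro n hn
  have h1 := hsum n hn
  have h2 := hKA0 n
  have h3 := hKB0 n
  exact ⟨Bdd.mono (hKA n) (by linarith), Bdd.mono (hKB n) (by linarith)⟩

end Pool.Agent.MFK.CD
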