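import Pool.Agent.Work.MP_8826fd_mp.NF.Gk

/-!
# MP_8826fd_mp, block CD: domains with large conformal radius.  Captain helper34.

GOAL.  For all `B, R > 0` there are `ε, c > 0` such that every open simply connected `Ω ⊂ ℝ²` of area `π R²` whose maximal conformal
radius is at least `(1 - ε) R` (for example: `Ω` contains a disc of radius `(1 - ε) R`) satisfies
`λ(B, Ω) ≤ λ(B, D_R) - c ∫_{Ω Δ D(q,R)} min(||x - q| - R|, R) dx` for some `q`; so equality holds only for a disc.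

METHOD.  `Ω = F(𝔻)`, `F(0)` a maximum point of the conformal radius, so `F(w) = a_0 + s w + ∑_{j ≥ 3} a_j w^j`, `∑ j |a_j|² = 1` (area `π`),
`δ² = 1 - s² = ∑_{j≥3} j |a_j|²`.  As in the block NF: radial gauge `b dθ`, `b(r,θ) = ∫₀^r |F'(σe^{iθ})|² σ dσ = s² r²/2 + 2 s K + b_G`, with
`K = Re ∑_{n ≥ 2} (n+1)/(n+2) a_{n+1} r^{n+2} e^{inθ}` and `b_G = ∫₀^r |F' - s|² σ dσ`.  Test function (`V0` ground mode of the disc)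
`V = g(r) e^{imθ} + ∑_{n=2}^N (a_{n+1} α_n(r) e^{i(m+n)θ} + conj(a_{n+1}) β_n(r) e^{i(m-n)θ})`.  Energy minus `λ` mass is at most
`π ∑_{n ≤ N} |a_{n+1}|² Q_n + π ∑_{n > N} |a_{n+1}|² T_n + C δ³` (Cauchy-Schwarz only), `T_n ≤ -κ (n+1)` for large `n`, and for
`α_n = r^n (r g' + c g)/2 + x g_{m+n}`, `β_n = r^n (r g' - c g)/2 + y g_{m-n}`, `c = m - B n r²/(2(n+2))` the number `Q_n` is
`g(1)²/2` times the form of `SNeg` (block of LocalMaximality), which is negative for a suitable choice of `x`, `y`.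
-/

set_option autoImplicit false

namespace Pool.Agent.MFK.CD

open MeasureTheory Set Filter Topology Pool.Agent.MFK.NF

/-! ### conformal maps -/

/-- conformal map of the unit disc onto `Ω` (inverse `f`) -/
structure CMc (Ω : Set ℂ) (f F : ℂ → ℂ) (a : ℕ → ℂ) : Prop extends Hol F a where
  opn : IsOpen Ω
  fd : DifferentiableOn ℂ f Ω
  fm : MapsTo f Ω (Metric.ball 0 1)
  Fm : MapsTo F (Metric.ball 0 1) Ω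
  fF : ∀ w ∈ Metric.ball (0 : ℂ) 1, f (F w) = w
  Ff : ∀ z ∈ Ω, F (f z) = z

/-- normalised map: `F(w) = a_0 + s w + a_3 w³ + ...`, area `π` -/
structure Nrm (F : ℂ → ℂ) (a : ℕ → ℂ) (s : ℝ) : Prop extends Hol F a where
  s0 : 0 < s
  a1 : a 1 = (s : ℂ)
  a2 : a 2 = 0
  sum : (∑' j : ℕ, ENNReal.ofReal (cc a j)) = 1

/-- `F'(w) - s` -/
noncomputable def gd (F : ℂ → ℂ) (s : ℝ) (w : ℂ) : ℂ := deriv F w - s

/-- `K(r,θ) = Re ∫₀^r (F'(σe^{iθ}) - s) σ dσ` -/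
noncomputable def kf (F : ℂ → ℂ) (s : ℝ) (r θ : ℝ) : ℝ :=
  r ^ 2 * (∫ σ in (0 : ℝ)..1, (σ : ℂ) * gd F s ((σ : ℂ) * pc r θ)).re

/-- `b_G(r,θ) = ∫₀^r |F'(σe^{iθ}) - s|² σ dσ` -/
noncomputable def bG (F : ℂ → ℂ) (s : ℝ) (r θ : ℝ) : ℝ :=
  r ^ 2 * ∫ σ in (0 : ℝ)..1, σ * ‖gd F s ((σ : ℂ) * pc r θ)‖ ^ 2

/-- `∑_{j≥3} j |a_j|² r^{2j}` -/
noncomputable def rh (a : ℕ → ℂ) (r : ℝ) : ℝ := ∑' j : ℕ, cc a (j + 3) * r ^ (2 * (j + 3))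

/-- its derivative -/
noncomputable def rhd (a : ℕ → ℂ) (r : ℝ) : ℝ :=
  ∑' j : ℕ, cc a (j + 3) * (2 * (j + 3 : ℕ) * r ^ (2 * (j + 3) - 1))

/-- `(1/π) ∫ K² dθ` -/
noncomputable def k2 (a : ℕ → ℂ) (r : ℝ) : ℝ :=
  ∑' j : ℕ, (((j + 3 : ℕ) : ℝ) / (j + 4 : ℕ)) ^ 2 * ‖a (j + 3)‖ ^ 2 * r ^ (2 * j + 8)

/-- `∫_{Ω Δ D(q,R)} min(||z - q| - R|, R) dz` -/
noncomputable def dft (q : ℂ) (R : ℝ) (Ω : Set ℂ) : ℝ :=
  ∫ z in symmDiff Ω (Metric.ball q R), min |‖z - q‖ - R| R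

/-! ### test functions -/

/-- `e^{ilθ}` -/
noncomputable def ex (l : ℤ) (θ : ℝ) : ℂ := Complex.exp (Complex.I * l * θ)

/-- `w^l Ψ(|w|²)` for `l ≥ 0`, `conj(w)^|l| Ψ(|w|²)` for `l < 0`; equals `radf l Ψ r e^{ilθ}` at `r e^{iθ}` -/
noncomputable def vz (l : ℤ) (Ψ : ℝ → ℝ) (w : ℂ) : ℂ :=
  (if 0 ≤ l then w ^ l.natAbs else (starRingEnd ℂ) w ^ l.natAbs) * ((Ψ (‖w‖ ^ 2) : ℝ) : ℂ)

/-- the test function on the disc -/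
noncomputable def VV (m N : ℕ) (a : ℕ → ℂ) (Ψ : ℝ → ℝ) (ΨA ΨB : ℕ → ℝ → ℝ) (w : ℂ) : ℂ :=
  vz m Ψ w + ∑ n ∈ Finset.Icc 2 N,
    (a (n + 1) * vz ((m : ℤ) + n) (ΨA n) w + (starRingEnd ℂ) (a (n + 1)) * vz ((m : ℤ) - n) (ΨB n) w)

/-- `∑_{n=2}^N (a_{n+1} x_n e^{i(m+n)θ} + conj(a_{n+1}) y_n e^{i(m-n)θ})` -/
noncomputable def lin (m N : ℕ) (a : ℕ → ℂ) (x y : ℕ → ℝ) (θ : ℝ) : ℂ :=
  ∑ n ∈ Finset.Icc 2 N, (a (n + 1) * (x n : ℂ) * ex ((m : ℤ) + n) θ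
    + (starRingEnd ℂ) (a (n + 1)) * (y n : ℂ) * ex ((m : ℤ) - n) θ)

/-- `Re(a_{n+1} e^{inθ})` -/
noncomputable def Rn (a : ℕ → ℂ) (n : ℕ) (θ : ℝ) : ℝ := (a (n + 1) * ex n θ).re

/-- the test function on `Ω`; `φ` changes the gauge -/
noncomputable def UV (B : ℝ) (V : ℂ → ℂ) (φ : ℂ → ℝ) (f : ℂ → ℂ) (z : ℂ) : ℂ :=
  V (f z) * Complex.exp (Complex.I * ((B * φ (f z) : ℝ) : ℂ))

/-- radial derivative at `r e^{iθ}` -/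
noncomputable def vr (V : ℂ → ℂ) (r θ : ℝ) : ℂ := fderiv ℝ V (pc r θ) (Complex.exp (Complex.I * θ))

/-- `(1/r) ∂_θ` at `r e^{iθ}` -/
noncomputable def vth (V : ℂ → ℂ) (r θ : ℝ) : ℂ :=
  fderiv ℝ V (pc r θ) (Complex.I * Complex.exp (Complex.I * θ))

/-- energy density in the coordinates `(r,θ)` -/
noncomputable def eE (B : ℝ) (F V : ℂ → ℂ) (r θ : ℝ) : ℝ :=
  r * (‖vr V r θ‖ ^ 2 + ‖vth V r θ - Complex.I * ((B * bb F r θ / r : ℝ) : ℂ) * V (pc r θ)‖ ^ 2)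

/-- mass density in the coordinates `(r,θ)` -/
noncomputable def eM (F V : ℂ → ℂ) (r θ : ℝ) : ℝ :=
  r * ‖deriv F (pc r θ)‖ ^ 2 * ‖V (pc r θ)‖ ^ 2

noncomputable def EE (B : ℝ) (F V : ℂ → ℂ) : ENNReal :=
  ∫⁻ r in Ioo (0 : ℝ) 1, ∫⁻ θ in Ioo (0 : ℝ) (2 * Real.pi), ENNReal.ofReal (eE B F V r θ)

noncomputable def MM (F V : ℂ → ℂ) : ENNReal :=
  ∫⁻ r in Ioo (0 : ℝ) 1, ∫⁻ θ in Ioo (0 : ℝ) (2 * Real.pi), ENNReal.ofReal (eM F V r θ)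

/-! ### one-dimensional part -/

/-- bounds for a radial function of mode `l` -/
def Bdd (C : ℝ) (l : ℤ) (P : ℝ → ℝ) : Prop :=
  ∀ r ∈ Ioo (0 : ℝ) 1, |P r| ≤ C ∧ |deriv P r| ≤ C ∧ |(l / r) * P r| ≤ C

/-- `∫₀¹ (r P'² + (q_l² - λ) r P²)` -/
noncomputable def Il (B lam : ℝ) (l : ℤ) (P : ℝ → ℝ) : ℝ :=
  ∫ r in (0 : ℝ)..1, (r * deriv P r ^ 2 + (qn B l r ^ 2 - lam) * (r * P r ^ 2))

/-- the source term `S(r) = (n+1) r^{n+1} g (λ + B (2m + σ n - B r²)/(n+2))`, `σ = ±1` -/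
noncomputable def Sn (B lam : ℝ) (m n : ℕ) (σ : ℝ) (g : ℝ → ℝ) (r : ℝ) : ℝ :=
  (n + 1) * r ^ (n + 1) * g r * (lam + B * (2 * m + σ * n - B * r ^ 2) / (n + 2))

/-- second variation of the mode `n` without correctors -/
noncomputable def TT (B lam : ℝ) (m n : ℕ) (g : ℝ → ℝ) : ℝ :=
  (n + 1) * (∫ r in (0 : ℝ)..1, (-(2 * B * (m - B * r ^ 2 / 2)) * (r ^ (2 * n + 1) - r)
    - lam * (2 * (n + 1) * r ^ (2 * n + 1) - 2 * r)) * g r ^ 2)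
  + 4 * B ^ 2 * (((n : ℝ) + 1) / (n + 2)) ^ 2 * ∫ r in (0 : ℝ)..1, g r ^ 2 * r ^ (2 * n + 3)

/-- second variation of the mode `n` with correctors `α`, `β` -/
noncomputable def QQ (B lam : ℝ) (m n : ℕ) (g α β : ℝ → ℝ) : ℝ :=
  TT B lam m n g + 2 * Il B lam ((m : ℤ) + n) α + 2 * Il B lam ((m : ℤ) - n) β
    - 4 * (∫ r in (0 : ℝ)..1, Sn B lam m n 1 g r * α r) - 4 * ∫ r in (0 : ℝ)..1, Sn B lam m n (-1) g r * β r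

/-- `c(r) = m - B n r²/(2(n+2))` -/
noncomputable def cf (B : ℝ) (m n : ℕ) (r : ℝ) : ℝ := m - B * n * r ^ 2 / (2 * (n + 2))

/-- the transported parts `r^n (r g' ± c g)/2` -/
noncomputable def at1 (B : ℝ) (m n : ℕ) (g : ℝ → ℝ) (r : ℝ) : ℝ :=
  r ^ n * (r * deriv g r + cf B m n r * g r) / 2
noncomputable def bt1 (B : ℝ) (m n : ℕ) (g : ℝ → ℝ) (r : ℝ) : ℝ :=
  r ^ n * (r * deriv g r - cf B m n r * g r) / 2

end Pool.Agent.MFK.CD
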