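import Pool.Agent.Work.MP_8826fd_mp.NF.I_F1
import Pool.Agent.Work.MP_8826fd_mp.NF.I_PC
import Pool.Agent.Work.MP_8826fd_mp.NF.I_Area
import Pool.Agent.Work.MP_8826fd_mp.NF.I_MU

/-!
# MP_8826fd_mp, block CD, deficit: distance of a simply connected domain of area `π` to a disc in terms of the conformal radius

`∫_{Ω Δ D(p,1)} min(||z-p|-1|, 1) ≤ C (1 - |F'(0)|²)`, `p = F(0)`, `F` a conformal map of the unit disc onto `Ω`, `|Ω| = π`.
Proof: `ψ(z) = |z|²/(1+|z|²)`; the left side is at most `6 (∫_Ω ψ(z-p) - ∫_D ψ)`, and `∫_Ω ψ(z-p) = ∫_𝔻 ψ(F-p)|F'|²` is expanded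
around `a₁ w`.
-/

set_option autoImplicit false

namespace Pool.Agent.MFK.NF

open MeasureTheory Set Filter Topology

namespace Dfc

/-- the weight function -/
noncomputable def psi (z : ℂ) : ℝ := ‖z‖ ^ 2 / (1 + ‖z‖ ^ 2)

lemma psi_nonneg (z : ℂ) : 0 ≤ psi z := by unfold psi; positivity

lemma psi_le_one (z : ℂ) : psi z ≤ 1 := by
  unfold psi
  rw [div_le_one (by positivity)]
  linarith

lemma psi_cont : Continuous psi := by
  unfold psi
  refine Continuous.div (by fun_prop) (by fun_prop) fun z => by positivity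

lemma nsq (z h : ℂ) : ‖z + h‖ ^ 2 = ‖z‖ ^ 2 + 2 * ((starRingEnd ℂ) z * h).re + ‖h‖ ^ 2 := by
  rw [← Complex.normSq_eq_norm_sq, ← Complex.normSq_eq_norm_sq, ← Complex.normSq_eq_norm_sq, Complex.normSq_add]
  have : (z * (starRingEnd ℂ) h).re = ((starRingEnd ℂ) z * h).re := by
    simp [Complex.mul_re]
  rw [this]; ring

lemma re_le (z h : ℂ) (hz : ‖z‖ ≤ 1) : |((starRingEnd ℂ) z * h).re| ≤ ‖h‖ := by
  refine (Complex.abs_re_le_norm _).trans ?_
  rw [norm_mul, RCLike.norm_conj]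
  exact mul_le_of_le_one_left (norm_nonneg _) hz

lemma psi_diff_le (z h : ℂ) (hz : ‖z‖ ≤ 1) :
    psi (z + h) - psi z ≤ 2 * ((starRingEnd ℂ) z * h).re / (1 + ‖z‖ ^ 2) ^ 2 + 9 * ‖h‖ ^ 2 := by
  have hre := abs_le.1 (re_le z h hz)
  have hn := nsq z h
  have ht : ‖z‖ ^ 2 ≤ 1 := by
    have := norm_nonneg z
    nlinarith
  have hlow : (‖h‖ - 1) ^ 2 ≤ ‖z + h‖ ^ 2 ∨ ‖h‖ ≤ 1 := by
    rcases le_total ‖h‖ 1 with h1 | h1
    · exact Or.inr h1
    · left
      have h2 : ‖h‖ - ‖z‖ ≤ ‖z + h‖ := by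
        have := norm_sub_le (z + h) z
        rw [add_sub_cancel_left] at this
        linarith
      have h3 : ‖h‖ - 1 ≤ ‖z + h‖ := by linarith
      exact pow_le_pow_left₀ (by linarith) h3 2
  unfold psi
  set t := ‖z‖ ^ 2 with htdef
  set t' := ‖z + h‖ ^ 2 with ht'def
  set ρ := ((starRingEnd ℂ) z * h).re with hρ
  set x := ‖h‖ with hx
  have hx0 : 0 ≤ x := norm_nonneg _
  have ht0 : 0 ≤ t := by positivity
  have ht'0 : 0 ≤ t' := by positivity
  have key : 2 * x + 2 ≤ 9 * (1 + t') := by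
    rcases hlow with h1 | h1
    · nlinarith [sq_nonneg (x - 1), sq_nonneg (x - 3)]
    · nlinarith
  have e : t' / (1 + t') - t / (1 + t) = (2 * ρ + x ^ 2) / ((1 + t) * (1 + t')) := by
    rw [hn]
    have h1 : (1 + t) ≠ 0 := by positivity
    have h2 : (1 + (t + 2 * ρ + x ^ 2)) ≠ 0 := by rw [← hn]; positivity
    field_simp
    ring
  rw [e]
  have e2 : (2 * ρ / (1 + t) ^ 2 + 9 * x ^ 2) - (2 * ρ + x ^ 2) / ((1 + t) * (1 + t')) =
      (2 * ρ * (1 + t') + 9 * x ^ 2 * ((1 + t) ^ 2 * (1 + t')) - (2 * ρ + x ^ 2) * (1 + t)) / ((1 + t) ^ 2 * (1 + t')) := by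
    have h1 : (1 + t) ≠ 0 := by positivity
    have h2 : (1 + t') ≠ 0 := by positivity
    field_simp
  rw [← sub_nonneg, e2]
  refine div_nonneg ?_ (by positivity)
  have h4 : 2 * ρ * (1 + t') + 9 * x ^ 2 * ((1 + t) ^ 2 * (1 + t')) - (2 * ρ + x ^ 2) * (1 + t) =
      4 * ρ ^ 2 + 2 * ρ * x ^ 2 + 9 * x ^ 2 * ((1 + t) ^ 2 * (1 + t')) - x ^ 2 * (1 + t) := by
    rw [hn]; ring
  rw [h4]
  have h5 : 1 ≤ (1 + t) ^ 2 := by nlinarith
  have h6 : 1 + t' ≤ (1 + t) ^ 2 * (1 + t') := le_mul_of_one_le_left (by positivity) h5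
  have h7 : 9 * x ^ 2 * (1 + t') ≤ 9 * x ^ 2 * ((1 + t) ^ 2 * (1 + t')) := mul_le_mul_of_nonneg_left h6 (by positivity)
  have h8 : x ^ 2 * (2 * x + 2) ≤ x ^ 2 * (9 * (1 + t')) := mul_le_mul_of_nonneg_left key (by positivity)
  have h9 : -(2 * x * x ^ 2) ≤ 2 * ρ * x ^ 2 := by nlinarith [sq_nonneg x]
  have h10 : x ^ 2 * (1 + t) ≤ 2 * x ^ 2 := by nlinarith [sq_nonneg x]
  nlinarith [sq_nonneg ρ]

lemma psi_abs_le (z h : ℂ) (hz : ‖z‖ ≤ 1) : |psi (z + h) - psi z| ≤ 4 * ‖h‖ := by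
  have hx0 : 0 ≤ ‖h‖ := norm_nonneg _
  rcases le_total ‖h‖ 2 with h1 | h1
  · have hre := abs_le.1 (re_le z h hz)
    have hn := nsq z h
    unfold psi
    set t := ‖z‖ ^ 2 with htdef
    set t' := ‖z + h‖ ^ 2 with ht'def
    set ρ := ((starRingEnd ℂ) z * h).re with hρ
    set x := ‖h‖ with hx
    have ht0 : 0 ≤ t := by positivity
    have ht'0 : 0 ≤ t' := by positivity
    have e : t' / (1 + t') - t / (1 + t) = (2 * ρ + x ^ 2) / ((1 + t) * (1 + t')) := by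
      rw [hn]
      have h1 : (1 + t) ≠ 0 := by positivity
      have h2 : (1 + (t + 2 * ρ + x ^ 2)) ≠ 0 := by rw [← hn]; positivity
      field_simp
      ring
    have h3 : 1 ≤ (1 + t) * (1 + t') := by nlinarith [mul_nonneg ht0 ht'0]
    rw [e, abs_div, abs_of_pos (by positivity : (0 : ℝ) < (1 + t) * (1 + t'))]
    refine (div_le_self (abs_nonneg _) h3).trans ?_
    rw [abs_le]
    constructor
    · nlinarith [sq_nonneg x]
    · nlinarith [sq_nonneg x]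
  · rw [abs_le]
    have := psi_nonneg z
    have := psi_nonneg (z + h)
    have := psi_le_one z
    have := psi_le_one (z + h)
    constructor <;> linarith

/-- the pointwise inequality -/
lemma ptw (z h u g : ℂ) (hz : ‖z‖ ≤ 1) (hu : ‖u‖ ≤ 1) :
    psi (z + h) * ‖u + g‖ ^ 2 ≤ psi z * ‖u + g‖ ^ 2 + ‖u‖ ^ 2 * (2 * ((starRingEnd ℂ) z * h).re / (1 + ‖z‖ ^ 2) ^ 2)
      + 13 * ‖h‖ ^ 2 + 5 * ‖g‖ ^ 2 := by
  have h1 := psi_diff_le z h hz
  have h2 := psi_abs_le z h hz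
  have h3 : psi (z + h) - psi z ≤ 1 := by
    have := psi_nonneg z
    have := psi_le_one (z + h)
    linarith
  have h4 := nsq u g
  have h5 := re_le u g hu
  have hu2 : ‖u‖ ^ 2 ≤ 1 := by
    have := norm_nonneg u
    nlinarith
  have hu0 : 0 ≤ ‖u‖ ^ 2 := by positivity
  set Δ := psi (z + h) - psi z with hΔ
  set D := 2 * ((starRingEnd ℂ) z * h).re / (1 + ‖z‖ ^ 2) ^ 2 with hD
  set σ := ((starRingEnd ℂ) u * g).re with hσ
  have e : psi (z + h) * ‖u + g‖ ^ 2 = psi z * ‖u + g‖ ^ 2 + Δ * ‖u‖ ^ 2 + 2 * (Δ * σ) + Δ * ‖g‖ ^ 2 := by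
    rw [hΔ, h4]; ring
  have h6 : Δ * ‖u‖ ^ 2 ≤ ‖u‖ ^ 2 * D + 9 * ‖h‖ ^ 2 := by
    have := mul_le_mul_of_nonneg_left h1 hu0
    nlinarith [mul_nonneg (sub_nonneg.2 hu2) (sq_nonneg ‖h‖)]
  have h7 : Δ * σ ≤ 4 * ‖h‖ * ‖g‖ := by
    calc Δ * σ ≤ |Δ * σ| := le_abs_self _
      _ = |Δ| * |σ| := abs_mul _ _
      _ ≤ 4 * ‖h‖ * ‖g‖ := mul_le_mul h2 h5 (abs_nonneg _) (by positivity)
  have h8 : Δ * ‖g‖ ^ 2 ≤ ‖g‖ ^ 2 := by nlinarith [sq_nonneg ‖g‖]
  nlinarith [sq_nonneg (‖h‖ - ‖g‖)]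


/-! ### the remainder `G = F - a₀ - a₁ w` -/

/-- the coefficients of `G` -/
noncomputable def aG (a : ℕ → ℂ) (j : ℕ) : ℂ := if j < 2 then 0 else a j

/-- the remainder -/
noncomputable def GG (F : ℂ → ℂ) (a : ℕ → ℂ) (w : ℂ) : ℂ := F w - a 0 - a 1 * w

lemma holG {F : ℂ → ℂ} {a : ℕ → ℂ} (h : Hol F a) : Hol (GG F a) (aG a) := by
  refine ⟨?_, fun w hw => ?_⟩
  · unfold GG
    exact (h.Fd.sub (differentiableOn_const _)).sub ((differentiableOn_const _).mul differentiableOn_id)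
  · have h1 := h.ser w hw
    have h2 : HasSum (fun j : ℕ => if j = 0 then a 0 else 0) (a 0) := hasSum_ite_eq 0 (a 0)
    have h3 : HasSum (fun j : ℕ => if j = 1 then a 1 * w else 0) (a 1 * w) := hasSum_ite_eq 1 _
    refine ((h1.sub h2).sub h3).congr_fun fun j => ?_
    unfold aG
    rcases j with _ | _ | j
    · simp
    · simp
    · simp

lemma derG {F : ℂ → ℂ} {a : ℕ → ℂ} (h : Hol F a) {w : ℂ} (hw : w ∈ Metric.ball (0 : ℂ) 1) :
    deriv F w = a 1 + deriv (GG F a) w := by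
  have h1 : HasDerivAt F (deriv F w) w := (h.Fd.differentiableAt (Metric.isOpen_ball.mem_nhds hw)).hasDerivAt
  have h2 : HasDerivAt (GG F a) (deriv F w - a 1) w := by
    have h3 := (h1.sub_const (a 0)).sub ((hasDerivAt_id w).const_mul (a 1))
    rw [mul_one] at h3
    exact h3
  rw [h2.deriv]
  ring

lemma sumB {F : ℂ → ℂ} {a : ℕ → ℂ} (h : Hol F a) (h0 : a 0 = 0) {r : ℝ} (hr : r ∈ Ioo (0 : ℝ) 1) :
    Summable fun j : ℕ => ‖a j * (r : ℂ) ^ j‖ := by
  refine Summable.of_nonneg_of_le (fun j => norm_nonneg _) (fun j => ?_) (IF1.sumA h hr.1.le hr.2)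
  rw [norm_mul, norm_pow, Complex.norm_real, Real.norm_eq_abs, abs_of_pos hr.1]
  rcases j with _ | j
  · rw [h0]; simp
  · have h1 : (1 : ℝ) ≤ ((j + 1 : ℕ) : ℝ) := by exact_mod_cast Nat.succ_pos j
    have h2 : 0 ≤ ‖a (j + 1)‖ * r ^ (j + 1) := mul_nonneg (norm_nonneg _) (pow_nonneg hr.1.le _)
    rw [mul_assoc]
    exact le_mul_of_one_le_left h2 h1

lemma serP {F : ℂ → ℂ} {a : ℕ → ℂ} (h : Hol F a) {r : ℝ} (hr : r ∈ Ioo (0 : ℝ) 1) (θ : ℝ) :
    HasSum (fun j : ℕ => a j * (r : ℂ) ^ j * Complex.exp (Complex.I * j * θ)) (F (pc r θ)) := by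
  refine (h.ser _ (IArea.pc_mem hr θ)).congr_fun fun j => ?_
  rw [pc, mul_pow, ← Complex.exp_nat_mul]
  have e : Complex.I * j * θ = j * (Complex.I * θ) := by ring
  rw [e]
  ring

/-- Parseval -/
lemma pars {F : ℂ → ℂ} {a : ℕ → ℂ} (h : Hol F a) (h0 : a 0 = 0) {r : ℝ} (hr : r ∈ Ioo (0 : ℝ) 1) :
    HasSum (fun k : ℕ => 2 * Real.pi * (‖a k‖ ^ 2 * r ^ (2 * k))) (∫ θ in (0 : ℝ)..(2 * Real.pi), ‖F (pc r θ)‖ ^ 2) := by
  obtain ⟨hc, key⟩ := IF1.dbl (fun j : ℕ => a j * (r : ℂ) ^ j) (fun θ => F (pc r θ))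
    (fun θ => ‖F (pc r θ)‖ ^ 2) (sumB h h0 hr) (fun θ => serP h hr θ) (fun θ => rfl)
  have hzero := IF1.red (fun i : ℕ × ℕ => (starRingEnd ℂ) (a i.1 * (r : ℂ) ^ i.1) * (a i.2 * (r : ℂ) ^ i.2)) 0 _ (key 0)
    (fun k => (k, k)) (fun k l hkl => (Prod.ext_iff.1 hkl).1) (fun x => by
    constructor
    · intro hx
      refine ⟨x.1, Prod.ext rfl ?_⟩
      show x.1 = x.2
      omega
    · rintro ⟨k, rfl⟩
      show (k : ℤ) - k = 0
      omega)
  have e1 : fc (fun θ => ((‖F (pc r θ)‖ ^ 2 : ℝ) : ℂ)) 0 =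
      (((1 / (2 * Real.pi)) * ∫ θ in (0 : ℝ)..(2 * Real.pi), ‖F (pc r θ)‖ ^ 2 : ℝ) : ℂ) := by
    rw [fc, Complex.ofReal_mul, ← intervalIntegral.integral_ofReal]
    congr 1
    refine intervalIntegral.integral_congr fun θ _ => ?_
    simp
  rw [e1] at hzero
  have e2 : ∀ k : ℕ, (starRingEnd ℂ) (a k * (r : ℂ) ^ k) * (a k * (r : ℂ) ^ k) =
      ((‖a k‖ ^ 2 * r ^ (2 * k) : ℝ) : ℂ) := by
    intro k
    rw [Complex.conj_mul', norm_mul, norm_pow, Complex.norm_real, Real.norm_eq_abs, abs_of_pos hr.1]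
    push_cast
    ring
  have h2 : HasSum (fun k : ℕ => ((‖a k‖ ^ 2 * r ^ (2 * k) : ℝ) : ℂ))
      (((1 / (2 * Real.pi)) * ∫ θ in (0 : ℝ)..(2 * Real.pi), ‖F (pc r θ)‖ ^ 2 : ℝ) : ℂ) :=
    hzero.congr_fun fun k => (e2 k).symm
  have h3 := (Complex.hasSum_ofReal.1 h2).mul_left (2 * Real.pi)
  have e3 : 2 * Real.pi * (1 / (2 * Real.pi) * ∫ θ in (0 : ℝ)..(2 * Real.pi), ‖F (pc r θ)‖ ^ 2) =
      ∫ θ in (0 : ℝ)..(2 * Real.pi), ‖F (pc r θ)‖ ^ 2 := by
    have : (2 * Real.pi) ≠ 0 := by positivity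
    field_simp
  rw [e3] at h3
  exact h3

lemma ccG (a : ℕ → ℂ) (j : ℕ) : cc (aG a) j = if j < 2 then 0 else cc a j := by
  unfold cc aG
  split_ifs <;> simp

/-- the deficit `1 - |a₁|²` is the tail of the series -/
lemma sumG {a : ℕ → ℂ} (h : HasSum (cc a) 1) : HasSum (cc (aG a)) (1 - ‖a 1‖ ^ 2) := by
  have h3 : HasSum (fun j : ℕ => if j = 1 then ‖a 1‖ ^ 2 else 0) (‖a 1‖ ^ 2) := hasSum_ite_eq 1 _
  refine (h.sub h3).congr_fun fun j => ?_
  rw [ccG]
  rcases j with _ | _ | j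
  · simp [cc]
  · simp [cc]
  · simp

lemma a1_le {a : ℕ → ℂ} (h : HasSum (cc a) 1) : ‖a 1‖ ^ 2 ≤ 1 := by
  have h1 := (sumG h).nonneg fun j => IMU.cc_nonneg _ j
  linarith

lemma intG {F : ℂ → ℂ} {a : ℕ → ℂ} (h : Hol F a) (hs : HasSum (cc a) 1) {r : ℝ} (hr : r ∈ Ioo (0 : ℝ) 1) :
    (∫ θ in (0 : ℝ)..(2 * Real.pi), ‖GG F a (pc r θ)‖ ^ 2) ≤ Real.pi * (1 - ‖a 1‖ ^ 2) := by
  refine hasSum_le (fun k => ?_) (pars (holG h) (by simp [aG]) hr) ((sumG hs).mul_left Real.pi)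
  rw [ccG]
  unfold aG
  split_ifs with hk
  · simp
  · have h1 : (2 : ℝ) ≤ (k : ℝ) := by exact_mod_cast not_lt.1 hk
    have h2 : r ^ (2 * k) ≤ 1 := pow_le_one₀ hr.1.le hr.2.le
    have h3 : 0 ≤ ‖a k‖ ^ 2 := by positivity
    have h4 : ‖a k‖ ^ 2 * r ^ (2 * k) ≤ ‖a k‖ ^ 2 := mul_le_of_le_one_right h3 h2
    unfold cc
    have hp := Real.pi_pos
    have h5 : 2 * (‖a k‖ ^ 2 * r ^ (2 * k)) ≤ k * ‖a k‖ ^ 2 := by nlinarith
    nlinarith

/-- the linear term has mean zero -/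
lemma lin0 {F : ℂ → ℂ} {a : ℕ → ℂ} (h : Hol F a) {r : ℝ} (hr : r ∈ Ioo (0 : ℝ) 1) :
    (∫ θ in (0 : ℝ)..(2 * Real.pi), ((starRingEnd ℂ) (a 1 * pc r θ) * GG F a (pc r θ)).re) = 0 := by
  have hG := holG h
  have key := IF1.fcSum (fun j : ℕ => aG a j * (r : ℂ) ^ j) (fun j => (j : ℤ)) (fun θ => GG F a (pc r θ))
    (sumB hG (by simp [aG]) hr) (fun θ => by
      refine (serP hG hr θ).congr_fun fun j => ?_
      simp) 1
  have h0 : (fun j : ℕ => if (j : ℤ) = 1 then aG a j * (r : ℂ) ^ j else 0) = fun _ => 0 := by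
    funext j
    split_ifs with hj
    · have : j = 1 := by exact_mod_cast hj
      rw [this]
      simp [aG]
    · rfl
  rw [h0] at key
  have h1 : fc (fun θ => GG F a (pc r θ)) 1 = 0 := key.unique hasSum_zero
  unfold fc at h1
  have hpi : ((1 / (2 * Real.pi) : ℝ) : ℂ) ≠ 0 := by
    rw [Complex.ofReal_ne_zero]
    positivity
  have h2 := (mul_eq_zero.1 h1).resolve_left hpi
  have hc : Continuous fun θ : ℝ => (starRingEnd ℂ) (a 1 * pc r θ) * GG F a (pc r θ) := by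
    have c1 : Continuous fun θ : ℝ => GG F a (pc r θ) :=
      hG.Fd.continuousOn.comp_continuous (IArea.cont_pc r) (IArea.pc_mem hr)
    have c2 := IArea.cont_pc r
    exact (Complex.continuous_conj.comp (continuous_const.mul c2)).mul c1
  have h3 : (∫ θ in (0 : ℝ)..(2 * Real.pi), (starRingEnd ℂ) (a 1 * pc r θ) * GG F a (pc r θ)) = 0 := by
    have e : ∀ θ : ℝ, (starRingEnd ℂ) (a 1 * pc r θ) * GG F a (pc r θ) =
        ((starRingEnd ℂ) (a 1) * r) * (GG F a (pc r θ) * Complex.exp (-(Complex.I * ((1 : ℤ) : ℂ) * θ))) := by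
      intro θ
      rw [map_mul, pc, map_mul, Complex.conj_ofReal, ← Complex.exp_conj, map_mul, Complex.conj_I, Complex.conj_ofReal]
      have : -Complex.I * (θ : ℂ) = -(Complex.I * ((1 : ℤ) : ℂ) * θ) := by push_cast; ring
      rw [this]
      ring
    simp only [e]
    rw [intervalIntegral.integral_const_mul, h2, mul_zero]
  have h4 := Complex.reCLM.intervalIntegral_comp_comm (hc.intervalIntegrable (μ := volume) 0 (2 * Real.pi))
  simp only [Complex.reCLM_apply] at h4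
  rw [h4, h3, Complex.zero_re]

lemma rint {F : ℂ → ℂ} {a : ℕ → ℂ} (h : Hol F a) {r : ℝ} (hr : r ∈ Ioo (0 : ℝ) 1) :
    (∫ θ in (0 : ℝ)..(2 * Real.pi), r * ‖deriv F (pc r θ)‖ ^ 2) = Real.pi * Aad (cc a) r := by
  have e : (∫ θ in (0 : ℝ)..(2 * Real.pi), r * ‖deriv F (pc r θ)‖ ^ 2) =
      ∫ θ in (0 : ℝ)..(2 * Real.pi), (1 / r) * Hr F r θ :=
    intervalIntegral.integral_congr fun θ _ => IArea.Hr_eq F hr θ
  rw [e, intervalIntegral.integral_const_mul, IArea.int_Hr pr_F1 h hr, IArea.Aad_eq a hr]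
  ring

/-- value of the weight on a circle -/
noncomputable def pr (s r : ℝ) : ℝ := (s * r) ^ 2 / (1 + (s * r) ^ 2)

lemma psi_pc (u : ℂ) {r : ℝ} (hr : 0 ≤ r) (θ : ℝ) : psi (u * pc r θ) = pr ‖u‖ r := by
  unfold psi pr
  rw [norm_mul, IArea.norm_pc hr]

/-- integration over a circle -/
lemma circ {F : ℂ → ℂ} {a : ℕ → ℂ} (h : Hol F a) (hs : HasSum (cc a) 1) {r : ℝ} (hr : r ∈ Ioo (0 : ℝ) 1) :
    (∫ θ in (0 : ℝ)..(2 * Real.pi), r * (psi (F (pc r θ) - a 0) * ‖deriv F (pc r θ)‖ ^ 2)) ≤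
      pr ‖a 1‖ r * (Real.pi * Aad (cc a) r) + 13 * (Real.pi * (1 - ‖a 1‖ ^ 2)) * r + 5 * (Real.pi * Aad (cc (aG a)) r) := by
  have hG := holG h
  have hu2 := a1_le hs
  have hu : ‖a 1‖ ≤ 1 := by
    have := norm_nonneg (a 1)
    nlinarith
  have c0 := IArea.cont_pc r
  have cF : Continuous fun θ : ℝ => F (pc r θ) := h.Fd.continuousOn.comp_continuous c0 (IArea.pc_mem hr)
  have cdF := IArea.cont_dF h.Fd hr
  have cG : Continuous fun θ : ℝ => GG F a (pc r θ) := hG.Fd.continuousOn.comp_continuous c0 (IArea.pc_mem hr)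
  have cdG := IArea.cont_dF hG.Fd hr
  have cc' : Continuous fun θ : ℝ => ((starRingEnd ℂ) (a 1 * pc r θ) * GG F a (pc r θ)).re :=
    Complex.continuous_re.comp ((Complex.continuous_conj.comp (continuous_const.mul c0)).mul cG)
  set κ := ‖a 1‖ ^ 2 * r * (2 / (1 + (‖a 1‖ * r) ^ 2) ^ 2) with hκ
  have hle : ∀ θ : ℝ, r * (psi (F (pc r θ) - a 0) * ‖deriv F (pc r θ)‖ ^ 2) ≤
      pr ‖a 1‖ r * (r * ‖deriv F (pc r θ)‖ ^ 2) + κ * ((starRingEnd ℂ) (a 1 * pc r θ) * GG F a (pc r θ)).re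
        + 13 * r * ‖GG F a (pc r θ)‖ ^ 2 + 5 * (r * ‖deriv (GG F a) (pc r θ)‖ ^ 2) := by
    intro θ
    have hz : ‖a 1 * pc r θ‖ ≤ 1 := by
      rw [norm_mul, IArea.norm_pc hr.1.le]
      exact mul_le_one₀ hu hr.1.le hr.2.le
    have h1 := ptw (a 1 * pc r θ) (GG F a (pc r θ)) (a 1) (deriv (GG F a) (pc r θ)) hz hu
    rw [← derG h (IArea.pc_mem hr θ), psi_pc _ hr.1.le] at h1
    have e : a 1 * pc r θ + GG F a (pc r θ) = F (pc r θ) - a 0 := by unfold GG; ring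
    rw [e, norm_mul, IArea.norm_pc hr.1.le] at h1
    have h2 := mul_le_mul_of_nonneg_left h1 hr.1.le
    rw [hκ]
    refine h2.trans (le_of_eq ?_)
    ring
  have i1 : IntervalIntegrable (fun θ : ℝ => r * ‖deriv F (pc r θ)‖ ^ 2) volume 0 (2 * Real.pi) :=
    (continuous_const.mul (cdF.norm.pow 2)).intervalIntegrable _ _
  have i2 := cc'.intervalIntegrable (μ := volume) 0 (2 * Real.pi)
  have i3 : IntervalIntegrable (fun θ : ℝ => ‖GG F a (pc r θ)‖ ^ 2) volume 0 (2 * Real.pi) :=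
    (cG.norm.pow 2).intervalIntegrable _ _
  have i4 : IntervalIntegrable (fun θ : ℝ => r * ‖deriv (GG F a) (pc r θ)‖ ^ 2) volume 0 (2 * Real.pi) :=
    (continuous_const.mul (cdG.norm.pow 2)).intervalIntegrable _ _
  have i0 : IntervalIntegrable (fun θ : ℝ => r * (psi (F (pc r θ) - a 0) * ‖deriv F (pc r θ)‖ ^ 2)) volume 0 (2 * Real.pi) :=
    (continuous_const.mul ((psi_cont.comp (cF.sub continuous_const)).mul (cdF.norm.pow 2))).intervalIntegrable _ _
  have hI := intervalIntegral.integral_mono (by positivity : (0 : ℝ) ≤ 2 * Real.pi) i0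
    ((((i1.const_mul (pr ‖a 1‖ r)).add (i2.const_mul κ)).add (i3.const_mul (13 * r))).add (i4.const_mul 5)) hle
  have E1 : (∫ θ in (0 : ℝ)..(2 * Real.pi), pr ‖a 1‖ r * (r * ‖deriv F (pc r θ)‖ ^ 2)) =
      pr ‖a 1‖ r * (Real.pi * Aad (cc a) r) := by
    rw [intervalIntegral.integral_const_mul (pr ‖a 1‖ r), rint h hr]
  have E2 : (∫ θ in (0 : ℝ)..(2 * Real.pi), κ * ((starRingEnd ℂ) (a 1 * pc r θ) * GG F a (pc r θ)).re) = 0 := by
    rw [intervalIntegral.integral_const_mul κ, lin0 h hr, mul_zero]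
  have E3 : (∫ θ in (0 : ℝ)..(2 * Real.pi), 13 * r * ‖GG F a (pc r θ)‖ ^ 2) ≤ 13 * (Real.pi * (1 - ‖a 1‖ ^ 2)) * r := by
    rw [intervalIntegral.integral_const_mul (13 * r)]
    have h6 := mul_le_mul_of_nonneg_left (intG h hs hr) (by linarith [hr.1] : (0 : ℝ) ≤ 13 * r)
    linarith
  have E4 : (∫ θ in (0 : ℝ)..(2 * Real.pi), 5 * (r * ‖deriv (GG F a) (pc r θ)‖ ^ 2)) =
      5 * (Real.pi * Aad (cc (aG a)) r) := by
    rw [intervalIntegral.integral_const_mul (5 : ℝ), rint hG hr]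
  rw [intervalIntegral.integral_add (((i1.const_mul (pr ‖a 1‖ r)).add (i2.const_mul κ)).add (i3.const_mul (13 * r)))
      (i4.const_mul 5),
    intervalIntegral.integral_add ((i1.const_mul (pr ‖a 1‖ r)).add (i2.const_mul κ)) (i3.const_mul (13 * r)),
    intervalIntegral.integral_add (i1.const_mul (pr ‖a 1‖ r)) (i2.const_mul κ), E1, E2, E4] at hI
  linarith

/-- splitting off the first coefficient -/
lemma Aad_split {F : ℂ → ℂ} {a : ℕ → ℂ} (h : Hol F a) {r : ℝ} (hr : r ∈ Ioo (0 : ℝ) 1) :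
    Aad (cc a) r = ‖a 1‖ ^ 2 * (2 * r) + Aad (cc (aG a)) r := by
  have h1 := (IArea.Aad_summable pr_F1 h hr).hasSum
  have h2 : HasSum (fun j : ℕ => if j = 1 then ‖a 1‖ ^ 2 * (2 * r) else 0) (‖a 1‖ ^ 2 * (2 * r)) := hasSum_ite_eq 1 _
  have h3 : HasSum (fun j : ℕ => cc (aG a) j * (2 * j * r ^ (2 * j - 1))) (Aad (cc a) r - ‖a 1‖ ^ 2 * (2 * r)) := by
    refine (h1.sub h2).congr_fun fun j => ?_
    rw [ccG]
    rcases j with _ | _ | j
    · simp [cc]
    · simp [cc]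
    · simp
  have h4 : Aad (cc (aG a)) r = Aad (cc a) r - ‖a 1‖ ^ 2 * (2 * r) := h3.tsum_eq
  rw [h4]
  ring

lemma lintA {F : ℂ → ℂ} {a : ℕ → ℂ} (h : Hol F a) :
    (∫⁻ r in Ioo (0 : ℝ) 1, ENNReal.ofReal (Real.pi * Aad (cc a) r)) =
      ENNReal.ofReal Real.pi * ∑' j : ℕ, ENNReal.ofReal (cc a j) := by
  have e1 : (∫⁻ r in Ioo (0 : ℝ) 1, ENNReal.ofReal (Real.pi * Aad (cc a) r)) =
      ∫⁻ r in Ioo (0 : ℝ) 1, ∑' j : ℕ,
        ENNReal.ofReal Real.pi * ENNReal.ofReal (cc a j * (2 * j * r ^ (2 * j - 1))) := by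
    refine setLIntegral_congr_fun measurableSet_Ioo fun r hr => ?_
    rw [ENNReal.ofReal_mul Real.pi_pos.le, ENNReal.tsum_mul_left]
    congr 1
    unfold Aad
    refine ENNReal.ofReal_tsum_of_nonneg (fun j => ?_) (IArea.Aad_summable pr_F1 h hr)
    have h3 := IArea.cc_nonneg a j
    have h4 := hr.1
    positivity
  rw [e1, lintegral_tsum (fun j => by fun_prop), ← ENNReal.tsum_mul_left]
  refine tsum_congr fun j => ?_
  rw [lintegral_const_mul' _ _ ENNReal.ofReal_ne_top, IArea.lint_pow j (cc a j) (IArea.cc_nonneg a j)]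
  intro hj
  subst hj
  simp [cc]

/-- the explicit radial integral -/
lemma radint (s : ℝ) : (∫ r in (0 : ℝ)..1, pr s r * (s ^ 2 * (2 * r))) = s ^ 2 - Real.log (1 + s ^ 2) := by
  have hd : ∀ r ∈ uIcc (0 : ℝ) 1, HasDerivAt (fun r : ℝ => (s * r) ^ 2 - Real.log (1 + (s * r) ^ 2))
      (pr s r * (s ^ 2 * (2 * r))) r := by
    intro r _
    have h1 : HasDerivAt (fun r : ℝ => (s * r) ^ 2) (2 * (s * r) * s) r := by
      have := ((hasDerivAt_id r).const_mul s).fun_pow 2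
      simpa using this
    have h2 : HasDerivAt (fun r : ℝ => Real.log (1 + (s * r) ^ 2)) (2 * (s * r) * s / (1 + (s * r) ^ 2)) r := by
      refine (h1.const_add 1).log (by positivity)
    refine (h1.sub h2).congr_deriv ?_
    unfold pr
    have h3 : (1 + (s * r) ^ 2) ≠ 0 := by positivity
    field_simp
    ring
  have hc : Continuous fun r : ℝ => pr s r * (s ^ 2 * (2 * r)) := by
    unfold pr
    refine Continuous.mul (Continuous.div (by fun_prop) (by fun_prop) fun r => by positivity) (by fun_prop)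
  rw [intervalIntegral.integral_eq_sub_of_hasDerivAt hd (hc.intervalIntegrable _ _)]
  simp

lemma log_ineq (t : ℝ) (h0 : 0 ≤ t) :
    t - Real.log (1 + t) + (1 - t) * (t / (1 + t)) ≤ 1 - Real.log 2 := by
  have h2 : Real.log (2 / (1 + t)) ≤ 2 / (1 + t) - 1 := Real.log_le_sub_one_of_pos (by positivity)
  rw [Real.log_div (by norm_num) (by positivity)] at h2
  have e : (2 : ℝ) / (1 + t) - 1 = (1 - t) - (1 - t) * (t / (1 + t)) := by
    have : (1 + t) ≠ 0 := by positivity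
    field_simp
    ring
  rw [e] at h2
  linarith

/-- change of variables and polar coordinates -/
lemma covp {F : ℂ → ℂ} (hd : DifferentiableOn ℂ F (Metric.ball 0 1)) (hinj : InjOn F (Metric.ball 0 1)) (g : ℂ → ENNReal)
    (hm : AEMeasurable (fun w => g (F w)) (volume.restrict (Metric.ball (0 : ℂ) 1))) :
    (∫⁻ z in F '' (Metric.ball 0 1), g z) = ∫⁻ r in Ioo (0 : ℝ) 1, ∫⁻ θ in Ioo (0 : ℝ) (2 * Real.pi),
      ENNReal.ofReal (r * ‖deriv F (pc r θ)‖ ^ 2) * g (F (pc r θ)) := by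
  rw [IPC.cov hd hinj g]
  have hdm : AEMeasurable (fun w => ENNReal.ofReal (‖deriv F w‖ ^ 2))
      (volume.restrict (Metric.ball (0 : ℂ) 1)) := by
    have h1 : ContinuousOn (deriv F) (Metric.ball 0 1) :=
      (hd.deriv Metric.isOpen_ball).continuousOn
    have h2 : ContinuousOn (fun w => ENNReal.ofReal (‖deriv F w‖ ^ 2)) (Metric.ball 0 1) :=
      ENNReal.continuous_ofReal.comp_continuousOn ((h1.norm).pow 2)
    exact h2.aemeasurable Metric.isOpen_ball.measurableSet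
  have hp := IPC.polar (hdm.mul hm)
  simp only [Pi.mul_apply] at hp
  rw [hp]
  refine setLIntegral_congr_fun measurableSet_Ioo (fun r hr => ?_)
  refine lintegral_congr (fun θ => ?_)
  rw [← mul_assoc, ← ENNReal.ofReal_mul hr.1.le]

lemma lint {f : ℝ → ℝ} (hf : Continuous f) (h0 : ∀ θ, 0 ≤ f θ) :
    (∫⁻ θ in Ioo (0 : ℝ) (2 * Real.pi), ENNReal.ofReal (f θ)) = ENNReal.ofReal (∫ θ in (0 : ℝ)..(2 * Real.pi), f θ) := by
  have hint : Integrable f (volume.restrict (Ioo (0 : ℝ) (2 * Real.pi))) :=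
    (hf.integrableOn_Icc (a := (0 : ℝ)) (b := 2 * Real.pi)).mono_set Ioo_subset_Icc_self
  rw [← ofReal_integral_eq_lintegral_ofReal hint (ae_of_all _ h0), ← integral_Ioc_eq_integral_Ioo,
    ← intervalIntegral.integral_of_le (by positivity)]

lemma lint1 {f : ℝ → ℝ} (hf : Continuous f) (h0 : ∀ r ∈ Ioo (0 : ℝ) 1, 0 ≤ f r) :
    (∫⁻ r in Ioo (0 : ℝ) 1, ENNReal.ofReal (f r)) = ENNReal.ofReal (∫ r in (0 : ℝ)..1, f r) := by
  have hint : Integrable f (volume.restrict (Ioo (0 : ℝ) 1)) :=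
    (hf.integrableOn_Icc (a := (0 : ℝ)) (b := 1)).mono_set Ioo_subset_Icc_self
  rw [← ofReal_integral_eq_lintegral_ofReal hint ((ae_restrict_iff' measurableSet_Ioo).2 (ae_of_all _ h0)),
    ← integral_Ioc_eq_integral_Ioo, ← intervalIntegral.integral_of_le zero_le_one]

lemma pr_nonneg (s r : ℝ) : 0 ≤ pr s r := by unfold pr; positivity

lemma pr_cont (s : ℝ) : Continuous (pr s) := by
  unfold pr
  exact Continuous.div (by fun_prop) (by fun_prop) fun r => by positivity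

lemma pr_mono (s : ℝ) {r : ℝ} (hr : r ∈ Ioo (0 : ℝ) 1) : pr s r ≤ s ^ 2 / (1 + s ^ 2) := by
  unfold pr
  rw [div_le_div_iff₀ (by positivity) (by positivity)]
  have h1 : (s * r) ^ 2 ≤ s ^ 2 := by
    rw [mul_pow]
    exact mul_le_of_le_one_right (by positivity) (pow_le_one₀ hr.1.le hr.2.le)
  nlinarith [sq_nonneg s, sq_nonneg (s * r)]

lemma radl (s : ℝ) : (∫⁻ r in Ioo (0 : ℝ) 1, ENNReal.ofReal (Real.pi * (pr s r * (s ^ 2 * (2 * r))))) =
    ENNReal.ofReal (Real.pi * (s ^ 2 - Real.log (1 + s ^ 2))) := by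
  have hc : Continuous fun r : ℝ => Real.pi * (pr s r * (s ^ 2 * (2 * r))) := by
    have := pr_cont s
    fun_prop
  rw [lint1 hc (fun r hr => by
    have h1 := pr_nonneg s r
    have h2 := hr.1
    positivity), intervalIntegral.integral_const_mul, radint]

lemma tsumG {a : ℕ → ℂ} (hs : HasSum (cc a) 1) : (∑' j : ℕ, ENNReal.ofReal (cc (aG a) j)) = ENNReal.ofReal (1 - ‖a 1‖ ^ 2) := by
  rw [← (sumG hs).tsum_eq, ENNReal.ofReal_tsum_of_nonneg (fun j => IMU.cc_nonneg _ j) (sumG hs).summable]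

/-- the upper bound for `∫_Ω ψ(z - a₀)` -/
lemma upper {F : ℂ → ℂ} {a : ℕ → ℂ} (h : Hol F a) (hs : HasSum (cc a) 1) :
    (∫⁻ r in Ioo (0 : ℝ) 1, ∫⁻ θ in Ioo (0 : ℝ) (2 * Real.pi),
      ENNReal.ofReal (r * ‖deriv F (pc r θ)‖ ^ 2) * ENNReal.ofReal (psi (F (pc r θ) - a 0))) ≤
      ENNReal.ofReal (Real.pi * (1 - Real.log 2) + 12 * Real.pi * (1 - ‖a 1‖ ^ 2)) := by
  have hG := holG h
  set s := ‖a 1‖ with hsdef
  have hs2 := a1_le hs
  rw [← hsdef] at hs2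
  have hs0 : 0 ≤ s := norm_nonneg _
  have hp := Real.pi_pos
  set P := s ^ 2 / (1 + s ^ 2) with hP
  have hP0 : 0 ≤ P := by positivity
  have step : ∀ r ∈ Ioo (0 : ℝ) 1, (∫⁻ θ in Ioo (0 : ℝ) (2 * Real.pi),
      ENNReal.ofReal (r * ‖deriv F (pc r θ)‖ ^ 2) * ENNReal.ofReal (psi (F (pc r θ) - a 0))) ≤
      ENNReal.ofReal (Real.pi * (pr s r * (s ^ 2 * (2 * r)))) +
        ENNReal.ofReal (P + 5) * ENNReal.ofReal (Real.pi * Aad (cc (aG a)) r) +
        ENNReal.ofReal (13 * (Real.pi * (1 - s ^ 2)) * r) := by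
    intro r hr
    have c0 := IArea.cont_pc r
    have cF : Continuous fun θ : ℝ => F (pc r θ) := h.Fd.continuousOn.comp_continuous c0 (IArea.pc_mem hr)
    have cdF := IArea.cont_dF h.Fd hr
    have hc : Continuous fun θ : ℝ => r * (psi (F (pc r θ) - a 0) * ‖deriv F (pc r θ)‖ ^ 2) :=
      continuous_const.mul ((psi_cont.comp (cF.sub continuous_const)).mul (cdF.norm.pow 2))
    have e1 : (∫⁻ θ in Ioo (0 : ℝ) (2 * Real.pi),
        ENNReal.ofReal (r * ‖deriv F (pc r θ)‖ ^ 2) * ENNReal.ofReal (psi (F (pc r θ) - a 0))) =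
        ∫⁻ θ in Ioo (0 : ℝ) (2 * Real.pi), ENNReal.ofReal (r * (psi (F (pc r θ) - a 0) * ‖deriv F (pc r θ)‖ ^ 2)) := by
      refine lintegral_congr fun θ => ?_
      rw [← ENNReal.ofReal_mul (mul_nonneg hr.1.le (sq_nonneg _))]
      congr 1
      ring
    have hA0 : 0 ≤ Real.pi * Aad (cc (aG a)) r := mul_nonneg hp.le (IArea.Aad_nonneg _ hr)
    have hpr := pr_nonneg s r
    have h13 : 0 ≤ 13 * (Real.pi * (1 - s ^ 2)) * r := by
      have := hr.1
      have : 0 ≤ 1 - s ^ 2 := by linarith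
      positivity
    have hf0 : 0 ≤ Real.pi * (pr s r * (s ^ 2 * (2 * r))) := by
      have := hr.1
      positivity
    rw [e1, lint hc (fun θ => mul_nonneg hr.1.le (mul_nonneg (psi_nonneg _) (sq_nonneg _))),
      ← ENNReal.ofReal_mul (by positivity : (0 : ℝ) ≤ P + 5), ← ENNReal.ofReal_add hf0 (mul_nonneg (by positivity) hA0),
      ← ENNReal.ofReal_add (add_nonneg hf0 (mul_nonneg (by positivity) hA0)) h13]
    refine ENNReal.ofReal_le_ofReal ((circ h hs hr).trans ?_)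
    rw [← hsdef, Aad_split h hr, ← hsdef]
    have h1 := mul_le_mul_of_nonneg_right (pr_mono s hr) hA0
    rw [← hP] at h1
    linarith
  have hmA : Measurable fun r : ℝ => ENNReal.ofReal (Real.pi * (pr s r * (s ^ 2 * (2 * r)))) := by
    have := (pr_cont s).measurable
    fun_prop
  have hmC : Measurable fun r : ℝ => ENNReal.ofReal (13 * (Real.pi * (1 - s ^ 2)) * r) := by fun_prop
  have e2 : (∫⁻ r in Ioo (0 : ℝ) 1, ENNReal.ofReal (13 * (Real.pi * (1 - s ^ 2)) * r)) =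
      ENNReal.ofReal (13 * (Real.pi * (1 - s ^ 2)) / 2) := by
    rw [lint1 (by fun_prop) (fun r hr => by
      have := hr.1
      have : 0 ≤ 1 - s ^ 2 := by linarith
      positivity), intervalIntegral.integral_const_mul, integral_id]
    congr 1
    ring
  refine (setLIntegral_mono' measurableSet_Ioo step).trans ?_
  rw [lintegral_add_right _ hmC, lintegral_add_left hmA, lintegral_const_mul' _ _ ENNReal.ofReal_ne_top, radl, lintA hG,
    tsumG hs, e2, ← hsdef, ← ENNReal.ofReal_mul hp.le, ← ENNReal.ofReal_mul (by positivity : (0 : ℝ) ≤ P + 5)]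
  have hlog := log_ineq (s ^ 2) (by positivity)
  rw [← hP] at hlog
  have hl0 : 0 ≤ Real.pi * (s ^ 2 - Real.log (1 + s ^ 2)) := by
    have : Real.log (1 + s ^ 2) ≤ 1 + s ^ 2 - 1 := Real.log_le_sub_one_of_pos (by positivity)
    refine mul_nonneg hp.le (by linarith)
  have he0 : 0 ≤ 1 - s ^ 2 := by linarith
  rw [← ENNReal.ofReal_add hl0 (by positivity), ← ENNReal.ofReal_add (by positivity) (by positivity)]
  refine ENNReal.ofReal_le_ofReal ?_
  have h3 := mul_le_mul_of_nonneg_left hlog hp.le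
  have h4 : 0 ≤ Real.pi * (1 - s ^ 2) := by positivity
  nlinarith

lemma discI : (∫⁻ z in Metric.ball (0 : ℂ) 1, ENNReal.ofReal (psi z)) = ENNReal.ofReal (Real.pi * (1 - Real.log 2)) := by
  have hm : AEMeasurable (fun z : ℂ => ENNReal.ofReal (psi z)) (volume.restrict (Metric.ball (0 : ℂ) 1)) :=
    (ENNReal.measurable_ofReal.comp psi_cont.measurable).aemeasurable
  have h1 := radl 1
  have e0 : (1 : ℝ) ^ 2 - Real.log (1 + 1 ^ 2) = 1 - Real.log 2 := by norm_num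
  rw [e0] at h1
  rw [IPC.polar hm, ← h1]
  refine setLIntegral_congr_fun measurableSet_Ioo fun r hr => ?_
  have e1 : ∀ θ : ℝ, ENNReal.ofReal r * ENNReal.ofReal (psi (pc r θ)) = ENNReal.ofReal (r * pr 1 r) := by
    intro θ
    have e2 := psi_pc 1 hr.1.le θ
    rw [one_mul, norm_one] at e2
    rw [e2, ENNReal.ofReal_mul hr.1.le]
  simp only [e1]
  rw [lintegral_const, Measure.restrict_apply MeasurableSet.univ, univ_inter, Real.volume_Ioo, sub_zero,
    ← ENNReal.ofReal_mul (mul_nonneg hr.1.le (pr_nonneg _ _))]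
  congr 1
  ring

lemma mn (n : ℝ) (h0 : 1 ≤ n) : min |n - 1| 1 ≤ 6 * (n ^ 2 / (1 + n ^ 2) - 1 / 2) := by
  have e : 6 * (n ^ 2 / (1 + n ^ 2) - 1 / 2) = 3 * (n ^ 2 - 1) / (1 + n ^ 2) := by
    have : 1 + n ^ 2 ≠ 0 := by positivity
    field_simp
    ring
  rw [e, le_div_iff₀ (by positivity), abs_of_nonneg (by linarith)]
  rcases le_total n 2 with h1 | h1
  · have h2 : min (n - 1) 1 ≤ n - 1 := min_le_left _ _
    have h3 : min (n - 1) 1 * (1 + n ^ 2) ≤ (n - 1) * (1 + n ^ 2) := mul_le_mul_of_nonneg_right h2 (by positivity)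
    nlinarith [mul_nonneg (sub_nonneg.2 h0) (sub_nonneg.2 h1)]
  · have h2 : min (n - 1) 1 ≤ 1 := min_le_right _ _
    have h3 : min (n - 1) 1 * (1 + n ^ 2) ≤ 1 * (1 + n ^ 2) := mul_le_mul_of_nonneg_right h2 (by positivity)
    nlinarith

lemma mn' (n : ℝ) (h : 0 ≤ n) (h0 : n ≤ 1) : min |n - 1| 1 ≤ -(6 * (n ^ 2 / (1 + n ^ 2) - 1 / 2)) := by
  have e : -(6 * (n ^ 2 / (1 + n ^ 2) - 1 / 2)) = 3 * (1 - n ^ 2) / (1 + n ^ 2) := by
    have : 1 + n ^ 2 ≠ 0 := by positivity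
    field_simp
    ring
  rw [e, le_div_iff₀ (by positivity), abs_of_nonpos (by linarith)]
  have h2 : min (-(n - 1)) 1 ≤ -(n - 1) := min_le_left _ _
  have h3 : min (-(n - 1)) 1 * (1 + n ^ 2) ≤ -(n - 1) * (1 + n ^ 2) := mul_le_mul_of_nonneg_right h2 (by positivity)
  nlinarith [mul_nonneg (sub_nonneg.2 h0) h]

/-- the weight relative to the centre `p`, minus one half -/
noncomputable def ph (p z : ℂ) : ℝ := psi (z - p) - 1 / 2

lemma ph_cont (p : ℂ) : Continuous (ph p) := by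
  unfold ph
  exact (psi_cont.comp (continuous_id.sub continuous_const)).sub continuous_const

lemma ph_bd (p z : ℂ) : ‖ph p z‖ ≤ 1 := by
  unfold ph
  have h1 := psi_nonneg (z - p)
  have h2 := psi_le_one (z - p)
  rw [Real.norm_eq_abs, abs_le]
  constructor <;> linarith

lemma ph_int (p : ℂ) {S : Set ℂ} (hS : volume S ≠ ⊤) : IntegrableOn (ph p) S := by
  refine Measure.integrableOn_of_bounded (M := 1) hS (ph_cont p).aestronglyMeasurable ?_
  exact ae_of_all _ (ph_bd p)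

lemma psi_int (p : ℂ) {S : Set ℂ} (hS : volume S ≠ ⊤) : IntegrableOn (fun z => psi (z - p)) S := by
  refine Measure.integrableOn_of_bounded (M := 1) hS
    (psi_cont.comp (continuous_id.sub continuous_const)).aestronglyMeasurable ?_
  refine ae_of_all _ fun z => ?_
  have h1 := psi_nonneg (z - p)
  rw [Real.norm_eq_abs, abs_of_nonneg h1]
  exact psi_le_one _

/-- comparison of the symmetric difference with the difference of the integrals -/
lemma symd (p : ℂ) {Ω : Set ℂ} (hm : MeasurableSet Ω) (hv : volume Ω ≠ ⊤) :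
    (∫ z in symmDiff Ω (Metric.ball p 1), min |‖z - p‖ - 1| 1) ≤
      6 * ((∫ z in Ω, ph p z) - ∫ z in Metric.ball p 1, ph p z) := by
  set D := Metric.ball p 1 with hD
  have hDm : MeasurableSet D := Metric.isOpen_ball.measurableSet
  have hDv : volume D ≠ ⊤ := measure_ball_lt_top.ne
  have h1v : volume (Ω \ D) ≠ ⊤ := ne_top_of_le_ne_top hv (measure_mono sdiff_subset)
  have h2v : volume (D \ Ω) ≠ ⊤ := ne_top_of_le_ne_top hDv (measure_mono sdiff_subset)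
  have hc : Continuous fun z : ℂ => min |‖z - p‖ - 1| 1 := by fun_prop
  have hbd : ∀ z : ℂ, ‖min |‖z - p‖ - 1| 1‖ ≤ 1 := by
    intro z
    rw [Real.norm_eq_abs, abs_of_nonneg (le_min (abs_nonneg _) zero_le_one)]
    exact min_le_right _ _
  have hI : ∀ S : Set ℂ, volume S ≠ ⊤ → IntegrableOn (fun z : ℂ => min |‖z - p‖ - 1| 1) S := fun S hS =>
    Measure.integrableOn_of_bounded (M := 1) hS hc.aestronglyMeasurable (ae_of_all _ hbd)
  have e1 : (∫ z in symmDiff Ω D, min |‖z - p‖ - 1| 1) =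
      (∫ z in Ω \ D, min |‖z - p‖ - 1| 1) + ∫ z in D \ Ω, min |‖z - p‖ - 1| 1 := by
    rw [Set.symmDiff_def]
    exact setIntegral_union disjoint_sdiff_sdiff (hDm.diff hm) (hI _ h1v) (hI _ h2v)
  have e2 : (∫ z in Ω \ D, min |‖z - p‖ - 1| 1) ≤ ∫ z in Ω \ D, 6 * ph p z := by
    refine setIntegral_mono_on (hI _ h1v) ((ph_int p h1v).const_mul 6) (hm.diff hDm) fun z hz => ?_
    have hn : 1 ≤ ‖z - p‖ := by
      have := hz.2
      rw [hD, mem_ball_iff_norm, not_lt] at this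
      exact this
    exact mn _ hn
  have e3 : (∫ z in D \ Ω, min |‖z - p‖ - 1| 1) ≤ ∫ z in D \ Ω, -(6 * ph p z) := by
    refine setIntegral_mono_on (hI _ h2v) ((ph_int p h2v).const_mul 6).neg (hDm.diff hm) fun z hz => ?_
    have hn : ‖z - p‖ ≤ 1 := by
      have := hz.1
      rw [hD, mem_ball_iff_norm] at this
      exact this.le
    exact mn' _ (norm_nonneg _) hn
  have e4 : (∫ z in Ω \ D, ph p z) + (∫ z in Ω ∩ D, ph p z) = ∫ z in Ω, ph p z := by
    rw [add_comm]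
    exact integral_inter_add_sdiff hDm (ph_int p hv)
  have e5 : (∫ z in D \ Ω, ph p z) + (∫ z in D ∩ Ω, ph p z) = ∫ z in D, ph p z := by
    rw [add_comm]
    exact integral_inter_add_sdiff hm (ph_int p hDv)
  rw [integral_const_mul] at e2
  rw [integral_neg, integral_const_mul] at e3
  rw [inter_comm D Ω] at e5
  rw [e1]
  linarith

/-- the main inequality of this file -/
theorem main {Ω : Set ℂ} {F : ℂ → ℂ} {a : ℕ → ℂ} (h : Hol F a) (hinj : InjOn F (Metric.ball 0 1))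
    (himg : F '' Metric.ball 0 1 = Ω) (ho : IsOpen Ω) (hs' : (∑' j : ℕ, ENNReal.ofReal (cc a j)) = 1) :
    (∫ z in symmDiff Ω (Metric.ball (a 0) 1), min |‖z - a 0‖ - 1| 1) ≤ 72 * Real.pi * (1 - ‖a 1‖ ^ 2) := by
  have hs := IMU.hasSum_cc hs'
  have hp := Real.pi_pos
  have hm := ho.measurableSet
  have cF : ContinuousOn F (Metric.ball 0 1) := h.Fd.continuousOn
  have hvol : volume Ω = ENNReal.ofReal Real.pi := by
    have h1 := covp h.Fd hinj (fun _ => 1) aemeasurable_const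
    rw [himg, setLIntegral_one] at h1
    rw [h1]
    have h2 := lintA h
    rw [hs', mul_one] at h2
    rw [← h2]
    refine setLIntegral_congr_fun measurableSet_Ioo fun r hr => ?_
    simp only [mul_one]
    exact IArea.lint pr_F1 h hr
  have hv : volume Ω ≠ ⊤ := by rw [hvol]; exact ENNReal.ofReal_ne_top
  have hvr : volume.real Ω = Real.pi := by
    rw [Measure.real, hvol, ENNReal.toReal_ofReal hp.le]
  have hDv : volume (Metric.ball (a 0) 1) ≠ ⊤ := measure_ball_lt_top.ne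
  have hDr : volume.real (Metric.ball (a 0) 1) = Real.pi := by
    rw [Measure.real, Complex.volume_ball]
    simp
  have hlog : 0 ≤ 1 - Real.log 2 := by
    have : Real.log 2 ≤ 2 - 1 := Real.log_le_sub_one_of_pos (by norm_num)
    linarith
  have he0 : 0 ≤ 1 - ‖a 1‖ ^ 2 := by
    have := a1_le hs
    linarith
  -- the integral over `Ω`
  have hU : (∫ z in Ω, psi (z - a 0)) ≤ Real.pi * (1 - Real.log 2) + 12 * Real.pi * (1 - ‖a 1‖ ^ 2) := by
    have hcm : AEMeasurable (fun w => ENNReal.ofReal (psi (F w - a 0))) (volume.restrict (Metric.ball (0 : ℂ) 1)) := by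
      have h1 : ContinuousOn (fun w => ENNReal.ofReal (psi (F w - a 0))) (Metric.ball 0 1) :=
        ENNReal.continuous_ofReal.comp_continuousOn (psi_cont.comp_continuousOn (cF.sub continuousOn_const))
      exact h1.aemeasurable Metric.isOpen_ball.measurableSet
    have h1 := covp h.Fd hinj (fun z => ENNReal.ofReal (psi (z - a 0))) hcm
    rw [himg] at h1
    have h2 := upper h hs
    rw [← h1] at h2
    rw [integral_eq_lintegral_of_nonneg_ae (ae_of_all _ fun z => psi_nonneg _) (psi_int (a 0) hv).aestronglyMeasurable]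
    exact ENNReal.toReal_le_of_le_ofReal (by positivity) h2
  -- the integral over the disc
  have hDI : (∫ z in Metric.ball (a 0) 1, psi (z - a 0)) = Real.pi * (1 - Real.log 2) := by
    rw [integral_eq_lintegral_of_nonneg_ae (ae_of_all _ fun z => psi_nonneg _) (psi_int (a 0) hDv).aestronglyMeasurable]
    have h1 : (∫⁻ z in Metric.ball (a 0) 1, ENNReal.ofReal (psi (z - a 0))) =
        ∫⁻ z in Metric.ball (0 : ℂ) 1, ENNReal.ofReal (psi z) := by
      have h2 : MeasurePreserving (fun z : ℂ => z - a 0) volume volume := measurePreserving_sub_right volume (a 0)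
      have h3 := h2.setLIntegral_comp_preimage (s := Metric.ball (0 : ℂ) 1) Metric.isOpen_ball.measurableSet
        (f := fun z => ENNReal.ofReal (psi z)) (ENNReal.measurable_ofReal.comp psi_cont.measurable)
      have h4 : (fun z : ℂ => z - a 0) ⁻¹' Metric.ball (0 : ℂ) 1 = Metric.ball (a 0) 1 := by
        ext z
        rw [mem_preimage, mem_ball_zero_iff, mem_ball_iff_norm]
      rw [h4] at h3
      exact h3
    rw [h1, discI, ENNReal.toReal_ofReal (mul_nonneg hp.le hlog)]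
  have e1 : (∫ z in Ω, ph (a 0) z) = (∫ z in Ω, psi (z - a 0)) - Real.pi * (1 / 2) := by
    unfold ph
    rw [integral_sub (psi_int (a 0) hv) (integrableOn_const hv), setIntegral_const, hvr, smul_eq_mul]
  have e2 : (∫ z in Metric.ball (a 0) 1, ph (a 0) z) = (∫ z in Metric.ball (a 0) 1, psi (z - a 0)) - Real.pi * (1 / 2) := by
    unfold ph
    rw [integral_sub (psi_int (a 0) hDv) (integrableOn_const hDv), setIntegral_const, hDr, smul_eq_mul]
  refine (symd (a 0) hm hv).trans ?_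
  rw [e1, e2, hDI]
  linarith

end Dfc

end Pool.Agent.MFK.NF
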