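import Pool.Agent.Work.MP_8826fd_mp.CD.Stmts
import Pool.Agent.Work.MP_8826fd_mp.NF.I_Den

/-!
# MP_8826fd_mp, block CD, item Den2: energy density of the test function
-/

set_option autoImplicit false

namespace Pool.Agent.MFK.CD

open MeasureTheory Set Filter Topology Pool.Agent.MFK.NF

open Pool.Agent.MFK.NF.IDen

theorem pr_Den2 : StDen2 := by
  intro Ω f F a φ B V hC hG hV
  have hfc : ContDiffOn ℝ 1 f Ω := (hC.fd.contDiffOn hC.opn).restrict_scalars ℝ
  have hφf : ContDiffOn ℝ 1 (fun z => φ (f z)) Ω := hG.sm.comp hfc hC.fm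
  have hU : ContDiffOn ℝ 1 (UV B V φ f) Ω := by
    unfold UV
    refine ContDiffOn.mul (hV.comp_contDiffOn hfc) ?_
    refine ContDiffOn.cexp ?_
    refine contDiffOn_const.mul ?_
    exact Complex.ofRealCLM.contDiff.comp_contDiffOn (contDiffOn_const.mul hφf)
  refine ⟨hU, ?_⟩
  intro r hr θ
  set w := pc r θ with hw
  have hwb : w ∈ Metric.ball (0 : ℂ) 1 := pc_mem hr θ
  set z := F w with hz
  have hzΩ : z ∈ Ω := hC.Fm hwb
  set e := Complex.exp (Complex.I * θ) with he
  have hen : ‖e‖ = 1 := by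
    rw [he, mul_comm, Complex.norm_exp_ofReal_mul_I]
  have hfz : f z = w := hC.fF w hwb
  -- derivatives
  have hUd : HasFDerivAt (UV B V φ f) (fderiv ℝ (UV B V φ f) z) z :=
    ((hU.contDiffAt (hC.opn.mem_nhds hzΩ)).differentiableAt (by norm_num)).hasFDerivAt
  have hFd : HasDerivAt F (deriv F w) w :=
    (hC.Fd.differentiableAt (Metric.isOpen_ball.mem_nhds hwb)).hasDerivAt
  have hFr : HasFDerivAt F ((ContinuousLinearMap.toSpanSingleton ℂ (deriv F w)).restrictScalars ℝ) w :=
    hFd.hasFDerivAt.restrictScalars ℝ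
  have hcomp := HasFDerivAt.comp w (show HasFDerivAt (UV B V φ f)
    (fderiv ℝ (UV B V φ f) z) (F w) from hUd) hFr
  have hφd : HasFDerivAt φ (fderiv ℝ φ w) w :=
    ((hG.sm.contDiffAt (Metric.isOpen_ball.mem_nhds hwb)).differentiableAt
      (by norm_num)).hasFDerivAt
  have hvd : HasFDerivAt V (fderiv ℝ V w) w :=
    (hV.differentiable (by norm_num) w).hasFDerivAt
  set ph : ℂ := Complex.exp (Complex.I * ((B * φ w : ℝ) : ℂ)) with hph
  have hphn : ‖ph‖ = 1 := by
    rw [hph, mul_comm, Complex.norm_exp_ofReal_mul_I]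
  have hdir : ∀ h : ℂ, fderiv ℝ (UV B V φ f) z (deriv F w * h) =
      ph * (fderiv ℝ V w h + Complex.I * ((B * fderiv ℝ φ w h : ℝ) : ℂ) * V w) := by
    intro h
    -- compare along the line `w + s h`
    have hline : HasDerivAt (fun s : ℝ => w + (s : ℂ) * h) h 0 := by
      have := ((Complex.ofRealCLM.hasDerivAt (x := (0 : ℝ))).mul_const h).const_add w
      simpa using this
    have hw0 : w + ((0 : ℝ) : ℂ) * h = w := by simp
    have e1 : HasDerivAt (fun s : ℝ => UV B V φ f (F (w + (s : ℂ) * h)))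
        (fderiv ℝ (UV B V φ f) z (deriv F w * h)) 0 := by
      have h1 : HasFDerivAt (UV B V φ f ∘ F) ((fderiv ℝ (UV B V φ f) z).comp
          ((ContinuousLinearMap.toSpanSingleton ℂ (deriv F w)).restrictScalars ℝ))
          (w + ((0 : ℝ) : ℂ) * h) := by rw [hw0]; exact hcomp
      have h2 := h1.comp_hasDerivAt (0 : ℝ) hline
      have h3 : ((fderiv ℝ (UV B V φ f) z).comp
          ((ContinuousLinearMap.toSpanSingleton ℂ (deriv F w)).restrictScalars ℝ)) h =
          fderiv ℝ (UV B V φ f) z (deriv F w * h) := by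
        simp [mul_comm]
      rw [h3] at h2
      exact h2
    have e2 : HasDerivAt (fun s : ℝ => V (w + (s : ℂ) * h) *
        Complex.exp (Complex.I * ((B * φ (w + (s : ℂ) * h) : ℝ) : ℂ)))
        (ph * (fderiv ℝ V w h +
          Complex.I * ((B * fderiv ℝ φ w h : ℝ) : ℂ) * V w)) 0 := by
      have h1 : HasDerivAt (fun s : ℝ => V (w + (s : ℂ) * h)) (fderiv ℝ V w h) 0 := by
        have h2 : HasFDerivAt V (fderiv ℝ V w) (w + ((0 : ℝ) : ℂ) * h) := by
          rw [hw0]; exact hvd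
        exact h2.comp_hasDerivAt (0 : ℝ) hline
      have h3 : HasDerivAt (fun s : ℝ => φ (w + (s : ℂ) * h)) (fderiv ℝ φ w h) 0 := by
        have h2 : HasFDerivAt φ (fderiv ℝ φ w) (w + ((0 : ℝ) : ℂ) * h) := by
          rw [hw0]; exact hφd
        exact h2.comp_hasDerivAt (0 : ℝ) hline
      have h4 : HasDerivAt (fun s : ℝ => Complex.exp (Complex.I *
          ((B * φ (w + (s : ℂ) * h) : ℝ) : ℂ)))
          (Complex.exp (Complex.I * ((B * φ (w + ((0 : ℝ) : ℂ) * h) : ℝ) : ℂ)) *
            (Complex.I * ((B * fderiv ℝ φ w h : ℝ) : ℂ))) 0 :=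
        (((h3.const_mul B).ofReal_comp).const_mul Complex.I).cexp
      have h5 := h1.mul h4
      rw [hw0] at h5
      have h6 : fderiv ℝ V w h * Complex.exp (Complex.I * ((B * φ w : ℝ) : ℂ)) +
          V w * (Complex.exp (Complex.I * ((B * φ w : ℝ) : ℂ)) *
            (Complex.I * ((B * fderiv ℝ φ w h : ℝ) : ℂ))) =
          ph * (fderiv ℝ V w h +
            Complex.I * ((B * fderiv ℝ φ w h : ℝ) : ℂ) * V w) := by
        rw [hph]; ring
      rw [h6] at h5
      exact h5
    have e3 : (fun s : ℝ => UV B V φ f (F (w + (s : ℂ) * h))) =ᶠ[𝓝 (0 : ℝ)]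
        (fun s : ℝ => V (w + (s : ℂ) * h) *
        Complex.exp (Complex.I * ((B * φ (w + (s : ℂ) * h) : ℝ) : ℂ))) := by
      have h1 : ContinuousAt (fun s : ℝ => w + (s : ℂ) * h) 0 := hline.continuousAt
      have h2 : ∀ᶠ s : ℝ in 𝓝 (0 : ℝ), w + (s : ℂ) * h ∈ Metric.ball (0 : ℂ) 1 := by
        refine h1.eventually_mem (Metric.isOpen_ball.mem_nhds ?_)
        simpa using hwb
      filter_upwards [h2] with s hs
      unfold UV
      rw [hC.fF _ hs]
    exact (e1.congr_of_eventuallyEq e3.symm).unique e2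
  have hUz : UV B V φ f z = V w * ph := by
    unfold UV
    rw [hfz]
  -- the real linear map L
  have key : ∀ h : ℂ, fderiv ℝ (UV B V φ f) z (deriv F w * h) -
      Complex.I * ((B * AA z (deriv F w * h) : ℝ) : ℂ) * UV B V φ f z =
      ph * (fderiv ℝ V w h -
        Complex.I * ((B * (gg F w * ((starRingEnd ℂ) w * h).im) : ℝ) : ℂ) * V w) := by
    intro h
    rw [hdir h, hUz, hG.der w hwb h]
    push_cast
    ring
  set L : ℂ → ℂ := fun h => fderiv ℝ (UV B V φ f) z h -
      Complex.I * ((B * AA z h : ℝ) : ℂ) * UV B V φ f z with hLdef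
  have hLlin : ∀ a b : ℝ, L (a + b * Complex.I) = a * L 1 + b * L Complex.I := by
    intro a b
    have h1 : fderiv ℝ (UV B V φ f) z ((a : ℂ) + b * Complex.I) =
        a * fderiv ℝ (UV B V φ f) z 1 + b * fderiv ℝ (UV B V φ f) z Complex.I := by
      have h2 : (a : ℂ) + b * Complex.I = a • (1 : ℂ) + b • Complex.I := by
        rw [Complex.real_smul, Complex.real_smul, mul_one]
      rw [h2, map_add, map_smul, map_smul, Complex.real_smul, Complex.real_smul]
    have h3 : AA z ((a : ℂ) + b * Complex.I) = a * AA z 1 + b * AA z Complex.I := by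
      unfold AA
      simp
      ring
    simp only [hLdef]
    rw [h1, h3]
    push_cast
    ring
  have hconf := conf L hLlin (deriv F w * e)
  have hI : Complex.I * (deriv F w * e) = deriv F w * (Complex.I * e) := by ring
  rw [hI] at hconf
  have hL1 : L (deriv F w * e) = ph * (fderiv ℝ V w e -
        Complex.I * ((B * (gg F w * ((starRingEnd ℂ) w * e).im) : ℝ) : ℂ) * V w) := key e
  have hL2 : L (deriv F w * (Complex.I * e)) = ph * (fderiv ℝ V w (Complex.I * e) -
        Complex.I * ((B * (gg F w * ((starRingEnd ℂ) w * (Complex.I * e)).im) : ℝ) : ℂ) *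
          V w) := key (Complex.I * e)
  have hwe : (starRingEnd ℂ) w * e = (r : ℂ) := by
    have h1 : w = (r : ℂ) * e := rfl
    rw [h1, map_mul, Complex.conj_ofReal, mul_assoc]
    have h2 : (starRingEnd ℂ) e * e = 1 := by
      rw [mul_comm, Complex.mul_conj, Complex.normSq_eq_norm_sq, hen]
      norm_num
    rw [h2, mul_one]
  have him1 : ((starRingEnd ℂ) w * e).im = 0 := by
    rw [hwe]
    exact Complex.ofReal_im r
  have him2 : ((starRingEnd ℂ) w * (Complex.I * e)).im = r := by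
    have h1 : (starRingEnd ℂ) w * (Complex.I * e) = Complex.I * ((starRingEnd ℂ) w * e) := by ring
    rw [h1, hwe]
    simp
  rw [him1] at hL1
  rw [him2] at hL2
  have hn1 : ‖L (deriv F w * e)‖ ^ 2 = ‖vr V r θ‖ ^ 2 := by
    rw [hL1]
    have : ph * (fderiv ℝ V w e -
        Complex.I * ((B * (gg F w * 0) : ℝ) : ℂ) * V w) = ph * vr V r θ := by
      unfold vr
      simp [he, hw]
    rw [this, norm_mul, hphn, one_mul]
  have hn2 : ‖L (deriv F w * (Complex.I * e))‖ ^ 2 =
      ‖vth V r θ - Complex.I * ((B * bb F r θ / r : ℝ) : ℂ) * V (pc r θ)‖ ^ 2 := by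
    rw [hL2]
    have h2 : B * bb F r θ / r = B * (gg F w * r) := by
      have h3 : bb F r θ = r ^ 2 * gg F w := rfl
      rw [h3]
      have hr0 : r ≠ 0 := hr.1.ne'
      field_simp
    rw [h2, norm_mul, hphn, one_mul]
    rfl
  refine ⟨?_, ?_⟩
  · show r * ‖deriv F w‖ ^ 2 * edC B (UV B V φ f) z = r * (‖vr V r θ‖ ^ 2 +
      ‖vth V r θ - Complex.I * ((B * bb F r θ / r : ℝ) : ℂ) * V (pc r θ)‖ ^ 2)
    rw [← hn1, ← hn2, hconf, norm_mul, hen, mul_one, mul_assoc]
    rfl
  · rw [hUz, norm_mul, hphn, mul_one]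

end Pool.Agent.MFK.CD
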