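import Pool.Agent.Work.MP_8826fd_mp.CD.Defs

/-!
# MP_8826fd_mp, block CD: statements of the items, each with its proof in the docstring.  Captain helper34.

FORMAT.  Item NAME: file `CD/I_NAME.lean`, namespace `Pool.Agent.MFK.CD`, auxiliary lemmas in the namespace `INAME`, main theorem
`theorem pr_NAME (h1 : StA) ... : StNAME`.  The hypotheses are only the statements named in the docstring.
USEFUL (all proved): `NF/Gk.lean` (facts on `gk`), `NF/I_F1.lean`, `NF/I_F2`-type statements of `NF/Stmts.lean` (`pr_F1 : StF1`, `pr_PC`, `IPC.cov`,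
`IPC.polar`, `pr_Den` and `IDen.conf`, `pr_Gau : StGau`, `pr_Ray`, `pr_Area`, `pr_Var`, `pr_C1`, `pr_C2`, `pr_Fin`), `Asm.lean`; `lPars` (Parseval) and `fc`.
Copy a proof from `NF/I_*.lean` whenever the statement is nearly the same (import that file if you only need its lemmas).
-/

set_option autoImplicit false

namespace Pool.Agent.MFK.CD

open MeasureTheory Set Filter Topology Pool.Agent.MFK.NF

/-! ### part 1: the conformal map -/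

/-- ITEM Max.  `S(ζ) = ‖F'(ζ)‖ (1 - ‖ζ‖²)` is continuous on the ball and tends to `0` at the boundary: with `ρ = (1 - ‖ζ‖)/2`, `‖F'(ζ)‖² ≤ (1/(π ρ²)) ∫_{D(ζ,ρ)} ‖F'‖²` (mean value property of the holomorphic function `F'` and
Cauchy-Schwarz, or `F'(ζ) ρ² = mean of ...`; alternatively the Koebe-free route: Bergman estimate by the Cauchy formula on circles of radius `t < ρ`), and the integral is at most the area of `F({1 - 2ρ... < ‖w‖ < 1})`, which tends to `0`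
because `∫_ball ‖F'‖² = volume (F '' ball) < ∞` (`IPC.cov`).  So `S` attains its maximum (if `S = 0` everywhere take `ζ₀ = 0`; otherwise `{S ≥ S(ζ₁)}` is compact). -/
def StMax : Prop := ∀ F : ℂ → ℂ, DifferentiableOn ℂ F (Metric.ball 0 1) → InjOn F (Metric.ball 0 1) →
  volume (F '' Metric.ball 0 1) ≠ ⊤ →
  ∃ ζ₀ ∈ Metric.ball (0 : ℂ) 1, ∀ ζ ∈ Metric.ball (0 : ℂ) 1,
    ‖deriv F ζ‖ * (1 - ‖ζ‖ ^ 2) ≤ ‖deriv F ζ₀‖ * (1 - ‖ζ₀‖ ^ 2)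

/-- ITEM C1p.  Riemann map at a given point (as `pr_C1`, use `Pool.Agent.RMT.riemann_mapping'` with base point `p`; if it is only stated for the base point `0`, translate). -/
def StC1p : Prop := ∀ (Ω : Set ℂ) (p : ℂ), IsOpen Ω → IsSimplyConnected Ω → Ω ≠ univ → p ∈ Ω → ∃ f F : ℂ → ℂ,
  DifferentiableOn ℂ f Ω ∧ DifferentiableOn ℂ F (Metric.ball 0 1) ∧ MapsTo f Ω (Metric.ball 0 1) ∧ MapsTo F (Metric.ball 0 1) Ω ∧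
  (∀ w ∈ Metric.ball (0 : ℂ) 1, f (F w) = w) ∧ (∀ z ∈ Ω, F (f z) = z) ∧ f p = 0

/-- ITEM Sch.  `h = f ∘ F₁` maps the ball to the ball and `h 0 = 0`, so `‖h'(0)‖ ≤ 1` (Schwarz lemma, `Complex.norm_deriv_le_one_of_mapsTo_ball` or similar); with `p = F₁ 0` one has `F 0 = p`, `h'(0) = f'(p) F₁'(0)` and `f'(p) F'(0) = 1`. -/
def StSch : Prop := ∀ (Ω : Set ℂ) (f F F₁ : ℂ → ℂ), IsOpen Ω → DifferentiableOn ℂ f Ω → DifferentiableOn ℂ F (Metric.ball 0 1) →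
  MapsTo f Ω (Metric.ball 0 1) → MapsTo F (Metric.ball 0 1) Ω → (∀ w ∈ Metric.ball (0 : ℂ) 1, f (F w) = w) → (∀ z ∈ Ω, F (f z) = z) →
  DifferentiableOn ℂ F₁ (Metric.ball 0 1) → MapsTo F₁ (Metric.ball 0 1) Ω → f (F₁ 0) = 0 →
  ‖deriv F₁ 0‖ ≤ ‖deriv F 0‖

/-- ITEM Mob.  `T(w) = (η w + ζ₀)/(1 + conj(ζ₀) η w)`, `‖η‖ = 1`, is an automorphism of the ball with inverse `w ↦ conj(η) (w - ζ₀)/(1 - conj(ζ₀) w)` and `‖T'(w)‖ (1 - ‖w‖²) = 1 - ‖T w‖²`.  `F' = F ∘ T`, `f' = T⁻¹ ∘ f`; choose `η` with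
`F'(ζ₀) η (1 - ‖ζ₀‖²)` real and nonnegative (`η = conj(F'(ζ₀))/‖F'(ζ₀)‖`); `F'(ζ₀) ≠ 0` because `f ∘ F = id`. -/
def StMob : Prop := ∀ (Ω : Set ℂ) (f F : ℂ → ℂ) (ζ₀ : ℂ), IsOpen Ω → DifferentiableOn ℂ f Ω → DifferentiableOn ℂ F (Metric.ball 0 1) →
  MapsTo f Ω (Metric.ball 0 1) → MapsTo F (Metric.ball 0 1) Ω → (∀ w ∈ Metric.ball (0 : ℂ) 1, f (F w) = w) → (∀ z ∈ Ω, F (f z) = z) →
  ζ₀ ∈ Metric.ball (0 : ℂ) 1 → ∃ (f' F' : ℂ → ℂ) (s : ℝ), 0 < s ∧ s = ‖deriv F ζ₀‖ * (1 - ‖ζ₀‖ ^ 2) ∧ deriv F' 0 = (s : ℂ) ∧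
  DifferentiableOn ℂ f' Ω ∧ DifferentiableOn ℂ F' (Metric.ball 0 1) ∧ MapsTo f' Ω (Metric.ball 0 1) ∧ MapsTo F' (Metric.ball 0 1) Ω ∧
  (∀ w ∈ Metric.ball (0 : ℂ) 1, f' (F' w) = w) ∧ (∀ z ∈ Ω, F' (f' z) = z) ∧
  ∀ w ∈ Metric.ball (0 : ℂ) 1, ∃ ζ ∈ Metric.ball (0 : ℂ) 1, ‖deriv F' w‖ * (1 - ‖w‖ ^ 2) = ‖deriv F ζ‖ * (1 - ‖ζ‖ ^ 2)

/-- ITEM A2.  `a 1 = F'(0) = s` (`IMU.deriv_zero` is the case `a 0 = 0`; apply it to `F - a 0`, or differentiate the power series).  `F'(w) = s + 2 a_2 w + O(‖w‖²)`; take `w = t η`, `t > 0` small, `η` with `a_2 η ≥ 0` real, `‖η‖ = 1`: `s + 2 |a_2| t - O(t²) ≤ ‖F'(w)‖ ≤ s/(1 - t²)`,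
so `a_2 = 0`. -/
def StA2 : Prop := ∀ (F : ℂ → ℂ) (a : ℕ → ℂ) (s : ℝ), Hol F a → 0 < s → deriv F 0 = (s : ℂ) →
  (∀ w ∈ Metric.ball (0 : ℂ) 1, ‖deriv F w‖ * (1 - ‖w‖ ^ 2) ≤ s) → a 1 = (s : ℂ) ∧ a 2 = 0

/-- ITEM PC2.  As `pr_PC` (copy: the symmetry is not used). -/
def StPC2 : Prop := ∀ (Ω : Set ℂ) (f F : ℂ → ℂ) (a : ℕ → ℂ) (h : ℂ → ENNReal), CMc Ω f F a →
  AEMeasurable (fun w => h (F w)) (volume.restrict (Metric.ball (0 : ℂ) 1)) →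
  (∫⁻ z in Ω, h z) = ∫⁻ r in Ioo (0 : ℝ) 1, ∫⁻ θ in Ioo (0 : ℝ) (2 * Real.pi),
    ENNReal.ofReal (r * ‖deriv F (pc r θ)‖ ^ 2) * h (F (pc r θ))

/-- ITEM Area2 (uses StPC2; copy the first half of `pr_Area`). -/
def StArea2 : Prop := ∀ (Ω : Set ℂ) (f F : ℂ → ℂ) (a : ℕ → ℂ), CMc Ω f F a →
  volume Ω = ENNReal.ofReal Real.pi * (∑' j : ℕ, ENNReal.ofReal (cc a j))

/-- ITEM CMx (assembly; uses StMax, StC1p, StSch, StMob, StA2, StArea2).  `Ω ≠ univ` (finite area).  Riemann map at `p = F₁ 0` (C1p), `ρ ≤ ‖F'(0)‖` (Sch); maximum point `ζ₀` of `S` (Max; `F '' ball = Ω`), `S(ζ₀) ≥ S(0) ≥ ρ`; Mob; Taylor coefficients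
(`IC2.taylor`), A2, and `∑ cc = 1` from Area2 and the area `π` (see `I_MU.lean`). -/
def StCMx : Prop := ∀ (Ω : Set ℂ) (F₁ : ℂ → ℂ) (ρ : ℝ), IsOpen Ω → IsSimplyConnected Ω → volume Ω = ENNReal.ofReal Real.pi →
  DifferentiableOn ℂ F₁ (Metric.ball 0 1) → MapsTo F₁ (Metric.ball 0 1) Ω → 0 < ρ → ρ ≤ ‖deriv F₁ 0‖ →
  ∃ (f F : ℂ → ℂ) (a : ℕ → ℂ) (s : ℝ), CMc Ω f F a ∧ Nrm F a s ∧ ρ ≤ s ∧
    ∀ w ∈ Metric.ball (0 : ℂ) 1, ‖deriv F w‖ * (1 - ‖w‖ ^ 2) ≤ s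

/-! ### part 2: the test function on `Ω` -/

/-- ITEM Den2.  As `pr_Den` with an arbitrary `C¹` function `V` in place of `vt k Ψ` (copy; only the last two lines of the computation change):
`L(F'(w) h) = e^{iBφ} (fderiv V w h - i B g(w) Im(w̄h) V w)`, `h = e^{iθ}` and `h = i e^{iθ}`, `bb F r θ = r² gg F w`. -/
def StDen2 : Prop := ∀ (Ω : Set ℂ) (f F : ℂ → ℂ) (a : ℕ → ℂ) (φ : ℂ → ℝ) (B : ℝ) (V : ℂ → ℂ),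
  CMc Ω f F a → Gau F φ → ContDiff ℝ 1 V →
  ContDiffOn ℝ 1 (UV B V φ f) Ω ∧ ∀ r ∈ Ioo (0 : ℝ) 1, ∀ θ : ℝ,
    r * ‖deriv F (pc r θ)‖ ^ 2 * edC B (UV B V φ f) (F (pc r θ)) = eE B F V r θ ∧
    ‖UV B V φ f (F (pc r θ))‖ = ‖V (pc r θ)‖

/-- ITEM Lam (uses StDen2, StPC2; `pr_Ray`, `pr_Gau` are not needed as hypotheses: import `NF/I_Ray`).  StPC2 with `h = ofReal (edC ..)` and `h = ofReal (‖UV‖²)` (measurability as in `pr_En`), then `pr_Ray`. -/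
def StLam : Prop := ∀ (B ℓ : ℝ) (Ω : Set ℂ) (f F : ℂ → ℂ) (a : ℕ → ℂ) (φ : ℂ → ℝ) (V : ℂ → ℂ),
  CMc Ω f F a → Gau F φ → ContDiff ℝ 1 V → EE B F V ≠ ⊤ → MM F V ≠ ⊤ → MM F V ≠ 0 →
  (EE B F V).toReal ≤ ℓ * (MM F V).toReal → lamN B (toR Ω) ≤ ℓ

/-! ### part 3: the coefficients -/

/-- ITEM Ser (elementary facts).  (1) `cc a 0 = 0`, `cc a 1 = s²`, `cc a 2 = 0`.  (2) derivative of the power series (`IF1.serD` gives the series of `w F'(w)`), the terms `j = 1, 2` are `s`, `0`.  (3) `‖s + z‖² = s² + 2 s Re z + ‖z‖²`.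
(4) the same under the integral `∫₀¹ σ (..) dσ` (continuous integrands), `∫₀¹ σ = 1/2`.  (5) termwise integration of (2) at `σ pc r θ`: `∫₀¹ σ^{n+3} = 1/(n+4)`; `pc r θ ^ (n+2) = r^{n+2} ex (n+2) θ`.
(6) `(σ, θ) ↦ gd F s (σ pc r θ)` is continuous on `[0,1] × ℝ`. -/
def StSer : Prop := ∀ (F : ℂ → ℂ) (a : ℕ → ℂ) (s : ℝ), Nrm F a s →
  s ≤ 1 ∧ HasSum (fun j : ℕ => cc a (j + 3)) (1 - s ^ 2) ∧ (∀ n : ℕ, 2 ≤ n → ((n : ℝ) + 1) * ‖a (n + 1)‖ ^ 2 ≤ 1 - s ^ 2) ∧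
  (∀ w ∈ Metric.ball (0 : ℂ) 1, HasSum (fun n : ℕ => ((n + 3 : ℕ) : ℂ) * a (n + 3) * w ^ (n + 2)) (gd F s w)) ∧
  (∀ w : ℂ, ‖deriv F w‖ ^ 2 = s ^ 2 + 2 * s * (gd F s w).re + ‖gd F s w‖ ^ 2) ∧
  ∀ r ∈ Ioo (0 : ℝ) 1,
    (∀ θ : ℝ, bb F r θ = s ^ 2 * r ^ 2 / 2 + 2 * s * kf F s r θ + bG F s r θ ∧ 0 ≤ bG F s r θ ∧
      HasSum (fun n : ℕ => ((n + 3 : ℕ) : ℝ) / (n + 4 : ℕ) * r ^ (n + 4) * Rn a (n + 2) θ) (kf F s r θ)) ∧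
    Continuous (fun θ => kf F s r θ) ∧ Continuous (fun θ => bG F s r θ) ∧ Continuous (fun θ => gd F s (pc r θ))

/-- ITEM FK (angular integrals; uses StSer).  Termwise integration of absolutely convergent series with `∫₀^{2π} Rn a n * Rn a k = 0` for `n ≠ k`, `= π ‖a (n+1)‖²` for `n = k ≥ 1`, `∫₀^{2π} Rn a n = 0` for `n ≥ 1`
(or through `fc` and `lPars`, `IF1.fcSum`).  For the last two: `∫₀^{2π} ‖gd F s (pc r θ)‖² = 2π ∑ (j+3)² ‖a_{j+3}‖² r^{2(j+2)}` (Parseval), and Fubini `∫_θ ∫_σ` for `bG`. -/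
def StFK : Prop := ∀ (F : ℂ → ℂ) (a : ℕ → ℂ) (s : ℝ), Nrm F a s → ∀ r ∈ Ioo (0 : ℝ) 1,
  (∫ θ in (0 : ℝ)..(2 * Real.pi), kf F s r θ) = 0 ∧
  (∫ θ in (0 : ℝ)..(2 * Real.pi), (gd F s (pc r θ)).re) = 0 ∧
  (∀ n : ℕ, 2 ≤ n → (∫ θ in (0 : ℝ)..(2 * Real.pi), kf F s r θ * Rn a n θ)
      = Real.pi * ((n + 1) / (n + 2) * r ^ (n + 2) * ‖a (n + 1)‖ ^ 2) ∧
    (∫ θ in (0 : ℝ)..(2 * Real.pi), (gd F s (pc r θ)).re * Rn a n θ)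
      = Real.pi * ((n + 1) * r ^ n * ‖a (n + 1)‖ ^ 2)) ∧
  (∫ θ in (0 : ℝ)..(2 * Real.pi), kf F s r θ ^ 2) = Real.pi * k2 a r ∧
  (∫ θ in (0 : ℝ)..(2 * Real.pi), ‖gd F s (pc r θ)‖ ^ 2) = Real.pi * rhd a r / r ∧
  (∫ θ in (0 : ℝ)..(2 * Real.pi), bG F s r θ) = Real.pi * rh a r

/-- ITEM Q1 (quadratic form; sums in `ENNReal`; like `pr_Q`).  `kap x n k * kap x n l ≤ (c_k c_{l+n} + c_l c_{k+n})/2`, `c_j = j x_j²`; by symmetry the left side is at most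
`∑_{n≥1} ∑_k ∑_l c_k c_{l+n}/(k+l+n) ≤ ∑_k ∑_j c_k c_j #{n ≥ 1 : n ≤ j}/(k + j) ≤ ∑_k ∑_j c_k c_j`. -/
def StQ1 : Prop := ∀ x : ℕ → ℝ, (∀ j, 0 ≤ x j) →
  (∑' n : ℕ, ∑' k : ℕ, ∑' l : ℕ, ENNReal.ofReal (kap x (n + 1) k * kap x (n + 1) l / (k + l + (n + 1))))
    ≤ (∑' j : ℕ, ENNReal.ofReal (j * x j ^ 2)) ^ 2

/-- ITEM BI (integrals over `r`; uses StSer, StFK, StQ1; StF2 is proved: `pr_F2`).  Series with nonnegative terms, termwise: `∫₀¹ r^{2j+7} = 1/(2j+8)`, `∫₀¹ 2(j+3) r^{2(j+3)-1} = 1`.  Last claim: `G(w) = F(w) - a_0 - s w` satisfies `Hol G a'` with `a'_j = a_j` for `j ≥ 3` and `0` for `j ≤ 2`,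
`bG F s = bb G` on `(0,1)`; Parseval (`lPars`) and StF2: `∫_θ bG² = 2π ∑_n |fc|² ≤ 2π (rh/2)² + 4π ∑_{n≥1} (∑_k κ_n(k) r^{2k+n})²`, `rh ≤ (1-s²) r^6`; as in `pr_Var`, `∫_r (1/r)` of the second term is `2π ∑ κκ/(k+l+n) ≤ 2π (1-s²)²` by StQ1. -/
def StBI : Prop := ∀ (F : ℂ → ℂ) (a : ℕ → ℂ) (s : ℝ), Nrm F a s →
  (∀ r ∈ Ioo (0 : ℝ) 1, 0 ≤ rh a r ∧ rh a r ≤ 1 - s ^ 2 ∧ 0 ≤ rhd a r ∧ 0 ≤ k2 a r) ∧
  IntegrableOn (rh a) (Ioo 0 1) ∧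
  IntegrableOn (rhd a) (Ioo 0 1) ∧ (∫ r in Ioo (0 : ℝ) 1, rhd a r) = 1 - s ^ 2 ∧
  IntegrableOn (fun r => k2 a r / r) (Ioo 0 1) ∧ (∫ r in Ioo (0 : ℝ) 1, k2 a r / r) ≤ 1 - s ^ 2 ∧
  IntegrableOn (fun r => (∫ θ in (0 : ℝ)..(2 * Real.pi), bG F s r θ ^ 2) / r) (Ioo 0 1) ∧
  (∫ r in Ioo (0 : ℝ) 1, (∫ θ in (0 : ℝ)..(2 * Real.pi), bG F s r θ ^ 2) / r) ≤ 8 * (1 - s ^ 2) ^ 2

/-- ITEM Split (uses StSer, StFK, StBI).  `eE` and `eM` are continuous functions of `(r, θ)` on `(0,1) × ℝ` (`gg F` is continuous on the ball, see `I_Gau.lean`) and nonnegative, so for each `r` the inner lower integral is `ofReal` of the interval integral, which is a measurable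
(continuous) function of `r`.  `V` and `fderiv V` are bounded on the closed disc by some `K`; `eE ≤ 3 K² + 2 B² K² bb²/r`, `bb² ≤ 3 (1/4 + 4 kf² + bG²)` and `∫∫ bb²/r < ∞` by StFK, StBI (`bb²/r`: the first term is `s⁴ r⁴/4r`); `∫∫ eM ≤ Cv² ∫∫ r ‖F'‖² = Cv² π (s² + (1 - s²))`
(`∫_θ r‖F'‖² = 2π s² r + π rhd`). -/
def StSplit : Prop := ∀ (B lam s Cv : ℝ) (F : ℂ → ℂ) (a : ℕ → ℂ) (V : ℂ → ℂ), Nrm F a s → ContDiff ℝ 1 V →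
  (∀ w ∈ Metric.ball (0 : ℂ) 1, ‖V w‖ ≤ Cv) →
  EE B F V ≠ ⊤ ∧ MM F V ≠ ⊤ ∧ (MM F V).toReal ≤ Real.pi * Cv ^ 2 ∧
  IntegrableOn (fun r => ∫ θ in (0 : ℝ)..(2 * Real.pi), (eE B F V r θ - lam * eM F V r θ)) (Ioo 0 1) ∧
  (EE B F V).toReal - lam * (MM F V).toReal
    = ∫ r in Ioo (0 : ℝ) 1, ∫ θ in (0 : ℝ)..(2 * Real.pi), (eE B F V r θ - lam * eM F V r θ)

/-! ### part 4: the expansion -/

/-- ITEM Pt (pointwise inequality, pure algebra).  Put `V = V0 + V1`, `X = X0 + X1`, `J00 = Im(conj X0 V0)`, `J01 = Im(conj X0 V1 + conj X1 V0)`, `J11 = Im(conj X1 V1)`, `β2 = bG - δ² r²/2`, `β = 2 s K + β2` (so `s² r²/2 + 2 s K + bG = r²/2 + β`, `δ² = 1 - s²`).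
The left side is `‖X - iBβV‖²/r - lam r (1 + 2 s g1 + (g2 - δ²)) ‖V‖²` and `‖X - iBβV‖² = ‖X‖² + 2Bβ Im(conj X V) + B² β² ‖V‖²`.  Error terms (`C` depends on `C0` only; `|J01| ≤ 2 C0² r δ`, `|J11| ≤ C0² r δ²`, `|‖V‖² - ‖V0‖²| ≤ 3 C0² δ`, `1 - s ≤ δ²`):
`4B(1-s)|K||J01|/r ≤ C δ³ |K| ≤ C δ (δ² + K²/r)`; `4B|K||J11|/r ≤ C δ² |K| ≤ C δ (δ² + K²/r)`; `2B|β2|(|J01|+|J11|)/r ≤ C δ (bG + δ²)`; `B² 4 s² K² ‖V‖²/r ≤ 4B²K²‖V0‖²/r + C δ K²/r`;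
`B² 4 |K||β2| ‖V‖²/r ≤ C (δ K² + β2²/δ)/r`, `β2² ≤ 2 bG² + δ⁴ r⁴/2`; `B² β2² ‖V‖²/r ≤ C (bG²/r + δ⁴)`; `lam r (1-s)|g1| |2 Re(conj V0 V1)| ≤ C δ³ r |g1|`, `lam r |g1| ‖V1‖² ≤ C δ² r|g1|`, `r |g1| δ² ≤ δ (δ² r + r g2)/2` (`g1² ≤ g2`);
`lam r |g2 - δ²| |‖V‖² - ‖V0‖²| ≤ C δ (r g2 + δ²)`. -/
def StPt : Prop := ∀ C0 : ℝ, 0 < C0 → ∃ C > (0 : ℝ), ∀ (r s δ B lam K b g1 g2 : ℝ) (V0 V1 X0 X1 : ℂ),
  0 < r → r ≤ 1 → 0 < s → s ≤ 1 → 0 < δ → δ ^ 2 = 1 - s ^ 2 → 0 ≤ B → B ≤ C0 → 0 ≤ lam → lam ≤ C0 → 0 ≤ b → g1 ^ 2 ≤ g2 →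
  ‖V0‖ ≤ C0 → ‖V1‖ ≤ C0 * δ → ‖X0‖ ≤ C0 * r → ‖X1‖ ≤ C0 * δ * r →
  ‖(X0 + X1 + Complex.I * ((B * r ^ 2 / 2 : ℝ) : ℂ) * (V0 + V1))
      - Complex.I * ((B * (s ^ 2 * r ^ 2 / 2 + 2 * s * K + b) : ℝ) : ℂ) * (V0 + V1)‖ ^ 2 / r
    - lam * (r * (s ^ 2 + 2 * s * g1 + g2) * ‖V0 + V1‖ ^ 2)
  ≤ ‖X0 + X1‖ ^ 2 / r - lam * r * ‖V0 + V1‖ ^ 2
    + 4 * B * s * K * ((starRingEnd ℂ) X0 * V0).im / r
    + 4 * B * K * ((starRingEnd ℂ) X0 * V1 + (starRingEnd ℂ) X1 * V0).im / r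
    + 2 * B * (b - δ ^ 2 * r ^ 2 / 2) * ((starRingEnd ℂ) X0 * V0).im / r
    + 4 * B ^ 2 * K ^ 2 * ‖V0‖ ^ 2 / r
    - 2 * lam * s * r * g1 * ‖V0‖ ^ 2 - 4 * lam * r * g1 * ((starRingEnd ℂ) V0 * V1).re
    - lam * r * (g2 - δ ^ 2) * ‖V0‖ ^ 2
    + C * δ * (δ ^ 2 + b + r * g2 + K ^ 2 / r + b ^ 2 / (r * δ ^ 2))

/-- ITEM VV (polar form of the test function).  `vz l Ψ` is `C¹` (product of a polynomial in `w` resp. `conj w` and `Ψ(‖w‖²)`), `vz l Ψ (pc r θ) = radf l Ψ r * ex l θ` (`conj(pc r θ)^k = r^k ex (-k) θ`); the derivatives in the directions `e^{iθ}`, `i e^{iθ}` are the derivatives along the curves `t ↦ pc t θ`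
and (times `r`) `t ↦ pc r t`, as in `I_Den.lean` (`IDen.vt_r`, `IDen.vt_t`); sum. -/
def StVV : Prop := ∀ (m N : ℕ) (a : ℕ → ℂ) (Ψ : ℝ → ℝ) (ΨA ΨB : ℕ → ℝ → ℝ), ContDiff ℝ 1 Ψ → (∀ n, ContDiff ℝ 1 (ΨA n)) → (∀ n, ContDiff ℝ 1 (ΨB n)) →
  ContDiff ℝ 1 (VV m N a Ψ ΨA ΨB) ∧ ∀ r ∈ Ioo (0 : ℝ) 1, ∀ θ : ℝ,
    VV m N a Ψ ΨA ΨB (pc r θ) = ((radf m Ψ r : ℝ) : ℂ) * ex m θ
      + lin m N a (fun n => radf ((m : ℤ) + n) (ΨA n) r) (fun n => radf ((m : ℤ) - n) (ΨB n) r) θ ∧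
    vr (VV m N a Ψ ΨA ΨB) r θ = ((deriv (radf m Ψ) r : ℝ) : ℂ) * ex m θ
      + lin m N a (fun n => deriv (radf ((m : ℤ) + n) (ΨA n)) r) (fun n => deriv (radf ((m : ℤ) - n) (ΨB n)) r) θ ∧
    vth (VV m N a Ψ ΨA ΨB) r θ = Complex.I * (((m / r * radf m Ψ r : ℝ) : ℂ) * ex m θ
      + lin m N a (fun n => ((m : ℝ) + n) / r * radf ((m : ℤ) + n) (ΨA n) r)
          (fun n => ((m : ℝ) - n) / r * radf ((m : ℤ) - n) (ΨB n) r) θ)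

/-- ITEM Ang (angular algebra).  The frequencies `m`, `m + n`, `m - n` (`2 ≤ n ≤ N`) are pairwise different; `∫₀^{2π} ex k * conj (ex l) = 0` for `k ≠ l`, `2π` for `k = l`.
Pointwise: `conj(i p g ex m) * (a x ex (m+n)) = -i p g x a ex n`, its imaginary part is `-p g x Re(a ex n)`; `conj(i u a ex (m+n)) * (g ex m) = -i u g conj(a ex n)`; the same for `y`, `v` with `conj a`, `-n`. -/
def StAng : Prop := ∀ (m N : ℕ) (a : ℕ → ℂ) (g p : ℝ) (x y u v : ℕ → ℝ),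
  Continuous (lin m N a x y) ∧ Continuous (ex m) ∧
  (∫ θ in (0 : ℝ)..(2 * Real.pi), ‖(g : ℂ) * ex m θ + lin m N a x y θ‖ ^ 2)
    = 2 * Real.pi * (g ^ 2 + ∑ n ∈ Finset.Icc 2 N, ‖a (n + 1)‖ ^ 2 * (x n ^ 2 + y n ^ 2)) ∧
  ∀ θ : ℝ,
    ((starRingEnd ℂ) (Complex.I * ((p * g : ℝ) : ℂ) * ex m θ) * lin m N a x y θ
      + (starRingEnd ℂ) (Complex.I * lin m N a u v θ) * ((g : ℂ) * ex m θ)).im
      = -∑ n ∈ Finset.Icc 2 N, g * (p * x n + u n + (p * y n + v n)) * Rn a n θ ∧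
    ((starRingEnd ℂ) ((g : ℂ) * ex m θ) * lin m N a x y θ).re
      = ∑ n ∈ Finset.Icc 2 N, g * (x n + y n) * Rn a n θ ∧
    ‖lin m N a x y θ‖ ≤ ∑ n ∈ Finset.Icc 2 N, ‖a (n + 1)‖ * (|x n| + |y n|) ∧ ‖ex m θ‖ = 1

/-- the main part of the angular integral -/
noncomputable def MI (B lam s : ℝ) (m N : ℕ) (a : ℕ → ℂ) (g : ℝ → ℝ) (α β : ℕ → ℝ → ℝ) (r : ℝ) : ℝ :=
  2 * Real.pi * (r * deriv g r ^ 2 + (qn B m r ^ 2 - lam) * (r * g r ^ 2))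
  + (∑ n ∈ Finset.Icc 2 N, ‖a (n + 1)‖ ^ 2 *
      (2 * Real.pi * (r * deriv (α n) r ^ 2 + (qn B ((m : ℤ) + n) r ^ 2 - lam) * (r * α n r ^ 2))
      + 2 * Real.pi * (r * deriv (β n) r ^ 2 + (qn B ((m : ℤ) - n) r ^ 2 - lam) * (r * β n r ^ 2))
      - 4 * Real.pi * (Sn B lam m n 1 g r * α n r) - 4 * Real.pi * (Sn B lam m n (-1) g r * β n r)))
  + Real.pi * (rh a r - (1 - s ^ 2) * r ^ 2) * (-(2 * B * (m - B * r ^ 2 / 2))) * g r ^ 2 / r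
  - lam * Real.pi * (rhd a r - 2 * (1 - s ^ 2) * r) * g r ^ 2
  + 4 * Real.pi * B ^ 2 * g r ^ 2 * k2 a r / r

/-- ITEM Mn (angular integral; uses StSer, StFK, StPt, StVV, StAng).  For each `θ` apply StPt with `V0 = g ex m`, `V1 = lin α β`, `X0 = i (m - B r²/2) g ex m`, `X1 = i lin ((m + n - B r²/2) α_n) ((m - n - B r²/2) β_n)` (all at `r`), `δ = √(1 - s²) > 0`, `K = kf`, `b = bG`,
`g1 = Re gd`, `g2 = ‖gd‖²`: by StVV `r * vth = X0 + X1 + i (B r²/2)(V0 + V1)`, so by StSer `eE - lam eM` is `r ‖vr‖²` plus the left side of StPt.  The bounds: `‖a (n+1)‖ ≤ δ`, `|l P| ≤ C0 r`; the constant of StPt is applied with `C0' = (2N+2)(C0 + C0² + 1)`.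
Integrate over `θ` (StAng, StFK): `∫ K J00 = 0`, `∫ g1 ‖V0‖² = 0`, `∫ K J01 = -π ∑ ‖a‖² (n+1)/(n+2) r^{n+2} g ((2m + n - B r²) α + (2m - n - B r²) β)`, `∫ g1 Re(conj V0 V1) = π ∑ ‖a‖² (n+1) r^n g (α + β)`; together these give the terms with `Sn`. -/
def StMn : Prop := ∀ (C0 : ℝ) (N : ℕ), 0 < C0 → ∃ C > (0 : ℝ), ∀ (B lam s : ℝ) (m : ℕ) (F : ℂ → ℂ) (a : ℕ → ℂ) (Ψ : ℝ → ℝ) (ΨA ΨB : ℕ → ℝ → ℝ),
  0 ≤ B → B ≤ C0 → 0 ≤ lam → lam ≤ C0 → Nrm F a s → s < 1 →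
  ContDiff ℝ 1 Ψ → (∀ n, ContDiff ℝ 1 (ΨA n)) → (∀ n, ContDiff ℝ 1 (ΨB n)) → Bdd C0 m (radf m Ψ) →
  (∀ n ∈ Finset.Icc 2 N, Bdd C0 ((m : ℤ) + n) (radf ((m : ℤ) + n) (ΨA n)) ∧ Bdd C0 ((m : ℤ) - n) (radf ((m : ℤ) - n) (ΨB n))) →
  ∀ r ∈ Ioo (0 : ℝ) 1,
    (∫ θ in (0 : ℝ)..(2 * Real.pi), (eE B F (VV m N a Ψ ΨA ΨB) r θ - lam * eM F (VV m N a Ψ ΨA ΨB) r θ))
    ≤ MI B lam s m N a (radf m Ψ) (fun n => radf ((m : ℤ) + n) (ΨA n)) (fun n => radf ((m : ℤ) - n) (ΨB n)) r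
      + C * Real.sqrt (1 - s ^ 2) * ((1 - s ^ 2) + rh a r + rhd a r + k2 a r / r
        + (∫ θ in (0 : ℝ)..(2 * Real.pi), bG F s r θ ^ 2) / r / (1 - s ^ 2))

/-- ITEM MI (radial integral of the main part; uses StSer, StBI).  The first two lines of `MI` integrate to `2π Il`, `2π Il`, `4π ∫ Sn α`.  The last three terms: `rh = ∑ cc a (j+3) r^{2(j+3)}`, `1 - s² = ∑ cc a (j+3)`, `rhd`, `k2` are series; the terms are integrated one by one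
(`hasSum_integral_of_summable_integral_norm`; `|g| ≤ K` on `[0,1]`, `∫₀¹ 2(j+3) r^{2j+5} = 1`); the `j`-th term is `π ‖a (j+3)‖² TT (j+2)` (`n = j + 2`, `cc a (j+3) = (n+1) ‖a (n+1)‖²`).  (`radf`-functions are `C¹` on `[0,1]` and `(l/r) radf` is bounded.) -/
def StMI : Prop := ∀ (B lam s : ℝ) (m N : ℕ) (F : ℂ → ℂ) (a : ℕ → ℂ) (Ψ : ℝ → ℝ) (ΨA ΨB : ℕ → ℝ → ℝ), Nrm F a s →
  ContDiff ℝ 1 Ψ → (∀ n, ContDiff ℝ 1 (ΨA n)) → (∀ n, ContDiff ℝ 1 (ΨB n)) →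
  IntegrableOn (MI B lam s m N a (radf m Ψ) (fun n => radf ((m : ℤ) + n) (ΨA n)) (fun n => radf ((m : ℤ) - n) (ΨB n))) (Ioo 0 1) ∧
  Summable (fun j : ℕ => ‖a (j + 3)‖ ^ 2 * TT B lam m (j + 2) (radf m Ψ)) ∧
  (∫ r in Ioo (0 : ℝ) 1, MI B lam s m N a (radf m Ψ) (fun n => radf ((m : ℤ) + n) (ΨA n)) (fun n => radf ((m : ℤ) - n) (ΨB n)) r)
    = 2 * Real.pi * Il B lam m (radf m Ψ)
      + Real.pi * (∑ n ∈ Finset.Icc 2 N, ‖a (n + 1)‖ ^ 2 *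
        (QQ B lam m n (radf m Ψ) (radf ((m : ℤ) + n) (ΨA n)) (radf ((m : ℤ) - n) (ΨB n)) - TT B lam m n (radf m Ψ)))
      + Real.pi * ∑' j : ℕ, ‖a (j + 3)‖ ^ 2 * TT B lam m (j + 2) (radf m Ψ)

/-- ITEM FF (uses StSer, StBI, StSplit, StVV, StMn, StMI).  Integrate StMn over `r` (StSplit gives integrability of the left side; `V = VV ..` is `C¹` and bounded on the ball); StMI; `∑_{n ≤ N} ‖a‖² QQ + ∑_{n > N} ‖a‖² TT ≤ -κ ∑ (n+1) ‖a (n+1)‖² = -κ (1 - s²)`; the error is at most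
`C δ (δ² + δ² + δ² + δ² + 8 δ²)`. -/
def StFF : Prop := ∀ (C0 κ : ℝ) (N : ℕ), 0 < C0 → 0 < κ → ∃ C > (0 : ℝ), ∀ (B lam s : ℝ) (m : ℕ) (F : ℂ → ℂ) (a : ℕ → ℂ) (Ψ : ℝ → ℝ) (ΨA ΨB : ℕ → ℝ → ℝ),
  0 ≤ B → B ≤ C0 → 0 ≤ lam → lam ≤ C0 → Nrm F a s → s < 1 →
  ContDiff ℝ 1 Ψ → (∀ n, ContDiff ℝ 1 (ΨA n)) → (∀ n, ContDiff ℝ 1 (ΨB n)) → Bdd C0 m (radf m Ψ) →
  (∀ n ∈ Finset.Icc 2 N, Bdd C0 ((m : ℤ) + n) (radf ((m : ℤ) + n) (ΨA n)) ∧ Bdd C0 ((m : ℤ) - n) (radf ((m : ℤ) - n) (ΨB n))) →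
  Il B lam m (radf m Ψ) = 0 →
  (∀ n ∈ Finset.Icc 2 N, QQ B lam m n (radf m Ψ) (radf ((m : ℤ) + n) (ΨA n)) (radf ((m : ℤ) - n) (ΨB n)) ≤ -κ * (n + 1)) →
  (∀ n : ℕ, N < n → 2 ≤ n → TT B lam m n (radf m Ψ) ≤ -κ * (n + 1)) →
  (∫ r in Ioo (0 : ℝ) 1, ∫ θ in (0 : ℝ)..(2 * Real.pi), (eE B F (VV m N a Ψ ΨA ΨB) r θ - lam * eM F (VV m N a Ψ ΨA ΨB) r θ))
    ≤ -(Real.pi * κ) * (1 - s ^ 2) + C * Real.sqrt (1 - s ^ 2) ^ 3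

/-! ### part 5: one-dimensional part -/

/-- ITEM Vir (virial identity and Neumann identity).  `(r g')² - ((m - B r²/2)² - lam r²) g²` has the derivative `2 r (B (m - B r²/2) + lam) g²` (`gk_ode`); at `r = 0` it vanishes (`m g(0) = 0`), at `1` it is `-((B/2 - m)² - lam) g(1)²` (`Sp.zero`).
`(r g g')' = r g'² + (q² - lam) r g²`, so `Il = g(1) g'(1) = 0`. -/
def StVir : Prop := ∀ (B lam : ℝ) (m : ℕ), Sp B lam m →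
  (∫ r in (0 : ℝ)..1, 2 * r * (B * (m - B * r ^ 2 / 2) + lam) * gk B lam m r ^ 2)
    = (lam - (B / 2 - m) ^ 2) * gk B lam m 1 ^ 2 ∧ Il B lam m (gk B lam m) = 0

/-- ITEM TTn (high modes; uses StVir).  `TT/(n+1) = ∫ (2 r (B (m - Br²/2) + lam) g²) - ∫ 2B (m - Br²/2) r^{2n+1} g² - lam ∫ 2(n+1) r^{2n+1} g² + 4B² (n+1)/(n+2)² ∫ g² r^{2n+3}`; the first integral is `(lam - p²) g(1)²` (`p = B/2 - m`), the second and the fourth are `O(1/n)`, and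
`∫ 2(n+1) r^{2n+1} g² = g(1)² - ∫ r^{2n+2} 2 g g' = g(1)² + O(1/n)`.  So `TT/(n+1) → -p² g(1)² < 0`. -/
def StTTn : Prop := ∀ (B lam : ℝ) (m : ℕ), Sp B lam m →
  ∃ N : ℕ, ∃ κ > (0 : ℝ), ∀ n : ℕ, N < n → TT B lam m n (gk B lam m) ≤ -κ * (n + 1)

/-- ITEM OA (equation of the transported parts).  Notation `y = r g'`, `D = m - B r²/2`, `c = cf`, `rc' = -B n r²/(n+2)`; `r y' = (D² - lam r²) g` (`gk_ode`).  With `A = at1`: `r A' = ½ r^n ((n + c) y + (n c + D² - lam r² + rc') g)`, and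
`r (r A')' = ½ r^n (y (n² + 2 n c + 2 rc' + D² - lam r²) + g ((2n + c)(D² - lam r²) + n² c + 2 n rc' - 2 B D r² - 2 lam r² + 2 rc'))`; use `n c + rc' = n D`.  This equals
`½ r^n ((D + n)² - lam r²)(y + c g) - r Sn`, `Sn = (n+1) r^{n+1} g (lam + B (2D + n)/(n+2))`.  Checked by hand and numerically.  For `bt1` replace `c`, `rc'` by `-c`, `-rc'` and `(D + n)` by `(D - n)`, `Sn` with `σ = -1`.
(`qn B (m+n) r = (D + n)/r`.) -/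
def StOA : Prop := ∀ (B lam : ℝ) (m n : ℕ), 0 < B → lam < B → ∀ r : ℝ, 0 < r →
  (HasDerivAt (at1 B m n (gk B lam m)) (deriv (at1 B m n (gk B lam m)) r) r ∧
    HasDerivAt (fun t => t * deriv (at1 B m n (gk B lam m)) t)
      ((qn B ((m : ℤ) + n) r ^ 2 - lam) * (r * at1 B m n (gk B lam m) r) - Sn B lam m n 1 (gk B lam m) r) r ∧
    r * deriv (at1 B m n (gk B lam m)) r = r ^ n * ((n + cf B m n r) * (r * deriv (gk B lam m) r)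
      + (n * cf B m n r + (m - B * r ^ 2 / 2) ^ 2 - lam * r ^ 2 - B * n * r ^ 2 / (n + 2)) * gk B lam m r) / 2) ∧
  (HasDerivAt (bt1 B m n (gk B lam m)) (deriv (bt1 B m n (gk B lam m)) r) r ∧
    HasDerivAt (fun t => t * deriv (bt1 B m n (gk B lam m)) t)
      ((qn B ((m : ℤ) - n) r ^ 2 - lam) * (r * bt1 B m n (gk B lam m) r) - Sn B lam m n (-1) (gk B lam m) r) r ∧
    r * deriv (bt1 B m n (gk B lam m)) r = r ^ n * ((n - cf B m n r) * (r * deriv (gk B lam m) r)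
      + (-(n * cf B m n r) + (m - B * r ^ 2 / 2) ^ 2 - lam * r ^ 2 + B * n * r ^ 2 / (n + 2)) * gk B lam m r) / 2)

/-- ITEM Par (general lemma).  `(r P P')' = r P'² + P ((q² - lam) r P - S)`, so `Il P = P(1) P'(1) + ∫ S P`; `(r A h' - r A' h)' = S h`, so `∫ S h = A(1) h'(1) - A'(1) h(1)`; put `P = A + x h`.  (At `0`: `A`, `A'`, `h`, `h'`, `(l/r) A`, `(l/r) h` are bounded on `(0,1]`, so `r A A' → 0` etc.,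
and `r q² P² = (l/r - Br/2)² r P²` is bounded: everything is integrable; use the fundamental theorem on `[t, 1]` and let `t → 0`.) -/
def StPar : Prop := ∀ (B lam x C : ℝ) (l : ℤ) (A h S : ℝ → ℝ), Continuous S →
  (∀ r, 0 < r → HasDerivAt A (deriv A r) r ∧ HasDerivAt (fun t => t * deriv A t) ((qn B l r ^ 2 - lam) * (r * A r) - S r) r) →
  (∀ r, 0 < r → HasDerivAt h (deriv h r) r ∧ HasDerivAt (fun t => t * deriv h t) ((qn B l r ^ 2 - lam) * (r * h r)) r) →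
  Bdd C l A → Bdd C l h →
  2 * Il B lam l (fun r => A r + x * h r) - 4 * (∫ r in (0 : ℝ)..1, S r * (A r + x * h r))
    = 2 * A 1 * deriv A 1 - 2 * (∫ r in (0 : ℝ)..1, S r * A r) + 4 * x * h 1 * deriv A 1 + 2 * x ^ 2 * h 1 * deriv h 1

/-- ITEM Key (the identity without `h`; uses StOA).  `Sn(1) at1 + Sn(-1) bt1 = (n+1) r^{2n+1} g (σ r g' + τ c g)` with `σ = lam + B (2m - B r²)/(n+2)`, `τ = B n/(n+2)`; `∫ σ r^{2n+2} g g' = ½ σ(1) g(1)² - ½ ∫ (σ r^{2n+2})' g²`; then the coefficients of `r^{2n+1} g²` and of `r^{2n+3} g²`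
under the integral cancel with those of `TT` and what remains is the boundary term `2 A A' + 2 B B' - (n+1) σ(1) g² + (n+1) lam g² - (n+1) p² g²`, where the virial identity (StVir) turns `(n+1) ∫ 2 r (B (m - Br²/2) + lam) g²` into `(n+1)(lam - p²) g(1)²`; as `g'(1) = 0`:
`A(1) = c g/2`, `A'(1) = g (p² - lam - n p)/2`, `B(1) = -c g/2`, `B'(1) = g (p² - lam + n p)/2`.  Checked by hand and numerically.  (uses StVir, StOA) -/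
def StKey : Prop := ∀ (B lam : ℝ) (m n : ℕ), Sp B lam m → 2 ≤ n →
  deriv (at1 B m n (gk B lam m)) 1 = gk B lam m 1 * ((B / 2 - m) ^ 2 - lam - n * (B / 2 - m)) / 2 ∧
  deriv (bt1 B m n (gk B lam m)) 1 = gk B lam m 1 * ((B / 2 - m) ^ 2 - lam + n * (B / 2 - m)) / 2 ∧
  TT B lam m n (gk B lam m)
    + (2 * at1 B m n (gk B lam m) 1 * deriv (at1 B m n (gk B lam m)) 1
        - 2 * ∫ r in (0 : ℝ)..1, Sn B lam m n 1 (gk B lam m) r * at1 B m n (gk B lam m) r)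
    + (2 * bt1 B m n (gk B lam m) 1 * deriv (bt1 B m n (gk B lam m)) 1
        - 2 * ∫ r in (0 : ℝ)..1, Sn B lam m n (-1) (gk B lam m) r * bt1 B m n (gk B lam m) r)
    = (B / 2 - m) * (B / 2 + m) * gk B lam m 1 ^ 2

/-- ITEM Sp2 (spectral data with the functions `FK`).  The proof of `spec` in `Spec.lean` (apply it as in `Asm.stSpec`, with `F n = FK B lam n` visible) together with `pr_Sp` of `NF/Gk.lean`. -/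
def StSp2 : Prop := ∀ B : ℝ, 0 < B → ∃ (lam : ℝ) (m : ℕ), Sp B lam m ∧ Data B lam m (fun n => FK B lam n) ∧
  Facts (B / 2 - m) (B / 2 + m) lam m (fun k => dtn (fun n => FK B lam n) ((m : ℤ) - k)) (fun k => dtn (fun n => FK B lam n) ((m : ℤ) + k))

/-- ITEM One (uses StVir, StTTn, StOA, StPar, StKey, StSp2 and the algebraic lemma `StAL`, proved in `AL/`).  `N`, `κ` from StTTn.  For `2 ≤ n ≤ N`: StAL gives `x', y'` with the form of `SNeg` negative; `h₊ = radf (m+n) (FK (m+n))`, `h₋ = radf (m-n) (FK (m-n))`,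
`ΨA(t) = ½ (m Ψ + 2 t Ψ'(t) + (m - B n t/(2(n+2))) Ψ(t)) + x FK (m+n) t` with `Ψ = FK m` (so `radf (m+n) ΨA = at1 + x h₊` because `r (r^m Ψ(r²))' = r^m (m Ψ + 2 r² Ψ')(r²)`), `ΨB(t) = t^{min(m,n)} ½ (m Ψ + 2 t Ψ' - c Ψ) + y FK (m-n) t`
(`r^{n+m} = r^{|m-n|} r^{2 min(m,n)}`).  StPar and StKey: `QQ = ½ g(1)² (2 p M + 2 y₁ (p² - lam - n p) + 2 x₁ (p² - lam + n p) + y₁² be_n + x₁² al_n)` with `y₁ = 2 x h₊(1)/g(1)`, `x₁ = 2 y h₋(1)/g(1)`, `be_n = h₊'(1)/h₊(1)`, `al_n = h₋'(1)/h₋(1)`.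
So `QQ < 0` for a suitable choice; decrease `κ` (finitely many `n`).  `FK` is smooth (`Rad.smooth` gives `C²`, so `Ψ'` is `C¹`). -/
def StOne : Prop := ∀ B : ℝ, 0 < B → ∃ (lam : ℝ) (m N : ℕ) (κ : ℝ) (ΨA ΨB : ℕ → ℝ → ℝ), Sp B lam m ∧ 0 < κ ∧
  (∀ n, ContDiff ℝ 1 (ΨA n)) ∧ (∀ n, ContDiff ℝ 1 (ΨB n)) ∧
  (∀ n ∈ Finset.Icc 2 N, QQ B lam m n (gk B lam m) (radf ((m : ℤ) + n) (ΨA n)) (radf ((m : ℤ) - n) (ΨB n)) ≤ -κ * (n + 1)) ∧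
  (∀ n : ℕ, N < n → 2 ≤ n → TT B lam m n (gk B lam m) ≤ -κ * (n + 1))

/-! ### part 6: the theorem -/

/-- ITEM Dft (helper57; the deficit; uses StSer, StFK, StArea2, StPC2).  `q = a 0`, `G = F - a 0 - s w`, `e = 1 - s²`, `ψ(z) = ‖z‖²/(1 + ‖z‖²)`.  Equal areas: `∫_{Ω-q} ψ - ∫_ball ψ = ∫_{(Ω-q) Δ ball} |ψ - 1/2| ≥ (1/6) ∫ min(|‖z‖-1|, 1)`.  And
`∫_{Ω-q} ψ = ∫_ball ψ(sw + G) ‖F'‖²`, `‖F'‖² = s² + 2 s Re G' + ‖G'‖²`:  (i) `∫ ψ(sw)(s² + 2 s Re G' + ‖G'‖²) ≤ ∫_ball ψ` (mean of `Re G'` on circles is `0`; `s² ∫ ψ(sw) = ∫_{ball 0 s} ψ ≤ ∫_ball ψ - ψ(s) π e`; `∫ ψ(sw) ‖G'‖² ≤ ψ(s) π e`);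
(ii) `∫ Dψ(sw)[G] (s² + 2 s Re G') ≤ C e` (angular mean of `Re(conj w G)` is `0`, `‖G‖_2, ‖G'‖_2 ≤ C √e`);  (iii) `∫ (ψ(F-q) - ψ(sw) - Dψ(sw)[G]) (s² + 2 s Re G') ≤ C e` (the bracket is `≤ C min(‖G‖², ‖G‖)`);  (iv) `∫ (ψ(F-q) - ψ(sw)) ‖G'‖² ≤ π e`. -/
def StDft : Prop := ∃ C > (0 : ℝ), ∀ (Ω : Set ℂ) (f F : ℂ → ℂ) (a : ℕ → ℂ) (s : ℝ), CMc Ω f F a → Nrm F a s →
  dft (a 0) 1 Ω ≤ C * (1 - s ^ 2)

/-- ITEM MU (captain; the theorem for area `π`). -/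
def StMU : Prop := ∀ B : ℝ, 0 < B → ∃ ε > (0 : ℝ), ∃ c > (0 : ℝ), ∀ (Ω : Set ℂ) (F₁ : ℂ → ℂ), IsOpen Ω → IsSimplyConnected Ω →
  volume Ω = ENNReal.ofReal Real.pi → DifferentiableOn ℂ F₁ (Metric.ball 0 1) → MapsTo F₁ (Metric.ball 0 1) Ω → 1 - ε ≤ ‖deriv F₁ 0‖ →
  ∃ q : ℂ, lamN B (toR Ω) ≤ lamN B disc - c * dft q 1 Ω ∧
    (lamN B (toR Ω) = lamN B disc → Ω = Metric.ball q 1)

/-- ITEM Fin (uses StMU, `sc`; like `pr_Fin` of the block NF; the integral over `Ω` is `R³` times the integral over `R⁻¹ Ω`). -/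
def StFin : Prop := ∀ B R : ℝ, 0 < B → 0 < R → ∃ ε > (0 : ℝ), ∃ c > (0 : ℝ), ∀ (Ω : Set (ℝ × ℝ)) (F₁ : ℂ → ℂ), IsOpen Ω →
  SimplyConnectedSpace Ω → volume Ω = volume (edisc 0 R) → DifferentiableOn ℂ F₁ (Metric.ball 0 1) →
  (∀ w ∈ Metric.ball (0 : ℂ) 1, ((F₁ w).re, (F₁ w).im) ∈ Ω) → (1 - ε) * R ≤ ‖deriv F₁ 0‖ →
  ∃ q : ℝ × ℝ, lamN B Ω ≤ lamN B (edisc 0 R)
      - c * ∫ x in symmDiff Ω (edisc q R), min |Real.sqrt ((x.1 - q.1) ^ 2 + (x.2 - q.2) ^ 2) - R| R ∧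
    (lamN B Ω = lamN B (edisc 0 R) → Ω = edisc q R)

end Pool.Agent.MFK.CD
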