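import Pool.Agent.Work.MP_8826fd_mp.CD.Dfc
import Pool.Agent.Work.MP_8826fd_mp.CD.Stmts

/-!
# MP_8826fd_mp, block CD, item Dft: the deficit
-/

set_option autoImplicit false

namespace Pool.Agent.MFK.CD

open MeasureTheory Set Filter Topology Pool.Agent.MFK.NF

theorem pr_Dft : StDft := by
  refine ⟨72 * Real.pi, by positivity, fun Ω f F a s hC hN => ?_⟩
  have hinj : InjOn F (Metric.ball 0 1) := by
    intro w hw w' hw' hww
    rw [← hC.fF w hw, ← hC.fF w' hw', hww]
  have himg : F '' (Metric.ball 0 1) = Ω := by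
    ext z
    constructor
    · rintro ⟨w, hw, rfl⟩
      exact hC.Fm hw
    · intro hz
      exact ⟨f z, hC.fm hz, hC.Ff z hz⟩
  have h := Dfc.main hC.toHol hinj himg hC.opn hN.sum
  have e : ‖a 1‖ ^ 2 = s ^ 2 := by
    rw [hN.a1, Complex.norm_real, Real.norm_eq_abs, sq_abs]
  rw [e] at h
  exact h

end Pool.Agent.MFK.CD
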