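import Pool.Agent.Work.MP_8826fd_mp.CD.Stmts

set_option autoImplicit false

namespace Pool.Agent.MFK.CD

open MeasureTheory Set Filter Topology Pool.Agent.MFK.NF

namespace IMn

/-- `f` is integrable over a period with integral `I` -/
def HI (f : ℝ → ℝ) (I : ℝ) : Prop :=
  IntervalIntegrable f volume 0 (2 * Real.pi) ∧ (∫ θ in (0 : ℝ)..(2 * Real.pi), f θ) = I

theorem hadd {f g : ℝ → ℝ} {I J : ℝ} (hf : HI f I) (hg : HI g J) : HI (fun θ => f θ + g θ) (I + J) :=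
  ⟨hf.1.add hg.1, by rw [intervalIntegral.integral_add hf.1 hg.1, hf.2, hg.2]⟩

theorem hmul (c : ℝ) {f : ℝ → ℝ} {I : ℝ} (hf : HI f I) : HI (fun θ => c * f θ) (c * I) :=
  ⟨hf.1.const_mul c, by rw [intervalIntegral.integral_const_mul, hf.2]⟩

theorem hcst (c : ℝ) : HI (fun _ => c) (2 * Real.pi * c) :=
  ⟨intervalIntegrable_const, by rw [intervalIntegral.integral_const, smul_eq_mul, sub_zero]⟩

theorem hcont {f : ℝ → ℝ} {I : ℝ} (hf : Continuous f) (h : (∫ θ in (0 : ℝ)..(2 * Real.pi), f θ) = I) : HI f I :=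
  ⟨hf.intervalIntegrable _ _, h⟩

theorem hcongr {f g : ℝ → ℝ} {I : ℝ} (h : ∀ θ, g θ = f θ) (hf : HI f I) : HI g I := by
  have : g = f := funext h
  rw [this]; exact hf

theorem hsum (s : Finset ℕ) {f : ℕ → ℝ → ℝ} {I : ℕ → ℝ} (h : ∀ n ∈ s, HI (f n) (I n)) :
    HI (fun θ => ∑ n ∈ s, f n θ) (∑ n ∈ s, I n) := by
  classical
  induction s using Finset.induction_on with
  | empty =>
    have := hcst 0
    simpa using this
  | insert b s hb ih =>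
    simp_rw [Finset.sum_insert hb]
    exact hadd (h b (Finset.mem_insert_self b s)) (ih (fun n hn => h n (Finset.mem_insert_of_mem hn)))

theorem lin_rel (m N : ℕ) (a : ℕ → ℂ) (x y u v x' y' : ℕ → ℝ) (r c : ℝ) (θ : ℝ)
    (hx : ∀ n, r * x' n = u n + c * x n) (hy : ∀ n, r * y' n = v n + c * y n) :
    (r : ℂ) * lin m N a x' y' θ = lin m N a u v θ + (c : ℂ) * lin m N a x y θ := by
  simp only [lin, Finset.mul_sum, ← Finset.sum_add_distrib]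
  refine Finset.sum_congr rfl (fun n _ => ?_)
  have h1 : (r : ℂ) * (x' n : ℂ) = (u n : ℂ) + (c : ℂ) * (x n : ℂ) := by exact_mod_cast hx n
  have h2 : (r : ℂ) * (y' n : ℂ) = (v n : ℂ) + (c : ℂ) * (y n : ℂ) := by exact_mod_cast hy n
  calc (r : ℂ) * (a (n + 1) * (x' n : ℂ) * ex ((m : ℤ) + n) θ
          + (starRingEnd ℂ) (a (n + 1)) * (y' n : ℂ) * ex ((m : ℤ) - n) θ)
      = a (n + 1) * ((r : ℂ) * (x' n : ℂ)) * ex ((m : ℤ) + n) θ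
          + (starRingEnd ℂ) (a (n + 1)) * ((r : ℂ) * (y' n : ℂ)) * ex ((m : ℤ) - n) θ := by ring
    _ = _ := by rw [h1, h2]; ring

/-- body of `StPt` -/
def PtC (C0 C : ℝ) : Prop := ∀ (r s δ B lam K b g1 g2 : ℝ) (V0 V1 X0 X1 : ℂ),
  0 < r → r ≤ 1 → 0 < s → s ≤ 1 → 0 < δ → δ ^ 2 = 1 - s ^ 2 → 0 ≤ B → B ≤ C0 → 0 ≤ lam → lam ≤ C0 → 0 ≤ b → g1 ^ 2 ≤ g2 →
  ‖V0‖ ≤ C0 → ‖V1‖ ≤ C0 * δ → ‖X0‖ ≤ C0 * r → ‖X1‖ ≤ C0 * δ * r →
  ‖(X0 + X1 + Complex.I * ((B * r ^ 2 / 2 : ℝ) : ℂ) * (V0 + V1))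
      - Complex.I * ((B * (s ^ 2 * r ^ 2 / 2 + 2 * s * K + b) : ℝ) : ℂ) * (V0 + V1)‖ ^ 2 / r
    - lam * (r * (s ^ 2 + 2 * s * g1 + g2) * ‖V0 + V1‖ ^ 2)
  ≤ ‖X0 + X1‖ ^ 2 / r - lam * r * ‖V0 + V1‖ ^ 2
    + 4 * B * s * K * ((starRingEnd ℂ) X0 * V0).im / r
    + 4 * B * K * ((starRingEnd ℂ) X0 * V1 + (starRingEnd ℂ) X1 * V0).im / r
    + 2 * B * (b - δ ^ 2 * r ^ 2 / 2) * ((starRingEnd ℂ) X0 * V0).im / r
    + 4 * B ^ 2 * K ^ 2 * ‖V0‖ ^ 2 / r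
    - 2 * lam * s * r * g1 * ‖V0‖ ^ 2 - 4 * lam * r * g1 * ((starRingEnd ℂ) V0 * V1).re
    - lam * r * (g2 - δ ^ 2) * ‖V0‖ ^ 2
    + C * δ * (δ ^ 2 + b + r * g2 + K ^ 2 / r + b ^ 2 / (r * δ ^ 2))

/-- the energy density in the notation of `StPt` -/
theorem eEform (B s K b r θ : ℝ) (F V : ℂ → ℂ) (X V' : ℂ) (hr : 0 < r)
    (hbb : bb F r θ = s ^ 2 * r ^ 2 / 2 + 2 * s * K + b) (hV : V (pc r θ) = V')
    (hX : (r : ℂ) * vth V r θ = X) :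
    eE B F V r θ = r * ‖vr V r θ‖ ^ 2
      + ‖X - Complex.I * ((B * (s ^ 2 * r ^ 2 / 2 + 2 * s * K + b) : ℝ) : ℂ) * V'‖ ^ 2 / r := by
  have hrC : (r : ℂ) ≠ 0 := by exact_mod_cast hr.ne'
  have e : vth V r θ - Complex.I * ((B * bb F r θ / r : ℝ) : ℂ) * V (pc r θ)
      = (X - Complex.I * ((B * (s ^ 2 * r ^ 2 / 2 + 2 * s * K + b) : ℝ) : ℂ) * V') / (r : ℂ) := by
    rw [eq_div_iff hrC, ← hX, hV, ← hbb]
    push_cast
    field_simp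
  unfold eE
  rw [e, norm_div, Complex.norm_real, Real.norm_eq_abs, abs_of_pos hr, div_pow]
  field_simp

theorem absu (C0 B c r x : ℝ) (hC0 : 0 < C0) (hB : 0 ≤ B) (hB' : B ≤ C0) (hr : 0 < r) (hr1 : r ≤ 1)
    (h1 : |x| ≤ C0) (h2 : |(c / r) * x| ≤ C0) : |(c - B * r ^ 2 / 2) * x| ≤ (C0 + C0 ^ 2) * r := by
  have e1 : |c * x| ≤ C0 * r := by
    have : c * x = ((c / r) * x) * r := by field_simp
    rw [this, abs_mul, abs_of_pos hr]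
    exact mul_le_mul_of_nonneg_right h2 hr.le
  have e2 : |(B * r ^ 2 / 2) * x| ≤ C0 ^ 2 * r := by
    rw [abs_mul, abs_of_nonneg (by positivity)]
    have : B * r ^ 2 / 2 ≤ C0 * r := by
      have : B * r ^ 2 ≤ C0 * r := by
        have h3 : r ^ 2 ≤ r := by nlinarith
        calc B * r ^ 2 ≤ C0 * r ^ 2 := mul_le_mul_of_nonneg_right hB' (by positivity)
          _ ≤ C0 * r := mul_le_mul_of_nonneg_left h3 hC0.le
      have h4 : 0 ≤ B * r ^ 2 := by positivity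
      linarith
    calc B * r ^ 2 / 2 * |x| ≤ (C0 * r) * C0 := mul_le_mul this h1 (abs_nonneg _) (by positivity)
      _ = C0 ^ 2 * r := by ring
  have e3 : (c - B * r ^ 2 / 2) * x = c * x - (B * r ^ 2 / 2) * x := by ring
  rw [e3]
  calc |c * x - (B * r ^ 2 / 2) * x| ≤ |c * x| + |(B * r ^ 2 / 2) * x| := abs_sub _ _
    _ ≤ C0 * r + C0 ^ 2 * r := add_le_add e1 e2
    _ = _ := by ring

theorem sumle (N : ℕ) (a : ℕ → ℂ) (x y : ℕ → ℝ) (δ D : ℝ) (hδ : 0 ≤ δ) (hD : 0 ≤ D)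
    (ha : ∀ n ∈ Finset.Icc 2 N, ‖a (n + 1)‖ ≤ δ) (hx : ∀ n ∈ Finset.Icc 2 N, |x n| ≤ D)
    (hy : ∀ n ∈ Finset.Icc 2 N, |y n| ≤ D) :
    (∑ n ∈ Finset.Icc 2 N, ‖a (n + 1)‖ * (|x n| + |y n|)) ≤ (2 * N) * D * δ := by
  have h : ∀ n ∈ Finset.Icc 2 N, ‖a (n + 1)‖ * (|x n| + |y n|) ≤ δ * (2 * D) := fun n hn =>
    mul_le_mul (ha n hn) (by linarith [hx n hn, hy n hn]) (by positivity) hδ
  calc (∑ n ∈ Finset.Icc 2 N, ‖a (n + 1)‖ * (|x n| + |y n|)) ≤ ∑ _n ∈ Finset.Icc 2 N, δ * (2 * D) :=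
        Finset.sum_le_sum h
    _ = ((Finset.Icc 2 N).card : ℝ) * (δ * (2 * D)) := by rw [Finset.sum_const, nsmul_eq_mul]
    _ ≤ (N : ℝ) * (δ * (2 * D)) := by
        refine mul_le_mul_of_nonneg_right ?_ (by positivity)
        have : (Finset.Icc 2 N).card ≤ N := by rw [Nat.card_Icc]; omega
        exact_mod_cast this
    _ = _ := by ring

theorem contE (r B s lam : ℝ) (W X V' G : ℝ → ℂ) (K b : ℝ → ℝ) (hW : Continuous W) (hX : Continuous X)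
    (hV : Continuous V') (hG : Continuous G) (hK : Continuous K) (hb : Continuous b) :
    Continuous (fun θ => r * ‖W θ‖ ^ 2
      + ‖X θ - Complex.I * ((B * (s ^ 2 * r ^ 2 / 2 + 2 * s * K θ + b θ) : ℝ) : ℂ) * V' θ‖ ^ 2 / r
      - lam * (r * (s ^ 2 + 2 * s * (G θ).re + ‖G θ‖ ^ 2) * ‖V' θ‖ ^ 2)) := by
  have h1 : Continuous (fun θ => ((B * (s ^ 2 * r ^ 2 / 2 + 2 * s * K θ + b θ) : ℝ) : ℂ)) :=
    Complex.continuous_ofReal.comp (by fun_prop)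
  have h2 : Continuous (fun θ => (G θ).re) := Complex.continuous_re.comp hG
  fun_prop

/-- the integral of the right side of the pointwise inequality, rearranged -/
theorem alg (B lam s r δ C' g g' rhv rhdv k2v J : ℝ) (m N : ℕ) (na : ℕ → ℝ) (x y x' y' : ℕ → ℝ) (hr : 0 < r)
    (hδ : 0 < δ) (hδ2 : δ ^ 2 = 1 - s ^ 2) :
    r * (2 * Real.pi * (g' ^ 2 + ∑ n ∈ Finset.Icc 2 N, na n ^ 2 * (x' n ^ 2 + y' n ^ 2)))
    + (1 / r) * (2 * Real.pi * (((m - B * r ^ 2 / 2) * g) ^ 2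
        + ∑ n ∈ Finset.Icc 2 N, na n ^ 2 * ((((m : ℝ) + n - B * r ^ 2 / 2) * x n) ^ 2 + (((m : ℝ) - n - B * r ^ 2 / 2) * y n) ^ 2)))
    + (-(lam * r)) * (2 * Real.pi * (g ^ 2 + ∑ n ∈ Finset.Icc 2 N, na n ^ 2 * (x n ^ 2 + y n ^ 2)))
    + (∑ n ∈ Finset.Icc 2 N, (-(4 * B / r * (g * ((m - B * r ^ 2 / 2) * x n + ((m : ℝ) + n - B * r ^ 2 / 2) * x n
        + ((m - B * r ^ 2 / 2) * y n + ((m : ℝ) - n - B * r ^ 2 / 2) * y n))))) *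
          (Real.pi * ((n + 1) / (n + 2) * r ^ (n + 2) * na n ^ 2)))
    + (∑ n ∈ Finset.Icc 2 N, (-(4 * lam * r * (g * (x n + y n)))) * (Real.pi * ((n + 1) * r ^ n * na n ^ 2)))
    + (-(2 * B * (m - B * r ^ 2 / 2) * g ^ 2 / r) + C' * δ) * (Real.pi * rhv)
    + (4 * B ^ 2 * g ^ 2 / r + C' * δ / r) * (Real.pi * k2v)
    + (-(lam * r * g ^ 2) + C' * δ * r) * (Real.pi * rhdv / r)
    + (C' * δ / (r * δ ^ 2)) * J
    + 2 * Real.pi * (B * (m - B * r ^ 2 / 2) * g ^ 2 * δ ^ 2 * r + lam * r * δ ^ 2 * g ^ 2 + C' * δ * δ ^ 2)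
    = 2 * Real.pi * (r * g' ^ 2 + (qn B m r ^ 2 - lam) * (r * g ^ 2))
      + (∑ n ∈ Finset.Icc 2 N, na n ^ 2 *
          (2 * Real.pi * (r * x' n ^ 2 + (qn B ((m : ℤ) + n) r ^ 2 - lam) * (r * x n ^ 2))
          + 2 * Real.pi * (r * y' n ^ 2 + (qn B ((m : ℤ) - n) r ^ 2 - lam) * (r * y n ^ 2))
          - 4 * Real.pi * (((n + 1) * r ^ (n + 1) * g * (lam + B * (2 * m + 1 * n - B * r ^ 2) / (n + 2))) * x n)
          - 4 * Real.pi * (((n + 1) * r ^ (n + 1) * g * (lam + B * (2 * m + (-1) * n - B * r ^ 2) / (n + 2))) * y n)))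
      + Real.pi * (rhv - (1 - s ^ 2) * r ^ 2) * (-(2 * B * (m - B * r ^ 2 / 2))) * g ^ 2 / r
      - lam * Real.pi * (rhdv - 2 * (1 - s ^ 2) * r) * g ^ 2
      + 4 * Real.pi * B ^ 2 * g ^ 2 * k2v / r
      + C' * δ * (2 * Real.pi * δ ^ 2 + Real.pi * rhv + Real.pi * rhdv + Real.pi * k2v / r + J / r / δ ^ 2) := by
  have hr0 : r ≠ 0 := hr.ne'
  have hS : (∑ n ∈ Finset.Icc 2 N, na n ^ 2 *
          (2 * Real.pi * (r * x' n ^ 2 + (qn B ((m : ℤ) + n) r ^ 2 - lam) * (r * x n ^ 2))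
          + 2 * Real.pi * (r * y' n ^ 2 + (qn B ((m : ℤ) - n) r ^ 2 - lam) * (r * y n ^ 2))
          - 4 * Real.pi * (((n + 1) * r ^ (n + 1) * g * (lam + B * (2 * m + 1 * n - B * r ^ 2) / (n + 2))) * x n)
          - 4 * Real.pi * (((n + 1) * r ^ (n + 1) * g * (lam + B * (2 * m + (-1) * n - B * r ^ 2) / (n + 2))) * y n)))
      = (∑ n ∈ Finset.Icc 2 N, (r * (2 * Real.pi)) * (na n ^ 2 * (x' n ^ 2 + y' n ^ 2)))
      + (∑ n ∈ Finset.Icc 2 N, ((1 / r) * (2 * Real.pi)) * (na n ^ 2 * ((((m : ℝ) + n - B * r ^ 2 / 2) * x n) ^ 2 + (((m : ℝ) - n - B * r ^ 2 / 2) * y n) ^ 2)))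
      + (∑ n ∈ Finset.Icc 2 N, (-(lam * r) * (2 * Real.pi)) * (na n ^ 2 * (x n ^ 2 + y n ^ 2)))
      + (∑ n ∈ Finset.Icc 2 N, (-(4 * B / r * (g * ((m - B * r ^ 2 / 2) * x n + ((m : ℝ) + n - B * r ^ 2 / 2) * x n
        + ((m - B * r ^ 2 / 2) * y n + ((m : ℝ) - n - B * r ^ 2 / 2) * y n))))) *
          (Real.pi * ((n + 1) / (n + 2) * r ^ (n + 2) * na n ^ 2)))
      + (∑ n ∈ Finset.Icc 2 N, (-(4 * lam * r * (g * (x n + y n)))) * (Real.pi * ((n + 1) * r ^ n * na n ^ 2))) := by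
    simp only [← Finset.sum_add_distrib]
    refine Finset.sum_congr rfl (fun n _ => ?_)
    have hn : (n : ℝ) + 2 ≠ 0 := by positivity
    unfold qn
    push_cast
    field_simp
    ring
  rw [hS, ← Finset.mul_sum, ← Finset.mul_sum, ← Finset.mul_sum, ← hδ2]
  unfold qn
  push_cast
  field_simp
  ring

/-- exact form of the density -/
theorem form (h1 : StSer) (h4 : StVV) (m N : ℕ) (B lam s : ℝ) (F : ℂ → ℂ) (a : ℕ → ℂ) (Ψ : ℝ → ℝ)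
    (ΨA ΨB : ℕ → ℝ → ℝ) (hF : Nrm F a s) (c1 : ContDiff ℝ 1 Ψ) (c2 : ∀ n, ContDiff ℝ 1 (ΨA n))
    (c3 : ∀ n, ContDiff ℝ 1 (ΨB n)) (r : ℝ) (hr : r ∈ Ioo (0 : ℝ) 1) (θ : ℝ) :
    eE B F (VV m N a Ψ ΨA ΨB) r θ - lam * eM F (VV m N a Ψ ΨA ΨB) r θ
    = r * ‖((deriv (radf m Ψ) r : ℝ) : ℂ) * ex m θ
      + lin m N a (fun n => deriv (radf ((m : ℤ) + n) (ΨA n)) r) (fun n => deriv (radf ((m : ℤ) - n) (ΨB n)) r) θ‖ ^ 2
    + ‖((Complex.I * (((m - B * r ^ 2 / 2) * radf m Ψ r : ℝ) : ℂ) * ex m θ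
          + Complex.I * lin m N a (fun n => ((m : ℝ) + n - B * r ^ 2 / 2) * radf ((m : ℤ) + n) (ΨA n) r)
            (fun n => ((m : ℝ) - n - B * r ^ 2 / 2) * radf ((m : ℤ) - n) (ΨB n) r) θ
          + Complex.I * ((B * r ^ 2 / 2 : ℝ) : ℂ) * (((radf m Ψ r : ℝ) : ℂ) * ex m θ
            + lin m N a (fun n => radf ((m : ℤ) + n) (ΨA n) r) (fun n => radf ((m : ℤ) - n) (ΨB n) r) θ))
        - Complex.I * ((B * (s ^ 2 * r ^ 2 / 2 + 2 * s * kf F s r θ + bG F s r θ) : ℝ) : ℂ) *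
          (((radf m Ψ r : ℝ) : ℂ) * ex m θ
            + lin m N a (fun n => radf ((m : ℤ) + n) (ΨA n) r) (fun n => radf ((m : ℤ) - n) (ΨB n) r) θ))‖ ^ 2 / r
    - lam * (r * (s ^ 2 + 2 * s * (gd F s (pc r θ)).re + ‖gd F s (pc r θ)‖ ^ 2) *
      ‖((radf m Ψ r : ℝ) : ℂ) * ex m θ
            + lin m N a (fun n => radf ((m : ℤ) + n) (ΨA n) r) (fun n => radf ((m : ℤ) - n) (ΨB n) r) θ‖ ^ 2) := by
  obtain ⟨-, -, -, -, hd, hS⟩ := h1 F a s hF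
  obtain ⟨hbb, -, -, -⟩ := hS r hr
  obtain ⟨-, hVV⟩ := h4 m N a Ψ ΨA ΨB c1 c2 c3
  obtain ⟨v1, v2, v3⟩ := hVV r hr θ
  have hr0 : r ≠ 0 := hr.1.ne'
  have hX : (r : ℂ) * vth (VV m N a Ψ ΨA ΨB) r θ = (Complex.I * (((m - B * r ^ 2 / 2) * radf m Ψ r : ℝ) : ℂ) * ex m θ
          + Complex.I * lin m N a (fun n => ((m : ℝ) + n - B * r ^ 2 / 2) * radf ((m : ℤ) + n) (ΨA n) r)
            (fun n => ((m : ℝ) - n - B * r ^ 2 / 2) * radf ((m : ℤ) - n) (ΨB n) r) θ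
          + Complex.I * ((B * r ^ 2 / 2 : ℝ) : ℂ) * (((radf m Ψ r : ℝ) : ℂ) * ex m θ
            + lin m N a (fun n => radf ((m : ℤ) + n) (ΨA n) r) (fun n => radf ((m : ℤ) - n) (ΨB n) r) θ)) := by
    have hl := lin_rel m N a (fun n => radf ((m : ℤ) + n) (ΨA n) r) (fun n => radf ((m : ℤ) - n) (ΨB n) r)
      (fun n => ((m : ℝ) + n - B * r ^ 2 / 2) * radf ((m : ℤ) + n) (ΨA n) r)
      (fun n => ((m : ℝ) - n - B * r ^ 2 / 2) * radf ((m : ℤ) - n) (ΨB n) r)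
      (fun n => ((m : ℝ) + n) / r * radf ((m : ℤ) + n) (ΨA n) r)
      (fun n => ((m : ℝ) - n) / r * radf ((m : ℤ) - n) (ΨB n) r) r (B * r ^ 2 / 2) θ
      (fun n => by field_simp; ring) (fun n => by field_simp; ring)
    have hg : (r : ℂ) * ((m / r * radf m Ψ r : ℝ) : ℂ) = (((m - B * r ^ 2 / 2) * radf m Ψ r : ℝ) : ℂ)
        + ((B * r ^ 2 / 2 : ℝ) : ℂ) * ((radf m Ψ r : ℝ) : ℂ) := by
      rw [← Complex.ofReal_mul, ← Complex.ofReal_mul, ← Complex.ofReal_add]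
      congr 1
      field_simp
      ring
    rw [v3]
    calc (r : ℂ) * (Complex.I * (((m / r * radf m Ψ r : ℝ) : ℂ) * ex m θ
      + lin m N a (fun n => ((m : ℝ) + n) / r * radf ((m : ℤ) + n) (ΨA n) r)
          (fun n => ((m : ℝ) - n) / r * radf ((m : ℤ) - n) (ΨB n) r) θ))
        = Complex.I * (((r : ℂ) * ((m / r * radf m Ψ r : ℝ) : ℂ)) * ex m θ
          + (r : ℂ) * lin m N a (fun n => ((m : ℝ) + n) / r * radf ((m : ℤ) + n) (ΨA n) r)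
          (fun n => ((m : ℝ) - n) / r * radf ((m : ℤ) - n) (ΨB n) r) θ) := by ring
      _ = _ := by rw [hg, hl]; ring
  rw [eEform B s (kf F s r θ) (bG F s r θ) r θ F _ _ _ hr.1 (hbb θ).1 v1 hX, v2]
  have hM : eM F (VV m N a Ψ ΨA ΨB) r θ = r * (s ^ 2 + 2 * s * (gd F s (pc r θ)).re + ‖gd F s (pc r θ)‖ ^ 2) *
      ‖((radf m Ψ r : ℝ) : ℂ) * ex m θ
            + lin m N a (fun n => radf ((m : ℤ) + n) (ΨA n) r) (fun n => radf ((m : ℤ) - n) (ΨB n) r) θ‖ ^ 2 := by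
    unfold eM
    rw [hd, v1]
  rw [hM]

/-- right side of the pointwise inequality -/
noncomputable def RR (B lam s r δ C' g : ℝ) (m N : ℕ) (a : ℕ → ℂ) (x y : ℕ → ℝ) (W Y Z : ℝ → ℝ) (K b g1 g2 : ℝ → ℝ)
    (θ : ℝ) : ℝ :=
  r * W θ + (1 / r) * Y θ + (-(lam * r)) * Z θ
  + (∑ n ∈ Finset.Icc 2 N, (-(4 * B / r * (g * ((m - B * r ^ 2 / 2) * x n + ((m : ℝ) + n - B * r ^ 2 / 2) * x n
        + ((m - B * r ^ 2 / 2) * y n + ((m : ℝ) - n - B * r ^ 2 / 2) * y n))))) * (K θ * Rn a n θ))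
  + (∑ n ∈ Finset.Icc 2 N, (-(4 * lam * r * (g * (x n + y n)))) * (g1 θ * Rn a n θ))
  + (-(2 * B * (m - B * r ^ 2 / 2) * g ^ 2 / r) + C' * δ) * b θ
  + (4 * B ^ 2 * g ^ 2 / r + C' * δ / r) * K θ ^ 2
  + (-(lam * r * g ^ 2) + C' * δ * r) * g2 θ
  + (C' * δ / (r * δ ^ 2)) * b θ ^ 2
  + (B * (m - B * r ^ 2 / 2) * g ^ 2 * δ ^ 2 * r + lam * r * δ ^ 2 * g ^ 2 + C' * δ * δ ^ 2)
  + (-(4 * B * s * (m - B * r ^ 2 / 2) * g ^ 2 / r)) * K θ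
  + (-(2 * lam * s * r * g ^ 2)) * g1 θ

theorem rrint (B lam s r δ C' g g' rhv rhdv k2v J : ℝ) (m N : ℕ) (a : ℕ → ℂ) (x y x' y' : ℕ → ℝ) (W Y Z : ℝ → ℝ)
    (K b g1 g2 : ℝ → ℝ)
    (hW : HI W (2 * Real.pi * (g' ^ 2 + ∑ n ∈ Finset.Icc 2 N, ‖a (n + 1)‖ ^ 2 * (x' n ^ 2 + y' n ^ 2))))
    (hY : HI Y (2 * Real.pi * (((m - B * r ^ 2 / 2) * g) ^ 2
        + ∑ n ∈ Finset.Icc 2 N, ‖a (n + 1)‖ ^ 2 * ((((m : ℝ) + n - B * r ^ 2 / 2) * x n) ^ 2 + (((m : ℝ) - n - B * r ^ 2 / 2) * y n) ^ 2))))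
    (hZ : HI Z (2 * Real.pi * (g ^ 2 + ∑ n ∈ Finset.Icc 2 N, ‖a (n + 1)‖ ^ 2 * (x n ^ 2 + y n ^ 2))))
    (hKR : ∀ n ∈ Finset.Icc 2 N, HI (fun θ => K θ * Rn a n θ) (Real.pi * ((n + 1) / (n + 2) * r ^ (n + 2) * ‖a (n + 1)‖ ^ 2)))
    (hGR : ∀ n ∈ Finset.Icc 2 N, HI (fun θ => g1 θ * Rn a n θ) (Real.pi * ((n + 1) * r ^ n * ‖a (n + 1)‖ ^ 2)))
    (hb : HI b (Real.pi * rhv)) (hK2 : HI (fun θ => K θ ^ 2) (Real.pi * k2v)) (hg2 : HI g2 (Real.pi * rhdv / r))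
    (hb2 : HI (fun θ => b θ ^ 2) J) (hK : HI K 0) (hg1 : HI g1 0) :
    HI (RR B lam s r δ C' g m N a x y W Y Z K b g1 g2)
    (r * (2 * Real.pi * (g' ^ 2 + ∑ n ∈ Finset.Icc 2 N, ‖a (n + 1)‖ ^ 2 * (x' n ^ 2 + y' n ^ 2)))
    + (1 / r) * (2 * Real.pi * (((m - B * r ^ 2 / 2) * g) ^ 2
        + ∑ n ∈ Finset.Icc 2 N, ‖a (n + 1)‖ ^ 2 * ((((m : ℝ) + n - B * r ^ 2 / 2) * x n) ^ 2 + (((m : ℝ) - n - B * r ^ 2 / 2) * y n) ^ 2)))
    + (-(lam * r)) * (2 * Real.pi * (g ^ 2 + ∑ n ∈ Finset.Icc 2 N, ‖a (n + 1)‖ ^ 2 * (x n ^ 2 + y n ^ 2)))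
    + (∑ n ∈ Finset.Icc 2 N, (-(4 * B / r * (g * ((m - B * r ^ 2 / 2) * x n + ((m : ℝ) + n - B * r ^ 2 / 2) * x n
        + ((m - B * r ^ 2 / 2) * y n + ((m : ℝ) - n - B * r ^ 2 / 2) * y n))))) *
          (Real.pi * ((n + 1) / (n + 2) * r ^ (n + 2) * ‖a (n + 1)‖ ^ 2)))
    + (∑ n ∈ Finset.Icc 2 N, (-(4 * lam * r * (g * (x n + y n)))) * (Real.pi * ((n + 1) * r ^ n * ‖a (n + 1)‖ ^ 2)))
    + (-(2 * B * (m - B * r ^ 2 / 2) * g ^ 2 / r) + C' * δ) * (Real.pi * rhv)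
    + (4 * B ^ 2 * g ^ 2 / r + C' * δ / r) * (Real.pi * k2v)
    + (-(lam * r * g ^ 2) + C' * δ * r) * (Real.pi * rhdv / r)
    + (C' * δ / (r * δ ^ 2)) * J
    + 2 * Real.pi * (B * (m - B * r ^ 2 / 2) * g ^ 2 * δ ^ 2 * r + lam * r * δ ^ 2 * g ^ 2 + C' * δ * δ ^ 2)
    + (-(4 * B * s * (m - B * r ^ 2 / 2) * g ^ 2 / r)) * 0
    + (-(2 * lam * s * r * g ^ 2)) * 0) :=
  hadd (hadd (hadd (hadd (hadd (hadd (hadd (hadd (hadd (hadd (hadd (hmul _ hW) (hmul _ hY)) (hmul _ hZ))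
    (hsum _ (fun n hn => hmul _ (hKR n hn)))) (hsum _ (fun n hn => hmul _ (hGR n hn)))) (hmul _ hb)) (hmul _ hK2))
    (hmul _ hg2)) (hmul _ hb2)) (hcst _)) (hmul _ hK)) (hmul _ hg1)

theorem pwle (C0 C' : ℝ) (hC : PtC C0 C') (B lam s r δ K b g : ℝ) (G : ℂ) (m N : ℕ) (a : ℕ → ℂ) (x y : ℕ → ℝ) (θ : ℝ)
    (w : ℝ) (h5 : StAng) (hr : 0 < r) (hr1 : r ≤ 1) (hs : 0 < s) (hs1 : s ≤ 1) (hδ : 0 < δ) (hδ2 : δ ^ 2 = 1 - s ^ 2)
    (hB : 0 ≤ B) (hB' : B ≤ C0) (hl : 0 ≤ lam) (hl' : lam ≤ C0) (hb : 0 ≤ b)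
    (b0 : |g| ≤ C0) (b1 : (∑ n ∈ Finset.Icc 2 N, ‖a (n + 1)‖ * (|x n| + |y n|)) ≤ C0 * δ)
    (b2 : |(m - B * r ^ 2 / 2) * g| ≤ C0 * r)
    (b3 : (∑ n ∈ Finset.Icc 2 N, ‖a (n + 1)‖ * (|((m : ℝ) + n - B * r ^ 2 / 2) * x n|
      + |((m : ℝ) - n - B * r ^ 2 / 2) * y n|)) ≤ C0 * δ * r) :
    r * w + ‖((Complex.I * (((m - B * r ^ 2 / 2) * g : ℝ) : ℂ) * ex m θ
          + Complex.I * lin m N a (fun n => ((m : ℝ) + n - B * r ^ 2 / 2) * x n)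
            (fun n => ((m : ℝ) - n - B * r ^ 2 / 2) * y n) θ
          + Complex.I * ((B * r ^ 2 / 2 : ℝ) : ℂ) * ((g : ℂ) * ex m θ + lin m N a x y θ))
        - Complex.I * ((B * (s ^ 2 * r ^ 2 / 2 + 2 * s * K + b) : ℝ) : ℂ) *
          ((g : ℂ) * ex m θ + lin m N a x y θ))‖ ^ 2 / r
    - lam * (r * (s ^ 2 + 2 * s * G.re + ‖G‖ ^ 2) * ‖(g : ℂ) * ex m θ + lin m N a x y θ‖ ^ 2)
    ≤ RR B lam s r δ C' g m N a x y (fun _ => w) 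
        (fun θ => ‖(((m - B * r ^ 2 / 2) * g : ℝ) : ℂ) * ex m θ + lin m N a (fun n => ((m : ℝ) + n - B * r ^ 2 / 2) * x n)
            (fun n => ((m : ℝ) - n - B * r ^ 2 / 2) * y n) θ‖ ^ 2)
        (fun θ => ‖(g : ℂ) * ex m θ + lin m N a x y θ‖ ^ 2) (fun _ => K) (fun _ => b) (fun _ => G.re) (fun _ => ‖G‖ ^ 2) θ := by
  obtain ⟨-, -, -, hA⟩ := h5 m N a g (m - B * r ^ 2 / 2) x y (fun n => ((m : ℝ) + n - B * r ^ 2 / 2) * x n)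
            (fun n => ((m : ℝ) - n - B * r ^ 2 / 2) * y n)
  obtain ⟨hA1, hA2, hA3, hA4⟩ := hA θ
  obtain ⟨-, -, -, hA'⟩ := h5 m N a g (m - B * r ^ 2 / 2) (fun n => ((m : ℝ) + n - B * r ^ 2 / 2) * x n)
            (fun n => ((m : ℝ) - n - B * r ^ 2 / 2) * y n) x y
  obtain ⟨-, -, hA5, -⟩ := hA' θ
  have hee : (starRingEnd ℂ) (ex m θ) * ex m θ = 1 := by
    rw [Complex.conj_mul', hA4]; simp
  have n0 : ‖(g : ℂ) * ex m θ‖ = |g| := by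
    rw [norm_mul, hA4, mul_one, Complex.norm_real, Real.norm_eq_abs]
  have n2 : ‖Complex.I * (((m - B * r ^ 2 / 2) * g : ℝ) : ℂ) * ex m θ‖ = |(m - B * r ^ 2 / 2) * g| := by
    rw [norm_mul, hA4, mul_one, norm_mul, Complex.norm_I, one_mul, Complex.norm_real, Real.norm_eq_abs]
  have n3 : ‖Complex.I * lin m N a (fun n => ((m : ℝ) + n - B * r ^ 2 / 2) * x n)
            (fun n => ((m : ℝ) - n - B * r ^ 2 / 2) * y n) θ‖ ≤ C0 * δ * r := by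
    rw [norm_mul, Complex.norm_I, one_mul]
    exact hA5.trans b3
  have hg1 : G.re ^ 2 ≤ ‖G‖ ^ 2 := by
    rw [← sq_abs]
    exact pow_le_pow_left₀ (abs_nonneg _) (Complex.abs_re_le_norm G) 2
  have h := hC r s δ B lam K b G.re (‖G‖ ^ 2) ((g : ℂ) * ex m θ) (lin m N a x y θ)
    (Complex.I * (((m - B * r ^ 2 / 2) * g : ℝ) : ℂ) * ex m θ)
    (Complex.I * lin m N a (fun n => ((m : ℝ) + n - B * r ^ 2 / 2) * x n)
            (fun n => ((m : ℝ) - n - B * r ^ 2 / 2) * y n) θ)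
    hr hr1 hs hs1 hδ hδ2 hB hB' hl hl' hb hg1 (n0.le.trans b0) (hA3.trans b1) (n2.le.trans b2) n3
  have hJ : ((starRingEnd ℂ) (Complex.I * (((m - B * r ^ 2 / 2) * g : ℝ) : ℂ) * ex m θ) * ((g : ℂ) * ex m θ)).im
      = -((m - B * r ^ 2 / 2) * g ^ 2) := by
    have e : (starRingEnd ℂ) (Complex.I * (((m - B * r ^ 2 / 2) * g : ℝ) : ℂ) * ex m θ) * ((g : ℂ) * ex m θ)
        = -(Complex.I * (((m - B * r ^ 2 / 2) * g ^ 2 : ℝ) : ℂ)) := by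
      rw [map_mul, map_mul, Complex.conj_I, Complex.conj_ofReal]
      calc -Complex.I * (((m - B * r ^ 2 / 2) * g : ℝ) : ℂ) * (starRingEnd ℂ) (ex m θ) * ((g : ℂ) * ex m θ)
          = -Complex.I * (((m - B * r ^ 2 / 2) * g : ℝ) : ℂ) * (g : ℂ) * ((starRingEnd ℂ) (ex m θ) * ex m θ) := by ring
        _ = _ := by rw [hee]; push_cast; ring
    rw [e, Complex.neg_im, Complex.I_mul_im, Complex.ofReal_re]
  have hXX : ‖Complex.I * (((m - B * r ^ 2 / 2) * g : ℝ) : ℂ) * ex m θ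
      + Complex.I * lin m N a (fun n => ((m : ℝ) + n - B * r ^ 2 / 2) * x n)
            (fun n => ((m : ℝ) - n - B * r ^ 2 / 2) * y n) θ‖
      = ‖(((m - B * r ^ 2 / 2) * g : ℝ) : ℂ) * ex m θ + lin m N a (fun n => ((m : ℝ) + n - B * r ^ 2 / 2) * x n)
            (fun n => ((m : ℝ) - n - B * r ^ 2 / 2) * y n) θ‖ := by
    rw [mul_assoc, ← mul_add, norm_mul, Complex.norm_I, one_mul]
  rw [hJ, hA1, hA2, hXX, n0, sq_abs] at h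
  have hs1' : (∑ n ∈ Finset.Icc 2 N, (-(4 * B / r * (g * ((m - B * r ^ 2 / 2) * x n + ((m : ℝ) + n - B * r ^ 2 / 2) * x n
        + ((m - B * r ^ 2 / 2) * y n + ((m : ℝ) - n - B * r ^ 2 / 2) * y n))))) * (K * Rn a n θ))
      = 4 * B * K * (-∑ n ∈ Finset.Icc 2 N, g * ((m - B * r ^ 2 / 2) * x n + ((m : ℝ) + n - B * r ^ 2 / 2) * x n
        + ((m - B * r ^ 2 / 2) * y n + ((m : ℝ) - n - B * r ^ 2 / 2) * y n)) * Rn a n θ) / r := by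
    rw [← Finset.sum_neg_distrib, Finset.mul_sum, Finset.sum_div]
    refine Finset.sum_congr rfl (fun n _ => ?_)
    ring
  have hs2' : (∑ n ∈ Finset.Icc 2 N, (-(4 * lam * r * (g * (x n + y n)))) * (G.re * Rn a n θ))
      = -(4 * lam * r * G.re * ∑ n ∈ Finset.Icc 2 N, g * (x n + y n) * Rn a n θ) := by
    rw [Finset.mul_sum, ← Finset.sum_neg_distrib]
    refine Finset.sum_congr rfl (fun n _ => ?_)
    ring
  unfold RR
  rw [hs1', hs2']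
  refine le_of_eq_of_le ?_ ((add_le_add_left h (r * w)).trans (le_of_eq ?_))
  · ring
  · field_simp
    ring

end IMn

open IMn in
/-- item Mn -/
theorem pr_Mn (h1 : StSer) (h2 : StFK) (h3 : StPt) (h4 : StVV) (h5 : StAng) : StMn := by
  intro C0 N hC0
  have hNC : (1 : ℝ) ≤ 2 * N + 2 := by
    have : (0 : ℝ) ≤ N := Nat.cast_nonneg N
    linarith
  have hC0' : 0 < (2 * (N : ℝ) + 2) * (C0 + C0 ^ 2 + 1) := by positivity
  have hle : C0 + C0 ^ 2 ≤ (2 * (N : ℝ) + 2) * (C0 + C0 ^ 2 + 1) := by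
    have : (1 : ℝ) * (C0 + C0 ^ 2 + 1) ≤ (2 * (N : ℝ) + 2) * (C0 + C0 ^ 2 + 1) :=
      mul_le_mul_of_nonneg_right hNC (by positivity)
    linarith
  have hle0 : C0 ≤ (2 * (N : ℝ) + 2) * (C0 + C0 ^ 2 + 1) := by
    have : 0 ≤ C0 ^ 2 := by positivity
    linarith
  have hleN : (2 * (N : ℝ)) * (C0 + C0 ^ 2) ≤ (2 * (N : ℝ) + 2) * (C0 + C0 ^ 2 + 1) :=
    mul_le_mul (by linarith) (by linarith) (by positivity) (by linarith)
  obtain ⟨C', hC', hC⟩ := h3 _ hC0'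
  refine ⟨2 * Real.pi * C', by positivity, ?_⟩
  intro B lam s m F a Ψ ΨA ΨB hB hB' hl hl' hF hs1 c1 c2 c3 hb1 hb2 r hr
  have hC2 : PtC ((2 * (N : ℝ) + 2) * (C0 + C0 ^ 2 + 1)) C' := hC
  obtain ⟨hs1', hS1, hS2, hS3, hS4, hS5⟩ := h1 F a s hF
  obtain ⟨hbb, ck, cb, cg⟩ := hS5 r hr
  obtain ⟨k1, k2', k3, k4, k5, k6⟩ := h2 F a s hF r hr
  have hr0 : 0 < r := hr.1
  have hr1 : r ≤ 1 := hr.2.le
  have hs0 : 0 < s := hF.s0
  have hpos : 0 < 1 - s ^ 2 := by nlinarith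
  set δ : ℝ := Real.sqrt (1 - s ^ 2) with hδdef
  have hδ : 0 < δ := Real.sqrt_pos.mpr hpos
  have hδ2 : δ ^ 2 = 1 - s ^ 2 := Real.sq_sqrt hpos.le
  have ha : ∀ n ∈ Finset.Icc 2 N, ‖a (n + 1)‖ ≤ δ := by
    intro n hn
    have hn2 : 2 ≤ n := (Finset.mem_Icc.mp hn).1
    have h := hS2 n hn2
    apply Real.le_sqrt_of_sq_le
    have : ‖a (n + 1)‖ ^ 2 ≤ ((n : ℝ) + 1) * ‖a (n + 1)‖ ^ 2 := by
      have h0 : 0 ≤ ‖a (n + 1)‖ ^ 2 := by positivity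
      have h1 : (0 : ℝ) ≤ n := Nat.cast_nonneg n
      nlinarith
    linarith
  obtain ⟨g0, -, g2⟩ := hb1 r hr
  have B0 : |radf m Ψ r| ≤ (2 * (N : ℝ) + 2) * (C0 + C0 ^ 2 + 1) := g0.trans hle0
  have B2 : |((m : ℝ) - B * r ^ 2 / 2) * radf m Ψ r| ≤ (2 * (N : ℝ) + 2) * (C0 + C0 ^ 2 + 1) * r := by
    have := absu C0 B m r (radf m Ψ r) hC0 hB hB' hr0 hr1 g0 (by simpa using g2)
    exact this.trans (mul_le_mul_of_nonneg_right hle hr0.le)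
  have B1 : (∑ n ∈ Finset.Icc 2 N, ‖a (n + 1)‖ * (|radf ((m : ℤ) + n) (ΨA n) r| + |radf ((m : ℤ) - n) (ΨB n) r|))
      ≤ (2 * (N : ℝ) + 2) * (C0 + C0 ^ 2 + 1) * δ := by
    have := sumle N a (fun n => radf ((m : ℤ) + n) (ΨA n) r) (fun n => radf ((m : ℤ) - n) (ΨB n) r) δ C0 hδ.le hC0.le ha
      (fun n hn => ((hb2 n hn).1 r hr).1) (fun n hn => ((hb2 n hn).2 r hr).1)
    refine this.trans (mul_le_mul_of_nonneg_right ?_ hδ.le)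
    have h3 : (2 * (N : ℝ)) * C0 ≤ (2 * (N : ℝ)) * (C0 + C0 ^ 2) :=
      mul_le_mul_of_nonneg_left (by nlinarith) (by positivity)
    linarith
  have B3 : (∑ n ∈ Finset.Icc 2 N, ‖a (n + 1)‖ * (|((m : ℝ) + n - B * r ^ 2 / 2) * radf ((m : ℤ) + n) (ΨA n) r|
      + |((m : ℝ) - n - B * r ^ 2 / 2) * radf ((m : ℤ) - n) (ΨB n) r|))
      ≤ (2 * (N : ℝ) + 2) * (C0 + C0 ^ 2 + 1) * δ * r := by
    have := sumle N a (fun n => ((m : ℝ) + n - B * r ^ 2 / 2) * radf ((m : ℤ) + n) (ΨA n) r)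
      (fun n => ((m : ℝ) - n - B * r ^ 2 / 2) * radf ((m : ℤ) - n) (ΨB n) r) δ ((C0 + C0 ^ 2) * r) hδ.le
      (by positivity) ha
      (fun n hn => absu C0 B ((m : ℝ) + n) r _ hC0 hB hB' hr0 hr1 ((hb2 n hn).1 r hr).1
        (by simpa using ((hb2 n hn).1 r hr).2.2))
      (fun n hn => absu C0 B ((m : ℝ) - n) r _ hC0 hB hB' hr0 hr1 ((hb2 n hn).2 r hr).1
        (by simpa using ((hb2 n hn).2 r hr).2.2))
    refine this.trans ?_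
    have h3 : (2 * (N : ℝ)) * ((C0 + C0 ^ 2) * r) * δ = (2 * (N : ℝ)) * (C0 + C0 ^ 2) * (δ * r) := by ring
    rw [h3, mul_assoc ((2 * (N : ℝ) + 2) * (C0 + C0 ^ 2 + 1)) δ r]
    exact mul_le_mul_of_nonneg_right hleN (by positivity)
  -- continuity
  have hBC : B ≤ (2 * (N : ℝ) + 2) * (C0 + C0 ^ 2 + 1) := hB'.trans hle0
  have hlC : lam ≤ (2 * (N : ℝ) + 2) * (C0 + C0 ^ 2 + 1) := hl'.trans hle0
  obtain ⟨cL1, cex, I1, -⟩ := h5 m N a (deriv (radf m Ψ) r) 0 (fun n => deriv (radf ((m : ℤ) + n) (ΨA n)) r)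
    (fun n => deriv (radf ((m : ℤ) - n) (ΨB n)) r) 0 0
  obtain ⟨cL2, -, I2, -⟩ := h5 m N a (((m : ℝ) - B * r ^ 2 / 2) * radf m Ψ r) 0
    (fun n => ((m : ℝ) + n - B * r ^ 2 / 2) * radf ((m : ℤ) + n) (ΨA n) r)
    (fun n => ((m : ℝ) - n - B * r ^ 2 / 2) * radf ((m : ℤ) - n) (ΨB n) r) 0 0
  obtain ⟨cL3, -, I3, -⟩ := h5 m N a (radf m Ψ r) 0 (fun n => radf ((m : ℤ) + n) (ΨA n) r)
    (fun n => radf ((m : ℤ) - n) (ΨB n) r) 0 0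
  have cRn : ∀ n : ℕ, Continuous (Rn a n) := by
    intro n
    obtain ⟨-, ce, -, -⟩ := h5 n N a 0 0 0 0 0 0
    exact Complex.continuous_re.comp (continuous_const.mul ce)
  have cW : Continuous (fun θ => ((deriv (radf m Ψ) r : ℝ) : ℂ) * ex m θ
      + lin m N a (fun n => deriv (radf ((m : ℤ) + n) (ΨA n)) r) (fun n => deriv (radf ((m : ℤ) - n) (ΨB n)) r) θ) :=
    (continuous_const.mul cex).add cL1
  have cY : Continuous (fun θ => ((((m : ℝ) - B * r ^ 2 / 2) * radf m Ψ r : ℝ) : ℂ) * ex m θ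
      + lin m N a (fun n => ((m : ℝ) + n - B * r ^ 2 / 2) * radf ((m : ℤ) + n) (ΨA n) r)
    (fun n => ((m : ℝ) - n - B * r ^ 2 / 2) * radf ((m : ℤ) - n) (ΨB n) r) θ) :=
    (continuous_const.mul cex).add cL2
  have cZ : Continuous (fun θ => ((radf m Ψ r : ℝ) : ℂ) * ex m θ
      + lin m N a (fun n => radf ((m : ℤ) + n) (ΨA n) r) (fun n => radf ((m : ℤ) - n) (ΨB n) r) θ) :=
    (continuous_const.mul cex).add cL3
  have cX : Continuous (fun θ => (Complex.I * (((m - B * r ^ 2 / 2) * radf m Ψ r : ℝ) : ℂ) * ex m θ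
          + Complex.I * lin m N a (fun n => ((m : ℝ) + n - B * r ^ 2 / 2) * radf ((m : ℤ) + n) (ΨA n) r)
            (fun n => ((m : ℝ) - n - B * r ^ 2 / 2) * radf ((m : ℤ) - n) (ΨB n) r) θ
          + Complex.I * ((B * r ^ 2 / 2 : ℝ) : ℂ) * (((radf m Ψ r : ℝ) : ℂ) * ex m θ
            + lin m N a (fun n => radf ((m : ℤ) + n) (ΨA n) r) (fun n => radf ((m : ℤ) - n) (ΨB n) r) θ))) :=
    ((continuous_const.mul cex).add (continuous_const.mul cL2)).add (continuous_const.mul cZ)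
  have hcontE := contE r B s lam _ _ _ (fun θ => gd F s (pc r θ)) (fun θ => kf F s r θ) (fun θ => bG F s r θ)
    cW cX cZ cg ck cb
  have hfun : (fun θ => eE B F (VV m N a Ψ ΨA ΨB) r θ - lam * eM F (VV m N a Ψ ΨA ΨB) r θ) = _ :=
    funext (fun θ => form h1 h4 m N B lam s F a Ψ ΨA ΨB hF c1 c2 c3 r hr θ)
  have hint : IntervalIntegrable (fun θ => eE B F (VV m N a Ψ ΨA ΨB) r θ - lam * eM F (VV m N a Ψ ΨA ΨB) r θ)
      volume 0 (2 * Real.pi) := by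
    rw [hfun]
    exact hcontE.intervalIntegrable _ _
  have hgre : Continuous (fun θ => (gd F s (pc r θ)).re) := Complex.continuous_re.comp cg
  have hRR := rrint B lam s r δ C' (radf m Ψ r) (deriv (radf m Ψ) r) (rh a r) (rhd a r) (k2 a r)
    (∫ θ in (0 : ℝ)..(2 * Real.pi), bG F s r θ ^ 2) m N a
    (fun n => radf ((m : ℤ) + n) (ΨA n) r) (fun n => radf ((m : ℤ) - n) (ΨB n) r)
    (fun n => deriv (radf ((m : ℤ) + n) (ΨA n)) r) (fun n => deriv (radf ((m : ℤ) - n) (ΨB n)) r)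
    (fun θ => ‖((deriv (radf m Ψ) r : ℝ) : ℂ) * ex m θ
      + lin m N a (fun n => deriv (radf ((m : ℤ) + n) (ΨA n)) r) (fun n => deriv (radf ((m : ℤ) - n) (ΨB n)) r) θ‖ ^ 2)
    (fun θ => ‖((((m : ℝ) - B * r ^ 2 / 2) * radf m Ψ r : ℝ) : ℂ) * ex m θ
      + lin m N a (fun n => ((m : ℝ) + n - B * r ^ 2 / 2) * radf ((m : ℤ) + n) (ΨA n) r)
    (fun n => ((m : ℝ) - n - B * r ^ 2 / 2) * radf ((m : ℤ) - n) (ΨB n) r) θ‖ ^ 2)
    (fun θ => ‖((radf m Ψ r : ℝ) : ℂ) * ex m θ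
      + lin m N a (fun n => radf ((m : ℤ) + n) (ΨA n) r) (fun n => radf ((m : ℤ) - n) (ΨB n) r) θ‖ ^ 2)
    (fun θ => kf F s r θ) (fun θ => bG F s r θ) (fun θ => (gd F s (pc r θ)).re) (fun θ => ‖gd F s (pc r θ)‖ ^ 2)
    (hcont (cW.norm.pow 2) I1) (hcont (cY.norm.pow 2) I2) (hcont (cZ.norm.pow 2) I3)
    (fun n hn => hcont (ck.mul (cRn n)) (k3 n (Finset.mem_Icc.mp hn).1).1)
    (fun n hn => hcont (hgre.mul (cRn n)) (k3 n (Finset.mem_Icc.mp hn).1).2)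
    (hcont cb k6) (hcont (ck.pow 2) k4) (hcont (cg.norm.pow 2) k5) (hcont (cb.pow 2) rfl) (hcont ck k1) (hcont hgre k2')
  have hmono := intervalIntegral.integral_mono_on (by positivity : (0 : ℝ) ≤ 2 * Real.pi) hint hRR.1
    (fun θ _ => by
      rw [form h1 h4 m N B lam s F a Ψ ΨA ΨB hF c1 c2 c3 r hr θ]
      exact pwle _ C' hC2 B lam s r δ (kf F s r θ) (bG F s r θ) (radf m Ψ r) (gd F s (pc r θ)) m N a
        (fun n => radf ((m : ℤ) + n) (ΨA n) r) (fun n => radf ((m : ℤ) - n) (ΨB n) r) θ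
        (‖((deriv (radf m Ψ) r : ℝ) : ℂ) * ex m θ
      + lin m N a (fun n => deriv (radf ((m : ℤ) + n) (ΨA n)) r) (fun n => deriv (radf ((m : ℤ) - n) (ΨB n)) r) θ‖ ^ 2)
        h5 hr0 hr1 hs0 hs1' hδ hδ2 hB hBC hl hlC (hbb θ).2.1 B0 B1 B2 B3)
  rw [hRR.2, mul_zero, mul_zero, add_zero, add_zero,
    alg B lam s r δ C' (radf m Ψ r) (deriv (radf m Ψ) r) (rh a r) (rhd a r) (k2 a r)
    (∫ θ in (0 : ℝ)..(2 * Real.pi), bG F s r θ ^ 2) m N (fun n => ‖a (n + 1)‖)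
    (fun n => radf ((m : ℤ) + n) (ΨA n) r) (fun n => radf ((m : ℤ) - n) (ΨB n) r)
    (fun n => deriv (radf ((m : ℤ) + n) (ΨA n)) r) (fun n => deriv (radf ((m : ℤ) - n) (ΨB n)) r) hr0 hδ hδ2] at hmono
  refine hmono.trans ?_
  have hpi : 0 < Real.pi := Real.pi_pos
  have p1 : 0 ≤ rh a r := by
    have h : 0 ≤ Real.pi * rh a r := by
      rw [← k6]
      exact intervalIntegral.integral_nonneg (by positivity) (fun θ _ => (hbb θ).2.1)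
    exact nonneg_of_mul_nonneg_right h hpi
  have p2 : 0 ≤ rhd a r := by
    have h : 0 ≤ Real.pi * rhd a r / r := by
      rw [← k5]
      exact intervalIntegral.integral_nonneg (by positivity) (fun θ _ => by positivity)
    have h' : 0 ≤ Real.pi * rhd a r := by
      have := mul_nonneg h hr0.le
      rwa [div_mul_cancel₀ _ hr0.ne'] at this
    exact nonneg_of_mul_nonneg_right h' hpi
  have p3 : 0 ≤ k2 a r := by
    have h : 0 ≤ Real.pi * k2 a r := by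
      rw [← k4]
      exact intervalIntegral.integral_nonneg (by positivity) (fun θ _ => by positivity)
    exact nonneg_of_mul_nonneg_right h hpi
  have p4 : 0 ≤ (∫ θ in (0 : ℝ)..(2 * Real.pi), bG F s r θ ^ 2) :=
    intervalIntegral.integral_nonneg (by positivity) (fun θ _ => by positivity)
  have p5 : 0 ≤ (∫ θ in (0 : ℝ)..(2 * Real.pi), bG F s r θ ^ 2) / r / δ ^ 2 := by positivity
  have p6 : 0 ≤ k2 a r / r := by positivity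
  have hpi3 : 1 ≤ 2 * Real.pi := by linarith [Real.pi_gt_three]
  have hE : C' * δ * (2 * Real.pi * δ ^ 2 + Real.pi * rh a r + Real.pi * rhd a r + Real.pi * k2 a r / r
      + (∫ θ in (0 : ℝ)..(2 * Real.pi), bG F s r θ ^ 2) / r / δ ^ 2)
      ≤ 2 * Real.pi * C' * δ * ((1 - s ^ 2) + rh a r + rhd a r + k2 a r / r
        + (∫ θ in (0 : ℝ)..(2 * Real.pi), bG F s r θ ^ 2) / r / (1 - s ^ 2)) := by
    rw [← hδ2]
    have e : 2 * Real.pi * C' * δ * (δ ^ 2 + rh a r + rhd a r + k2 a r / r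
        + (∫ θ in (0 : ℝ)..(2 * Real.pi), bG F s r θ ^ 2) / r / δ ^ 2)
        = C' * δ * (2 * Real.pi * δ ^ 2 + 2 * (Real.pi * rh a r) + 2 * (Real.pi * rhd a r) + 2 * (Real.pi * (k2 a r / r))
        + 2 * Real.pi * ((∫ θ in (0 : ℝ)..(2 * Real.pi), bG F s r θ ^ 2) / r / δ ^ 2)) := by ring
    rw [e]
    refine mul_le_mul_of_nonneg_left ?_ (by positivity)
    have q1 : 0 ≤ Real.pi * rh a r := by positivity
    have q2 : 0 ≤ Real.pi * rhd a r := by positivity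
    have q3 : 0 ≤ Real.pi * (k2 a r / r) := by positivity
    have q4 : Real.pi * k2 a r / r = Real.pi * (k2 a r / r) := by ring
    have q5 : 1 * ((∫ θ in (0 : ℝ)..(2 * Real.pi), bG F s r θ ^ 2) / r / δ ^ 2)
        ≤ 2 * Real.pi * ((∫ θ in (0 : ℝ)..(2 * Real.pi), bG F s r θ ^ 2) / r / δ ^ 2) :=
      mul_le_mul_of_nonneg_right hpi3 p5
    rw [q4]
    linarith
  refine add_le_add (le_of_eq ?_) hE
  unfold MI Sn
  push_cast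
  rfl

end Pool.Agent.MFK.CD
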