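import Pool.Agent.Work.MP_8826fd_mp.CD.Stmts

/-!
# MP_8826fd_mp, block CD: item TTn (high modes)
-/

set_option autoImplicit false

namespace Pool.Agent.MFK.CD

open MeasureTheory Set Filter Topology Pool.Agent.MFK.NF

namespace ITTn

/-- an integral with a factor `r^j` is small -/
theorem small (f : ℝ → ℝ) (C : ℝ) (j : ℕ) (hC : ∀ r ∈ Icc (0 : ℝ) 1, |f r| ≤ C) :
    |∫ r in (0 : ℝ)..1, f r * r ^ j| ≤ C / (j + 1) := by
  have h1 : ‖∫ r in (0 : ℝ)..1, f r * r ^ j‖ ≤ ∫ r in (0 : ℝ)..1, C * r ^ j := by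
    refine intervalIntegral.norm_integral_le_of_norm_le zero_le_one ?_ ?_
    · refine Eventually.of_forall fun r hr => ?_
      have hr0 : (0 : ℝ) ≤ r := hr.1.le
      rw [Real.norm_eq_abs, abs_mul, abs_of_nonneg (pow_nonneg hr0 j)]
      exact mul_le_mul_of_nonneg_right (hC r ⟨hr0, hr.2⟩) (pow_nonneg hr0 j)
    · exact (continuous_const.mul (continuous_pow j)).intervalIntegrable _ _
  rw [Real.norm_eq_abs] at h1
  refine h1.trans (le_of_eq ?_)
  rw [intervalIntegral.integral_const_mul, integral_pow]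
  simp
  ring

end ITTn

theorem pr_TTn (h : StVir) : StTTn := by
  intro B lam m hS
  obtain ⟨hV, -⟩ := h B lam m hS
  have hB := hS.hB
  have hl := hS.lam_lt
  have hl0 := hS.lam_pos
  have hp := hS.hp
  obtain ⟨K, hK0, hK⟩ := gk_bdd hB hl m
  have hgc := gk_cont hB hl m
  have hdc := gk_dcont hB hl m
  have hd := gk_d1 hB hl m
  have hg1 := gk_pos hB hl m one_pos
  set g := gk B lam m with hg
  set C1 : ℝ := 2 * B * (m + B / 2) * K ^ 2 with hC1
  set C2 : ℝ := 2 * K ^ 2 with hC2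
  set C3 : ℝ := 4 * B ^ 2 * K ^ 2 with hC3
  have hm0 : (0 : ℝ) ≤ m := Nat.cast_nonneg m
  have C1p : 0 ≤ C1 := by positivity
  have C2p : 0 ≤ C2 := by positivity
  have C3p : 0 ≤ C3 := by positivity
  set κ : ℝ := (B / 2 - m) ^ 2 * g 1 ^ 2 / 2 with hκ
  have κp : 0 < κ := by positivity
  obtain ⟨N, hN⟩ := exists_nat_ge ((C1 + lam * C2 + C3) / κ)
  refine ⟨N, κ, κp, fun n hn => ?_⟩
  -- the four integrals
  have e1 : |∫ r in (0 : ℝ)..1, (2 * B * (m - B * r ^ 2 / 2) * g r ^ 2) * r ^ (2 * n + 1)|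
      ≤ C1 / ((2 * n + 1 : ℕ) + 1) := by
    refine ITTn.small _ C1 (2 * n + 1) fun r hr => ?_
    have hr0 := hr.1
    have hr1 := hr.2
    have a1 : |(m : ℝ) - B * r ^ 2 / 2| ≤ m + B / 2 := by
      have : r ^ 2 ≤ 1 := by nlinarith
      have h2 : 0 ≤ B * r ^ 2 := by positivity
      have h3 : B * r ^ 2 ≤ B := by nlinarith
      rw [abs_le]
      constructor <;> linarith
    have a2 : g r ^ 2 ≤ K ^ 2 := by
      rw [← sq_abs]
      exact pow_le_pow_left₀ (abs_nonneg _) (hK r hr).1 2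
    rw [abs_mul, abs_mul, abs_of_pos (by positivity : 0 < 2 * B), abs_of_nonneg (sq_nonneg (g r))]
    have a3 : 2 * B * |(m : ℝ) - B * r ^ 2 / 2| ≤ 2 * B * (m + B / 2) :=
      mul_le_mul_of_nonneg_left a1 (by positivity)
    exact mul_le_mul a3 a2 (sq_nonneg _) (by positivity)
  have e2 : |∫ r in (0 : ℝ)..1, (2 * g r * deriv g r) * r ^ (2 * n + 2)|
      ≤ C2 / ((2 * n + 2 : ℕ) + 1) := by
    refine ITTn.small _ C2 (2 * n + 2) fun r hr => ?_
    have b1 := (hK r hr).1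
    have b2 := (hK r hr).2.1
    rw [abs_mul, abs_mul, abs_of_pos (by norm_num : (0 : ℝ) < 2)]
    have : |g r| * |deriv g r| ≤ K * K := mul_le_mul b1 b2 (abs_nonneg _) hK0.le
    rw [hC2]
    nlinarith
  have e3 : |∫ r in (0 : ℝ)..1, (g r ^ 2) * r ^ (2 * n + 3)|
      ≤ K ^ 2 / ((2 * n + 3 : ℕ) + 1) := by
    refine ITTn.small _ (K ^ 2) (2 * n + 3) fun r hr => ?_
    rw [abs_of_nonneg (sq_nonneg _), ← sq_abs]
    exact pow_le_pow_left₀ (abs_nonneg _) (hK r hr).1 2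
  -- integration by parts
  have hparts : (∫ r in (0 : ℝ)..1, (2 * ((n : ℝ) + 1) * r ^ (2 * n + 1)) * g r ^ 2)
      = g 1 ^ 2 - ∫ r in (0 : ℝ)..1, (2 * g r * deriv g r) * r ^ (2 * n + 2) := by
    have hder : ∀ r ∈ uIcc (0 : ℝ) 1, HasDerivAt (fun t : ℝ => t ^ (2 * n + 2) * g t ^ 2)
        ((2 * ((n : ℝ) + 1) * r ^ (2 * n + 1)) * g r ^ 2
          + (2 * g r * deriv g r) * r ^ (2 * n + 2)) r := by
      intro r _
      have q1 := (hasDerivAt_pow (2 * n + 2) r).fun_mul ((hd r).fun_pow 2)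
      refine q1.congr_deriv ?_
      push_cast
      norm_num
      ring
    have hc1 : Continuous fun r : ℝ => (2 * ((n : ℝ) + 1) * r ^ (2 * n + 1)) * g r ^ 2 :=
      (continuous_const.mul (continuous_pow _)).mul (hgc.pow 2)
    have hc2 : Continuous fun r : ℝ => (2 * g r * deriv g r) * r ^ (2 * n + 2) :=
      ((continuous_const.mul hgc).mul hdc).mul (continuous_pow _)
    have hI := intervalIntegral.integral_eq_sub_of_hasDerivAt hder
      ((hc1.add hc2).intervalIntegrable 0 1)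
    rw [intervalIntegral.integral_add (hc1.intervalIntegrable 0 1) (hc2.intervalIntegrable 0 1)] at hI
    simp only [one_pow, one_mul] at hI
    have h0 : (0 : ℝ) ^ (2 * n + 2) = 0 := zero_pow (by omega)
    rw [h0, zero_mul, sub_zero] at hI
    linarith
  -- splitting of the first integral
  have hsplit : (∫ r in (0 : ℝ)..1, (-(2 * B * (m - B * r ^ 2 / 2)) * (r ^ (2 * n + 1) - r)
      - lam * (2 * (n + 1) * r ^ (2 * n + 1) - 2 * r)) * g r ^ 2)
      = (∫ r in (0 : ℝ)..1, 2 * r * (B * (m - B * r ^ 2 / 2) + lam) * g r ^ 2)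
        - (∫ r in (0 : ℝ)..1, (2 * B * (m - B * r ^ 2 / 2) * g r ^ 2) * r ^ (2 * n + 1))
        - lam * ∫ r in (0 : ℝ)..1, (2 * ((n : ℝ) + 1) * r ^ (2 * n + 1)) * g r ^ 2 := by
    have hc1 : Continuous fun r : ℝ => 2 * r * (B * (m - B * r ^ 2 / 2) + lam) * g r ^ 2 := by
      fun_prop
    have hc2 : Continuous fun r : ℝ => (2 * B * (m - B * r ^ 2 / 2) * g r ^ 2) * r ^ (2 * n + 1) := by
      fun_prop
    have hc3 : Continuous fun r : ℝ => (2 * ((n : ℝ) + 1) * r ^ (2 * n + 1)) * g r ^ 2 := by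
      fun_prop
    have hc12 : Continuous fun r : ℝ => 2 * r * (B * (m - B * r ^ 2 / 2) + lam) * g r ^ 2
        - (2 * B * (m - B * r ^ 2 / 2) * g r ^ 2) * r ^ (2 * n + 1) := hc1.sub hc2
    have hc4 : Continuous fun r : ℝ => lam * ((2 * ((n : ℝ) + 1) * r ^ (2 * n + 1)) * g r ^ 2) :=
      continuous_const.mul hc3
    rw [← intervalIntegral.integral_const_mul, ← intervalIntegral.integral_sub
      (hc1.intervalIntegrable 0 1) (hc2.intervalIntegrable 0 1),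
      ← intervalIntegral.integral_sub (hc12.intervalIntegrable 0 1) (hc4.intervalIntegrable 0 1)]
    refine intervalIntegral.integral_congr fun r _ => ?_
    ring
  have hT : TT B lam m n g = ((n : ℝ) + 1) * (-(B / 2 - m) ^ 2 * g 1 ^ 2
      - (∫ r in (0 : ℝ)..1, (2 * B * (m - B * r ^ 2 / 2) * g r ^ 2) * r ^ (2 * n + 1))
      + lam * ∫ r in (0 : ℝ)..1, (2 * g r * deriv g r) * r ^ (2 * n + 2))
      + 4 * B ^ 2 * (((n : ℝ) + 1) / (n + 2)) ^ 2 * ∫ r in (0 : ℝ)..1, (g r ^ 2) * r ^ (2 * n + 3) := by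
    unfold TT
    rw [hsplit, hparts, hV]
    ring
  rw [hT]
  set I1 := ∫ r in (0 : ℝ)..1, (2 * B * (m - B * r ^ 2 / 2) * g r ^ 2) * r ^ (2 * n + 1) with hI1
  set I2 := ∫ r in (0 : ℝ)..1, (2 * g r * deriv g r) * r ^ (2 * n + 2) with hI2
  set I3 := ∫ r in (0 : ℝ)..1, (g r ^ 2) * r ^ (2 * n + 3) with hI3
  have hn0 : (0 : ℝ) ≤ n := Nat.cast_nonneg n
  have f1 : ((n : ℝ) + 1) * |I1| ≤ C1 := by
    have : C1 / (((2 * n + 1 : ℕ) : ℝ) + 1) ≤ C1 / ((n : ℝ) + 1) := by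
      apply div_le_div_of_nonneg_left C1p (by positivity)
      push_cast
      linarith
    calc ((n : ℝ) + 1) * |I1| ≤ ((n : ℝ) + 1) * (C1 / ((n : ℝ) + 1)) :=
          mul_le_mul_of_nonneg_left (e1.trans this) (by positivity)
      _ = C1 := by field_simp
  have f2 : ((n : ℝ) + 1) * |I2| ≤ C2 := by
    have : C2 / (((2 * n + 2 : ℕ) : ℝ) + 1) ≤ C2 / ((n : ℝ) + 1) := by
      apply div_le_div_of_nonneg_left C2p (by positivity)
      push_cast
      linarith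
    calc ((n : ℝ) + 1) * |I2| ≤ ((n : ℝ) + 1) * (C2 / ((n : ℝ) + 1)) :=
          mul_le_mul_of_nonneg_left (e2.trans this) (by positivity)
      _ = C2 := by field_simp
  have f3 : 4 * B ^ 2 * (((n : ℝ) + 1) / (n + 2)) ^ 2 * I3 ≤ C3 := by
    have g1 : (((n : ℝ) + 1) / (n + 2)) ^ 2 ≤ 1 := by
      have : ((n : ℝ) + 1) / (n + 2) ≤ 1 := by
        rw [div_le_one (by positivity)]
        linarith
      have h0 : 0 ≤ ((n : ℝ) + 1) / (n + 2) := by positivity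
      nlinarith
    have g2 : |I3| ≤ K ^ 2 := by
      refine e3.trans ?_
      apply div_le_self (by positivity)
      push_cast
      linarith
    have g3 : 4 * B ^ 2 * (((n : ℝ) + 1) / (n + 2)) ^ 2 ≤ 4 * B ^ 2 * 1 :=
      mul_le_mul_of_nonneg_left g1 (by positivity)
    calc 4 * B ^ 2 * (((n : ℝ) + 1) / (n + 2)) ^ 2 * I3
        ≤ 4 * B ^ 2 * (((n : ℝ) + 1) / (n + 2)) ^ 2 * |I3| :=
          mul_le_mul_of_nonneg_left (le_abs_self _) (by positivity)
      _ ≤ (4 * B ^ 2 * 1) * K ^ 2 := mul_le_mul g3 g2 (abs_nonneg _) (by positivity)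
      _ = C3 := by rw [hC3]; ring
  have f4 : C1 + lam * C2 + C3 ≤ κ * ((n : ℝ) + 1) := by
    have h1 : (C1 + lam * C2 + C3) / κ ≤ (n : ℝ) + 1 := by
      refine hN.trans ?_
      have : (N : ℝ) < n := by exact_mod_cast hn
      linarith
    rw [div_le_iff₀ κp] at h1
    linarith
  have f5 : -I1 ≤ |I1| := neg_le_abs I1
  have f6 : I2 ≤ |I2| := le_abs_self I2
  have f7 : ((n : ℝ) + 1) * (-I1) ≤ ((n : ℝ) + 1) * |I1| :=
    mul_le_mul_of_nonneg_left f5 (by positivity)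
  have f8 : lam * (((n : ℝ) + 1) * I2) ≤ lam * (((n : ℝ) + 1) * |I2|) :=
    mul_le_mul_of_nonneg_left (mul_le_mul_of_nonneg_left f6 (by positivity)) hl0.le
  have f9 : lam * (((n : ℝ) + 1) * |I2|) ≤ lam * C2 := mul_le_mul_of_nonneg_left f2 hl0.le
  have f10 : (B / 2 - m) ^ 2 * g 1 ^ 2 = 2 * κ := by rw [hκ]; ring
  have f11 : ((n : ℝ) + 1) * (-(B / 2 - m) ^ 2 * g 1 ^ 2) = -(2 * κ) * ((n : ℝ) + 1) := by
    rw [neg_mul, f10]; ring
  have : ((n : ℝ) + 1) * (-(B / 2 - m) ^ 2 * g 1 ^ 2 - I1 + lam * I2)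
      = ((n : ℝ) + 1) * (-(B / 2 - m) ^ 2 * g 1 ^ 2) + ((n : ℝ) + 1) * (-I1)
        + lam * (((n : ℝ) + 1) * I2) := by ring
  rw [this, f11]
  linarith

end Pool.Agent.MFK.CD
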