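import Pool.Agent.Work.MP_8826fd_mp.CD.StmtsU

/-!
# MP_8826fd_mp, block CD, item TTu (high modes, uniform constants), helper53
-/

set_option autoImplicit false

namespace Pool.Agent.MFK.CD

open MeasureTheory Set Filter Topology Pool.Agent.MFK.NF

namespace ITTu

lemma bd (f : ℝ → ℝ) (K : ℝ) (k : ℕ) (h : ∀ r ∈ Icc (0 : ℝ) 1, |f r| ≤ K * r ^ k) :
    |∫ r in (0 : ℝ)..1, f r| ≤ K / (k + 1) := by
  have h1 : ‖∫ r in (0 : ℝ)..1, f r‖ ≤ ∫ r in (0 : ℝ)..1, K * r ^ k := by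
    refine intervalIntegral.norm_integral_le_of_norm_le zero_le_one ?_ ?_
    · refine Filter.Eventually.of_forall (fun r hr => ?_)
      rw [Real.norm_eq_abs]
      exact h r ⟨hr.1.le, hr.2⟩
    · exact (by fun_prop : Continuous fun r : ℝ => K * r ^ k).intervalIntegrable 0 1
  rw [Real.norm_eq_abs] at h1
  rw [intervalIntegral.integral_const_mul, integral_pow] at h1
  refine h1.trans (le_of_eq ?_)
  simp
  ring

lemma ibp (g g' : ℝ → ℝ) (hg : ∀ r, HasDerivAt g (g' r) r) (hc : Continuous g') (n : ℕ) :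
    (∫ r in (0 : ℝ)..1, 2 * ((n : ℝ) + 1) * r ^ (2 * n + 1) * g r ^ 2)
      = g 1 ^ 2 - ∫ r in (0 : ℝ)..1, r ^ (2 * n + 2) * (2 * g r * g' r) := by
  have hgc : Continuous g := continuous_iff_continuousAt.2 (fun r => (hg r).continuousAt)
  have hd : ∀ r ∈ uIcc (0 : ℝ) 1, HasDerivAt (fun t : ℝ => t ^ (2 * n + 2) * g t ^ 2)
      (2 * ((n : ℝ) + 1) * r ^ (2 * n + 1) * g r ^ 2 + r ^ (2 * n + 2) * (2 * g r * g' r)) r := by
    intro r _
    have h1 : HasDerivAt (fun t : ℝ => t ^ (2 * n + 2)) (((2 * n + 2 : ℕ) : ℝ) * r ^ (2 * n + 2 - 1)) r :=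
      hasDerivAt_pow (2 * n + 2) r
    have h2 : HasDerivAt (fun t : ℝ => g t ^ 2) (((2 : ℕ) : ℝ) * g r ^ (2 - 1) * g' r) r := (hg r).pow 2
    refine (h1.mul h2).congr_deriv ?_
    have e : 2 * n + 2 - 1 = 2 * n + 1 := by omega
    rw [e]
    push_cast
    ring
  have hc1 : Continuous (fun r : ℝ => 2 * ((n : ℝ) + 1) * r ^ (2 * n + 1) * g r ^ 2) := by fun_prop
  have hc2 : Continuous (fun r : ℝ => r ^ (2 * n + 2) * (2 * g r * g' r)) := by fun_prop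
  have h := intervalIntegral.integral_eq_sub_of_hasDerivAt hd ((hc1.add hc2).intervalIntegrable 0 1)
  rw [intervalIntegral.integral_add (hc1.intervalIntegrable 0 1) (hc2.intervalIntegrable 0 1)] at h
  simp at h
  linarith

lemma clo (g : ℝ → ℝ) (C : ℝ) (hg : Continuous g) (h : ∀ r ∈ Ioo (0 : ℝ) 1, |g r| ≤ C) :
    ∀ r ∈ Icc (0 : ℝ) 1, |g r| ≤ C := by
  have hcl : IsClosed {r : ℝ | |g r| ≤ C} := isClosed_le hg.abs continuous_const
  have h1 : closure (Ioo (0 : ℝ) 1) ⊆ {r : ℝ | |g r| ≤ C} := closure_minimal h hcl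
  rw [closure_Ioo (by norm_num)] at h1
  exact h1

end ITTu

theorem pr_TTu (hv : StVir) : StTTu := by
  intro C0 γ hC0 hγ
  obtain ⟨N, hN⟩ := exists_nat_ge (2 * (3 * C0 ^ 4 + C0 ^ 3) / γ)
  refine ⟨N, γ / 2, by positivity, ?_⟩
  intro B lam m hS hBC hbd hγg n hn
  have hB := hS.hB
  have hl0 := hS.lam_pos
  have hlB := hS.lam_lt
  have hp := hS.hp
  have hm0 : (0 : ℝ) ≤ m := Nat.cast_nonneg m
  have hlC : lam ≤ C0 := hlB.le.trans hBC
  set g := gk B lam m with hgdef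
  set g' := deriv (gk B lam m) with hg'def
  have hd : ∀ r, HasDerivAt g (g' r) r := fun r => gk_d1 hB hlB m r
  have hgc : Continuous g := gk_cont hB hlB m
  have hg'c : Continuous g' := gk_dcont hB hlB m
  have hgb : ∀ r ∈ Icc (0 : ℝ) 1, |g r| ≤ C0 := ITTu.clo g C0 hgc (fun r hr => (hbd r hr).1)
  have hg'b : ∀ r ∈ Icc (0 : ℝ) 1, |g' r| ≤ C0 := ITTu.clo g' C0 hg'c (fun r hr => (hbd r hr).2.1)
  have hn0 : (0 : ℝ) ≤ n := Nat.cast_nonneg n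
  have hv1 := (hv B lam m hS).1
  rw [← hgdef] at hv1
  -- the three integrals
  set J2 := ∫ r in (0 : ℝ)..1, 2 * B * (m - B * r ^ 2 / 2) * r ^ (2 * n + 1) * g r ^ 2 with hJ2
  set J3 := ∫ r in (0 : ℝ)..1, r ^ (2 * n + 2) * (2 * g r * g' r) with hJ3
  set I2 := ∫ r in (0 : ℝ)..1, g r ^ 2 * r ^ (2 * n + 3) with hI2
  have hibp := ITTu.ibp g g' hd hg'c n
  rw [← hJ3] at hibp
  have hI1 : (∫ r in (0 : ℝ)..1, (-(2 * B * (m - B * r ^ 2 / 2)) * (r ^ (2 * n + 1) - r)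
      - lam * (2 * (n + 1) * r ^ (2 * n + 1) - 2 * r)) * g r ^ 2)
      = -(B / 2 - m) ^ 2 * g 1 ^ 2 - J2 + lam * J3 := by
    have e1 : (fun r : ℝ => (-(2 * B * (m - B * r ^ 2 / 2)) * (r ^ (2 * n + 1) - r)
        - lam * (2 * (n + 1) * r ^ (2 * n + 1) - 2 * r)) * g r ^ 2)
        = fun r : ℝ => (2 * r * (B * (m - B * r ^ 2 / 2) + lam) * g r ^ 2
          - 2 * B * (m - B * r ^ 2 / 2) * r ^ (2 * n + 1) * g r ^ 2)
          - lam * (2 * ((n : ℝ) + 1) * r ^ (2 * n + 1) * g r ^ 2) := by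
      funext r; ring
    rw [e1]
    have c1 : Continuous (fun r : ℝ => 2 * r * (B * (m - B * r ^ 2 / 2) + lam) * g r ^ 2) := by fun_prop
    have c2 : Continuous (fun r : ℝ => 2 * B * (m - B * r ^ 2 / 2) * r ^ (2 * n + 1) * g r ^ 2) := by
      fun_prop
    have c3 : Continuous (fun r : ℝ => lam * (2 * ((n : ℝ) + 1) * r ^ (2 * n + 1) * g r ^ 2)) := by
      fun_prop
    have c12 : Continuous (fun r : ℝ => 2 * r * (B * (m - B * r ^ 2 / 2) + lam) * g r ^ 2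
        - 2 * B * (m - B * r ^ 2 / 2) * r ^ (2 * n + 1) * g r ^ 2) := by fun_prop
    rw [intervalIntegral.integral_sub (c12.intervalIntegrable 0 1) (c3.intervalIntegrable 0 1),
      intervalIntegral.integral_sub (c1.intervalIntegrable 0 1) (c2.intervalIntegrable 0 1),
      intervalIntegral.integral_const_mul, hibp, hv1, ← hJ2]
    ring
  have hTT : TT B lam m n g = (n + 1) * (-(B / 2 - m) ^ 2 * g 1 ^ 2 - J2 + lam * J3)
      + 4 * B ^ 2 * (((n : ℝ) + 1) / (n + 2)) ^ 2 * I2 := by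
    unfold TT
    rw [hI1, ← hI2]
  -- bounds
  have hg2 : ∀ r ∈ Icc (0 : ℝ) 1, g r ^ 2 ≤ C0 ^ 2 := fun r hr => by
    have := hgb r hr
    rw [← sq_abs]
    exact pow_le_pow_left₀ (abs_nonneg _) this 2
  have bJ2 : |J2| ≤ (2 * C0 ^ 4) / ((2 * n + 1 : ℕ) + 1) := by
    refine ITTu.bd _ _ _ (fun r hr => ?_)
    have hr2 : r ^ 2 ≤ 1 := pow_le_one₀ hr.1 hr.2
    have hr2' : 0 ≤ r ^ 2 := by positivity
    have hD : |m - B * r ^ 2 / 2| ≤ C0 := by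
      rw [abs_le]
      constructor
      · nlinarith
      · nlinarith
    have hrp : 0 ≤ r ^ (2 * n + 1) := pow_nonneg hr.1 _
    have e : |2 * B * (m - B * r ^ 2 / 2) * r ^ (2 * n + 1) * g r ^ 2|
        = 2 * B * |m - B * r ^ 2 / 2| * r ^ (2 * n + 1) * g r ^ 2 := by
      rw [abs_mul, abs_mul, abs_mul, abs_of_nonneg hrp, abs_of_nonneg (by positivity : (0:ℝ) ≤ 2 * B),
        abs_of_nonneg (sq_nonneg (g r))]
    rw [e]
    have h1 : 2 * B * |m - B * r ^ 2 / 2| ≤ 2 * C0 * C0 := by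
      have := mul_le_mul hBC hD (abs_nonneg _) hC0.le
      nlinarith
    have h2 : 2 * B * |m - B * r ^ 2 / 2| * g r ^ 2 ≤ 2 * C0 * C0 * C0 ^ 2 :=
      mul_le_mul h1 (hg2 r hr) (sq_nonneg _) (by positivity)
    calc 2 * B * |m - B * r ^ 2 / 2| * r ^ (2 * n + 1) * g r ^ 2
        = (2 * B * |m - B * r ^ 2 / 2| * g r ^ 2) * r ^ (2 * n + 1) := by ring
      _ ≤ (2 * C0 * C0 * C0 ^ 2) * r ^ (2 * n + 1) := mul_le_mul_of_nonneg_right h2 hrp
      _ = 2 * C0 ^ 4 * r ^ (2 * n + 1) := by ring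
  have bJ3 : |J3| ≤ (2 * C0 ^ 2) / ((2 * n + 2 : ℕ) + 1) := by
    refine ITTu.bd _ _ _ (fun r hr => ?_)
    have hrp : 0 ≤ r ^ (2 * n + 2) := pow_nonneg hr.1 _
    have e : |r ^ (2 * n + 2) * (2 * g r * g' r)| = 2 * (|g r| * |g' r|) * r ^ (2 * n + 2) := by
      rw [abs_mul, abs_mul, abs_mul, abs_of_nonneg hrp, abs_of_nonneg (by norm_num : (0:ℝ) ≤ 2)]
      ring
    rw [e]
    have h1 : |g r| * |g' r| ≤ C0 * C0 := mul_le_mul (hgb r hr) (hg'b r hr) (abs_nonneg _) hC0.le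
    refine mul_le_mul_of_nonneg_right ?_ hrp
    nlinarith
  have bI2 : |I2| ≤ (C0 ^ 2) / ((2 * n + 3 : ℕ) + 1) := by
    refine ITTu.bd _ _ _ (fun r hr => ?_)
    have hrp : 0 ≤ r ^ (2 * n + 3) := pow_nonneg hr.1 _
    rw [abs_mul, abs_of_nonneg hrp, abs_of_nonneg (sq_nonneg (g r))]
    exact mul_le_mul_of_nonneg_right (hg2 r hr) hrp
  have hn1 : (0 : ℝ) < (n : ℝ) + 1 := by linarith
  have k2 : ((n : ℝ) + 1) * |J2| ≤ C0 ^ 4 := by
    have h1 : ((n : ℝ) + 1) * |J2| ≤ ((n : ℝ) + 1) * ((2 * C0 ^ 4) / ((2 * n + 1 : ℕ) + 1)) :=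
      mul_le_mul_of_nonneg_left bJ2 hn1.le
    refine h1.trans (le_of_eq ?_)
    push_cast
    field_simp
    ring
  have k3 : ((n : ℝ) + 1) * |J3| ≤ C0 ^ 2 := by
    have h1 : ((n : ℝ) + 1) * |J3| ≤ ((n : ℝ) + 1) * ((2 * C0 ^ 2) / ((2 * n + 2 : ℕ) + 1)) :=
      mul_le_mul_of_nonneg_left bJ3 hn1.le
    refine h1.trans ?_
    push_cast
    rw [mul_div_assoc', div_le_iff₀ (by positivity)]
    nlinarith [sq_nonneg C0]
  have k4 : 4 * B ^ 2 * (((n : ℝ) + 1) / (n + 2)) ^ 2 * I2 ≤ 2 * C0 ^ 4 := by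
    have hq0 : (0 : ℝ) ≤ ((n : ℝ) + 1) / (n + 2) := by positivity
    have hq1 : ((n : ℝ) + 1) / (n + 2) ≤ 1 := by
      rw [div_le_one (by positivity)]; linarith
    have hq : (((n : ℝ) + 1) / (n + 2)) ^ 2 ≤ 1 := pow_le_one₀ hq0 hq1
    have hi : I2 ≤ C0 ^ 2 / 2 := by
      refine (le_abs_self _).trans (bI2.trans ?_)
      push_cast
      rw [div_le_div_iff₀ (by positivity) (by norm_num)]
      nlinarith [sq_nonneg C0, mul_nonneg (sq_nonneg C0) hn0]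
    have hi' : |I2| ≤ C0 ^ 2 / 2 := by
      refine (bI2.trans ?_)
      push_cast
      rw [div_le_div_iff₀ (by positivity) (by norm_num)]
      nlinarith [sq_nonneg C0, mul_nonneg (sq_nonneg C0) hn0]
    have hB2 : B ^ 2 ≤ C0 ^ 2 := pow_le_pow_left₀ hB.le hBC 2
    have s1 : 4 * B ^ 2 * (((n : ℝ) + 1) / (n + 2)) ^ 2 ≤ 4 * C0 ^ 2 := by
      have := mul_le_mul hB2 hq (sq_nonneg _) (sq_nonneg C0)
      nlinarith
    have s2 : 4 * B ^ 2 * (((n : ℝ) + 1) / (n + 2)) ^ 2 * I2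
        ≤ 4 * B ^ 2 * (((n : ℝ) + 1) / (n + 2)) ^ 2 * |I2| :=
      mul_le_mul_of_nonneg_left (le_abs_self _) (by positivity)
    have s3 : 4 * B ^ 2 * (((n : ℝ) + 1) / (n + 2)) ^ 2 * |I2| ≤ 4 * C0 ^ 2 * (C0 ^ 2 / 2) :=
      mul_le_mul s1 hi' (abs_nonneg _) (by positivity)
    calc _ ≤ _ := s2
      _ ≤ _ := s3
      _ = 2 * C0 ^ 4 := by ring
  have kl : ((n : ℝ) + 1) * (lam * J3) ≤ C0 ^ 3 := by
    have h1 : ((n : ℝ) + 1) * (lam * J3) ≤ lam * (((n : ℝ) + 1) * |J3|) := by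
      have : J3 ≤ |J3| := le_abs_self _
      have h2 : lam * (((n : ℝ) + 1) * J3) ≤ lam * (((n : ℝ) + 1) * |J3|) :=
        mul_le_mul_of_nonneg_left (mul_le_mul_of_nonneg_left this hn1.le) hl0.le
      calc ((n : ℝ) + 1) * (lam * J3) = lam * (((n : ℝ) + 1) * J3) := by ring
        _ ≤ _ := h2
    have h3 : lam * (((n : ℝ) + 1) * |J3|) ≤ C0 * C0 ^ 2 :=
      mul_le_mul hlC k3 (by positivity) hC0.le
    calc _ ≤ _ := h1
      _ ≤ _ := h3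
      _ = C0 ^ 3 := by ring
  have km : -((n : ℝ) + 1) * J2 ≤ C0 ^ 4 := by
    have : -J2 ≤ |J2| := neg_le_abs _
    have h2 := mul_le_mul_of_nonneg_left this hn1.le
    linarith
  have hlast : 2 * (3 * C0 ^ 4 + C0 ^ 3) ≤ ((n : ℝ) + 1) * γ := by
    have h1 : (N : ℝ) ≤ (n : ℝ) + 1 := by
      have : (N : ℝ) ≤ n := by exact_mod_cast hn.le
      linarith
    have h2 := hN.trans h1
    rwa [div_le_iff₀ hγ] at h2
  have hmain : ((n : ℝ) + 1) * γ ≤ ((n : ℝ) + 1) * ((B / 2 - m) ^ 2 * g 1 ^ 2) :=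
    mul_le_mul_of_nonneg_left hγg hn1.le
  rw [hTT]
  nlinarith

end Pool.Agent.MFK.CD
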