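import Pool.Agent.Work.MP_8826fd_mp.CD.Core
import Pool.Agent.Work.MP_8826fd_mp.RT.Stmts2

/-!
# MP_8826fd_mp, block CD, uniform part: constants locally uniform in the field (for the block RT).  Captain helper34.

FORMAT.  Item NAME: file `CD/I_NAME.lean`, import this file, namespace `Pool.Agent.MFK.CD`, auxiliary lemmas in the namespace `INAME`, main theorem
`theorem pr_NAME (h1 : StA) ... : StNAME`.  The hypotheses are only the statements named in the docstring.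
USEFUL (proved, without hypotheses): `Asm.lean` (`kSum`, `Asm.kDer'`, `Asm.kPos`, `Asm.kBd`, `Asm.rVal'`, `Asm.rRad'`, `Asm.stLB`, `Asm.rGround'`, `Asm.rF'`), `NF/Gk.lean`, definitions of `Phi`, `Phi1`, `An`, `FK` in `StmtsK.lean` (bundle `Bd/B01.lean`).
-/

set_option autoImplicit false

namespace Pool.Agent.MFK.CD

open MeasureTheory Set Filter Topology Pool.Agent.MFK.NF

/-- ITEM PJ (joint continuity).  On `|A| ≤ a`, `|z| ≤ t`: `|kc A b k z^k| ≤ kc a b k t^k` (each factor `|A + i| ≤ a + i`), summable (`kSum`); `continuousOn_tsum` on a product of intervals, then continuity at every point. -/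
def StPJ : Prop := ∀ b : ℝ, 0 < b → Continuous (fun p : ℝ × ℝ => Phi p.1 b p.2)

/-- ITEM DJ (uses StPJ).  `Asm.rVal'` (second part: for `0 < B`, `lam ≤ B`, so near `(B₀, lam₀)`): `dtn = |l| - B/2 + B Phi1/Phi` at `(An B lam l, |l| + 1, B/2)`; `Phi ≥ 1` (`Asm.kPos`, `0 ≤ An` because `lam < B`), `Phi1 A b z = A/b Phi (A+1) (b+1) z`. -/
def StDJ : Prop := ∀ (B₀ lam₀ : ℝ) (l : ℤ), 0 < B₀ → lam₀ < B₀ →
  ContinuousAt (fun p : ℝ × ℝ => dtn (fun n => FK p.1 p.2 n) l) (B₀, lam₀)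

/-- ITEM Bk (explicit bounds).  `A = An B lam l ∈ [0, |l| + 1]`, `b = |l| + 1`: `1 ≤ Phi A b z ≤ e^z` for `z ≥ 0` (`Phi` has derivative `Phi1 ≤ Phi` (`Asm.kBd`) and `Phi A b 0 = 1`; or termwise), `0 ≤ Phi1 ≤ Phi`.  `FK = e^{-Bs/4} Phi(Bs/2)`, so `e^{-B/4} ≤ FK 1`, `|FK| ≤ e^{B/2}`,
`|FK'| = e^{-Bs/4} |-(B/4) Phi + (B/2) Phi1| ≤ B e^{B/2}` on `[0,1]`; `radf l FK r = r^|l| FK (r²)`, `(radf l FK)' = |l| r^{|l|-1} FK(r²) + 2 r^{|l|+1} FK'(r²)`, `(l/r) radf = ± |l| r^{|l|-1} FK(r²)`. -/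
def StBk : Prop := ∀ (B lam : ℝ) (l : ℤ), 0 < B → 0 ≤ lam → lam < B →
  Bdd ((|(l : ℝ)| + 2 * B + 1) * Real.exp (B / 2)) l (radf l (FK B lam l)) ∧ Real.exp (-(B / 4)) ≤ FK B lam l 1

/-- ITEM Sp3 (the proof of `spec` in the bundle `Bd/B04.lean` (file `Spec.lean`) with `hnn`, `hz` given; `deriv (radf n (FK B lam n)) 1 = dtn * FK B lam n 1`, `FK B lam n 1 > 0`; `Sp`: `zero`, `hp` from `Facts`, `lb` from `Asm.stLB`). -/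
def StSp3 : Prop := ∀ (B lam : ℝ) (m : ℕ), 0 < B → 0 < lam → lam < B → (∀ n : ℤ, 0 ≤ dtn (fun k => FK B lam k) n) →
  dtn (fun k => FK B lam k) (m : ℤ) = 0 → Sp B lam m ∧ Data B lam m (fun n => FK B lam n) ∧
  Facts (B / 2 - m) (B / 2 + m) lam m (fun k => dtn (fun n => FK B lam n) ((m : ℤ) - k)) (fun k => dtn (fun n => FK B lam n) ((m : ℤ) + k))

/-- ITEM Lc (uses RT.StLip).  `0 ≤ lamN` (`eden ≥ 0`; the set in its definition is not empty, or `sInf ∅ = 0`); StLip twice with `t = |B - B₀|` (or `t` small, then `B` close to `B₀`). -/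
def StLc : Prop := ∀ B₀ e : ℝ, 0 < B₀ → 0 < e → ∃ η > (0 : ℝ), ∀ B : ℝ, 0 < B → |B - B₀| < η → |lamN B disc - lamN B₀ disc| < e

/-- ITEM TTu (high modes, uniform; uses StVir).  With `D = m - B r²/2` (`|D| ≤ B` because `m < B/2`) and `p = B/2 - m`: `TT/(n+1) = ∫ 2r (B D + lam) g² - ∫ 2 B D r^{2n+1} g² - lam ∫ 2(n+1) r^{2n+1} g² + 4B² (n+1)/(n+2)² ∫ g² r^{2n+3}`; the first integral is `(lam - p²) g(1)²` (StVir),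
`lam ∫ 2(n+1) r^{2n+1} g² = lam (g(1)² - ∫ r^{2n+2} 2 g g')`, so `TT/(n+1) ≤ -p² g(1)² + C/(n+1)` with `C` depending on `C0` only (`lam < B ≤ C0`, `|g|, |g'| ≤ C0` on `(0,1)`).  `κ = γ/2`. -/
def StTTu : Prop := ∀ C0 γ : ℝ, 0 < C0 → 0 < γ → ∃ N : ℕ, ∃ κ > (0 : ℝ), ∀ (B lam : ℝ) (m : ℕ), Sp B lam m → B ≤ C0 →
  Bdd C0 m (gk B lam m) → γ ≤ (B / 2 - m) ^ 2 * gk B lam m 1 ^ 2 →
  ∀ n : ℕ, N < n → TT B lam m n (gk B lam m) ≤ -κ * (n + 1)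

/-- ITEM Qf (closed form with bounds; uses StVir, StOA, StPar, StKey, StBk).  `g = gk B lam m = radf m Ψ`, `Ψ = FK B lam m`, `h₊ = radf (m+n) (FK B lam (m+n))`, `h₋ = radf (m-n) (FK B lam (m-n))`, `ξ = y g(1)/(2 h₊(1))`, `ζ = x g(1)/(2 h₋(1))`,
`ΨA(t) = ½ (m Ψ + 2 t Ψ'(t) + (m - B n t/(2(n+2))) Ψ(t)) + ξ FK B lam (m+n) t` (so `radf (m+n) ΨA = at1 + ξ h₊`: `r (r^m Ψ(r²))' = r^m (m Ψ + 2 r² Ψ')(r²)`), `ΨB(t) = t^{min(m,n)} ½ (m Ψ + 2 t Ψ' - (m - B n t/(2(n+2))) Ψ) + ζ FK B lam (m-n) t`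
(`r^{n+m} = r^{|m-n|} r^{2 min(m,n)}`).  StPar (twice; the two radial equations of `h₊`, `h₋` are `Rad.ode`) and StKey give the formula: `QQ = TT + (2 A A' - 2∫ S A) + (2 B B' - 2 ∫ S B) + 4 ξ h₊(1) A'(1) + 2 ξ² h₊(1) h₊'(1) + 4 ζ h₋(1) B'(1) + 2 ζ² h₋(1) h₋'(1)`,
`2 ξ h₊(1) = y g(1)`, `h₊'(1) = dtn * h₊(1)`.  Bounds: StOA (third part) `|A'| ≤ r^{n-1} (..)`, `n ≥ 2`; `m < B/2 ≤ C0`, `0 < lam < B ≤ C0`, `|ξ|, |ζ| ≤ C0 e^{C0/2} e^{C0/4}` (StBk). -/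
def StQf : Prop := ∀ (C0 : ℝ) (n : ℕ), 0 < C0 → 2 ≤ n → ∃ C > (0 : ℝ), ∀ (B lam x y : ℝ) (m : ℕ), Sp B lam m → B ≤ C0 → |x| ≤ C0 → |y| ≤ C0 →
  ∃ ΨA ΨB : ℝ → ℝ, ContDiff ℝ 1 ΨA ∧ ContDiff ℝ 1 ΨB ∧
  Bdd C ((m : ℤ) + n) (radf ((m : ℤ) + n) ΨA) ∧ Bdd C ((m : ℤ) - n) (radf ((m : ℤ) - n) ΨB) ∧
  QQ B lam m n (gk B lam m) (radf ((m : ℤ) + n) ΨA) (radf ((m : ℤ) - n) ΨB)
    = gk B lam m 1 ^ 2 / 2 * (2 * (B / 2 - m) * (B / 2 + m)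
      + 2 * y * ((B / 2 - m) ^ 2 - lam - n * (B / 2 - m)) + 2 * x * ((B / 2 - m) ^ 2 - lam + n * (B / 2 - m))
      + y ^ 2 * dtn (fun k => FK B lam k) ((m : ℤ) + n) + x ^ 2 * dtn (fun k => FK B lam k) ((m : ℤ) - n))

/-- ITEM Neg (uniform negativity of the forms; uses StAL, StDJ, StSp3, StLc, RT.StUd, StSp2).  For every `B > 0`: `StSp2 B` gives `lam`, `m`, and `lam = lamN B disc` (`Sp.lb` and RT.StUd).  Put `lam₀ = lamN B₀ disc`.  For every `m ≤ B₀ + 1` and `n ∈ [2, N]` choose `x, y, κ`: if `dtn_m(B₀, lam₀) = 0`, StSp3 at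
`(B₀, lam₀, m)` (nonnegativity of all `dtn` from `Data` at `B₀`) and StAL give `x, y` with a negative form at `(B₀, lam₀)`, and by StDJ and StLc the form is `≤ -κ` for `B` near `B₀`, `lam = lamN B disc`.  If `dtn_m(B₀, lam₀) ≠ 0` then `dtn_m(B, lamN B disc) ≠ 0` for `B` near `B₀`, so `m` is not
the mode of StSp2.  Finitely many `m`, `n`: take the minimum of the `η`, `κ` and the maximum of `|x|, |y|`.  Last claim: `al_rec 0` of `Facts`: `0 ≤ al_1 (B/2 + m) = p (p + 1) - lam`, `lam ≥ lam₀/2` near `B₀` (StLc), so `p ≥ min 1 (lam₀/4)`. -/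
def StNeg : Prop := ∀ B₀ : ℝ, 0 < B₀ → (∃ p₀ > (0 : ℝ), ∃ η > (0 : ℝ), ∀ (B lam : ℝ) (m : ℕ), |B - B₀| < η → Sp B lam m →
    Facts (B / 2 - m) (B / 2 + m) lam m (fun k => dtn (fun n => FK B lam n) ((m : ℤ) - k)) (fun k => dtn (fun n => FK B lam n) ((m : ℤ) + k)) →
    p₀ ≤ B / 2 - m) ∧
  ∀ N : ℕ, ∃ η > (0 : ℝ), ∃ X > (0 : ℝ), ∃ κ > (0 : ℝ), ∀ (B lam : ℝ) (m : ℕ), |B - B₀| < η → Sp B lam m → Data B lam m (fun n => FK B lam n) →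
    ∀ n ∈ Finset.Icc 2 N, ∃ x y : ℝ, |x| ≤ X ∧ |y| ≤ X ∧
      2 * (B / 2 - m) * (B / 2 + m)
      + 2 * y * ((B / 2 - m) ^ 2 - lam - n * (B / 2 - m)) + 2 * x * ((B / 2 - m) ^ 2 - lam + n * (B / 2 - m))
      + y ^ 2 * dtn (fun k => FK B lam k) ((m : ℤ) + n) + x ^ 2 * dtn (fun k => FK B lam k) ((m : ℤ) - n) ≤ -κ

/-- ITEM OneU (captain; uses StSp2, StVir, StBk, StTTu, StQf, StNeg). -/
def StOneU : Prop := ∀ B₀ : ℝ, 0 < B₀ → ∃ η > (0 : ℝ), ∃ C0 > (0 : ℝ), ∃ κ > (0 : ℝ), ∃ N : ℕ, ∀ B : ℝ, 0 < B → |B - B₀| < η →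
  ∃ (lam : ℝ) (m : ℕ) (Ψ : ℝ → ℝ) (ΨA ΨB : ℕ → ℝ → ℝ), Dat C0 κ N B lam m Ψ ΨA ΨB ∧ lam ≤ lamN B disc

/-- the theorem for area `π`, constants locally uniform in the field -/
def StMUU : Prop := ∀ B₀ : ℝ, 0 < B₀ → ∃ η > (0 : ℝ), ∃ ε > (0 : ℝ), ∃ c > (0 : ℝ), ∀ B : ℝ, 0 < B → |B - B₀| < η →
  ∀ (Ω : Set ℂ) (F₁ : ℂ → ℂ), IsOpen Ω → IsSimplyConnected Ω →
  volume Ω = ENNReal.ofReal Real.pi → DifferentiableOn ℂ F₁ (Metric.ball 0 1) → MapsTo F₁ (Metric.ball 0 1) Ω → 1 - ε ≤ ‖deriv F₁ 0‖ →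
  ∃ q : ℂ, lamN B (toR Ω) ≤ lamN B disc - c * dft q 1 Ω ∧
    (lamN B (toR Ω) = lamN B disc → Ω = Metric.ball q 1)

end Pool.Agent.MFK.CD
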